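import Pool.Agent.Work.MP_c9f990_an.Al.Stmts
import Pool.Agent.Work.MP_c9f990_an.Al.St3

/-! Bundle of small proof modules (one section per former module). -/

section

set_option autoImplicit false

/-!
# MP_c9f990_an, item UE: uniform lower bound of time averages (Weyl)
-/

open MeasureTheory Set Filter Topology

namespace Pool.Agent.Work.MP_c9f990_an.Al

namespace I_UEX

open UnitAddTorus

variable {n : ℕ}

/-- the curve `t u / (2 pi)` on the torus -/
noncomputable def gam (u : Fin n → ℝ) (t : ℝ) : UnitAddTorus (Fin n) :=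
  fun k => ((t * u k / (2 * Real.pi) : ℝ) : UnitAddCircle)

theorem gam_cont (u : Fin n → ℝ) : Continuous (gam u) := by
  apply continuous_pi
  intro k
  exact (AddCircle.continuous_mk' 1).comp (by fun_prop)

theorem cont_comp (u : Fin n → ℝ) (f : C(UnitAddTorus (Fin n), ℂ)) (z : UnitAddTorus (Fin n)) :
    Continuous (fun t => f (z + gam u t)) :=
  f.continuous.comp (continuous_const.add (gam_cont u))

theorem mF_add (m : Fin n → ℤ) (z w : UnitAddTorus (Fin n)) :
    mFourier m (z + w) = mFourier m z * mFourier m w := by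
  simp only [mFourier, ContinuousMap.coe_mk, Pi.add_apply, fourier_apply, smul_add,
    AddCircle.toCircle_add, Circle.coe_mul, Finset.prod_mul_distrib]

theorem mF_gam (m : Fin n → ℤ) (u : Fin n → ℝ) (t : ℝ) :
    mFourier m (gam u t) =
      Complex.exp ((((∑ k, (m k : ℝ) * u k : ℝ) : ℂ) * Complex.I) * t) := by
  simp only [mFourier, ContinuousMap.coe_mk, gam]
  have h : ∀ k : Fin n, (fourier (m k) ((t * u k / (2 * Real.pi) : ℝ) : UnitAddCircle) : ℂ) =
      Complex.exp (((m k : ℝ) * u k : ℝ) * Complex.I * t) := by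
    intro k
    rw [fourier_coe_apply]
    congr 1
    have hpi : (Real.pi : ℂ) ≠ 0 := by exact_mod_cast Real.pi_ne_zero
    push_cast
    field_simp
  rw [Finset.prod_congr rfl (fun k _ => h k), ← Complex.exp_sum]
  congr 1
  push_cast
  rw [Finset.sum_mul, Finset.sum_mul]

/-- time averages do not depend on the starting point -/
def Pr (u : Fin n → ℝ) (f : C(UnitAddTorus (Fin n), ℂ)) : Prop :=
  ∀ ε : ℝ, 0 < ε → ∃ L₀ : ℝ, 0 ≤ L₀ ∧ ∀ L, L₀ ≤ L → ∀ z w : UnitAddTorus (Fin n),
    ‖(∫ t in (0 : ℝ)..L, f (z + gam u t)) - ∫ t in (0 : ℝ)..L, f (w + gam u t)‖ ≤ ε * L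

theorem Pr_F (u : Fin n → ℝ) (hu : ∀ m : Fin n → ℤ, m ≠ 0 → ∑ k, (m k : ℝ) * u k ≠ 0)
    (m : Fin n → ℤ) : Pr u (mFourier m) := by
  intro ε hε
  by_cases hm : m = 0
  · subst hm
    refine ⟨0, le_rfl, fun L hL z w => ?_⟩
    simp only [mFourier_zero, ContinuousMap.one_apply, sub_self, norm_zero]
    positivity
  · set ω : ℝ := ∑ k, (m k : ℝ) * u k with hω
    have hω0 : ω ≠ 0 := hu m hm
    have hωp : 0 < |ω| := abs_pos.2 hω0
    have hc : (ω : ℂ) * Complex.I ≠ 0 :=
      mul_ne_zero (by exact_mod_cast hω0) Complex.I_ne_zero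
    have key : ∀ (L : ℝ) (z : UnitAddTorus (Fin n)),
        ‖∫ t in (0 : ℝ)..L, mFourier m (z + gam u t)‖ ≤ 2 / |ω| := by
      intro L z
      have e : (fun t => mFourier m (z + gam u t)) =
          fun t : ℝ => mFourier m z * Complex.exp (((ω : ℂ) * Complex.I) * t) := by
        funext t
        rw [mF_add, mF_gam]
      rw [e, intervalIntegral.integral_const_mul, integral_exp_mul_complex hc, norm_mul,
        norm_div]
      have h1 : ‖mFourier m z‖ ≤ 1 := by
        have := (mFourier m).norm_coe_le_norm z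
        rwa [mFourier_norm] at this
      have h2 : ‖(ω : ℂ) * Complex.I‖ = |ω| := by
        rw [norm_mul, Complex.norm_I, mul_one, Complex.norm_real, Real.norm_eq_abs]
      have h3 : ∀ s : ℝ, ‖Complex.exp (((ω : ℂ) * Complex.I) * s)‖ = 1 := by
        intro s
        rw [show ((ω : ℂ) * Complex.I) * s = ((ω * s : ℝ) : ℂ) * Complex.I by push_cast; ring]
        exact Complex.norm_exp_ofReal_mul_I _
      have h4 : ‖Complex.exp (((ω : ℂ) * Complex.I) * (L : ℂ)) -
          Complex.exp (((ω : ℂ) * Complex.I) * ((0 : ℝ) : ℂ))‖ ≤ 2 := by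
        refine (norm_sub_le _ _).trans ?_
        rw [h3, h3]
        norm_num
      rw [h2]
      calc ‖mFourier m z‖ * (‖Complex.exp (((ω : ℂ) * Complex.I) * (L : ℂ)) -
            Complex.exp (((ω : ℂ) * Complex.I) * ((0 : ℝ) : ℂ))‖ / |ω|) ≤ 1 * (2 / |ω|) := by
            apply mul_le_mul h1 _ (by positivity) zero_le_one
            exact div_le_div_of_nonneg_right h4 hωp.le
        _ = 2 / |ω| := one_mul _
    refine ⟨4 / |ω| / ε, by positivity, fun L hL z w => ?_⟩
    refine (norm_sub_le _ _).trans ?_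
    have h5 : 4 / |ω| ≤ ε * L := by
      rw [div_le_iff₀ hε] at hL
      linarith
    have h6 : 4 / |ω| = 2 / |ω| + 2 / |ω| := by ring
    linarith [key L z, key L w]

theorem Pr_add (u : Fin n → ℝ) (f g : C(UnitAddTorus (Fin n), ℂ)) (hf : Pr u f) (hg : Pr u g) :
    Pr u (f + g) := by
  intro ε hε
  obtain ⟨L₁, h1, h2⟩ := hf (ε / 2) (by positivity)
  obtain ⟨L₂, h3, h4⟩ := hg (ε / 2) (by positivity)
  refine ⟨max L₁ L₂, h1.trans (le_max_left _ _), fun L hL z w => ?_⟩
  have h5 := h2 L ((le_max_left _ _).trans hL) z w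
  have h6 := h4 L ((le_max_right _ _).trans hL) z w
  have e : ∀ z : UnitAddTorus (Fin n), ∫ t in (0 : ℝ)..L, (f + g) (z + gam u t) =
      (∫ t in (0 : ℝ)..L, f (z + gam u t)) + ∫ t in (0 : ℝ)..L, g (z + gam u t) := by
    intro z
    simp only [ContinuousMap.add_apply]
    exact intervalIntegral.integral_add ((cont_comp u f z).intervalIntegrable _ _)
      ((cont_comp u g z).intervalIntegrable _ _)
  rw [e, e]
  calc ‖_‖ = ‖((∫ t in (0 : ℝ)..L, f (z + gam u t)) - ∫ t in (0 : ℝ)..L, f (w + gam u t)) +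
        ((∫ t in (0 : ℝ)..L, g (z + gam u t)) - ∫ t in (0 : ℝ)..L, g (w + gam u t))‖ := by
        congr 1
        ring
    _ ≤ ε / 2 * L + ε / 2 * L := (norm_add_le _ _).trans (add_le_add h5 h6)
    _ = ε * L := by ring

theorem Pr_smul (u : Fin n → ℝ) (c : ℂ) (f : C(UnitAddTorus (Fin n), ℂ)) (hf : Pr u f) :
    Pr u (c • f) := by
  intro ε hε
  obtain ⟨L₁, h1, h2⟩ := hf (ε / (‖c‖ + 1)) (by positivity)
  refine ⟨L₁, h1, fun L hL z w => ?_⟩
  have h5 := h2 L hL z w
  have hL0 : 0 ≤ L := h1.trans hL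
  have e : ∀ z : UnitAddTorus (Fin n), ∫ t in (0 : ℝ)..L, (c • f) (z + gam u t) =
      c * ∫ t in (0 : ℝ)..L, f (z + gam u t) := by
    intro z
    simp only [ContinuousMap.smul_apply, smul_eq_mul]
    exact intervalIntegral.integral_const_mul _ _
  rw [e, e, ← mul_sub, norm_mul]
  calc ‖c‖ * _ ≤ (‖c‖ + 1) * (ε / (‖c‖ + 1) * L) := by
        apply mul_le_mul (by linarith) h5 (norm_nonneg _) (by positivity)
    _ = ε * L := by
        field_simp

theorem Pr_zero (u : Fin n → ℝ) : Pr u (0 : C(UnitAddTorus (Fin n), ℂ)) := by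
  intro ε hε
  refine ⟨0, le_rfl, fun L hL z w => ?_⟩
  simp only [ContinuousMap.zero_apply, sub_self, norm_zero]
  positivity

theorem Pr_all (u : Fin n → ℝ) (hu : ∀ m : Fin n → ℤ, m ≠ 0 → ∑ k, (m k : ℝ) * u k ≠ 0)
    (f : C(UnitAddTorus (Fin n), ℂ)) : Pr u f := by
  intro ε hε
  have hd : f ∈ (Submodule.span ℂ (range <| mFourier (d := Fin n))).topologicalClosure := by
    rw [span_mFourier_closure_eq_top]
    trivial
  rw [← SetLike.mem_coe, Submodule.topologicalClosure_coe, Metric.mem_closure_iff] at hd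
  obtain ⟨g, hg, hfg⟩ := hd (ε / 4) (by positivity)
  have hPg : Pr u g := by
    refine Submodule.span_induction ?_ ?_ ?_ ?_ hg
    · rintro _ ⟨m, rfl⟩
      exact Pr_F u hu m
    · exact Pr_zero u
    · intro x y _ _ hx hy
      exact Pr_add u x y hx hy
    · intro c x _ hx
      exact Pr_smul u c x hx
  obtain ⟨L₁, h1, h2⟩ := hPg (ε / 2) (by positivity)
  refine ⟨L₁, h1, fun L hL z w => ?_⟩
  have hL0 : 0 ≤ L := h1.trans hL
  have h3 := h2 L hL z w
  have key : ∀ z : UnitAddTorus (Fin n),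
      ‖(∫ t in (0 : ℝ)..L, f (z + gam u t)) - ∫ t in (0 : ℝ)..L, g (z + gam u t)‖ ≤
        ε / 4 * L := by
    intro z
    rw [← intervalIntegral.integral_sub ((cont_comp u f z).intervalIntegrable _ _)
      ((cont_comp u g z).intervalIntegrable _ _)]
    have := intervalIntegral.norm_integral_le_of_norm_le_const (a := 0) (b := L) (C := ε / 4)
      (f := fun t => f (z + gam u t) - g (z + gam u t)) (by
        intro t _
        have h5 := ContinuousMap.dist_apply_le_dist (f := f) (g := g) (z + gam u t)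
        rw [← dist_eq_norm]
        exact h5.trans hfg.le)
    rwa [sub_zero, abs_of_nonneg hL0] at this
  have h4 := key z
  have h5 := key w
  rw [norm_sub_rev] at h5
  calc ‖(∫ t in (0 : ℝ)..L, f (z + gam u t)) - ∫ t in (0 : ℝ)..L, f (w + gam u t)‖
      = ‖((∫ t in (0 : ℝ)..L, f (z + gam u t)) - ∫ t in (0 : ℝ)..L, g (z + gam u t)) +
        ((∫ t in (0 : ℝ)..L, g (z + gam u t)) - ∫ t in (0 : ℝ)..L, g (w + gam u t)) +
        ((∫ t in (0 : ℝ)..L, g (w + gam u t)) - ∫ t in (0 : ℝ)..L, f (w + gam u t))‖ := by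
        congr 1
        ring
    _ ≤ ε / 4 * L + ε / 2 * L + ε / 4 * L :=
        (norm_add_le _ _).trans (add_le_add ((norm_add_le _ _).trans (add_le_add h4 h3)) h5)
    _ = ε * L := by ring

/-- the projection to the torus -/
noncomputable def pr (y : Fin n → ℝ) : UnitAddTorus (Fin n) := fun k => (y k : UnitAddCircle)

theorem pr_oq : IsOpenQuotientMap (pr : (Fin n → ℝ) → UnitAddTorus (Fin n)) :=
  IsOpenQuotientMap.piMap (fun _ => QuotientAddGroup.isOpenQuotientMap_mk)

theorem lift (Φ : E n → ℝ) (hΦ : Kernel Φ) : ∃ F : C(UnitAddTorus (Fin n), ℂ),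
    ∀ x : E n, F (pr (fun k => x k / (2 * Real.pi))) = (Φ x : ℂ) := by
  have hpi : (2 * Real.pi) ≠ 0 := by positivity
  let G : (Fin n → ℝ) → ℂ := fun y => (Φ (WithLp.toLp 2 (fun k => 2 * Real.pi * y k)) : ℂ)
  have hG : Continuous G := by
    have := hΦ.smooth.continuous
    apply Complex.continuous_ofReal.comp
    apply this.comp
    apply (PiLp.continuous_toLp 2 _).comp
    fun_prop
  have hper : ∀ y y' : Fin n → ℝ, pr y = pr y' → G y = G y' := by
    intro y y' h
    have h1 : ∀ k, ∃ m : ℤ, y k = y' k + m := by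
      intro k
      have h2 := congrFun h k
      simp only [pr] at h2
      rw [QuotientAddGroup.eq] at h2
      obtain ⟨m, hm⟩ := AddSubgroup.mem_zmultiples_iff.1 h2
      refine ⟨-m, ?_⟩
      simp only [zsmul_eq_mul, mul_one] at hm
      push_cast
      linarith
    choose m hm using h1
    simp only [G]
    have e : WithLp.toLp 2 (fun k => 2 * Real.pi * y k) =
        (WithLp.toLp 2 (fun k => 2 * Real.pi * y' k) : E n) + lat m := by
      ext k
      simp only [lat, PiLp.add_apply]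
      rw [hm k]
      ring
    rw [e, hΦ.per]
  have hs := (pr_oq (n := n)).surjective
  let F : UnitAddTorus (Fin n) → ℂ := fun z => G (Function.surjInv hs z)
  have hF : ∀ y, F (pr y) = G y := fun y => hper _ _ (Function.surjInv_eq hs _)
  have hFc : Continuous F := by
    rw [← (pr_oq (n := n)).continuous_comp_iff]
    have : F ∘ pr = G := funext hF
    rw [this]
    exact hG
  refine ⟨⟨F, hFc⟩, fun x => ?_⟩
  change F _ = _
  rw [hF]
  simp only [G]
  congr 2
  ext k
  simp only []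
  field_simp

end I_UEX

open I_UEX in
theorem I_UE : UE := by
  intro n Φ hΦ u hu
  have hu' : ∀ m : Fin n → ℤ, m ≠ 0 → ∑ k, (m k : ℝ) * u k ≠ 0 := by
    intro m hm h
    exact hu ⟨m, hm, h⟩
  obtain ⟨F, hF⟩ := lift Φ hΦ
  have hcont : Continuous Φ := hΦ.smooth.continuous
  -- the values of `F`
  have hs := (pr_oq (n := n)).surjective
  have hval : ∀ z, ∃ x : E n, z = pr (fun k => x k / (2 * Real.pi)) ∧ F z = (Φ x : ℂ) := by
    intro z
    obtain ⟨y, rfl⟩ := hs z
    refine ⟨WithLp.toLp 2 (fun k => 2 * Real.pi * y k), ?_, ?_⟩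
    · congr 1
      funext k
      have := Real.pi_ne_zero
      simp only []
      field_simp
    · rw [← hF]
      congr 2
      funext k
      have := Real.pi_ne_zero
      simp only []
      field_simp
  have hre : ∀ z, F z = ((F z).re : ℂ) := by
    intro z
    obtain ⟨x, _, h⟩ := hval z
    rw [h, Complex.ofReal_re]
  have hnn : ∀ z, 0 ≤ (F z).re := by
    intro z
    obtain ⟨x, _, h⟩ := hval z
    rw [h, Complex.ofReal_re]
    exact hΦ.nonneg x
  -- covering
  obtain ⟨δ, hδ⟩ : ∃ δ : ℝ, δ = Φ 0 / 2 := ⟨_, rfl⟩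
  have hδ0 : 0 < δ := by
    have := hΦ.pos
    rw [hδ]
    positivity
  have hFre : Continuous (fun z => (F z).re) := Complex.continuous_re.comp F.continuous
  have hopen : IsOpen {z | δ < (F z).re} := isOpen_lt continuous_const hFre
  obtain ⟨T, hT⟩ := compact_covered_by_add_left_translates (K := (univ : Set (UnitAddTorus (Fin n))))
    (V := {z | δ < (F z).re}) isCompact_univ (by
      rw [hopen.interior_eq]
      refine ⟨pr (fun k => (0 : E n) k / (2 * Real.pi)), ?_⟩
      rw [mem_ofPred_eq, hF, Complex.ofReal_re]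
      have := hΦ.pos
      linarith)
  have hcov : ∀ z, δ ≤ ∑ g ∈ T, (F (g + z)).re := by
    intro z
    have h1 := hT (mem_univ z)
    rw [mem_iUnion₂] at h1
    obtain ⟨g, hg, hgz⟩ := h1
    have h2 : δ < (F (g + z)).re := hgz
    have h3 := Finset.single_le_sum (f := fun g => (F (g + z)).re) (fun i _ => hnn (i + z)) hg
    exact h2.le.trans h3
  have hTne : 0 < (T.card : ℝ) := by
    have : T.Nonempty := by
      have h1 := hT (mem_univ (0 : UnitAddTorus (Fin n)))
      rw [mem_iUnion₂] at h1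
      obtain ⟨g, hg, _⟩ := h1
      exact ⟨g, hg⟩
    exact_mod_cast this.card_pos
  obtain ⟨L₀, hL₀, hPr⟩ := Pr_all u hu' F (δ / (2 * T.card)) (div_pos hδ0 (mul_pos two_pos hTne))
  -- real integrals
  have hcomp : ∀ z : UnitAddTorus (Fin n), Continuous (fun t => (F (z + gam u t)).re) :=
    fun z => Complex.continuous_re.comp (cont_comp u F z)
  set L : ℝ := L₀ + 1 with hL
  have hL0 : 0 < L := by linarith
  have hint : ∀ z : UnitAddTorus (Fin n), ∫ t in (0 : ℝ)..L, F (z + gam u t) =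
      ((∫ t in (0 : ℝ)..L, (F (z + gam u t)).re : ℝ) : ℂ) := by
    intro z
    rw [← intervalIntegral.integral_ofReal]
    apply intervalIntegral.integral_congr
    intro t _
    exact hre _
  have hdiff : ∀ z w : UnitAddTorus (Fin n), (∫ t in (0 : ℝ)..L, (F (z + gam u t)).re) -
      ∫ t in (0 : ℝ)..L, (F (w + gam u t)).re ≤ δ / (2 * T.card) * L := by
    intro z w
    have h1 := hPr L (by linarith) z w
    rw [hint, hint, ← Complex.ofReal_sub, Complex.norm_real, Real.norm_eq_abs] at h1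
    exact (le_abs_self _).trans h1
  have hlow : ∀ z : UnitAddTorus (Fin n), δ / (2 * T.card) * L ≤
      ∫ t in (0 : ℝ)..L, (F (z + gam u t)).re := by
    intro z
    have h1 : δ * L ≤ ∑ g ∈ T, ∫ t in (0 : ℝ)..L, (F ((g + z) + gam u t)).re := by
      rw [← intervalIntegral.integral_finsetSum
        (fun g _ => (hcomp (g + z)).intervalIntegrable _ _)]
      have h2 : ∫ _t in (0 : ℝ)..L, δ ≤
          ∫ t in (0 : ℝ)..L, ∑ g ∈ T, (F ((g + z) + gam u t)).re := by
        apply intervalIntegral.integral_mono_on hL0.le (by simp)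
        · exact (continuous_finsetSum _ (fun g _ => hcomp (g + z))).intervalIntegrable _ _
        · intro t _
          have := hcov (z + gam u t)
          simpa only [add_assoc] using this
      rw [intervalIntegral.integral_const, sub_zero, smul_eq_mul] at h2
      linarith
    have h3 : ∑ g ∈ T, ∫ t in (0 : ℝ)..L, (F ((g + z) + gam u t)).re ≤
        T.card * ((∫ t in (0 : ℝ)..L, (F (z + gam u t)).re) + δ / (2 * T.card) * L) := by
      have := Finset.sum_le_card_nsmul T
        (fun g => ∫ t in (0 : ℝ)..L, (F ((g + z) + gam u t)).re)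
        ((∫ t in (0 : ℝ)..L, (F (z + gam u t)).re) + δ / (2 * T.card) * L) (fun g _ => by
          have := hdiff (g + z) z
          linarith)
      rwa [nsmul_eq_mul] at this
    have h4 : (T.card : ℝ) * (δ / (2 * T.card) * L) = δ * L / 2 := by
      clear_value L
      have hTne' : (T.card : ℝ) ≠ 0 := hTne.ne'
      generalize (T.card : ℝ) = c at hTne'
      field_simp
    have h5 : (T.card : ℝ) * (δ / (2 * T.card) * L) ≤
        T.card * ∫ t in (0 : ℝ)..L, (F (z + gam u t)).re := by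
      rw [mul_add] at h3
      linarith
    exact le_of_mul_le_mul_left h5 hTne
  refine ⟨L, δ / (2 * T.card) * L, hL0, mul_pos (div_pos hδ0 (mul_pos two_pos hTne)) hL0,
    fun x => ?_⟩
  have h1 := hlow (pr (fun k => x k / (2 * Real.pi)))
  refine h1.trans (le_of_eq ?_)
  apply intervalIntegral.integral_congr
  intro t _
  have e : pr (fun k => x k / (2 * Real.pi)) + gam u t =
      pr (fun k => (x + t • u) k / (2 * Real.pi)) := by
    funext k
    simp only [pr, gam, Pi.add_apply, PiLp.add_apply, PiLp.smul_apply, smul_eq_mul]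
    rw [← AddCircle.coe_add, add_div]
  simp only []
  rw [e, hF, Complex.ofReal_re]

end Pool.Agent.Work.MP_c9f990_an.Al

end

section

set_option autoImplicit false

/-!
# MP_c9f990_an: assembly of block AL
-/

open MeasureTheory Set Filter Topology
open scoped NNReal ENNReal

namespace Pool.Agent.Work.MP_c9f990_an.Al

variable {N n : ℕ}

/-- what is proved about the limit velocities -/
def Few (c : C N n) : Prop :=
  (∀ i j, c i = c j) ∨ (Set.range c).ncard + 2 ≤ N ∨
    ((Set.range c).ncard + 1 = N ∧ ¬ Collinear ℝ (Set.range c))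

/-- a kernel is symmetric in the two agents -/
lemma sym (Φ : E n → ℝ) (hΦ : Kernel Φ) (a b : E n) : Φ (a - b) = Φ (b - a) := by
  rw [← hΦ.even (b - a), neg_sub]

lemma total_eq (Φ : E n → ℝ) (hΦ : Kernel Φ) (i j : Fin N) (hij : i ≠ j) (z : P N n) :
    total Φ z = bond Φ i j z + rest Φ i j z := by
  classical
  unfold total bond rest
  have h : ∀ a b : Fin N, (if a = b then (0 : ℝ) else Φ (z.1 a - z.1 b)) =
      ((if a = i then (if b = j then Φ (z.1 i - z.1 j) else 0) else 0) +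
        (if a = j then (if b = i then Φ (z.1 i - z.1 j) else 0) else 0)) +
      (if a = b ∨ (a = i ∧ b = j) ∨ (a = j ∧ b = i) then 0 else Φ (z.1 a - z.1 b)) := by
    intro a b
    by_cases h1 : a = b
    · subst h1
      by_cases h2 : a = i
      · subst h2
        simp [hij]
      · by_cases h3 : a = j
        · subst h3
          simp [h2]
        · simp [h2, h3]
    · by_cases h2 : a = i ∧ b = j
      · obtain ⟨rfl, rfl⟩ := h2
        simp [h1]
      · by_cases h3 : a = j ∧ b = i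
        · obtain ⟨rfl, rfl⟩ := h3
          simp [h1, sym Φ hΦ (z.1 a) (z.1 b)]
        · have e1 : (if a = i then (if b = j then Φ (z.1 i - z.1 j) else 0) else 0) = 0 := by
            by_cases h4 : a = i
            · have h5 : b ≠ j := fun h => h2 ⟨h4, h⟩
              simp [h5]
            · simp [h4]
          have e2 : (if a = j then (if b = i then Φ (z.1 i - z.1 j) else 0) else 0) = 0 := by
            by_cases h4 : a = j
            · have h5 : b ≠ i := fun h => h3 ⟨h4, h⟩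
              simp [h5]
            · simp [h4]
          rw [e1, e2]
          simp [h1, h2, h3]
  simp_rw [h, Finset.sum_add_distrib]
  simp only [Finset.sum_ite_eq', Finset.mem_univ, if_true, Finset.sum_ite_irrel,
    Finset.sum_const_zero]
  ring

lemma inj_of_card (c : C N n) (h : ¬ (Set.range c).ncard + 2 ≤ N)
    (h' : (Set.range c).ncard + 1 ≠ N) : Function.Injective c := by
  have h1 : (c '' Set.univ).ncard ≤ (Set.univ : Set (Fin N)).ncard :=
    Set.ncard_image_le (Set.toFinite _)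
  rw [Set.image_univ, Set.ncard_univ, Nat.card_eq_fintype_card, Fintype.card_fin] at h1
  have h2 : (c '' Set.univ).ncard = (Set.univ : Set (Fin N)).ncard := by
    rw [Set.image_univ, Set.ncard_univ, Nat.card_eq_fintype_card, Fintype.card_fin]
    omega
  have h3 := (Set.ncard_image_iff (Set.toFinite _)).1 h2
  exact Set.injOn_univ.1 h3

lemma one_pair (c : C N n) (h : (Set.range c).ncard + 1 = N) :
    ∃ i j, i ≠ j ∧ c i = c j ∧
      ∀ a b, a ≠ b → ¬ (a = i ∧ b = j) → ¬ (a = j ∧ b = i) → c a ≠ c b := by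
  classical
  have hn : ¬ Function.Injective c := by
    intro hinj
    have h1 : (c '' Set.univ).ncard = (Set.univ : Set (Fin N)).ncard :=
      (Set.ncard_image_iff (Set.toFinite _)).2 (Set.injOn_univ.2 hinj)
    rw [Set.image_univ, Set.ncard_univ, Nat.card_eq_fintype_card, Fintype.card_fin] at h1
    omega
  unfold Function.Injective at hn
  push Not at hn
  obtain ⟨i, j, hc, hij⟩ := hn
  refine ⟨i, j, hij, hc, ?_⟩
  have himg : c '' (Set.univ \ {j}) = Set.range c := by
    apply Set.Subset.antisymm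
    · rintro _ ⟨a, _, rfl⟩
      exact ⟨a, rfl⟩
    · rintro _ ⟨a, rfl⟩
      by_cases ha : a = j
      · exact ⟨i, ⟨Set.mem_univ _, hij⟩, by rw [ha, hc]⟩
      · exact ⟨a, ⟨Set.mem_univ _, ha⟩, rfl⟩
  have hcard : (Set.univ \ {j} : Set (Fin N)).ncard + 1 = N := by
    have := Set.ncard_sdiff_singleton_add_one (Set.mem_univ j) (Set.toFinite _)
    rw [Set.ncard_univ, Nat.card_eq_fintype_card, Fintype.card_fin] at this
    exact this
  have hinj : Set.InjOn c (Set.univ \ {j}) := by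
    apply (Set.ncard_image_iff (Set.toFinite _)).1
    rw [himg]
    omega
  intro a b hab h1 h2 hcab
  by_cases ha : a = j
  · have hbi : b ≠ i := fun hb => h2 ⟨ha, hb⟩
    have hbj : b ≠ j := fun hb => hab (ha.trans hb.symm)
    have hcib : c i = c b := by rw [hc, ← ha, hcab]
    exact hbi (hinj ⟨Set.mem_univ _, hij⟩ ⟨Set.mem_univ _, hbj⟩ hcib).symm
  · by_cases hb : b = j
    · have hai : a ≠ i := fun h => h1 ⟨h, hb⟩
      have hcia : c i = c a := by rw [hc, ← hb, hcab]
      exact hai (hinj ⟨Set.mem_univ _, hij⟩ ⟨Set.mem_univ _, ha⟩ hcia).symm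
    · exact hab (hinj ⟨Set.mem_univ _, ha⟩ ⟨Set.mem_univ _, hb⟩ hcab)

/-- an integral vector as an element of the Euclidean space -/
noncomputable def intV {n : ℕ} (m : Fin n → ℤ) : E n := WithLp.toLp 2 (fun k => (m k : ℝ))

lemma intV_ne {m : Fin n → ℤ} (hm : m ≠ 0) : intV m ≠ 0 := by
  intro h
  apply hm
  funext k
  have h1 : (intV m) k = (0 : E n) k := by rw [h]
  simpa [intV] using h1

lemma inner_intV (m : Fin n → ℤ) (u : E n) : inner ℝ (intV m) u = ∑ k, (m k : ℝ) * u k := by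
  simp [intV, PiLp.inner_apply, mul_comm]

lemma bddInt_sum {ι : Type} (s : Finset ι) (g : ι → ℝ → ℝ) (hc : ∀ i ∈ s, Continuous (g i))
    (hb : ∀ i ∈ s, BddInt (g i)) : BddInt (fun t => ∑ i ∈ s, g i t) := by
  classical
  choose! A hA using hb
  refine ⟨∑ i ∈ s, A i, ?_⟩
  intro T hT
  rw [intervalIntegral.integral_finsetSum]
  · exact Finset.sum_le_sum fun i hi => hA i hi T hT
  · intro i hi
    exact (hc i hi).intervalIntegrable _ _

lemma bddInt_mul (r : ℝ) (hr : 0 ≤ r) (g : ℝ → ℝ) (hb : BddInt g) : BddInt (fun t => r * g t) := by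
  obtain ⟨A, hA⟩ := hb
  refine ⟨r * A, ?_⟩
  intro T hT
  rw [intervalIntegral.integral_const_mul]
  exact mul_le_mul_of_nonneg_left (hA T hT) hr

lemma bddInt_zero : BddInt (fun _ => (0 : ℝ)) := ⟨0, fun T _ => by simp⟩

lemma cont_pair {Φ : E n → ℝ} (hΦ : Kernel Φ) {y : ℝ → P N n} (hy : Continuous y) (a b : Fin N) :
    Continuous (fun t => Φ ((y t).1 a - (y t).1 b)) := by
  have h1 : Continuous (fun t => (y t).1 a - (y t).1 b) := by fun_prop
  exact hΦ.smooth.continuous.comp h1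

lemma bddInt_rest {Φ : E n → ℝ} (hΦ : Kernel Φ) {y : ℝ → P N n} (hy : Continuous y) (i j : Fin N)
    (h : ∀ a b, a ≠ b → ¬ (a = i ∧ b = j) → ¬ (a = j ∧ b = i) →
      BddInt (fun t => Φ ((y t).1 a - (y t).1 b))) : BddInt (fun t => rest Φ i j (y t)) := by
  unfold rest
  apply bddInt_mul _ (by positivity)
  have hc : ∀ a b : Fin N, Continuous (fun t => if a = b ∨ (a = i ∧ b = j) ∨ (a = j ∧ b = i)
      then (0 : ℝ) else Φ ((y t).1 a - (y t).1 b)) := by
    intro a b
    split_ifs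
    · exact continuous_const
    · exact cont_pair hΦ hy a b
  apply bddInt_sum
  · intro a _
    exact continuous_finsetSum _ fun b _ => hc a b
  · intro a _
    apply bddInt_sum
    · intro b _
      exact hc a b
    · intro b _
      by_cases hab : a = b ∨ (a = i ∧ b = j) ∨ (a = j ∧ b = i)
      · simpa only [hab, if_true] using bddInt_zero
      · simp only [hab, if_false]
        push Not at hab
        exact h a b hab.1 (fun h => hab.2.1 h.1 h.2) (fun h => hab.2.2 h.1 h.2)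

lemma bddInt_total {Φ : E n → ℝ} (hΦ : Kernel Φ) {y : ℝ → P N n} (hy : Continuous y)
    (h : ∀ a b, a ≠ b → BddInt (fun t => Φ ((y t).1 a - (y t).1 b))) :
    BddInt (fun t => total Φ (y t)) := by
  unfold total
  apply bddInt_mul _ (by positivity)
  have hc : ∀ a b : Fin N, Continuous (fun t => if a = b
      then (0 : ℝ) else Φ ((y t).1 a - (y t).1 b)) := by
    intro a b
    split_ifs
    · exact continuous_const
    · exact cont_pair hΦ hy a b
  apply bddInt_sum
  · intro a _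
    exact continuous_finsetSum _ fun b _ => hc a b
  · intro a _
    apply bddInt_sum
    · intro b _
      exact hc a b
    · intro b _
      by_cases hab : a = b
      · simpa only [hab, if_true] using bddInt_zero
      · simp only [hab, if_false]
        exact h a b hab

/-- along a good orbit the velocities converge and the limits are as claimed -/
theorem core (hRep : REP) (hDet : DET) (hConv : CONV) (hInt : INTG) (hReso : RESO) (hEst : EST)
    (hTube : TUBE) (Φ : E n → ℝ) (hΦ : Kernel Φ) (R : ℝ) (φ : ℝ → P N n → P N n)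
    (M : ℝ → P N n → P N n →L[ℝ] P N n) (hφ : IsFlow (fld Φ R) φ M) (z : P N n)
    (hz : ke z.2 ≤ R)
    (h1 : ∀ (q : ℕ) (i j : Fin N) (m : Fin n → ℤ), i ≠ j → m ≠ 0 →
      z ∉ Bad1 φ M R (1 / ((q : ℝ) + 1)) i j (intV m))
    (h2 : ∀ (i j k : Fin N) (m : Fin n → ℤ), i ≠ j → i ≠ k → j ≠ k → m ≠ 0 →
      z ∉ Bad2 Φ φ R i j k (intV m)) :
    ∃ c : C N n, (∀ i, Tendsto (fun t => (φ t z).2 i) atTop (𝓝 (c i))) ∧ Few c := by
  classical
  obtain ⟨hke, hfl⟩ := (hRep n N Φ R hΦ φ M hφ).1 z hz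
  obtain ⟨c, hc⟩ := hConv n N Φ hΦ _ _ hfl
  refine ⟨c, hc, ?_⟩
  have hy : Continuous (fun t => φ t z) := hφ.cont.comp (Continuous.prodMk continuous_id continuous_const)
  -- the difference of two velocities
  have hdiff : ∀ (e : E n) (a b : Fin N), inner ℝ e (c a - c b) = (0 : ℝ) →
      Tendsto (fun t => inner ℝ e ((φ t z).2 a - (φ t z).2 b)) atTop (𝓝 (0 : ℝ)) := by
    intro e a b h
    have h3 := (hc a).sub (hc b)
    have h4 : Tendsto (fun t => inner ℝ e ((φ t z).2 a - (φ t z).2 b)) atTop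
        (𝓝 (inner ℝ e (c a - c b))) :=
      ((continuous_const.inner continuous_id).tendsto (c a - c b)).comp h3
    rwa [h] at h4
  -- resonance
  have hres : ∀ a b : Fin N, BddInt (fun t => Φ ((φ t z).1 a - (φ t z).1 b)) →
      Resonant (c a - c b) := by
    intro a b hb
    refine hReso n Φ hΦ (fun t => (φ t z).1 a - (φ t z).1 b)
      (fun t => (φ t z).2 a - (φ t z).2 b) (c a - c b) ?_ ((hc a).sub (hc b)) hb
    intro t ht
    have h3 := (hfl t ht).1
    rw [hasDerivWithinAt_pi] at h3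
    exact (h3 a).sub (h3 b)
  -- determinant
  have hdetb : BddInt (fun t => total Φ (φ t z)) → ∃ q : ℕ, ∀ t, 0 ≤ t →
      1 / ((q : ℝ) + 1) ≤ |(M t z).det| := by
    rintro ⟨A, hA⟩
    obtain ⟨q, hq⟩ := exists_nat_one_div_lt (Real.exp_pos (-(n : ℝ) * A))
    refine ⟨q, fun t ht => ?_⟩
    rw [hDet n N Φ R hΦ φ M hφ z hz t ht, Real.abs_exp]
    refine hq.le.trans (Real.exp_le_exp.2 ?_)
    have h3 := hA t ht
    have h4 : (0 : ℝ) ≤ n := Nat.cast_nonneg n
    nlinarith [mul_le_mul_of_nonneg_left h3 h4]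
  by_cases hall : ∀ i j, c i = c j
  · exact Or.inl hall
  push Not at hall
  obtain ⟨a₀, b₀, hab₀⟩ := hall
  have hn : (0 : ℕ) < n := by
    rcases Nat.eq_zero_or_pos n with h0 | h0
    · subst h0
      exact absurd (Subsingleton.elim _ _) hab₀
    · exact h0
  by_cases hs2 : (Set.range c).ncard + 2 ≤ N
  · exact Or.inr (Or.inl hs2)
  by_cases hs1 : (Set.range c).ncard + 1 = N
  · -- exactly one coincidence
    by_cases hcol : Collinear ℝ (Set.range c)
    swap
    · exact Or.inr (Or.inr ⟨hs1, hcol⟩)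
    exfalso
    obtain ⟨i, j, hij, hcij, hoth⟩ := one_pair c hs1
    have hrest : BddInt (fun t => rest Φ i j (φ t z)) := by
      apply bddInt_rest hΦ hy
      intro a b hab h3 h4
      exact hInt n N Φ hΦ _ _ hfl c hc a b (hoth a b hab h3 h4)
    by_cases hbond : BddInt (fun t => bond Φ i j (φ t z))
    · -- everything is integrable
      have htot : BddInt (fun t => total Φ (φ t z)) := by
        have h3 : (fun t => total Φ (φ t z)) =
            fun t => bond Φ i j (φ t z) + rest Φ i j (φ t z) := by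
          funext t
          exact total_eq Φ hΦ i j hij (φ t z)
        rw [h3]
        obtain ⟨A, hA⟩ := hbond
        obtain ⟨A', hA'⟩ := hrest
        refine ⟨A + A', fun T hT => ?_⟩
        rw [intervalIntegral.integral_add]
        · exact add_le_add (hA T hT) (hA' T hT)
        · apply Continuous.intervalIntegrable
          unfold bond
          exact continuous_const.mul (cont_pair hΦ hy i j)
        · apply Continuous.intervalIntegrable
          unfold rest
          refine continuous_const.mul (continuous_finsetSum _ fun a _ =>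
            continuous_finsetSum _ fun b _ => ?_)
          split_ifs
          · exact continuous_const
          · exact cont_pair hΦ hy a b
      obtain ⟨q, hq⟩ := hdetb htot
      have hm : (fun _ : Fin n => (1 : ℤ)) ≠ 0 := by
        intro h
        exact one_ne_zero (congrFun h ⟨0, hn⟩)
      refine h1 q i j _ hij hm ⟨fun t ht => ⟨hke t ht, hq t ht⟩, ?_⟩
      apply hdiff
      rw [hcij, sub_self, inner_zero_right]
    · -- the bond is not integrable
      have hk : ∃ k, c k ≠ c j := by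
        by_contra hk
        push Not at hk
        exact hab₀ ((hk a₀).trans (hk b₀).symm)
      obtain ⟨k, hk⟩ := hk
      have hjk : j ≠ k := fun h => hk (by rw [h])
      have hik : i ≠ k := fun h => hk (by rw [← h, hcij])
      have hkj : BddInt (fun t => Φ ((φ t z).1 k - (φ t z).1 j)) :=
        hInt n N Φ hΦ _ _ hfl c hc k j hk
      obtain ⟨m, hm0, hm⟩ := hres k j hkj
      rw [← inner_intV] at hm
      have hcol' : ∀ l, ∃ r : ℝ, c l - c j = r • (c k - c j) := by
        rw [collinear_iff_of_mem (p₀ := c j) (Set.mem_range_self j)] at hcol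
        obtain ⟨w, hw⟩ := hcol
        obtain ⟨rk, hrk⟩ := hw (c k) ⟨k, rfl⟩
        intro l
        obtain ⟨rl, hrl⟩ := hw (c l) ⟨l, rfl⟩
        simp only [vadd_eq_add] at hrk hrl
        have hrk0 : rk ≠ 0 := by
          intro h
          apply hk
          rw [hrk, h, zero_smul, zero_add]
        refine ⟨rl / rk, ?_⟩
        rw [hrk, hrl, add_sub_cancel_right, add_sub_cancel_right, smul_smul,
          div_mul_cancel₀ _ hrk0]
      obtain ⟨A, T₀, hA0, hA⟩ := hTube n N (fun t => (φ t z).2) c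
        (fun t => Real.exp (-clock Φ i j (fun s => φ s z) t)) i j k (intV m) hc hcij hk hm
        (fun t => (Real.exp_pos _).le) (by
          intro e he
          refine hEst n N Φ hΦ _ _ hfl c hc i j hij hrest e ?_
          intro l l'
          obtain ⟨r, hr⟩ := hcol' l
          obtain ⟨r', hr'⟩ := hcol' l'
          have h3 : inner ℝ e (c l - c j) = (0 : ℝ) := by rw [hr, inner_smul_right, he, mul_zero]
          have h4 : inner ℝ e (c l' - c j) = (0 : ℝ) := by
            rw [hr', inner_smul_right, he, mul_zero]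
          rw [inner_sub_right] at h3 h4
          linarith)
      refine h2 i j k m hij hik hjk hm0 ⟨hz, hrest, hbond, ?_, A, T₀, hA0, hA⟩
      have h3 := (hc i).sub (hc j)
      rwa [hcij, sub_self] at h3
  · -- all limits are different
    exfalso
    have hinj := inj_of_card c hs2 hs1
    have hne : ∀ a b, a ≠ b → c a ≠ c b := fun a b hab h => hab (hinj h)
    have htot : BddInt (fun t => total Φ (φ t z)) := by
      apply bddInt_total hΦ hy
      intro a b hab
      exact hInt n N Φ hΦ _ _ hfl c hc a b (hne a b hab)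
    obtain ⟨q, hq⟩ := hdetb htot
    have hab : a₀ ≠ b₀ := fun h => hab₀ (by rw [h])
    obtain ⟨m, hm0, hm⟩ := hres a₀ b₀ (hInt n N Φ hΦ _ _ hfl c hc a₀ b₀ hab₀)
    rw [← inner_intV] at hm
    exact h1 q a₀ b₀ m hab hm0 ⟨fun t ht => ⟨hke t ht, hq t ht⟩, hdiff _ _ _ hm⟩

/-- the general theorem -/
theorem general (hFlow : FLOW) (hFld : FLD) (hRep : REP) (hDet : DET) (hN1 : NUL1) (hN2 : NUL2)
    (hConv : CONV) (hInt : INTG) (hReso : RESO) (hEst : EST) (hTube : TUBE) (n N : ℕ)
    (Φ : E n → ℝ) (hΦ : Kernel Φ) :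
    ∀ᵐ z : P N n, ∀ x v : ℝ → C N n, IsFlock Φ x v → (x 0, v 0) = z →
      ∃ c : C N n, (∀ i, Tendsto (fun t => v t i) atTop (𝓝 (c i))) ∧ Few c := by
  have hfl : ∀ R : ℕ, ∃ (φ : ℝ → P N n → P N n) (M : ℝ → P N n → P N n →L[ℝ] P N n),
      IsFlow (fld Φ (R : ℝ)) φ M := by
    intro R
    obtain ⟨hC, L, hL⟩ := hFld n N Φ R hΦ
    exact hFlow _ _ L hL hC
  choose φ M hφ using hfl
  have hae : ∀ᵐ z : P N n, ∀ R : ℕ,
      (∀ (q : ℕ) (i j : Fin N) (m : Fin n → ℤ), i ≠ j → m ≠ 0 →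
        z ∉ Bad1 (φ R) (M R) R (1 / ((q : ℝ) + 1)) i j (intV m)) ∧
      (∀ (i j k : Fin N) (m : Fin n → ℤ), i ≠ j → i ≠ k → j ≠ k → m ≠ 0 →
        z ∉ Bad2 Φ (φ R) R i j k (intV m)) := by
    rw [ae_all_iff]
    intro R
    rw [eventually_and]
    constructor
    · simp only [ae_all_iff]
      intro q i j m hij hm
      have h3 := hN1 n N Φ R hΦ (φ R) (M R) (hφ R) i j (intV m) (1 / ((q : ℝ) + 1)) hij
        (intV_ne hm) (by positivity)
      exact measure_eq_zero_iff_ae_notMem.1 h3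
    · simp only [ae_all_iff]
      intro i j k m hij hik hjk hm
      have h3 := hN2 n N Φ R hΦ (φ R) (M R) (hφ R) i j k (intV m) hij hik hjk (intV_ne hm)
      exact measure_eq_zero_iff_ae_notMem.1 h3
  filter_upwards [hae] with z hz
  intro x v hxv h0
  obtain ⟨R, hR⟩ := exists_nat_ge (ke z.2)
  have hv0 : v 0 = z.2 := by rw [← h0]
  obtain ⟨c, hc, hfew⟩ := core hRep hDet hConv hInt hReso hEst hTube Φ hΦ R (φ R) (M R) (hφ R)
    z hR (hz R).1 (hz R).2
  refine ⟨c, ?_, hfew⟩
  intro i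
  refine (hc i).congr' ?_
  filter_upwards [eventually_ge_atTop (0 : ℝ)] with t ht
  have h3 := (hRep n N Φ R hΦ (φ R) (M R) (hφ R)).2 x v hxv (by rw [hv0]; exact hR) t ht
  rw [← h0, ← h3]

/-- for at most three agents `Few` means that all velocities agree -/
theorem few_three (hN : N ≤ 3) (c : C N n) (h : Few c) : ∀ i j, c i = c j := by
  rcases h with h | h | ⟨h, h'⟩
  · exact h
  · intro i j
    have h1 : (Set.range c).ncard ≤ 1 := by omega
    exact (Set.ncard_le_one (Set.finite_range c)).1 h1 (c i) (Set.mem_range_self i) (c j)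
      (Set.mem_range_self j)
  · exfalso
    apply h'
    have h1 : (Set.range c).ncard ≤ 2 := by omega
    have h2 := Set.Finite.cast_ncard_eq (Set.finite_range c)
    interval_cases hk : (Set.range c).ncard
    · rw [Set.ncard_eq_zero (Set.finite_range c)] at hk
      rw [hk]
      exact collinear_empty ℝ _
    · rw [Set.ncard_eq_one] at hk
      obtain ⟨a, ha⟩ := hk
      rw [ha]
      exact collinear_singleton ℝ a
    · rw [Set.ncard_eq_two] at hk
      obtain ⟨a, b, _, hab⟩ := hk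
      rw [hab]
      exact collinear_pair ℝ a b

end Pool.Agent.Work.MP_c9f990_an.Al

end

section

set_option autoImplicit false

/-!
# MP_c9f990_an: the second exceptional set is null
-/

open MeasureTheory Set Filter Topology
open scoped NNReal ENNReal

namespace Pool.Agent.Work.MP_c9f990_an.Al

namespace I_NUL2X

variable {N n : ℕ}

theorem haarP : (volume : Measure (P N n)).IsAddHaarMeasure :=
  Measure.prod.instIsAddHaarMeasure (volume : Measure (C N n)) (volume : Measure (C N n))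

theorem cont_ke : Continuous (fun z : P N n => ke z.2) := by
  unfold ke
  fun_prop

theorem add_snd (z : P N n) (m : Fin N → Fin n → ℤ) :
    (z + ((latC m : C N n), (0 : C N n))).2 = z.2 := by
  rw [Prod.snd_add, add_zero]

theorem cover (z : P N n) : ∃ m : Fin N → Fin n → ℤ, z + (latC m, 0) ∈ slab N n := by
  refine ⟨fun i k => -⌊z.1 i k / (2 * Real.pi)⌋, ?_⟩
  intro i k
  have hpi : 0 < 2 * Real.pi := by positivity
  have h1 : (z + ((latC (fun i k => -⌊z.1 i k / (2 * Real.pi)⌋) : C N n), (0 : C N n))).1 i k =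
      z.1 i k + 2 * Real.pi * ((-⌊z.1 i k / (2 * Real.pi)⌋ : ℤ) : ℝ) := rfl
  rw [h1, Int.cast_neg]
  have h2 := Int.floor_le (z.1 i k / (2 * Real.pi))
  have h3 := Int.lt_floor_add_one (z.1 i k / (2 * Real.pi))
  rw [le_div_iff₀ hpi] at h2
  rw [div_lt_iff₀ hpi] at h3
  constructor
  · linarith
  · linarith

theorem meas_slab : MeasurableSet (slab N n) := by
  have h1 : slab N n =
      ⋂ i : Fin N, ⋂ k : Fin n, ({z | 0 ≤ z.1 i k} ∩ {z | z.1 i k < 2 * Real.pi}) := by
    ext z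
    simp [slab]
  rw [h1]
  refine MeasurableSet.iInter fun i => MeasurableSet.iInter fun k => ?_
  have hc : Continuous fun z : P N n => z.1 i k := by fun_prop
  exact (isClosed_le continuous_const hc).measurableSet.inter
    (isOpen_lt hc continuous_const).measurableSet

/-- lattice translations do not change the interaction of a pair -/
theorem pair_inv {Φ : E n → ℝ} (hΦ : Kernel Φ) (m : Fin N → Fin n → ℤ) (z : P N n)
    (a b : Fin N) :
    Φ ((z + ((latC m : C N n), (0 : C N n))).1 a - (z + ((latC m : C N n), (0 : C N n))).1 b) =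
      Φ (z.1 a - z.1 b) := by
  have h : (z + ((latC m : C N n), (0 : C N n))).1 a -
      (z + ((latC m : C N n), (0 : C N n))).1 b = (z.1 a - z.1 b) + lat (m a - m b) := by
    apply (WithLp.equiv 2 (Fin n → ℝ)).injective
    funext k
    simp [latC, lat]
    ring
  rw [h, hΦ.per]

theorem bond_inv {Φ : E n → ℝ} (hΦ : Kernel Φ) (i j : Fin N) (m : Fin N → Fin n → ℤ)
    (z : P N n) : bond Φ i j (z + (latC m, 0)) = bond Φ i j z := by
  unfold bond
  rw [pair_inv hΦ]

theorem rest_inv {Φ : E n → ℝ} (hΦ : Kernel Φ) (i j : Fin N) (m : Fin N → Fin n → ℤ)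
    (z : P N n) : rest Φ i j (z + (latC m, 0)) = rest Φ i j z := by
  unfold rest
  congr 1
  refine Finset.sum_congr rfl fun a _ => Finset.sum_congr rfl fun b _ => ?_
  rw [pair_inv hΦ]

theorem bond_nonneg {Φ : E n → ℝ} (hΦ : Kernel Φ) (i j : Fin N) (z : P N n) :
    0 ≤ bond Φ i j z := by
  unfold bond
  have := hΦ.nonneg (z.1 i - z.1 j)
  positivity

theorem rest_nonneg {Φ : E n → ℝ} (hΦ : Kernel Φ) (i j : Fin N) (z : P N n) :
    0 ≤ rest Φ i j z := by
  unfold rest
  refine mul_nonneg (by positivity) (Finset.sum_nonneg fun a _ => Finset.sum_nonneg fun b _ => ?_)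
  split_ifs
  · exact le_rfl
  · exact hΦ.nonneg _

theorem cont_bond {Φ : E n → ℝ} (hΦ : Kernel Φ) (i j : Fin N) :
    Continuous (fun z : P N n => bond Φ i j z) := by
  unfold bond
  have h := hΦ.smooth.continuous
  have h1 : Continuous (fun z : P N n => z.1 i - z.1 j) := by fun_prop
  exact continuous_const.mul (h.comp h1)

theorem cont_rest {Φ : E n → ℝ} (hΦ : Kernel Φ) (i j : Fin N) :
    Continuous (fun z : P N n => rest Φ i j z) := by
  unfold rest
  refine continuous_const.mul (continuous_finsetSum _ fun a _ =>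
    continuous_finsetSum _ fun b _ => ?_)
  split_ifs
  · exact continuous_const
  · have h := hΦ.smooth.continuous
    have h1 : Continuous (fun z : P N n => z.1 a - z.1 b) := by fun_prop
    exact h.comp h1

variable {F : P N n → P N n} {φ : ℝ → P N n → P N n} {M : ℝ → P N n → P N n →L[ℝ] P N n}

theorem cont_phi (h : IsFlow F φ M) (t : ℝ) : Continuous (φ t) :=
  h.cont.comp (by fun_prop : Continuous fun z : P N n => ((t, z) : ℝ × P N n))

theorem cont_orb (h : IsFlow F φ M) (z : P N n) : Continuous (fun t => φ t z) :=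
  h.cont.comp (Continuous.prodMk continuous_id continuous_const)

/-- integrals along the orbits are continuous -/
theorem cont_int (h : IsFlow F φ M) {g : P N n → ℝ} (hg : Continuous g) (t : ℝ) :
    Continuous (fun z => ∫ s in (0 : ℝ)..t, g (φ s z)) := by
  apply intervalIntegral.continuous_parametric_intervalIntegral_of_continuous'
  have h1 : Continuous (fun p : P N n × ℝ => φ p.2 p.1) :=
    h.cont.comp (Continuous.prodMk continuous_snd continuous_fst)
  exact hg.comp h1

theorem cont_clock {Φ : E n → ℝ} (hΦ : Kernel Φ) (h : IsFlow F φ M) (i j : Fin N) (t : ℝ) :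
    Continuous (fun z => clock Φ i j (fun s => φ s z) t) := by
  unfold clock
  exact cont_int h (cont_bond hΦ i j) t

/-- splitting of an integral along an orbit -/
theorem int_split (h : IsFlow F φ M) {g : P N n → ℝ} (hg : Continuous g) (z : P N n) (s t : ℝ) :
    ∫ r in (0 : ℝ)..(s + t), g (φ r z) =
      (∫ r in (0 : ℝ)..t, g (φ r z)) + ∫ r in (0 : ℝ)..s, g (φ r (φ t z)) := by
  have hc : Continuous (fun r => g (φ r z)) := hg.comp (cont_orb h z)
  have h1 : ∫ r in (0 : ℝ)..s, g (φ r (φ t z)) = ∫ r in t..(s + t), g (φ r z) := by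
    have h2 : (fun r => g (φ r (φ t z))) = fun r => (fun x => g (φ x z)) (r + t) := by
      funext r
      show g (φ r (φ t z)) = g (φ (r + t) z)
      rw [h.add]
    rw [h2, intervalIntegral.integral_comp_add_right (fun x => g (φ x z)) t, zero_add]
  rw [h1, intervalIntegral.integral_add_adjacent_intervals (hc.intervalIntegrable _ _)
    (hc.intervalIntegrable _ _)]

theorem int_nonneg {g : P N n → ℝ} (h0 : ∀ z, 0 ≤ g z) (z : P N n) {t : ℝ} (ht : 0 ≤ t) :
    0 ≤ ∫ r in (0 : ℝ)..t, g (φ r z) :=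
  intervalIntegral.integral_nonneg ht fun _ _ => h0 _

theorem int_mono (h : IsFlow F φ M) {g : P N n → ℝ} (hg : Continuous g) (h0 : ∀ z, 0 ≤ g z)
    (z : P N n) {s t : ℝ} (hst : s ≤ t) :
    ∫ r in (0 : ℝ)..s, g (φ r z) ≤ ∫ r in (0 : ℝ)..t, g (φ r z) := by
  have h1 := int_split h hg z (t - s) s
  rw [sub_add_cancel] at h1
  have h2 := int_nonneg (φ := φ) h0 (φ s z) (sub_nonneg.2 hst)
  linarith

/-- approximations of the second exceptional set -/
def BB (Φ : E n → ℝ) (φ : ℝ → P N n → P N n) (R : ℝ) (i j k : Fin N) (m : E n) (A : ℕ) (η : ℝ)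
    (T : ℕ) : Set (P N n) :=
  {z | ke z.2 ≤ R ∧ (∀ t, 0 ≤ t → (∫ s in (0 : ℝ)..t, rest Φ i j (φ s z)) ≤ (A : ℝ)) ∧
    (∀ J : ℕ, ∃ t : ℚ, (0 : ℝ) ≤ (t : ℝ) ∧ (J : ℝ) < clock Φ i j (fun s => φ s z) (t : ℝ)) ∧
    ∀ t, (T : ℝ) ≤ t → ‖(φ t z).2 i - (φ t z).2 j‖ ≤ η ∧
      1 ≤ (A : ℝ) * ‖(φ t z).2 k - (φ t z).2 j‖ ∧
      ‖dev ((φ t z).2 i - (φ t z).2 j) ((φ t z).2 k - (φ t z).2 j)‖ ≤
        (A : ℝ) * Real.exp (-clock Φ i j (fun s => φ s z) t) ∧
      |inner ℝ m ((φ t z).2 k - (φ t z).2 j)| ≤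
        (A : ℝ) * Real.exp (-clock Φ i j (fun s => φ s z) t)}

theorem meas_BB {Φ : E n → ℝ} (hΦ : Kernel Φ) (h : IsFlow F φ M) (R : ℝ) (i j k : Fin N)
    (m : E n) (A : ℕ) (η : ℝ) (T : ℕ) : MeasurableSet (BB Φ φ R i j k m A η T) := by
  have h1 : BB Φ φ R i j k m A η T =
      {z | ke z.2 ≤ R} ∩
      ((⋂ t : ℝ, ⋂ _ : 0 ≤ t, {z | (∫ s in (0 : ℝ)..t, rest Φ i j (φ s z)) ≤ (A : ℝ)}) ∩
      ((⋂ J : ℕ, ⋃ t : ℚ, {z | (0 : ℝ) ≤ (t : ℝ) ∧
        (J : ℝ) < clock Φ i j (fun s => φ s z) (t : ℝ)}) ∩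
      (⋂ t : ℝ, ⋂ _ : (T : ℝ) ≤ t, ({z | ‖(φ t z).2 i - (φ t z).2 j‖ ≤ η} ∩
        ({z | 1 ≤ (A : ℝ) * ‖(φ t z).2 k - (φ t z).2 j‖} ∩
        ({z | ‖dev ((φ t z).2 i - (φ t z).2 j) ((φ t z).2 k - (φ t z).2 j)‖ ≤
          (A : ℝ) * Real.exp (-clock Φ i j (fun s => φ s z) t)} ∩
        {z | |inner ℝ m ((φ t z).2 k - (φ t z).2 j)| ≤
          (A : ℝ) * Real.exp (-clock Φ i j (fun s => φ s z) t)})))))) := by
    ext z
    simp only [BB, mem_ofPred_eq, mem_inter_iff, mem_iInter, mem_iUnion]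
  rw [h1]
  refine MeasurableSet.inter (isClosed_le cont_ke continuous_const).measurableSet
    (MeasurableSet.inter ?_ (MeasurableSet.inter ?_ ?_))
  · refine IsClosed.measurableSet (isClosed_iInter fun t => isClosed_iInter fun _ => ?_)
    exact isClosed_le (cont_int h (cont_rest hΦ i j) t) continuous_const
  · refine MeasurableSet.iInter fun J => MeasurableSet.iUnion fun t => ?_
    by_cases ht : (0 : ℝ) ≤ (t : ℝ)
    · simp only [ht, true_and]
      exact (isOpen_lt continuous_const (cont_clock hΦ h i j t)).measurableSet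
    · simp only [ht, false_and]
      simp
  · refine IsClosed.measurableSet (isClosed_iInter fun t => isClosed_iInter fun _ => ?_)
    have hc := cont_phi h t
    have hk := cont_clock hΦ h i j t
    refine IsClosed.inter ?_ (IsClosed.inter ?_ (IsClosed.inter ?_ ?_))
    · exact isClosed_le (by fun_prop) continuous_const
    · exact isClosed_le continuous_const (by fun_prop)
    · unfold dev
      exact isClosed_le (by fun_prop) (by fun_prop)
    · exact isClosed_le (by fun_prop) (by fun_prop)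

theorem meas_thin (i j k : Fin N) (m : E n) (A η ε : ℝ) : MeasurableSet (thin i j k m A η ε) := by
  apply IsClosed.measurableSet
  unfold thin
  simp only [Set.ofPred_and]
  refine IsClosed.inter (isClosed_le cont_ke continuous_const) ?_
  unfold dev
  refine IsClosed.inter ?_ (IsClosed.inter ?_ (IsClosed.inter ?_ ?_))
  all_goals exact isClosed_le (by fun_prop) (by fun_prop)

theorem clock_inv {Φ : E n → ℝ} (hΦ : Kernel Φ) (i j : Fin N) (m : Fin N → Fin n → ℤ)
    (y : ℝ → P N n) (t : ℝ) : clock Φ i j (fun s => y s + (latC m, 0)) t = clock Φ i j y t := by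
  unfold clock
  simp only [bond_inv hΦ]

theorem BB_inv {Φ : E n → ℝ} (hΦ : Kernel Φ)
    (hE : ∀ (m : Fin N → Fin n → ℤ) (t : ℝ) (z : P N n),
      φ t (z + (latC m, 0)) = φ t z + (latC m, 0)) (R : ℝ) (i j k : Fin N) (m : E n) (A : ℕ)
    (η : ℝ) (T : ℕ) (m' : Fin N → Fin n → ℤ) (z : P N n) :
    z + (latC m', 0) ∈ BB Φ φ R i j k m A η T ↔ z ∈ BB Φ φ R i j k m A η T := by
  unfold BB
  simp only [mem_ofPred_eq, hE, clock_inv hΦ, rest_inv hΦ, add_snd]

theorem BB_mono (Φ : E n → ℝ) (φ : ℝ → P N n → P N n) (R : ℝ) (i j k : Fin N) (m : E n) (A : ℕ)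
    (η : ℝ) : Monotone (BB Φ φ R i j k m A η) := by
  intro T T' hT z hz
  refine ⟨hz.1, hz.2.1, hz.2.2.1, fun t ht => hz.2.2.2 t (le_trans ?_ ht)⟩
  exact_mod_cast hT

/-- the flux inequality for the approximations -/
theorem flux_BB (hF : FLUX) {Φ : E n → ℝ} (hΦ : Kernel Φ) {R : ℝ} (h : IsFlow (fld Φ R) φ M)
    (hE : ∀ (m : Fin N → Fin n → ℤ) (t : ℝ) (z : P N n),
      φ t (z + (latC m, 0)) = φ t z + (latC m, 0))
    (hR : ∀ z, ke z.2 ≤ R → ∀ t, 0 ≤ t → ke (φ t z).2 ≤ R)
    (hD : ∀ z, ke z.2 ≤ R → ∀ t, 0 ≤ t →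
      (M t z).det = Real.exp (-(n : ℝ) * ∫ s in (0 : ℝ)..t, total Φ (φ s z)))
    (hU : DUR) {Ab : ℝ} (hAb : 0 < Ab) (hb : ∀ (i j : Fin N) (z : P N n), bond Φ i j z ≤ Ab)
    {i j k : Fin N} (hij : i ≠ j) {m : E n} {A : ℕ} (hRA : R ≤ A) {A' : ℝ}
    (hA' : ∀ η ε : ℝ, 0 < ε → ε ≤ η → η ≤ 1 →
      volume (thin i j k m A η ε ∩ slab N n) ≤ ENNReal.ofReal (A' * η * ε ^ n))
    {η : ℝ} (hη : 0 < η) (hη1 : η ≤ 1) (T : ℕ) :
    ∫⁻ z in BB Φ φ R i j k m A η T ∩ slab N n, ENNReal.ofReal (bond Φ i j z) ≤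
      ENNReal.ofReal (Ab * Real.exp (n * (1 + A)) * A' * η) := by
  -- the choice of the level
  obtain ⟨J, hJ⟩ := exists_nat_ge (max (Ab * T) (-Real.log η))
  have hJ1 : Ab * T ≤ J := (le_max_left _ _).trans hJ
  have hJ2 : Real.exp (-(J : ℝ)) ≤ η := by
    have h1 : -Real.log η ≤ J := (le_max_right _ _).trans hJ
    calc Real.exp (-(J : ℝ)) ≤ Real.exp (Real.log η) := Real.exp_le_exp.2 (by linarith)
      _ = η := Real.exp_log hη
  have hcl : ∀ z t, clock Φ i j (fun s => φ s z) t = ∫ s in (0 : ℝ)..t, bond Φ i j (φ s z) :=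
    fun z t => rfl
  have hclub : ∀ z t, 0 ≤ t → (∫ s in (0 : ℝ)..t, bond Φ i j (φ s z)) ≤ Ab * t := by
    intro z t ht
    have h1 : (∫ s in (0 : ℝ)..t, bond Φ i j (φ s z)) ≤ ∫ _s in (0 : ℝ)..t, Ab := by
      apply intervalIntegral.integral_mono_on ht
      · exact ((cont_bond hΦ i j).comp (cont_orb h z)).intervalIntegrable _ _
      · exact intervalIntegrable_const
      · exact fun x _ => hb i j _
    rw [intervalIntegral.integral_const, smul_eq_mul, sub_zero] at h1
    linarith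
  set κ : ℝ := Real.exp (-(n : ℝ) * (J + 1 + A)) with hκ
  have key := hF n N (fld Φ R) φ M h hE (bond Φ i j) (cont_bond hΦ i j) (bond_nonneg hΦ i j)
    (bond_inv hΦ i j) (BB Φ φ R i j k m A η T) (thin i j k m A η (Real.exp (-(J : ℝ))))
    (meas_BB hΦ h R i j k m A η T) (meas_thin i j k m A η _)
    (fun m' z hz => (BB_inv hΦ hE R i j k m A η T m' z).2 hz) J (1 / Ab) κ
    (by positivity) (Real.exp_pos _).le ?_ ?_
  · have h2 := key.trans (hA' η (Real.exp (-(J : ℝ))) (Real.exp_pos _) hJ2 hη1)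
    set I := ∫⁻ z in BB Φ φ R i j k m A η T ∩ slab N n, ENNReal.ofReal (bond Φ i j z) with hI
    have hc : 0 < 1 / Ab * κ := by positivity
    have h3 : I = ENNReal.ofReal ((1 / Ab * κ)⁻¹) * (ENNReal.ofReal (1 / Ab * κ) * I) := by
      rw [← mul_assoc, ← ENNReal.ofReal_mul (by positivity), inv_mul_cancel₀ hc.ne',
        ENNReal.ofReal_one, one_mul]
    rw [h3]
    refine (mul_le_mul_right h2 _).trans ?_
    rw [← ENNReal.ofReal_mul (by positivity)]
    apply le_of_eq
    congr 1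
    have h4 : Real.exp (-(J : ℝ)) ^ n = Real.exp (-(n : ℝ) * J) := by
      rw [← Real.exp_nat_mul]
      congr 1
      ring
    have h5 : κ⁻¹ = Real.exp ((n : ℝ) * (J + 1 + A)) := by
      rw [hκ, ← Real.exp_neg]
      congr 1
      ring
    have h6 : Real.exp ((n : ℝ) * (J + 1 + A)) * Real.exp (-(n : ℝ) * J) =
        Real.exp (n * (1 + A)) := by
      rw [← Real.exp_add]
      congr 1
      ring
    rw [mul_inv, h5, h4, one_div, inv_inv, ← h6]
    ring
  · intro z hz t ht hmem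
    obtain ⟨hz1, hz2, hz3, hz4⟩ := hz
    have ht1 : (T : ℝ) ≤ t := by
      have h1 := hclub z t ht
      have h2 : (J : ℝ) ≤ Ab * t := hmem.1.trans h1
      have h3 : Ab * T ≤ Ab * t := hJ1.trans h2
      exact le_of_mul_le_mul_left h3 hAb
    obtain ⟨g1, g2, g3, g4⟩ := hz4 t ht1
    have hexp : Real.exp (-clock Φ i j (fun s => φ s z) t) ≤ Real.exp (-(J : ℝ)) := by
      apply Real.exp_le_exp.2
      rw [hcl]
      linarith [hmem.1]
    have hA0 : (0 : ℝ) ≤ (A : ℝ) := Nat.cast_nonneg A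
    refine ⟨⟨(hR z hz1 t ht).trans hRA, g1, g2, g3.trans ?_, g4.trans ?_⟩, ?_⟩
    · exact mul_le_mul_of_nonneg_left hexp hA0
    · exact mul_le_mul_of_nonneg_left hexp hA0
    · rw [hD z hz1 t ht, Real.abs_exp, hκ]
      apply Real.exp_le_exp.2
      have h1 : ∫ s in (0 : ℝ)..t, total Φ (φ s z) =
          (∫ s in (0 : ℝ)..t, bond Φ i j (φ s z)) + ∫ s in (0 : ℝ)..t, rest Φ i j (φ s z) := by
        rw [← intervalIntegral.integral_add]
        · congr 1
          funext s
          exact total_eq Φ hΦ i j hij (φ s z)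
        · exact ((cont_bond hΦ i j).comp (cont_orb h z)).intervalIntegrable _ _
        · exact ((cont_rest hΦ i j).comp (cont_orb h z)).intervalIntegrable _ _
      have h2 : ∫ s in (0 : ℝ)..t, total Φ (φ s z) ≤ J + 1 + A := by
        rw [h1]
        exact add_le_add hmem.2 (hz2 t ht)
      have hn : (0 : ℝ) ≤ (n : ℝ) := Nat.cast_nonneg n
      nlinarith [mul_le_mul_of_nonneg_left h2 hn]
  · intro z hz
    obtain ⟨hz1, hz2, hz3, hz4⟩ := hz
    refine hU (fun t => bond Φ i j (φ t z)) Ab ((cont_bond hΦ i j).comp (cont_orb h z))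
      (fun t => bond_nonneg hΦ i j _) (fun t => hb i j _) hAb ?_ J (Nat.cast_nonneg J)
    rintro ⟨B, hB⟩
    obtain ⟨J', hJ'⟩ := exists_nat_ge B
    obtain ⟨t, ht0, ht⟩ := hz3 J'
    have h1 := hB t ht0
    rw [hcl] at ht
    linarith

/-- the part of the good approximations on which the bond is positive -/
def NN (Φ : E n → ℝ) (φ : ℝ → P N n → P N n) (R : ℝ) (i j k : Fin N) (m : E n) (A : ℕ) :
    Set (P N n) :=
  {z | 0 < bond Φ i j z} ∩ ⋂ q : ℕ, ⋃ T : ℕ, BB Φ φ R i j k m A (1 / ((q : ℝ) + 1)) T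

theorem NN_null (hF : FLUX) {Φ : E n → ℝ} (hΦ : Kernel Φ) {R : ℝ} (h : IsFlow (fld Φ R) φ M)
    (hE : ∀ (m : Fin N → Fin n → ℤ) (t : ℝ) (z : P N n),
      φ t (z + (latC m, 0)) = φ t z + (latC m, 0))
    (hR : ∀ z, ke z.2 ≤ R → ∀ t, 0 ≤ t → ke (φ t z).2 ≤ R)
    (hD : ∀ z, ke z.2 ≤ R → ∀ t, 0 ≤ t →
      (M t z).det = Real.exp (-(n : ℝ) * ∫ s in (0 : ℝ)..t, total Φ (φ s z)))
    (hU : DUR) {Ab : ℝ} (hAb : 0 < Ab) (hb : ∀ (i j : Fin N) (z : P N n), bond Φ i j z ≤ Ab)
    {i j k : Fin N} (hij : i ≠ j) {m : E n} {A : ℕ} (hRA : R ≤ A) {A' : ℝ}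
    (hA' : ∀ η ε : ℝ, 0 < ε → ε ≤ η → η ≤ 1 →
      volume (thin i j k m A η ε ∩ slab N n) ≤ ENNReal.ofReal (A' * η * ε ^ n)) :
    volume (NN Φ φ R i j k m A) = 0 := by
  set f : P N n → ℝ≥0∞ := fun z => ENNReal.ofReal (bond Φ i j z) with hf
  have hfm : Measurable f := (cont_bond hΦ i j).measurable.ennreal_ofReal
  set ν : Measure (P N n) := volume.withDensity f with hν
  set Gs : Set (P N n) := ⋂ q : ℕ, ⋃ T : ℕ, BB Φ φ R i j k m A (1 / ((q : ℝ) + 1)) T with hGs
  have hq : ∀ q : ℕ, ν (Gs ∩ slab N n) ≤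
      ENNReal.ofReal (Ab * Real.exp (n * (1 + A)) * A' * (1 / ((q : ℝ) + 1))) := by
    intro q
    have hq0 : (0 : ℝ) < 1 / ((q : ℝ) + 1) := by positivity
    have hq1 : 1 / ((q : ℝ) + 1) ≤ 1 := by
      rw [div_le_one (by positivity)]
      have : (0 : ℝ) ≤ (q : ℝ) := Nat.cast_nonneg q
      linarith
    have h1 : Gs ∩ slab N n ⊆
        ⋃ T : ℕ, (BB Φ φ R i j k m A (1 / ((q : ℝ) + 1)) T ∩ slab N n) := by
      rw [← iUnion_inter]
      exact inter_subset_inter_left _ (iInter_subset _ q)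
    have h2 : Monotone fun T => BB Φ φ R i j k m A (1 / ((q : ℝ) + 1)) T ∩ slab N n :=
      fun T T' hT => inter_subset_inter_left _ (BB_mono Φ φ R i j k m A _ hT)
    refine (measure_mono h1).trans ?_
    rw [h2.measure_iUnion]
    refine iSup_le fun T => ?_
    rw [hν, withDensity_apply _ ((meas_BB hΦ h R i j k m A _ T).inter meas_slab)]
    exact flux_BB hF hΦ h hE hR hD hU hAb hb hij hRA hA' hq0 hq1 T
  have h0 : ν (Gs ∩ slab N n) = 0 := by
    have hlim : Tendsto (fun q : ℕ => ENNReal.ofReal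
        (Ab * Real.exp (n * (1 + A)) * A' * (1 / ((q : ℝ) + 1)))) atTop (𝓝 0) := by
      have h1 : Tendsto (fun q : ℕ => Ab * Real.exp (n * (1 + A)) * A' * (1 / ((q : ℝ) + 1)))
          atTop (𝓝 (Ab * Real.exp (n * (1 + A)) * A' * 0)) :=
        tendsto_one_div_add_atTop_nhds_zero_nat.const_mul _
      rw [mul_zero] at h1
      have h2 := ENNReal.tendsto_ofReal h1
      rwa [ENNReal.ofReal_zero] at h2
    exact le_antisymm (ge_of_tendsto' hlim hq) zero_le
  have h1 : volume (NN Φ φ R i j k m A ∩ slab N n) = 0 := by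
    rw [hν, withDensity_apply_eq_zero hfm] at h0
    refine measure_mono_null ?_ h0
    rintro z ⟨⟨hz1, hz2⟩, hz3⟩
    refine ⟨?_, hz2, hz3⟩
    have hz1' : 0 < bond Φ i j z := hz1
    show f z ≠ 0
    rw [hf]
    simp only [ne_eq, ENNReal.ofReal_eq_zero, not_le]
    exact hz1'
  have h2 : NN Φ φ R i j k m A ⊆ ⋃ m' : Fin N → Fin n → ℤ,
      (fun z => z + ((latC m' : C N n), (0 : C N n))) ⁻¹' (NN Φ φ R i j k m A ∩ slab N n) := by
    intro z hz
    obtain ⟨m', hm'⟩ := cover z
    rw [mem_iUnion]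
    refine ⟨m', ⟨?_, ?_⟩, hm'⟩
    · show 0 < bond Φ i j (z + (latC m', 0))
      rw [bond_inv hΦ]
      exact hz.1
    · have hz2 := hz.2
      rw [mem_iInter] at hz2 ⊢
      intro q
      obtain ⟨T, hT⟩ := mem_iUnion.1 (hz2 q)
      exact mem_iUnion.2 ⟨T, (BB_inv hΦ hE R i j k m A _ T m' z).2 hT⟩
  refine measure_mono_null h2 (measure_iUnion_null fun m' => ?_)
  have := haarP (N := N) (n := n)
  rw [measure_preimage_add_right]
  exact h1

theorem pre_null (h : IsFlow F φ M) (t : ℝ) (S : Set (P N n)) (hS : volume S = 0) :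
    volume (φ t ⁻¹' S) = 0 := by
  have inv1 : ∀ z, φ (-t) (φ t z) = z := by
    intro z
    rw [← h.add, neg_add_cancel, h.zero]
  have h1 : φ t ⁻¹' S ⊆ φ (-t) '' S := by
    intro z hz
    exact ⟨φ t z, hz, inv1 z⟩
  have := haarP (N := N) (n := n)
  refine measure_mono_null h1 ?_
  exact addHaar_image_eq_zero_of_differentiableOn_of_addHaar_eq_zero _
    (fun z _ => (h.diff (-t) z).differentiableAt.differentiableWithinAt) hS

/-- the exceptional set is forward invariant -/
theorem bad_fwd {Φ : E n → ℝ} (hΦ : Kernel Φ) {R : ℝ} (h : IsFlow F φ M)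
    (hR : ∀ z, ke z.2 ≤ R → ∀ t, 0 ≤ t → ke (φ t z).2 ≤ R) {i j k : Fin N} {m : E n}
    {z : P N n} (hz : z ∈ Bad2 Φ φ R i j k m) {t : ℝ} (ht : 0 ≤ t) :
    φ t z ∈ Bad2 Φ φ R i j k m := by
  obtain ⟨h1, ⟨A₁, hA₁⟩, h3, h4, A, T₀, hA, h5⟩ := hz
  have hsh : Tendsto (fun s : ℝ => s + t) atTop atTop :=
    tendsto_atTop_add_const_right _ _ tendsto_id
  refine ⟨hR z h1 t ht, ⟨A₁, fun T hT => ?_⟩, ?_, ?_, A, T₀, hA, ?_⟩
  · have e := int_split h (cont_rest hΦ i j) z T t
    have e1 := hA₁ (T + t) (by linarith)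
    have e2 := int_nonneg (φ := φ) (rest_nonneg hΦ i j) z ht
    linarith
  · rintro ⟨B, hB⟩
    apply h3
    refine ⟨B + ∫ r in (0 : ℝ)..t, bond Φ i j (φ r z), fun T hT => ?_⟩
    have e := int_split h (cont_bond hΦ i j) z T t
    have e1 := int_mono h (cont_bond hΦ i j) (bond_nonneg hΦ i j) z (show T ≤ T + t by linarith)
    have e2 := hB T hT
    linarith
  · have e := h4.comp hsh
    refine e.congr fun s => ?_
    simp only [Function.comp_apply]
    rw [h.add]
  · intro s hs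
    have e := int_split h (cont_bond hΦ i j) z s t
    have e2 := int_nonneg (φ := φ) (bond_nonneg hΦ i j) z ht
    have e3 := h5 (s + t) (by linarith)
    have e4 : Real.exp (-clock Φ i j (fun s => φ s z) (s + t)) ≤
        Real.exp (-clock Φ i j (fun r => φ r (φ t z)) s) := by
      apply Real.exp_le_exp.2
      unfold clock
      linarith
    rw [h.add] at e3
    obtain ⟨g1, g2, g3⟩ := e3
    exact ⟨g1, g2.trans (mul_le_mul_of_nonneg_left e4 hA.le),
      g3.trans (mul_le_mul_of_nonneg_left e4 hA.le)⟩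

/-- the exceptional set is contained in the good approximations -/
theorem bad_sub {Φ : E n → ℝ} (hΦ : Kernel Φ) {R : ℝ} (h : IsFlow F φ M) {i j k : Fin N}
    {m : E n} {z : P N n} (hz : z ∈ Bad2 Φ φ R i j k m) :
    ∃ A : ℕ, R ≤ A ∧ 1 ≤ A ∧
      z ∈ ⋂ q : ℕ, ⋃ T : ℕ, BB Φ φ R i j k m A (1 / ((q : ℝ) + 1)) T := by
  obtain ⟨h1, ⟨A₁, hA₁⟩, h3, h4, A₂, T₀, hA₂, h5⟩ := hz
  obtain ⟨A, hA⟩ := exists_nat_ge (max (max R 1) (max A₁ A₂))
  have hAR : R ≤ A := ((le_max_left _ _).trans (le_max_left _ _)).trans hA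
  have hA1 : (1 : ℝ) ≤ A := ((le_max_right _ _).trans (le_max_left _ _)).trans hA
  have hAA1 : A₁ ≤ A := ((le_max_left _ _).trans (le_max_right _ _)).trans hA
  have hAA2 : A₂ ≤ A := ((le_max_right _ _).trans (le_max_right _ _)).trans hA
  refine ⟨A, hAR, by exact_mod_cast hA1, ?_⟩
  rw [mem_iInter]
  intro q
  rw [Metric.tendsto_atTop] at h4
  obtain ⟨T₁, hT₁⟩ := h4 (1 / ((q : ℝ) + 1)) (by positivity)
  obtain ⟨T, hT⟩ := exists_nat_ge (max T₀ T₁)
  rw [mem_iUnion]
  refine ⟨T, h1, fun t ht => (hA₁ t ht).trans hAA1, ?_, ?_⟩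
  · intro J
    unfold BddInt at h3
    push Not at h3
    obtain ⟨s, hs, hs'⟩ := h3 J
    obtain ⟨t, ht⟩ := exists_rat_gt s
    refine ⟨t, hs.trans ht.le, ?_⟩
    exact lt_of_lt_of_le hs' (int_mono h (cont_bond hΦ i j) (bond_nonneg hΦ i j) z ht.le)
  · intro t ht
    have ht0 : T₀ ≤ t := ((le_max_left _ _).trans hT).trans ht
    have ht1 : T₁ ≤ t := ((le_max_right _ _).trans hT).trans ht
    obtain ⟨g1, g2, g3⟩ := h5 t ht0
    have g0 := hT₁ t ht1
    rw [dist_eq_norm, sub_zero] at g0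
    refine ⟨g0.le, g1.trans ?_, g2.trans ?_, g3.trans ?_⟩
    · exact mul_le_mul_of_nonneg_right hAA2 (norm_nonneg _)
    · exact mul_le_mul_of_nonneg_right hAA2 (Real.exp_pos _).le
    · exact mul_le_mul_of_nonneg_right hAA2 (Real.exp_pos _).le

end I_NUL2X

open I_NUL2X in
theorem I_NUL2 (hP : PERB) (hE : EQV) (hR : REP) (hD : DET) (hF : FLUX) (hT : THIN) (hU : DUR) :
    NUL2 := by
  intro n N Φ R hΦ φ M hφ i j k m hij hik hjk hm
  have hE' := hE n N Φ R hΦ φ M hφ
  have hR' : ∀ z : P N n, ke z.2 ≤ R → ∀ t, 0 ≤ t → ke (φ t z).2 ≤ R := fun z hz =>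
    ((hR n N Φ R hΦ φ M hφ).1 z hz).1
  have hD' := hD n N Φ R hΦ φ M hφ
  obtain ⟨A₀, hA₀⟩ := hP n Φ hΦ
  set Ab : ℝ := 2 * (N : ℝ)⁻¹ * |A₀| + 1 with hAbdef
  have hAb : 0 < Ab := by positivity
  have hb : ∀ (i j : Fin N) (z : P N n), bond Φ i j z ≤ Ab := by
    intro i j z
    have h1 : Φ (z.1 i - z.1 j) ≤ |A₀| :=
      (le_abs_self _).trans ((hA₀ _).1.trans (le_abs_self _))
    have h2 : 2 * (N : ℝ)⁻¹ * Φ (z.1 i - z.1 j) ≤ 2 * (N : ℝ)⁻¹ * |A₀| :=
      mul_le_mul_of_nonneg_left h1 (by positivity)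
    unfold bond
    rw [hAbdef]
    linarith
  set W : Set (P N n) := ⋃ t : ℚ, ⋃ A : ℕ, ⋃ _ : R ≤ A ∧ 1 ≤ A,
    φ (t : ℝ) ⁻¹' (NN Φ φ R i j k m A) with hW
  have hW0 : volume W = 0 := by
    refine measure_iUnion_null fun t => measure_iUnion_null fun A => measure_iUnion_null ?_
    rintro ⟨hRA, hA1⟩
    apply pre_null hφ
    have hA0 : (0 : ℝ) < (A : ℝ) := by exact_mod_cast hA1
    obtain ⟨A', -, hA'⟩ := hT n N i j k m A hij hik hjk hm hA0
    exact NN_null hF hΦ hφ hE' hR' hD' hU hAb hb hij hRA hA'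
  refine measure_mono_null ?_ hW0
  intro z hz
  by_contra hzW
  have hrat : ∀ t : ℚ, (0 : ℝ) ≤ (t : ℝ) → bond Φ i j (φ t z) ≤ 0 := by
    intro t ht
    by_contra hpos
    push Not at hpos
    obtain ⟨A, hRA, hA1, hmem⟩ := bad_sub hΦ hφ (bad_fwd hΦ hφ hR' hz ht)
    apply hzW
    rw [hW]
    simp only [mem_iUnion]
    exact ⟨t, A, ⟨hRA, hA1⟩, hpos, hmem⟩
  have hc : Continuous (fun t => bond Φ i j (φ t z)) := (cont_bond hΦ i j).comp (cont_orb hφ z)
  have hall : ∀ t : ℝ, 0 ≤ t → bond Φ i j (φ t z) ≤ 0 := by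
    intro t ht
    by_contra hpos
    push Not at hpos
    have h1 : ∀ᶠ s in 𝓝 t, 0 < bond Φ i j (φ s z) := hc.continuousAt.eventually (lt_mem_nhds hpos)
    obtain ⟨ε, hε, h2⟩ := Metric.eventually_nhds_iff.1 h1
    obtain ⟨s, hs1, hs2⟩ := exists_rat_btwn (show t < t + ε by linarith)
    have h3 := hrat s (ht.trans hs1.le)
    have h4 := h2 (y := (s : ℝ)) (by
      rw [Real.dist_eq, abs_of_pos (by linarith)]
      linarith)
    linarith
  apply hz.2.2.1
  refine ⟨0, fun T hT => ?_⟩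
  have h1 : (∫ t in (0 : ℝ)..T, bond Φ i j (φ t z)) ≤ ∫ _t in (0 : ℝ)..T, (0 : ℝ) := by
    apply intervalIntegral.integral_mono_on hT (hc.intervalIntegrable _ _)
      intervalIntegrable_const
    exact fun x hx => hall x hx.1
  simpa using h1

end Pool.Agent.Work.MP_c9f990_an.Al

end

section

set_option autoImplicit false

/-!
# MP_c9f990_an: assembly of block AL with persistent contact
-/

open MeasureTheory Set Filter Topology
open scoped NNReal ENNReal

namespace Pool.Agent.Work.MP_c9f990_an.Al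

variable {N n : ℕ}

/-- every group of limiting clusters keeps interacting with the remaining clusters -/
def Contact (Φ : E n → ℝ) (x : ℝ → C N n) (c : C N n) : Prop :=
  ∀ Q : Finset (Fin N), (∃ i, i ∈ Q) → (∃ j, j ∉ Q) → (∀ i ∈ Q, ∀ j, c j = c i → j ∈ Q) →
    ∀ T : ℝ, ∃ t, T ≤ t ∧ ∃ i ∈ Q, ∃ j, j ∉ Q ∧ 0 < Φ (x t i - x t j)

theorem contact (hRep : REP) (hInt : INTG) (hReso : RESO) (Φ : E n → ℝ) (hΦ : Kernel Φ) (R : ℝ)
    (φ : ℝ → P N n → P N n) (M : ℝ → P N n → P N n →L[ℝ] P N n) (hφ : IsFlow (fld Φ R) φ M)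
    (z : P N n) (hz : ke z.2 ≤ R)
    (h3 : ∀ (Q : Finset (Fin N)) (i j : Fin N) (m : Fin n → ℤ) (T : ℕ), i ∈ Q → j ∉ Q → m ≠ 0 →
      z ∉ Bad3 Φ φ R Q i j (intV m) T)
    (c : C N n) (hc : ∀ i, Tendsto (fun t => (φ t z).2 i) atTop (𝓝 (c i))) :
    Contact Φ (fun t => (φ t z).1) c := by
  intro Q hi hj hQ T
  obtain ⟨i, hi⟩ := hi
  obtain ⟨j, hj⟩ := hj
  by_contra hcon
  push Not at hcon
  obtain ⟨hke, hfl⟩ := (hRep n N Φ R hΦ φ M hφ).1 z hz
  have hij : c i ≠ c j := fun h => hj (hQ i hi j h.symm)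
  have hb := hInt n N Φ hΦ _ _ hfl c hc i j hij
  have hres : Resonant (c i - c j) := by
    refine hReso n Φ hΦ (fun t => (φ t z).1 i - (φ t z).1 j)
      (fun t => (φ t z).2 i - (φ t z).2 j) (c i - c j) ?_ ((hc i).sub (hc j)) hb
    intro t ht
    have h4 := (hfl t ht).1
    rw [hasDerivWithinAt_pi] at h4
    exact (h4 i).sub (h4 j)
  obtain ⟨m, hm0, hm⟩ := hres
  rw [← inner_intV] at hm
  obtain ⟨T', hT'⟩ := exists_nat_ge T
  refine h3 Q i j m T' hi hj hm0 ⟨hz, ?_, ?_⟩
  · intro t ht a ha b hb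
    exact le_antisymm (hcon t (hT'.trans ht) a ha b hb) (hΦ.nonneg _)
  · have h4 := (hc i).sub (hc j)
    have h5 : Tendsto (fun t => inner ℝ (intV m) ((φ t z).2 i - (φ t z).2 j)) atTop
        (𝓝 (inner ℝ (intV m) (c i - c j))) :=
      ((continuous_const.inner continuous_id).tendsto (c i - c j)).comp h4
    rwa [hm] at h5

/-- the general theorem with persistent contact -/
theorem general3 (hFlow : FLOW) (hFld : FLD) (hRep : REP) (hDet : DET) (hN1 : NUL1) (hN2 : NUL2)
    (hN3 : NUL3) (hConv : CONV) (hInt : INTG) (hReso : RESO) (hEst : EST) (hTube : TUBE)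
    (n N : ℕ) (Φ : E n → ℝ) (hΦ : Kernel Φ) :
    ∀ᵐ z : P N n, ∀ x v : ℝ → C N n, IsFlock Φ x v → (x 0, v 0) = z →
      ∃ c : C N n, (∀ i, Tendsto (fun t => v t i) atTop (𝓝 (c i))) ∧ Few c ∧ Contact Φ x c := by
  have hfl : ∀ R : ℕ, ∃ (φ : ℝ → P N n → P N n) (M : ℝ → P N n → P N n →L[ℝ] P N n),
      IsFlow (fld Φ (R : ℝ)) φ M := by
    intro R
    obtain ⟨hC, L, hL⟩ := hFld n N Φ R hΦ
    exact hFlow _ _ L hL hC
  choose φ M hφ using hfl
  have hae : ∀ᵐ z : P N n, ∀ R : ℕ,
      (∀ (q : ℕ) (i j : Fin N) (m : Fin n → ℤ), i ≠ j → m ≠ 0 →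
        z ∉ Bad1 (φ R) (M R) R (1 / ((q : ℝ) + 1)) i j (intV m)) ∧
      (∀ (i j k : Fin N) (m : Fin n → ℤ), i ≠ j → i ≠ k → j ≠ k → m ≠ 0 →
        z ∉ Bad2 Φ (φ R) R i j k (intV m)) ∧
      (∀ (Q : Finset (Fin N)) (i j : Fin N) (m : Fin n → ℤ) (T : ℕ), i ∈ Q → j ∉ Q → m ≠ 0 →
        z ∉ Bad3 Φ (φ R) R Q i j (intV m) T) := by
    rw [ae_all_iff]
    intro R
    rw [eventually_and, eventually_and]
    refine ⟨?_, ?_, ?_⟩
    · simp only [ae_all_iff]
      intro q i j m hij hm
      have h3 := hN1 n N Φ R hΦ (φ R) (M R) (hφ R) i j (intV m) (1 / ((q : ℝ) + 1)) hij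
        (intV_ne hm) (by positivity)
      exact measure_eq_zero_iff_ae_notMem.1 h3
    · simp only [ae_all_iff]
      intro i j k m hij hik hjk hm
      have h3 := hN2 n N Φ R hΦ (φ R) (M R) (hφ R) i j k (intV m) hij hik hjk (intV_ne hm)
      exact measure_eq_zero_iff_ae_notMem.1 h3
    · simp only [ae_all_iff]
      intro Q i j m T hi hj hm
      have h3 := hN3 n N Φ R hΦ (φ R) (M R) (hφ R) Q i j (intV m) T hi hj (intV_ne hm)
      exact measure_eq_zero_iff_ae_notMem.1 h3
  filter_upwards [hae] with z hz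
  intro x v hxv h0
  obtain ⟨R, hR⟩ := exists_nat_ge (ke z.2)
  have hv0 : v 0 = z.2 := by rw [← h0]
  have hrep : ∀ t, 0 ≤ t → (x t, v t) = φ R t z := by
    intro t ht
    have h3 := (hRep n N Φ R hΦ (φ R) (M R) (hφ R)).2 x v hxv (by rw [hv0]; exact hR) t ht
    rw [h3, h0]
  obtain ⟨c, hc, hfew⟩ := core hRep hDet hConv hInt hReso hEst hTube Φ hΦ R (φ R) (M R) (hφ R)
    z hR (hz R).1 (hz R).2.1
  have hcon := contact hRep hInt hReso Φ hΦ R (φ R) (M R) (hφ R) z hR (hz R).2.2 c hc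
  refine ⟨c, ?_, hfew, ?_⟩
  · intro i
    refine (hc i).congr' ?_
    filter_upwards [eventually_ge_atTop (0 : ℝ)] with t ht
    rw [← hrep t ht]
  · intro Q hi hj hQ T
    obtain ⟨t, ht, i, hi, j, hj, h⟩ := hcon Q hi hj hQ (max T 0)
    refine ⟨t, (le_max_left _ _).trans ht, i, hi, j, hj, ?_⟩
    have h4 := hrep t ((le_max_right _ _).trans ht)
    have h5 : x t = (φ R t z).1 := by rw [← h4]
    rw [h5]
    exact h

end Pool.Agent.Work.MP_c9f990_an.Al

end
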