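import Pool.Agent.Work.MP_c9f990_an.Al.Stmts

/-! Bundle of small proof modules (one section per former module). -/

section

set_option autoImplicit false

/-!
# MP_c9f990_an: item CONV, all velocities converge
-/

open MeasureTheory Set Filter Topology

namespace Pool.Agent.Work.MP_c9f990_an.Al

namespace I_CONVX

variable {N n : ℕ}

lemma sym_sum (w : Fin N → Fin N → ℝ) (hw : ∀ i j, w i j = w j i) (p a : Fin N → ℝ) :
    2 * ∑ i, p i * ∑ j, w i j * (a j - a i) =
      -∑ i, ∑ j, w i j * ((p i - p j) * (a i - a j)) := by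
  have h1 : ∑ i, p i * ∑ j, w i j * (a j - a i) = ∑ i, ∑ j, w i j * (p i * (a j - a i)) := by
    refine Finset.sum_congr rfl fun i _ => ?_
    rw [Finset.mul_sum]
    refine Finset.sum_congr rfl fun j _ => ?_
    ring
  have h2 : ∑ i, ∑ j, w i j * (p i * (a j - a i)) = ∑ i, ∑ j, w i j * (p j * (a i - a j)) := by
    rw [Finset.sum_comm]
    refine Finset.sum_congr rfl fun i _ => Finset.sum_congr rfl fun j _ => ?_
    rw [hw j i]
  have h3 : ∑ i, ∑ j, w i j * (p i * (a j - a i)) + ∑ i, ∑ j, w i j * (p j * (a i - a j)) =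
      -∑ i, ∑ j, w i j * ((p i - p j) * (a i - a j)) := by
    rw [← Finset.sum_add_distrib, ← Finset.sum_neg_distrib]
    refine Finset.sum_congr rfl fun i _ => ?_
    rw [← Finset.sum_add_distrib, ← Finset.sum_neg_distrib]
    refine Finset.sum_congr rfl fun j _ => ?_
    ring
  rw [h1, ← h3, ← h2]
  ring

lemma low (w D : Fin N → Fin N → ℝ) (hw : ∀ i j, w i j = w j i) (hw0 : ∀ i j, 0 ≤ w i j)
    (p a : Fin N → ℝ) (K : ℝ) (h : ∀ i j, (p i - p j) * (a i - a j) ≤ K * D i j) :
    -(K / 2 * ∑ i, ∑ j, w i j * D i j) ≤ ∑ i, p i * ∑ j, w i j * (a j - a i) := by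
  have h1 := sym_sum w hw p a
  have h2 : ∑ i, ∑ j, w i j * ((p i - p j) * (a i - a j)) ≤ K * ∑ i, ∑ j, w i j * D i j := by
    rw [Finset.mul_sum]
    refine Finset.sum_le_sum fun i _ => ?_
    rw [Finset.mul_sum]
    refine Finset.sum_le_sum fun j _ => ?_
    calc w i j * ((p i - p j) * (a i - a j)) ≤ w i j * (K * D i j) :=
          mul_le_mul_of_nonneg_left (h i j) (hw0 i j)
      _ = K * (w i j * D i j) := by ring
  linarith

lemma conv_mono (U : ℝ → ℝ) (hU : MonotoneOn U (Ici 0)) (B : ℝ) (hB : ∀ t, 0 ≤ t → U t ≤ B) :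
    ∃ L, Tendsto U atTop (𝓝 L) := by
  have hmono : Monotone (fun t => U (max t 0)) := fun s t hst =>
    hU (mem_Ici.2 (le_max_right _ _)) (mem_Ici.2 (le_max_right _ _)) (max_le_max_right _ hst)
  have h1 := tendsto_atTop_ciSup hmono ⟨B, by
    rintro _ ⟨t, rfl⟩
    exact hB _ (le_max_right _ _)⟩
  refine ⟨_, h1.congr' ?_⟩
  filter_upwards [eventually_ge_atTop (0 : ℝ)] with t ht
  rw [max_eq_left ht]

lemma coord_sq (u : E n) (k : Fin n) : (u k) ^ 2 ≤ ‖u‖ ^ 2 := by
  have h1 : ‖u k‖ ≤ ‖u‖ := PiLp.norm_apply_le u k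
  rw [Real.norm_eq_abs] at h1
  rw [← sq_abs (u k)]
  exact pow_le_pow_left₀ (abs_nonneg _) h1 2

lemma ke_ge (v : C N n) (i : Fin N) : ‖v i‖ ^ 2 ≤ ke v :=
  Finset.single_le_sum (f := fun i => ‖v i‖ ^ 2) (fun j _ => by positivity) (Finset.mem_univ i)

lemma force_coord (Φ : E n → ℝ) (z : P N n) (i : Fin N) (k : Fin n) :
    force Φ z i k = (N : ℝ)⁻¹ * ∑ j, Φ (z.1 i - z.1 j) * (z.2 j k - z.2 i k) := by
  have h : ∀ u : E n, u k = EuclideanSpace.proj (𝕜 := ℝ) k u := fun u => rfl
  rw [h, force, map_smul, map_sum, smul_eq_mul]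
  congr 1

lemma deriv_coord {x v : ℝ → C N n} {Φ : E n → ℝ} (h : IsFlock Φ x v) (i : Fin N) (k : Fin n)
    {t : ℝ} (ht : 0 ≤ t) :
    HasDerivWithinAt (fun s => v s i k)
      ((N : ℝ)⁻¹ * ∑ j, Φ (x t i - x t j) * (v t j k - v t i k)) (Ici 0) t := by
  have h1 := hasDerivWithinAt_pi.1 (h t ht).2 i
  have h2 := (EuclideanSpace.proj (𝕜 := ℝ) k : E n →L[ℝ] ℝ).hasFDerivAt.comp_hasDerivWithinAt t h1
  rw [← force_coord Φ (x t, v t) i k]
  exact h2

/-- sums of polynomials of the coordinates converge -/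
lemma H_conv (hE : ENG) (Φ : E n → ℝ) (hΦ : Kernel Φ) (x v : ℝ → C N n) (h : IsFlock Φ x v)
    (k : Fin n) (f : Polynomial ℝ) :
    ∃ L, Tendsto (fun t => ∑ i, f.eval (v t i k)) atTop (𝓝 L) := by
  obtain ⟨hE1, hE2⟩ := hE n N Φ hΦ x v h
  have hx : ContinuousOn x (Ici 0) := fun t ht => (h t ht).1.continuousWithinAt
  have hv : ContinuousOn v (Ici 0) := fun t ht => (h t ht).2.continuousWithinAt
  have hX : Continuous (fun t => x (max t 0)) :=
    hx.comp_continuous (by fun_prop) (fun t => mem_Ici.2 (le_max_right _ _))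
  have hV : Continuous (fun t => v (max t 0)) :=
    hv.comp_continuous (by fun_prop) (fun t => mem_Ici.2 (le_max_right _ _))
  obtain ⟨G, hG⟩ : ∃ G : ℝ → ℝ, G = fun t => (N : ℝ)⁻¹ * ∑ i, ∑ j,
    Φ (x (max t 0) i - x (max t 0) j) * ‖v (max t 0) i - v (max t 0) j‖ ^ 2 := ⟨_, rfl⟩
  have hGc : Continuous G := by
    rw [hG]
    refine continuous_const.mul (continuous_finsetSum _ fun i _ =>
      continuous_finsetSum _ fun j _ => ?_)
    have hXi : ∀ i, Continuous (fun t => x (max t 0) i) := fun i => (continuous_apply i).comp hX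
    have hVi : ∀ i, Continuous (fun t => v (max t 0) i) := fun i => (continuous_apply i).comp hV
    exact (hΦ.smooth.continuous.comp ((hXi i).sub (hXi j))).mul
      (((hVi i).sub (hVi j)).norm.pow 2)
  have hG0 : ∀ t, 0 ≤ G t := by
    intro t
    rw [hG]
    have : ∀ y, 0 ≤ Φ y := hΦ.nonneg
    exact mul_nonneg (by positivity) (Finset.sum_nonneg fun i _ => Finset.sum_nonneg fun j _ =>
      mul_nonneg (this _) (by positivity))
  have hGt : ∀ t, 0 ≤ t → G t = (N : ℝ)⁻¹ * ∑ i, ∑ j, Φ (x t i - x t j) * ‖v t i - v t j‖ ^ 2 := by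
    intro t ht
    rw [hG]
    simp only [max_eq_left ht]
  have hΓd : ∀ t, HasDerivAt (fun T => ∫ s in (0 : ℝ)..T, G s) (G t) t := fun t =>
    (hGc.integral_hasStrictDerivAt 0 t).hasDerivAt
  have hΓb : ∀ T, 0 ≤ T → ∫ s in (0 : ℝ)..T, G s ≤ ke (v 0) := by
    intro T hT
    have h1 : ∫ s in (0 : ℝ)..T, G s = ∫ s in (0 : ℝ)..T,
        ((N : ℝ)⁻¹ * ∑ i, ∑ j, Φ (x s i - x s j) * ‖v s i - v s j‖ ^ 2) := by
      refine intervalIntegral.integral_congr fun s hs => ?_
      rw [uIcc_of_le hT] at hs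
      exact hGt s hs.1
    rw [h1]
    exact hE2 T hT
  -- the coordinates are bounded
  obtain ⟨ρ, hρ⟩ : ∃ ρ : ℝ, ρ = √(ke (v 0)) := ⟨_, rfl⟩
  have hb : ∀ t, 0 ≤ t → ∀ i, v t i k ∈ Icc (-ρ) ρ := by
    intro t ht i
    rw [mem_Icc, ← abs_le, hρ]
    refine Real.abs_le_sqrt ?_
    exact ((coord_sq (v t i) k).trans (ke_ge (v t) i)).trans (hE1 0 t le_rfl ht)
  obtain ⟨K₀, hK₀⟩ := (isCompact_Icc (a := -ρ) (b := ρ)).exists_bound_of_continuousOn
    (f.derivative.derivative.continuous.continuousOn)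
  obtain ⟨B, hB⟩ := (isCompact_Icc (a := -ρ) (b := ρ)).exists_bound_of_continuousOn
    (f.continuous.continuousOn)
  obtain ⟨K, hK⟩ : ∃ K : ℝ, K = max K₀ 0 := ⟨_, rfl⟩
  have hK0 : 0 ≤ K := by rw [hK]; exact le_max_right _ _
  have hlip : ∀ a ∈ Icc (-ρ) ρ, ∀ b ∈ Icc (-ρ) ρ,
      |f.derivative.eval a - f.derivative.eval b| ≤ K * |a - b| := by
    intro a ha b hb
    have h1 := (convex_Icc (-ρ) ρ).norm_image_sub_le_of_norm_hasDerivWithin_le
      (f := fun y => f.derivative.eval y) (f' := fun y => f.derivative.derivative.eval y) (C := K)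
      (fun y _ => (f.derivative.hasDerivAt y).hasDerivWithinAt)
      (fun y hy => (hK₀ y hy).trans (by rw [hK]; exact le_max_left _ _)) hb ha
    simpa only [Real.norm_eq_abs] using h1
  -- monotonicity
  obtain ⟨U, hU⟩ : ∃ U : ℝ → ℝ, U = fun t => (∑ i, f.eval (v t i k)) +
    K / 2 * ∫ s in (0 : ℝ)..t, G s := ⟨_, rfl⟩
  have hHd : ∀ t, 0 ≤ t → HasDerivWithinAt (fun t => ∑ i, f.eval (v t i k))
      (∑ i, f.derivative.eval (v t i k) *
        ((N : ℝ)⁻¹ * ∑ j, Φ (x t i - x t j) * (v t j k - v t i k))) (Ici 0) t := by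
    intro t ht
    refine HasDerivWithinAt.fun_sum fun i _ => ?_
    exact (f.hasDerivAt (v t i k)).comp_hasDerivWithinAt t (deriv_coord h i k ht)
  have hUd : ∀ t, 0 ≤ t → HasDerivWithinAt U ((∑ i, f.derivative.eval (v t i k) *
        ((N : ℝ)⁻¹ * ∑ j, Φ (x t i - x t j) * (v t j k - v t i k))) + K / 2 * G t) (Ici 0) t := by
    intro t ht
    rw [hU]
    exact (hHd t ht).add ((hΓd t).const_mul (K / 2)).hasDerivWithinAt
  have hUn : ∀ t, 0 ≤ t → 0 ≤ (∑ i, f.derivative.eval (v t i k) *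
        ((N : ℝ)⁻¹ * ∑ j, Φ (x t i - x t j) * (v t j k - v t i k))) + K / 2 * G t := by
    intro t ht
    have h1 := low (fun i j => Φ (x t i - x t j)) (fun i j => ‖v t i - v t j‖ ^ 2)
      (fun i j => by rw [← hΦ.even (x t j - x t i), neg_sub]) (fun i j => hΦ.nonneg _)
      (fun i => f.derivative.eval (v t i k)) (fun i => v t i k) K (by
        intro i j
        have h2 := hlip _ (hb t ht i) _ (hb t ht j)
        have h3 : (v t i k - v t j k) ^ 2 ≤ ‖v t i - v t j‖ ^ 2 := coord_sq (v t i - v t j) k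
        calc (f.derivative.eval (v t i k) - f.derivative.eval (v t j k)) * (v t i k - v t j k)
            ≤ |(f.derivative.eval (v t i k) - f.derivative.eval (v t j k)) *
              (v t i k - v t j k)| := le_abs_self _
          _ = |f.derivative.eval (v t i k) - f.derivative.eval (v t j k)| *
              |v t i k - v t j k| := abs_mul _ _
          _ ≤ (K * |v t i k - v t j k|) * |v t i k - v t j k| :=
              mul_le_mul_of_nonneg_right h2 (abs_nonneg _)
          _ = K * (v t i k - v t j k) ^ 2 := by rw [mul_assoc, ← sq, sq_abs]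
          _ ≤ K * ‖v t i - v t j‖ ^ 2 := mul_le_mul_of_nonneg_left h3 hK0)
    have h4 : (∑ i, f.derivative.eval (v t i k) *
        ((N : ℝ)⁻¹ * ∑ j, Φ (x t i - x t j) * (v t j k - v t i k))) =
        (N : ℝ)⁻¹ * ∑ i, f.derivative.eval (v t i k) *
          ∑ j, Φ (x t i - x t j) * (v t j k - v t i k) := by
      rw [Finset.mul_sum]
      refine Finset.sum_congr rfl fun i _ => ?_
      ring
    rw [h4, hGt t ht]
    have h5 : 0 ≤ (N : ℝ)⁻¹ := by positivity
    have h6 := mul_le_mul_of_nonneg_left h1 h5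
    calc (0 : ℝ) = (N : ℝ)⁻¹ * -(K / 2 * ∑ i, ∑ j, Φ (x t i - x t j) * ‖v t i - v t j‖ ^ 2) +
          K / 2 * ((N : ℝ)⁻¹ * ∑ i, ∑ j, Φ (x t i - x t j) * ‖v t i - v t j‖ ^ 2) := by ring
      _ ≤ _ := by gcongr
  have hUm : MonotoneOn U (Ici 0) := by
    refine monotoneOn_of_deriv_nonneg (convex_Ici 0)
      (fun t ht => (hUd t ht).continuousWithinAt) ?_ ?_
    · intro t ht
      rw [interior_Ici] at ht
      exact ((hUd t (le_of_lt ht)).mono interior_subset).differentiableWithinAt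
    · intro t ht
      rw [interior_Ici] at ht
      rw [((hUd t (le_of_lt ht)).hasDerivAt (Ici_mem_nhds ht)).deriv]
      exact hUn t (le_of_lt ht)
  have hUb : ∀ t, 0 ≤ t → U t ≤ (∑ _i : Fin N, B) + K / 2 * ke (v 0) := by
    intro t ht
    rw [hU]
    refine add_le_add (Finset.sum_le_sum fun i _ => ?_)
      (mul_le_mul_of_nonneg_left (hΓb t ht) (by positivity))
    exact (le_abs_self _).trans (hB _ (hb t ht i))
  obtain ⟨L₁, hL₁⟩ := conv_mono U hUm _ hUb
  obtain ⟨L₂, hL₂⟩ := conv_mono (fun T => ∫ s in (0 : ℝ)..T, G s)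
    ((monotone_of_deriv_nonneg (fun t => (hΓd t).differentiableAt)
      (fun t => by rw [(hΓd t).deriv]; exact hG0 t)).monotoneOn _) (ke (v 0)) hΓb
  refine ⟨L₁ - K / 2 * L₂, (hL₁.sub (hL₂.const_mul (K / 2))).congr fun t => ?_⟩
  rw [hU]
  ring

/-- one coordinate of one velocity converges -/
lemma coord_conv (hE : ENG) (hF : FINS) (Φ : E n → ℝ) (hΦ : Kernel Φ) (x v : ℝ → C N n)
    (h : IsFlock Φ x v) (k : Fin n) (i : Fin N) : ∃ c : ℝ, Tendsto (fun t => v t i k) atTop (𝓝 c) := by
  classical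
  have hN : 0 < N := i.pos
  obtain ⟨hE1, -⟩ := hE n N Φ hΦ x v h
  have hb : ∀ t, 0 ≤ t → ∀ i, v t i k ∈ Icc (-√(ke (v 0))) (√(ke (v 0))) := by
    intro t ht i
    rw [mem_Icc, ← abs_le]
    refine Real.abs_le_sqrt ?_
    exact ((coord_sq (v t i) k).trans (ke_ge (v t) i)).trans (hE1 0 t le_rfl ht)
  have hcomp : IsCompact (Set.pi Set.univ fun _ : Fin N => Icc (-√(ke (v 0))) (√(ke (v 0)))) :=
    isCompact_univ_pi fun _ => isCompact_Icc
  obtain ⟨α, -, φ, hφ, hα⟩ := hcomp.tendsto_subseq (x := fun (q : ℕ) (i : Fin N) => v (q : ℝ) i k)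
    (fun q i _ => hb _ (Nat.cast_nonneg q) i)
  have htq : Tendsto (fun q : ℕ => ((φ q : ℕ) : ℝ)) atTop atTop :=
    tendsto_natCast_atTop_atTop.comp hφ.tendsto_atTop
  obtain ⟨f, hf⟩ : ∃ f : Polynomial ℝ, f = ∏ l, (Polynomial.X - Polynomial.C (α l)) ^ 2 :=
    ⟨_, rfl⟩
  have hfe : ∀ s, f.eval s = ∏ l, (s - α l) ^ 2 := by
    intro s
    rw [hf, Polynomial.eval_prod]
    simp
  have hf0 : ∀ s, 0 ≤ f.eval s := by
    intro s
    rw [hfe]
    exact Finset.prod_nonneg fun l _ => sq_nonneg _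
  obtain ⟨L, hL⟩ := H_conv hE Φ hΦ x v h k f
  have hL0 : L = 0 := by
    have h1 := hL.comp htq
    have h2 : Tendsto (fun q : ℕ => ∑ i, f.eval (v ((φ q : ℕ) : ℝ) i k)) atTop
        (𝓝 (∑ i, f.eval (α i))) := by
      refine tendsto_finsetSum _ fun i _ => ?_
      exact (f.continuous.tendsto (α i)).comp ((tendsto_pi_nhds.1 hα) i)
    have h3 : ∑ i, f.eval (α i) = 0 := by
      refine Finset.sum_eq_zero fun i _ => ?_
      rw [hfe]
      exact Finset.prod_eq_zero (Finset.mem_univ i) (by simp)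
    rw [h3] at h2
    exact tendsto_nhds_unique h1 h2
  rw [hL0] at hL
  have hfi : Tendsto (fun t => f.eval (v t i k)) atTop (𝓝 0) := by
    refine squeeze_zero (fun t => hf0 _) (fun t => ?_) hL
    exact Finset.single_le_sum (f := fun i => f.eval (v t i k)) (fun j _ => hf0 _)
      (Finset.mem_univ i)
  have hne : (Finset.univ.image α).Nonempty := ⟨α i, Finset.mem_image_of_mem α (Finset.mem_univ i)⟩
  refine hF (fun t => v t i k) (Finset.univ.image α)
    (fun t ht => (deriv_coord h i k ht).continuousWithinAt) ?_ hne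
  rw [Metric.tendsto_atTop] at hfi ⊢
  intro ε hε
  obtain ⟨T, hT⟩ := hfi ((ε ^ 2) ^ N) (by positivity)
  refine ⟨T, fun t ht => ?_⟩
  have h1 := hT t ht
  rw [Real.dist_eq, sub_zero, abs_of_nonneg (hf0 _), hfe] at h1
  rw [Real.dist_eq, sub_zero, abs_of_nonneg Metric.infDist_nonneg]
  have h2 : (Metric.infDist (v t i k) ((Finset.univ.image α : Finset ℝ) : Set ℝ) ^ 2) ^ N ≤
      ∏ l, (v t i k - α l) ^ 2 := by
    have h3 : (Metric.infDist (v t i k) ((Finset.univ.image α : Finset ℝ) : Set ℝ) ^ 2) ^ N =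
        ∏ _l : Fin N, Metric.infDist (v t i k) ((Finset.univ.image α : Finset ℝ) : Set ℝ) ^ 2 := by
      rw [Finset.prod_const, Finset.card_univ, Fintype.card_fin]
    rw [h3]
    refine Finset.prod_le_prod (fun l _ => sq_nonneg _) fun l _ => ?_
    have h4 : Metric.infDist (v t i k) ((Finset.univ.image α : Finset ℝ) : Set ℝ) ≤
        dist (v t i k) (α l) := Metric.infDist_le_dist_of_mem (by simp)
    rw [Real.dist_eq] at h4
    rw [← sq_abs (v t i k - α l)]
    exact pow_le_pow_left₀ Metric.infDist_nonneg h4 2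
  have h5 := lt_of_pow_lt_pow_left₀ N (by positivity) (h2.trans_lt h1)
  exact lt_of_pow_lt_pow_left₀ 2 hε.le h5

end I_CONVX

theorem I_CONV (hE : ENG) (hF : FINS) : CONV := by
  intro n N Φ hΦ x v h
  have h1 : ∀ i k, ∃ c : ℝ, Tendsto (fun t => v t i k) atTop (𝓝 c) := fun i k =>
    I_CONVX.coord_conv hE hF Φ hΦ x v h k i
  choose c hc using h1
  refine ⟨fun i => WithLp.toLp 2 (c i), fun i => ?_⟩
  have h2 : Tendsto (fun t => (fun k => v t i k : Fin n → ℝ)) atTop (𝓝 (c i)) :=
    tendsto_pi_nhds.2 fun k => hc i k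
  exact ((PiLp.continuous_toLp 2 (fun _ : Fin n => ℝ)).tendsto (c i)).comp h2

end Pool.Agent.Work.MP_c9f990_an.Al

end

section

set_option autoImplicit false

/-!
# MP_c9f990_an, block AL, item DET: determinant of the flow
-/

open MeasureTheory Set Filter Topology

namespace Pool.Agent.Work.MP_c9f990_an.Al

theorem I_DET (h1 : LIOU) (h2 : TRF) (h3 : REP) (h4 : FLD) : DET := by
  intro n N Φ R hΦ φ M hφ z hz t ht
  obtain ⟨hC, -⟩ := h4 n N Φ R hΦ
  obtain ⟨hR, -⟩ := h3 n N Φ R hΦ φ M hφ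
  obtain ⟨hke, -⟩ := hR z hz
  rw [h1 (P N n) (fld Φ R) φ M hφ hC z t]
  congr 1
  rw [← intervalIntegral.integral_const_mul]
  apply intervalIntegral.integral_congr
  intro s hs
  rw [uIcc_of_le ht] at hs
  have := hke s hs.1
  exact h2 n N Φ R hΦ (φ s z) (by linarith)

end Pool.Agent.Work.MP_c9f990_an.Al

end

section

set_option autoImplicit false

/-!
# MP_c9f990_an: duration of the growth of an integral
-/

open MeasureTheory Set Filter Topology
open scoped NNReal ENNReal

namespace Pool.Agent.Work.MP_c9f990_an.Al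

theorem I_DUR : DUR := by
  intro a A ha h0 hA hAp hnb J hJ
  have hint : ∀ s t : ℝ, IntervalIntegrable a volume s t := fun s t => ha.intervalIntegrable s t
  have hcont : Continuous (fun t : ℝ => ∫ s in (0 : ℝ)..t, a s) :=
    intervalIntegral.continuous_primitive hint 0
  have hsub : ∀ s t : ℝ, (∫ r in (0 : ℝ)..t, a r) - (∫ r in (0 : ℝ)..s, a r) = ∫ r in s..t, a r :=
    fun s t => intervalIntegral.integral_interval_sub_left (hint 0 t) (hint 0 s)
  have hmono : ∀ s t : ℝ, s ≤ t → (∫ r in (0 : ℝ)..s, a r) ≤ ∫ r in (0 : ℝ)..t, a r := by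
    intro s t hst
    have h1 : 0 ≤ ∫ r in s..t, a r := intervalIntegral.integral_nonneg hst fun r _ => h0 r
    have h2 := hsub s t
    linarith
  have hlip : ∀ s t : ℝ, s ≤ t → (∫ r in (0 : ℝ)..t, a r) - (∫ r in (0 : ℝ)..s, a r) ≤
      A * (t - s) := by
    intro s t hst
    rw [hsub s t]
    have h1 : ∫ r in s..t, a r ≤ ∫ _ in s..t, A :=
      intervalIntegral.integral_mono_on hst (hint s t) (by simp) fun r _ => hA r
    rw [intervalIntegral.integral_const, smul_eq_mul] at h1
    linarith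
  obtain ⟨T, hT0, hT⟩ : ∃ T : ℝ, 0 ≤ T ∧ J + 1 < ∫ s in (0 : ℝ)..T, a s := by
    unfold BddInt at hnb
    push Not at hnb
    exact hnb (J + 1)
  have hz : (∫ s in (0 : ℝ)..0, a s) = 0 := intervalIntegral.integral_same
  obtain ⟨t1, ht1, h1⟩ := intermediate_value_Icc hT0 hcont.continuousOn
    (show J ∈ Icc (∫ s in (0 : ℝ)..0, a s) (∫ s in (0 : ℝ)..T, a s) from
      ⟨by rw [hz]; exact hJ, by linarith⟩)
  simp only at h1
  obtain ⟨t2, ht2, h2⟩ := intermediate_value_Icc ht1.2 hcont.continuousOn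
    (show J + 1 ∈ Icc (∫ s in (0 : ℝ)..t1, a s) (∫ s in (0 : ℝ)..T, a s) from
      ⟨by rw [h1]; linarith, hT.le⟩)
  simp only at h2
  have h3 := hlip t1 t2 ht2.1
  rw [h1, h2] at h3
  have h4 : 1 / A ≤ t2 - t1 := by
    rw [div_le_iff₀ hAp]
    linarith
  calc ENNReal.ofReal (1 / A) ≤ ENNReal.ofReal (t2 - t1) := ENNReal.ofReal_le_ofReal h4
    _ = volume (Icc t1 t2) := by rw [Real.volume_Icc]
    _ ≤ volume {t : ℝ | 0 ≤ t ∧ (∫ s in (0 : ℝ)..t, a s) ∈ Icc J (J + 1)} := by
        apply measure_mono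
        intro t ht
        refine ⟨ht1.1.trans ht.1, ?_, ?_⟩
        · rw [← h1]; exact hmono t1 t ht.1
        · rw [← h2]; exact hmono t t2 ht.2

end Pool.Agent.Work.MP_c9f990_an.Al

end

section

set_option autoImplicit false

/-!
# MP_c9f990_an: the energy inequality
-/

open MeasureTheory Set Filter Topology

namespace Pool.Agent.Work.MP_c9f990_an.Al

namespace I_ENGX

variable {N n : ℕ}

/-- the dissipation -/
noncomputable def dis (Φ : E n → ℝ) (x v : C N n) : ℝ :=
  (N : ℝ)⁻¹ * ∑ i, ∑ j, Φ (x i - x j) * ‖v i - v j‖ ^ 2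

lemma dis_nonneg (Φ : E n → ℝ) (hΦ : Kernel Φ) (x v : C N n) : 0 ≤ dis Φ x v := by
  unfold dis
  refine mul_nonneg (by positivity) (Finset.sum_nonneg fun i _ => Finset.sum_nonneg fun j _ => ?_)
  exact mul_nonneg (hΦ.nonneg _) (by positivity)

lemma alg (Φ : E n → ℝ) (hΦ : Kernel Φ) (x v : C N n) :
    ∑ i, 2 * inner ℝ (v i) (force Φ (x, v) i) = -dis Φ x v := by
  have hs : ∀ i j, Φ (x i - x j) = Φ (x j - x i) := by
    intro i j
    rw [← hΦ.even (x j - x i), neg_sub]
  have h1 : ∑ i, 2 * inner ℝ (v i) (force Φ (x, v) i) =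
      (N : ℝ)⁻¹ * ∑ i, ∑ j, 2 * (Φ (x i - x j) * inner ℝ (v i) (v j - v i)) := by
    rw [Finset.mul_sum]
    refine Finset.sum_congr rfl fun i _ => ?_
    simp only [force]
    rw [inner_smul_right, inner_sum, ← Finset.mul_sum]
    simp only [inner_smul_right]
    ring
  have h2 : ∑ i, ∑ j, Φ (x i - x j) * inner ℝ (v i) (v j - v i) =
      ∑ i, ∑ j, Φ (x i - x j) * inner ℝ (v j) (v i - v j) := by
    rw [Finset.sum_comm]
    refine Finset.sum_congr rfl fun i _ => Finset.sum_congr rfl fun j _ => ?_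
    rw [hs j i]
  have h3 : ∑ i, ∑ j, 2 * (Φ (x i - x j) * inner ℝ (v i) (v j - v i)) =
      ∑ i, ∑ j, Φ (x i - x j) * inner ℝ (v i) (v j - v i) +
        ∑ i, ∑ j, Φ (x i - x j) * inner ℝ (v j) (v i - v j) := by
    rw [← h2, ← two_mul]
    simp only [Finset.mul_sum]
  rw [h1, h3, ← Finset.sum_add_distrib, dis, ← mul_neg, ← Finset.sum_neg_distrib]
  congr 1
  refine Finset.sum_congr rfl fun i _ => ?_
  rw [← Finset.sum_add_distrib, ← Finset.sum_neg_distrib]
  refine Finset.sum_congr rfl fun j _ => ?_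
  have h4 : ‖v i - v j‖ ^ 2 = -(inner ℝ (v i) (v j - v i) + inner ℝ (v j) (v i - v j)) := by
    rw [← real_inner_self_eq_norm_sq, inner_sub_left, ← neg_sub (v i) (v j), inner_neg_right]
    ring
  rw [h4]
  ring

lemma deriv_ke (Φ : E n → ℝ) (hΦ : Kernel Φ) (x v : ℝ → C N n) (h : IsFlock Φ x v) (t : ℝ)
    (ht : 0 ≤ t) : HasDerivWithinAt (fun s => ke (v s)) (-dis Φ (x t) (v t)) (Ici 0) t := by
  have h1 := (h t ht).2
  rw [hasDerivWithinAt_pi] at h1
  rw [← alg Φ hΦ (x t) (v t)]
  unfold ke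
  have h2 := HasDerivWithinAt.fun_sum (u := Finset.univ) fun i _ => (h1 i).norm_sq
  exact h2

lemma cont_v (Φ : E n → ℝ) (x v : ℝ → C N n) (h : IsFlock Φ x v) : ContinuousOn v (Ici 0) :=
  fun t ht => (h t ht).2.continuousWithinAt

lemma cont_x (Φ : E n → ℝ) (x v : ℝ → C N n) (h : IsFlock Φ x v) : ContinuousOn x (Ici 0) :=
  fun t ht => (h t ht).1.continuousWithinAt

lemma cont_dis (Φ : E n → ℝ) (hΦ : Kernel Φ) (x v : ℝ → C N n) (h : IsFlock Φ x v) :
    ContinuousOn (fun t => dis Φ (x t) (v t)) (Ici 0) := by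
  have hx := continuousOn_pi.1 (cont_x Φ x v h)
  have hv := continuousOn_pi.1 (cont_v Φ x v h)
  unfold dis
  refine continuousOn_const.mul (continuousOn_finsetSum _ fun i _ =>
    continuousOn_finsetSum _ fun j _ => ?_)
  refine ContinuousOn.mul ?_ ?_
  · exact hΦ.smooth.continuous.comp_continuousOn ((hx i).sub (hx j))
  · exact (((hv i).sub (hv j)).norm).pow 2

lemma main (Φ : E n → ℝ) (hΦ : Kernel Φ) (x v : ℝ → C N n) (h : IsFlock Φ x v) (s t : ℝ)
    (hs : 0 ≤ s) (hst : s ≤ t) :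
    ∫ r in s..t, dis Φ (x r) (v r) = ke (v s) - ke (v t) := by
  have hsub : Icc s t ⊆ Ici (0 : ℝ) := fun r hr => hs.trans hr.1
  have h1 : ∫ r in s..t, -dis Φ (x r) (v r) = ke (v t) - ke (v s) := by
    apply intervalIntegral.integral_eq_sub_of_hasDeriv_right_of_le (f := fun s => ke (v s)) hst
    · intro r hr
      exact ((deriv_ke Φ hΦ x v h r (hsub hr)).continuousWithinAt).mono hsub
    · intro r hr
      exact (deriv_ke Φ hΦ x v h r (hs.trans hr.1.le)).mono fun q hq =>
        (hs.trans hr.1.le).trans (le_of_lt hq)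
    · apply ContinuousOn.intervalIntegrable
      rw [uIcc_of_le hst]
      exact ((cont_dis Φ hΦ x v h).mono hsub).neg
  rw [intervalIntegral.integral_neg] at h1
  linarith

end I_ENGX

open I_ENGX in
theorem I_ENG : ENG := by
  intro n N Φ hΦ x v h
  constructor
  · intro s t hs hst
    have h1 := main Φ hΦ x v h s t hs hst
    have h2 : 0 ≤ ∫ r in s..t, dis Φ (x r) (v r) :=
      intervalIntegral.integral_nonneg hst fun r _ => dis_nonneg Φ hΦ _ _
    linarith
  · intro T hT
    have h1 := main Φ hΦ x v h 0 T le_rfl hT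
    have h2 : 0 ≤ ke (v T) := by
      unfold ke
      positivity
    unfold dis at h1
    rw [h1]
    linarith

end Pool.Agent.Work.MP_c9f990_an.Al

end

section

set_option autoImplicit false

/-!
# MP_c9f990_an, item EQV: the flow commutes with the lattice translations
-/

open MeasureTheory Set Filter Topology

namespace Pool.Agent.Work.MP_c9f990_an.Al

namespace I_EQVX

variable {N n : ℕ}

lemma lat_sub (a b : Fin n → ℤ) : lat a - lat b = lat (a - b) := by
  unfold lat
  ext k
  simp [mul_sub]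

lemma force_shift (Φ : E n → ℝ) (hΦ : Kernel Φ) (m : Fin N → Fin n → ℤ) (z : P N n) :
    force Φ (z + (latC m, 0)) = force Φ z := by
  funext i
  unfold force
  congr 1
  apply Finset.sum_congr rfl
  intro j _
  have h1 : (z + ((latC m, 0) : P N n)).1 i - (z + ((latC m, 0) : P N n)).1 j =
      (z.1 i - z.1 j) + lat (m i - m j) := by
    rw [← lat_sub]
    show (z.1 i + lat (m i)) - (z.1 j + lat (m j)) = _
    abel
  have h2 : ∀ l, (z + ((latC m, 0) : P N n)).2 l = z.2 l := by
    intro l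
    show z.2 l + 0 = z.2 l
    rw [add_zero]
  rw [h1, hΦ.per, h2, h2]

lemma fld_shift (Φ : E n → ℝ) (R : ℝ) (hΦ : Kernel Φ) (m : Fin N → Fin n → ℤ) (z : P N n) :
    fld Φ R (z + (latC m, 0)) = fld Φ R z := by
  have h2 : (z + ((latC m, 0) : P N n)).2 = z.2 := by
    show z.2 + 0 = z.2
    rw [add_zero]
  unfold fld
  rw [force_shift Φ hΦ m z, h2]

end I_EQVX

open I_EQVX in
theorem I_EQV : EQV := by
  intro n N Φ R hΦ φ M hF m
  set g : P N n := (latC m, 0) with hg
  have fwd : ∀ (t : ℝ), 0 ≤ t → ∀ z : P N n, φ t (z + g) = φ t z + g := by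
    intro t ht z
    have h := hF.uniq (fun s => φ s z + g) (by
      intro s _
      have h1 : HasDerivAt (fun s => φ s z + g) (fld Φ R (φ s z)) s := (hF.ode z s).add_const g
      have h2 : fld Φ R (φ s z + g) = fld Φ R (φ s z) := fld_shift Φ R hΦ m (φ s z)
      show HasDerivWithinAt (fun s => φ s z + g) (fld Φ R (φ s z + g)) (Ici 0) s
      rw [h2]
      exact h1.hasDerivWithinAt) t ht
    have h0 : φ 0 z + g = z + g := by rw [hF.zero]
    simp only [h0] at h
    exact h.symm
  intro t z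
  by_cases ht : 0 ≤ t
  · exact fwd t ht z
  · have hs : 0 ≤ -t := by linarith
    have h1 : φ (-t) (φ t z + g) = z + g := by
      rw [fwd (-t) hs, ← hF.add, neg_add_cancel, hF.zero]
    rw [← h1, ← hF.add, add_neg_cancel, hF.zero]

end Pool.Agent.Work.MP_c9f990_an.Al

end

section

set_option autoImplicit false

/-!
# MP_c9f990_an: item FINS
-/

open MeasureTheory Set Filter Topology

namespace Pool.Agent.Work.MP_c9f990_an.Al

theorem I_FINS : FINS := by
  intro a S hcont hdist hne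
  have hne' : (S : Set ℝ).Nonempty := hne
  refine tendsto_of_no_upcrossings dense_univ ?_ ?_ ?_
  · rintro p - q - hpq ⟨h1, h2⟩
    -- a point between `p` and `q` outside of `S`
    have hinf : (Ioo p q).Infinite := Ioo_infinite hpq
    obtain ⟨c, hc, hcS⟩ := hinf.exists_notMem_finset S
    have hpos : 0 < Metric.infDist c (S : Set ℝ) :=
      (S.finite_toSet.isClosed.notMem_iff_infDist_pos hne').1 hcS
    have hev := (Metric.tendsto_nhds.1 hdist) _ hpos
    obtain ⟨T, hT⟩ := eventually_atTop.1 (hev.and (eventually_ge_atTop (0 : ℝ)))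
    obtain ⟨t1, ht1, hlt⟩ := (frequently_atTop.1 h1) T
    obtain ⟨t2, ht2, hgt⟩ := (frequently_atTop.1 h2) t1
    have hsub : Icc t1 t2 ⊆ Ici 0 := fun t ht => (hT T le_rfl).2.trans (ht1.trans ht.1)
    have hivt := intermediate_value_Icc ht2 (hcont.mono hsub)
    obtain ⟨t, ht, hat⟩ := hivt ⟨(hlt.trans hc.1).le, (hc.2.trans hgt).le⟩
    have h3 := (hT t (ht1.trans ht.1)).1
    rw [Real.dist_eq, sub_zero, hat, abs_of_pos hpos] at h3
    exact lt_irrefl _ h3
  · obtain ⟨B, hB⟩ := S.finite_toSet.isBounded.subset_closedBall 0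
    refine ⟨B + 1, ?_⟩
    rw [eventually_map]
    have hev := (Metric.tendsto_nhds.1 hdist) 1 one_pos
    filter_upwards [hev] with t ht
    rw [Real.dist_eq, sub_zero] at ht
    obtain ⟨y, hy, hyt⟩ := (Metric.infDist_lt_iff hne').1 ((le_abs_self _).trans_lt ht)
    have h4 : |y| ≤ B := by simpa using hB hy
    rw [Real.dist_eq] at hyt
    have h5 := abs_lt.1 hyt
    have h6 := abs_le.1 h4
    linarith
  · obtain ⟨B, hB⟩ := S.finite_toSet.isBounded.subset_closedBall 0
    refine ⟨-B - 1, ?_⟩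
    rw [eventually_map]
    have hev := (Metric.tendsto_nhds.1 hdist) 1 one_pos
    filter_upwards [hev] with t ht
    rw [Real.dist_eq, sub_zero] at ht
    obtain ⟨y, hy, hyt⟩ := (Metric.infDist_lt_iff hne').1 ((le_abs_self _).trans_lt ht)
    have h4 : |y| ≤ B := by simpa using hB hy
    rw [Real.dist_eq] at hyt
    have h5 := abs_lt.1 hyt
    have h6 := abs_le.1 h4
    linarith

end Pool.Agent.Work.MP_c9f990_an.Al

end

section

set_option autoImplicit false

/-!
# MP_c9f990_an, item FLOW: the complete `C^1` flow of a `C^1` Lipschitz vector field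
-/

open MeasureTheory Set Filter Topology
open scoped NNReal ENNReal

namespace Pool.Agent.Work.MP_c9f990_an.Al

namespace I_FLOWX

/-- a convenient form of the bound of Gronwall -/
theorem gron_le {δ K ε x : ℝ} (hK : 0 ≤ K) (hε : 0 ≤ ε) :
    gronwallBound δ K ε x ≤ (δ + ε * x) * Real.exp (K * x) := by
  rcases hK.eq_or_lt with h | h
  · subst h
    rw [gronwallBound_K0, zero_mul, Real.exp_zero, mul_one]
  · rw [gronwallBound_of_K_ne_0 h.ne']
    have h1 : Real.exp (K * x) - 1 ≤ K * x * Real.exp (K * x) := by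
      have h2 := Real.add_one_le_exp (-(K * x))
      rw [Real.exp_neg] at h2
      have h3 := Real.exp_pos (K * x)
      have h4 : (-(K * x) + 1) * Real.exp (K * x) ≤ 1 := by
        have h5 := mul_le_mul_of_nonneg_right h2 h3.le
        rwa [inv_mul_cancel₀ h3.ne'] at h5
      nlinarith
    have h2 : ε / K * (Real.exp (K * x) - 1) ≤ ε / K * (K * x * Real.exp (K * x)) :=
      mul_le_mul_of_nonneg_left h1 (div_nonneg hε hK)
    have h3 : ε / K * (K * x * Real.exp (K * x)) = ε * x * Real.exp (K * x) := by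
      field_simp
    simp only
    rw [h3] at h2
    linarith

section

variable {V : Type*} [NormedAddCommGroup V] [NormedSpace ℝ V]

/-- Gronwall, forward -/
theorem gronF {u u' : ℝ → V} {K ε T : ℝ} (hu : ∀ t, HasDerivAt u (u' t) t) (hK : 0 ≤ K)
    (hε : 0 ≤ ε) (h : ∀ t, 0 ≤ t → t ≤ T → ‖u' t‖ ≤ K * ‖u t‖ + ε) {t : ℝ} (ht0 : 0 ≤ t)
    (ht : t ≤ T) : ‖u t‖ ≤ (‖u 0‖ + ε * t) * Real.exp (K * t) := by
  have h1 := norm_le_gronwallBound_of_norm_deriv_right_le (f := u) (f' := u') (δ := ‖u 0‖)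
    (K := K) (ε := ε) (a := 0) (b := t)
    (fun s _ => (hu s).continuousAt.continuousWithinAt)
    (fun s _ => (hu s).hasDerivWithinAt) le_rfl
    (fun s hs => h s hs.1 (hs.2.le.trans ht)) t ⟨ht0, le_rfl⟩
  rw [sub_zero] at h1
  exact h1.trans (gron_le hK hε)

/-- Gronwall, both directions -/
theorem gron {u u' : ℝ → V} {K ε T : ℝ} (hu : ∀ t, HasDerivAt u (u' t) t) (hK : 0 ≤ K)
    (hε : 0 ≤ ε) (h : ∀ t, |t| ≤ T → ‖u' t‖ ≤ K * ‖u t‖ + ε) {t : ℝ} (ht : |t| ≤ T) :
    ‖u t‖ ≤ (‖u 0‖ + ε * |t|) * Real.exp (K * |t|) := by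
  rcases le_total 0 t with h0 | h0
  · rw [abs_of_nonneg h0] at ht ⊢
    exact gronF hu hK hε (fun s hs0 hs => h s (by rwa [abs_of_nonneg hs0])) h0 ht
  · have h1 : ∀ s, HasDerivAt (fun r => u (-r)) (-u' (-s)) s := by
      intro s
      have h2 := (hu (-s)).scomp s (hasDerivAt_neg s)
      rw [neg_smul, one_smul] at h2
      exact h2
    have h2 := gronF (u := fun r => u (-r)) (u' := fun s => -u' (-s)) (K := K) (ε := ε)
      (T := T) h1 hK hε (fun s hs0 hs => by
        rw [norm_neg]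
        exact h (-s) (by rwa [abs_neg, abs_of_nonneg hs0])) (t := -t) (by linarith)
      (by rwa [abs_of_nonpos h0] at ht)
    rw [abs_of_nonpos h0]
    simpa using h2

/-- Gronwall, uniform -/
theorem gronT {u u' : ℝ → V} {K ε T : ℝ} (hu : ∀ t, HasDerivAt u (u' t) t) (hK : 0 ≤ K)
    (hε : 0 ≤ ε) (h : ∀ t, |t| ≤ T → ‖u' t‖ ≤ K * ‖u t‖ + ε) {t : ℝ} (ht : |t| ≤ T) :
    ‖u t‖ ≤ (‖u 0‖ + ε * T) * Real.exp (K * T) := by
  refine (gron hu hK hε h ht).trans ?_
  have h1 : Real.exp (K * |t|) ≤ Real.exp (K * T) :=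
    Real.exp_le_exp.2 (mul_le_mul_of_nonneg_left ht hK)
  have h2 : ‖u 0‖ + ε * |t| ≤ ‖u 0‖ + ε * T := by
    have := mul_le_mul_of_nonneg_left ht hε
    linarith
  exact mul_le_mul h2 h1 (Real.exp_pos _).le
    (by have := mul_nonneg hε ((abs_nonneg t).trans ht); positivity)

end

/-- joint continuity -/
theorem joint {Z Y : Type*} [PseudoMetricSpace Z] [PseudoMetricSpace Y] {f : ℝ → Z → Y}
    (h1 : ∀ z, Continuous (fun t => f t z))
    (h2 : ∀ z0 T ε, 0 < ε → ∀ᶠ z in 𝓝 z0, ∀ t, |t| ≤ T → dist (f t z) (f t z0) ≤ ε) :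
    Continuous (fun p : ℝ × Z => f p.1 p.2) := by
  rw [continuous_iff_continuousAt]
  rintro ⟨t0, z0⟩
  rw [ContinuousAt, Metric.tendsto_nhds]
  intro ε hε
  have e1 := h2 z0 (|t0| + 1) (ε / 3) (by linarith)
  have e2 : ∀ᶠ t in 𝓝 t0, dist (f t z0) (f t0 z0) < ε / 3 :=
    (Metric.tendsto_nhds.1 (h1 z0).continuousAt) _ (by linarith)
  have e3 : ∀ᶠ t in 𝓝 t0, |t| < |t0| + 1 :=
    continuous_abs.continuousAt.eventually_lt_const (by simp)
  have e4 : ∀ᶠ p : ℝ × Z in 𝓝 (t0, z0), (dist (f p.1 z0) (f t0 z0) < ε / 3 ∧ |p.1| < |t0| + 1) ∧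
      ∀ t, |t| ≤ |t0| + 1 → dist (f t p.2) (f t z0) ≤ ε / 3 := by
    rw [nhds_prod_eq]
    exact (e2.and e3).prod_mk e1
  filter_upwards [e4] with p hp
  obtain ⟨⟨h3, h4⟩, h5⟩ := hp
  have h6 := h5 p.1 h4.le
  have h7 := dist_triangle (f p.1 p.2) (f p.1 z0) (f t0 z0)
  linarith

section

variable {Q : Type} [NormedAddCommGroup Q] [NormedSpace ℝ Q] {F : Q → Q} {L : ℝ≥0}

/-- Lipschitz dependence on the initial point -/
theorem lip (hL : LipschitzWith L F) {φ : ℝ → Q → Q} (h0 : ∀ z, φ 0 z = z)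
    (ho : ∀ z t, HasDerivAt (fun s => φ s z) (F (φ t z)) t) {T t : ℝ} (ht : |t| ≤ T) (z z' : Q) :
    ‖φ t z - φ t z'‖ ≤ ‖z - z'‖ * Real.exp (L * T) := by
  have h1 := gronT (u := fun s => φ s z - φ s z') (u' := fun s => F (φ s z) - F (φ s z'))
    (K := L) (ε := 0) (T := T) (fun s => (ho z s).sub (ho z' s)) L.2 le_rfl
    (fun s _ => by
      rw [add_zero]
      exact hL.norm_sub_le _ _) ht
  simp only [h0, zero_mul, add_zero] at h1
  exact h1

theorem contφ (hL : LipschitzWith L F) {φ : ℝ → Q → Q} (h0 : ∀ z, φ 0 z = z)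
    (ho : ∀ z t, HasDerivAt (fun s => φ s z) (F (φ t z)) t) :
    Continuous (fun p : ℝ × Q => φ p.1 p.2) := by
  apply joint (fun z => continuous_iff_continuousAt.2 fun t => (ho z t).continuousAt)
  intro z0 T ε hε
  have h1 : ∀ᶠ z in 𝓝 z0, ‖z - z0‖ * Real.exp (L * T) < ε := by
    have h2 : Tendsto (fun z => ‖z - z0‖ * Real.exp (L * T)) (𝓝 z0) (𝓝 0) := by
      have h3 : Continuous (fun z => ‖z - z0‖ * Real.exp (L * T)) := by fun_prop
      have h4 := h3.tendsto z0
      simpa using h4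
    exact h2.eventually_lt_const hε
  filter_upwards [h1] with z hz t ht
  rw [dist_eq_norm]
  exact (lip hL h0 ho ht z z0).trans hz.le

/-- the derivative of the field varies little, uniformly along a compact piece of an orbit -/
theorem derNear (hF : ContDiff ℝ 1 F) {g : ℝ → Q} (hg : Continuous g) (T η : ℝ) (hη : 0 < η) :
    ∃ δ > 0, ∀ s, |s| ≤ T → ∀ y, ‖y - g s‖ < δ → ‖fderiv ℝ F y - fderiv ℝ F (g s)‖ ≤ η := by
  have hc : Continuous (fderiv ℝ F) := hF.continuous_fderiv one_ne_zero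
  have h1 : ∀ᶠ k in 𝓝 (0 : Q), ∀ s ∈ Icc (-T) T,
      ‖fderiv ℝ F (g s + k) - fderiv ℝ F (g s)‖ < η := by
    refine isCompact_Icc.eventually_forall_of_forall_eventually
      (P := fun k s => ‖fderiv ℝ F (g s + k) - fderiv ℝ F (g s)‖ < η) fun s _ => ?_
    have h2 : Continuous (fun p : Q × ℝ => ‖fderiv ℝ F (g p.2 + p.1) - fderiv ℝ F (g p.2)‖) :=
      ((hc.comp ((hg.comp continuous_snd).add continuous_fst)).sub
        (hc.comp (hg.comp continuous_snd))).norm
    have h3 := h2.tendsto ((0 : Q), s)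
    simp only [add_zero, sub_self, norm_zero] at h3
    exact h3.eventually_lt_const hη
  obtain ⟨δ, hδ, h2⟩ := Metric.eventually_nhds_iff.1 h1
  refine ⟨δ, hδ, fun s hs y hy => ?_⟩
  have h3 := h2 (y := y - g s) (by rwa [dist_zero_right]) s (abs_le.1 hs)
  rw [add_sub_cancel] at h3
  exact h3.le

/-- the derivative of the flow -/
theorem diffφ (hL : LipschitzWith L F) (hF : ContDiff ℝ 1 F) {φ : ℝ → Q → Q}
    {M : ℝ → Q → Q →L[ℝ] Q} (h0 : ∀ z, φ 0 z = z)
    (ho : ∀ z t, HasDerivAt (fun s => φ s z) (F (φ t z)) t)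
    (hM0 : ∀ z, M 0 z = ContinuousLinearMap.id ℝ Q)
    (hMo : ∀ z t, HasDerivAt (fun s => M s z) ((fderiv ℝ F (φ t z)).comp (M t z)) t)
    (t : ℝ) (z : Q) : HasFDerivAt (φ t) (M t z) z := by
  rw [hasFDerivAt_iff_isLittleO_nhds_zero, Asymptotics.isLittleO_iff]
  intro c hc
  obtain ⟨T, hT⟩ : ∃ T, T = |t| := ⟨_, rfl⟩
  have hT0 : 0 ≤ T := by rw [hT]; exact abs_nonneg t
  obtain ⟨B, hB⟩ : ∃ B, B = Real.exp ((L : ℝ) * T) := ⟨_, rfl⟩
  have hB0 : 0 < B := by rw [hB]; exact Real.exp_pos _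
  obtain ⟨η, hη⟩ : ∃ η, η = c / (B * B * (T + 1)) := ⟨_, rfl⟩
  have hη0 : 0 < η := by rw [hη]; positivity
  have hcφ : Continuous (fun s => φ s z) :=
    continuous_iff_continuousAt.2 fun s => (ho z s).continuousAt
  obtain ⟨δ, hδ, h1⟩ := derNear hF hcφ T η hη0
  have h2 : ∀ᶠ h in 𝓝 (0 : Q), ‖h‖ < δ / B := by
    have h3 := (continuous_norm (E := Q)).tendsto 0
    rw [norm_zero] at h3
    exact h3.eventually_lt_const (div_pos hδ hB0)
  filter_upwards [h2] with h hh
  have hhB : ‖h‖ * B < δ := by rwa [lt_div_iff₀ hB0] at hh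
  have hsm : ∀ s, |s| ≤ T → ‖φ s (z + h) - φ s z‖ ≤ ‖h‖ * B := by
    intro s hs
    have h3 := lip hL h0 ho hs (z + h) z
    rwa [add_sub_cancel_left, ← hB] at h3
  have h3 := gronT (u := fun s => φ s (z + h) - φ s z - M s z h)
    (u' := fun s => F (φ s (z + h)) - F (φ s z) - ((fderiv ℝ F (φ s z)).comp (M s z)) h)
    (K := L) (ε := η * (‖h‖ * B)) (T := T)
    (fun s => ((ho (z + h) s).sub (ho z s)).sub (by
      have h4 := (hMo z s).clm_apply (hasDerivAt_const s h)
      simpa using h4)) L.2 (by positivity)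
    (fun s hs => by
      have h5 := Convex.norm_image_sub_le_of_norm_fderiv_le' (𝕜 := ℝ) (f := F)
        (C := η) (s := Metric.ball (φ s z) δ) (x := φ s z) (y := φ s (z + h))
        (φ := fderiv ℝ F (φ s z))
        (fun y _ => (hF.differentiable one_ne_zero).differentiableAt)
        (fun y hy => h1 s hs y (by rwa [← dist_eq_norm])) (convex_ball _ _)
        (Metric.mem_ball_self hδ) (by
          rw [Metric.mem_ball, dist_eq_norm]
          exact (hsm s hs).trans_lt hhB)
      have h6 : F (φ s (z + h)) - F (φ s z) - ((fderiv ℝ F (φ s z)).comp (M s z)) h =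
          (F (φ s (z + h)) - F (φ s z) - fderiv ℝ F (φ s z) (φ s (z + h) - φ s z)) +
            fderiv ℝ F (φ s z) (φ s (z + h) - φ s z - M s z h) := by
        rw [map_sub (fderiv ℝ F (φ s z)) (φ s (z + h) - φ s z) (M s z h),
          ContinuousLinearMap.comp_apply]
        abel
      have h7 : ‖fderiv ℝ F (φ s z) (φ s (z + h) - φ s z - M s z h)‖ ≤
          L * ‖φ s (z + h) - φ s z - M s z h‖ :=
        (ContinuousLinearMap.le_opNorm _ _).trans
          (mul_le_mul_of_nonneg_right (norm_fderiv_le_of_lipschitz ℝ hL) (norm_nonneg _))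
      have h8 : η * ‖φ s (z + h) - φ s z‖ ≤ η * (‖h‖ * B) :=
        mul_le_mul_of_nonneg_left (hsm s hs) hη0.le
      rw [h6]
      refine (norm_add_le _ _).trans ?_
      linarith) (t := t) hT.ge
  simp only [h0, hM0, ContinuousLinearMap.id_apply, add_sub_cancel_left, sub_self, norm_zero,
    zero_add] at h3
  rw [← hB] at h3
  refine h3.trans ?_
  have h4 : η * (‖h‖ * B) * T * B = (c * ‖h‖) * (T / (T + 1)) := by
    rw [hη]
    field_simp
  have h5 : T / (T + 1) ≤ 1 := by
    rw [div_le_one (by positivity)]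
    linarith
  rw [h4]
  have h6 : 0 ≤ c * ‖h‖ := by positivity
  nlinarith

/-- continuity of the derivative -/
theorem contM (hL : LipschitzWith L F) (hF : ContDiff ℝ 1 F) {φ : ℝ → Q → Q}
    {M : ℝ → Q → Q →L[ℝ] Q} (h0 : ∀ z, φ 0 z = z)
    (ho : ∀ z t, HasDerivAt (fun s => φ s z) (F (φ t z)) t)
    (hM0 : ∀ z, M 0 z = ContinuousLinearMap.id ℝ Q)
    (hMo : ∀ z t, HasDerivAt (fun s => M s z) ((fderiv ℝ F (φ t z)).comp (M t z)) t) :
    Continuous (fun p : ℝ × Q => M p.1 p.2) := by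
  apply joint (fun z => continuous_iff_continuousAt.2 fun t => (hMo z t).continuousAt)
  intro z0 T' ε hε
  obtain ⟨T, hT⟩ : ∃ T, T = |T'| := ⟨_, rfl⟩
  have hT0 : 0 ≤ T := by rw [hT]; exact abs_nonneg T'
  have hTT : T' ≤ T := by rw [hT]; exact le_abs_self T'
  obtain ⟨B, hB⟩ : ∃ B, B = Real.exp ((L : ℝ) * T) := ⟨_, rfl⟩
  have hB0 : 0 < B := by rw [hB]; exact Real.exp_pos _
  obtain ⟨η, hη⟩ : ∃ η, η = ε / (B * B * (T + 1)) := ⟨_, rfl⟩
  have hη0 : 0 < η := by rw [hη]; positivity
  have hMb : ∀ s, |s| ≤ T → ‖M s z0‖ ≤ B := by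
    intro s hs
    have h1 := gronT (u := fun s => M s z0)
      (u' := fun s => (fderiv ℝ F (φ s z0)).comp (M s z0)) (K := L) (ε := 0) (T := T)
      (hMo z0) L.2 le_rfl (fun s _ => by
        rw [add_zero]
        exact (ContinuousLinearMap.opNorm_comp_le _ _).trans
          (mul_le_mul_of_nonneg_right (norm_fderiv_le_of_lipschitz ℝ hL) (norm_nonneg _))) hs
    simp only [hM0, zero_mul, add_zero] at h1
    rw [← hB] at h1
    refine h1.trans ?_
    have h2 := ContinuousLinearMap.norm_id_le (𝕜 := ℝ) (E := Q)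
    nlinarith
  have hcφ : Continuous (fun s => φ s z0) :=
    continuous_iff_continuousAt.2 fun s => (ho z0 s).continuousAt
  obtain ⟨δ, hδ, h1⟩ := derNear hF hcφ T η hη0
  have h2 : ∀ᶠ z in 𝓝 z0, ‖z - z0‖ < δ / B := by
    have h3 : Continuous (fun z => ‖z - z0‖) := by fun_prop
    have h4 := h3.tendsto z0
    simp only [sub_self, norm_zero] at h4
    exact h4.eventually_lt_const (div_pos hδ hB0)
  filter_upwards [h2] with z hz t ht
  have hzB : ‖z - z0‖ * B < δ := by rwa [lt_div_iff₀ hB0] at hz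
  have htT : |t| ≤ T := ht.trans hTT
  rw [dist_eq_norm]
  have h3 := gronT (u := fun s => M s z - M s z0)
    (u' := fun s => (fderiv ℝ F (φ s z)).comp (M s z) - (fderiv ℝ F (φ s z0)).comp (M s z0))
    (K := L) (ε := η * B) (T := T) (fun s => (hMo z s).sub (hMo z0 s)) L.2 (by positivity)
    (fun s hs => by
      have h5 : ‖fderiv ℝ F (φ s z) - fderiv ℝ F (φ s z0)‖ ≤ η := by
        apply h1 s hs
        have h6 := lip hL h0 ho hs z z0
        rw [← hB] at h6
        exact h6.trans_lt hzB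
      have h6 : (fderiv ℝ F (φ s z)).comp (M s z) - (fderiv ℝ F (φ s z0)).comp (M s z0) =
          (fderiv ℝ F (φ s z)).comp (M s z - M s z0) +
            (fderiv ℝ F (φ s z) - fderiv ℝ F (φ s z0)).comp (M s z0) := by
        rw [ContinuousLinearMap.comp_sub, ContinuousLinearMap.sub_comp]
        abel
      rw [h6]
      refine (norm_add_le _ _).trans (add_le_add ?_ ?_)
      · exact (ContinuousLinearMap.opNorm_comp_le _ _).trans
          (mul_le_mul_of_nonneg_right (norm_fderiv_le_of_lipschitz ℝ hL) (norm_nonneg _))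
      · exact (ContinuousLinearMap.opNorm_comp_le _ _).trans
          (mul_le_mul h5 (hMb s hs) (norm_nonneg _) hη0.le)) htT
  simp only [hM0, sub_self, norm_zero, zero_add] at h3
  rw [← hB] at h3
  refine h3.trans ?_
  have h4 : η * B * T * B = ε * (T / (T + 1)) := by
    rw [hη]
    field_simp
  have h5 : T / (T + 1) ≤ 1 := by
    rw [div_le_one (by positivity)]
    linarith
  rw [h4]
  nlinarith

end

end I_FLOWX

open I_FLOWX

theorem I_FLOW (hODE : ODE) : FLOW := by
  intro Q _ _ _ F L hL hF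
  have hφ := hODE Q (fun _ => F) (fun _ => L) (hL.continuous.comp continuous_snd)
    continuous_const (fun t x y => hL.norm_sub_le x y)
  choose ψ hψ0 hψ using hφ
  obtain ⟨φ, hφd⟩ : ∃ φ : ℝ → Q → Q, φ = fun t z => ψ z t := ⟨_, rfl⟩
  have h0 : ∀ z, φ 0 z = z := by intro z; rw [hφd]; exact hψ0 z
  have ho : ∀ z t, HasDerivAt (fun s => φ s z) (F (φ t z)) t := by
    intro z t
    rw [hφd]
    exact hψ z t
  have hcφ := contφ hL h0 ho
  have hc : Continuous (fderiv ℝ F) := hF.continuous_fderiv one_ne_zero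
  have hM : ∀ z : Q, ∃ y : ℝ → Q →L[ℝ] Q, y 0 = ContinuousLinearMap.id ℝ Q ∧
      ∀ t, HasDerivAt y ((fderiv ℝ F (φ t z)).comp (y t)) t := by
    intro z
    refine hODE (Q →L[ℝ] Q) (fun t X => (fderiv ℝ F (φ t z)).comp X) (fun _ => L) ?_
      continuous_const ?_ _
    · have h1 : Continuous (fun p : ℝ × (Q →L[ℝ] Q) => fderiv ℝ F (φ p.1 z)) :=
        hc.comp (hcφ.comp (continuous_fst.prodMk continuous_const))
      exact h1.clm_comp continuous_snd
    · intro t x y
      rw [← ContinuousLinearMap.comp_sub]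
      exact (ContinuousLinearMap.opNorm_comp_le _ _).trans
        (mul_le_mul_of_nonneg_right (norm_fderiv_le_of_lipschitz ℝ hL) (norm_nonneg _))
  choose N hN0 hN using hM
  obtain ⟨M, hMd⟩ : ∃ M : ℝ → Q → Q →L[ℝ] Q, M = fun t z => N z t := ⟨_, rfl⟩
  have hM0 : ∀ z, M 0 z = ContinuousLinearMap.id ℝ Q := by intro z; rw [hMd]; exact hN0 z
  have hMo : ∀ z t, HasDerivAt (fun s => M s z) ((fderiv ℝ F (φ t z)).comp (M t z)) t := by
    intro z t
    rw [hMd]
    exact hN z t
  refine ⟨φ, M, ?_⟩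
  exact
    { zero := h0
      ode := ho
      add := by
        intro s t z
        have h1 := ODE_solution_unique_univ (v := fun _ => F) (s := fun _ => univ) (K := L)
          (f := fun r => φ (r + t) z) (g := fun r => φ r (φ t z)) (t₀ := 0)
          (fun _ => hL.lipschitzOnWith)
          (fun r => ⟨(ho z (r + t)).comp_add_const r t, trivial⟩)
          (fun r => ⟨ho (φ t z) r, trivial⟩) (by simp [h0])
        exact congrFun h1 s
      cont := hcφ
      diff := diffφ hL hF h0 ho hM0 hMo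
      M0 := hM0
      Mode := hMo
      Mcont := contM hL hF h0 ho hM0 hMo
      uniq := by
        intro y hy t ht
        have h1 := ODE_solution_unique (v := fun _ => F) (K := L) (f := y)
          (g := fun r => φ r (y 0)) (a := 0) (b := t) (fun _ => hL)
          (fun s hs => ((hy s hs.1).continuousWithinAt).mono Icc_subset_Ici_self)
          (fun s hs => (hy s hs.1).mono (Ici_subset_Ici.2 hs.1))
          (fun s _ => (ho (y 0) s).continuousAt.continuousWithinAt)
          (fun s _ => (ho (y 0) s).hasDerivWithinAt) (by simp [h0])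
        exact h1 ⟨ht, le_rfl⟩ }

end Pool.Agent.Work.MP_c9f990_an.Al

end

section

set_option autoImplicit false

/-!
# MP_c9f990_an: the flux inequality
-/

open MeasureTheory Set Filter Topology
open scoped NNReal ENNReal

namespace Pool.Agent.Work.MP_c9f990_an.Al

namespace I_FLUXX

/-- along one backward orbit the accumulated weight is at most one -/
theorem one_orbit (g : ℝ → ℝ) (hg : Continuous g) (h0 : ∀ t, 0 ≤ g t) (J : ℝ) :
    ∫⁻ t in Ici (0 : ℝ), ENNReal.ofReal (g t) *
      (Icc J (J + 1)).indicator (fun _ => (1 : ℝ≥0∞)) (∫ s in (0 : ℝ)..t, g s) ≤ 1 := by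
  set b : ℝ → ℝ := fun t => ∫ s in (0 : ℝ)..t, g s with hb
  have hder : ∀ t, HasDerivAt b (g t) t := fun t =>
    intervalIntegral.integral_hasDerivAt_right (hg.intervalIntegrable _ _)
      (hg.stronglyMeasurableAtFilter _ _) hg.continuousAt
  have hbc : Continuous b := continuous_iff_continuousAt.2 fun t => (hder t).continuousAt
  set A : Set ℝ := {t | 0 ≤ t ∧ 0 < g t ∧ b t ∈ Icc J (J + 1)} with hA
  have hAm : MeasurableSet A := by
    refine (measurableSet_le measurable_const measurable_id).inter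
      ((measurableSet_lt measurable_const hg.measurable).inter (hbc.measurable measurableSet_Icc))
  have hlt : ∀ s t, s ∈ A → s < t → b s ≠ b t := by
    intro s t hs hst heq
    have h1 : 0 < ∫ x in s..t, g x := intervalIntegral.integral_pos hst hg.continuousOn
      (fun x _ => h0 x) ⟨s, ⟨le_rfl, hst.le⟩, hs.2.1⟩
    have h2 : b t - b s = ∫ x in s..t, g x :=
      intervalIntegral.integral_interval_sub_left (hg.intervalIntegrable _ _)
        (hg.intervalIntegrable _ _)
    linarith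
  have hinj : InjOn b A := by
    intro s hs t ht heq
    rcases lt_trichotomy s t with h | h | h
    · exact absurd heq (hlt s t hs h)
    · exact h
    · exact absurd heq.symm (hlt t s ht h)
  have hcv := lintegral_image_eq_lintegral_abs_deriv_mul hAm
    (fun x _ => (hder x).hasDerivWithinAt) hinj (fun _ => (1 : ℝ≥0∞))
  have hsub : b '' A ⊆ Icc J (J + 1) := by
    rintro _ ⟨t, ht, rfl⟩
    exact ht.2.2
  have hle : ∫⁻ x in A, ENNReal.ofReal |g x| * 1 ≤ 1 := by
    rw [← hcv, setLIntegral_one]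
    refine le_trans (measure_mono hsub) ?_
    rw [Real.volume_Icc]
    simp
  refine le_trans ?_ hle
  rw [← lintegral_indicator measurableSet_Ici, ← lintegral_indicator hAm]
  apply lintegral_mono
  intro t
  by_cases ht : t ∈ Ici (0 : ℝ)
  · rw [indicator_of_mem ht]
    by_cases hbt : b t ∈ Icc J (J + 1)
    · by_cases hgt : 0 < g t
      · rw [indicator_of_mem (show t ∈ A from ⟨ht, hgt, hbt⟩)]
        rw [indicator_of_mem hbt, abs_of_nonneg (h0 t)]
      · have : g t = 0 := le_antisymm (not_lt.1 hgt) (h0 t)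
        rw [this]
        simp
    · rw [indicator_of_notMem hbt]
      simp
  · rw [indicator_of_notMem ht]
    exact zero_le

theorem latC_neg {N n : ℕ} (m : Fin N → Fin n → ℤ) : latC (-m) = -latC m := by
  funext i
  apply (WithLp.equiv 2 (Fin n → ℝ)).injective
  funext k
  simp [latC, lat]

end I_FLUXX

open I_FLUXX in
theorem I_FLUX (hC : CHG) : FLUX := by
  intro n N F φ M hφ heq a ha ha0 hap B S hB hS hBp J δ κ hδ hκ hBS hvol
  have hsf0 : SigmaFinite (volume : Measure (C N n)) := inferInstance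
  have hsf : SigmaFinite (volume : Measure (P N n)) := by
    rw [Measure.volume_eq_prod]
    exact Measure.prod.instSigmaFinite
  set θ : ℝ → P N n → ℝ := fun t z => ∫ s in (0 : ℝ)..t, a (φ s z) with hθ
  have hθc : Continuous (fun p : ℝ × P N n => θ p.1 p.2) := by
    have hf : Continuous (Function.uncurry fun (p : ℝ × P N n) (s : ℝ) => a (φ s p.2)) := by
      apply ha.comp
      exact hφ.cont.comp (Continuous.prodMk continuous_snd (continuous_snd.comp continuous_fst))
    exact intervalIntegral.continuous_parametric_intervalIntegral_of_continuous hf continuous_fst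
  have hinv1 : ∀ t z, φ (-t) (φ t z) = z := by
    intro t z
    rw [← hφ.add, neg_add_cancel, hφ.zero]
  have hinv2 : ∀ t z, φ t (φ (-t) z) = z := by
    intro t z
    rw [← hφ.add, add_neg_cancel, hφ.zero]
  set wB : P N n → ℝ≥0∞ := B.indicator (fun z => ENNReal.ofReal (a z)) with hwB
  set I : Set ℝ := Icc J (J + 1) with hI
  set ind : ℝ → ℝ≥0∞ := I.indicator (fun _ => (1 : ℝ≥0∞)) with hind
  have hindm : Measurable ind := measurable_const.indicator measurableSet_Icc
  have haM : Measurable (fun z => ENNReal.ofReal (a z)) := ha.measurable.ennreal_ofReal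
  have hwBm : Measurable wB := haM.indicator hB
  have hφt : ∀ t, Continuous (φ t) := fun t => hφ.cont.comp (Continuous.prodMk_right t)
  have hθt : ∀ t, Continuous (θ t) := fun t => hθc.comp (Continuous.prodMk_right t)
  set h : ℝ → P N n → ℝ≥0∞ := fun t w => wB (φ (-t) w) * ind (θ t (φ (-t) w)) with hh
  have hhm : ∀ t, Measurable (h t) := fun t =>
    (hwBm.comp (hφt (-t)).measurable).mul
      (hindm.comp ((hθt t).comp (hφt (-t))).measurable)
  have hBiff : ∀ (m : Fin N → Fin n → ℤ) (z : P N n), z + (latC m, 0) ∈ B ↔ z ∈ B := by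
    intro m z
    refine ⟨fun hz => ?_, hBp m z⟩
    have h1 := hBp (-m) _ hz
    have h2 : z + (latC m, 0) + (latC (-m), 0) = z := by
      rw [latC_neg]
      ext1
      · simp
      · simp
    rwa [h2] at h1
  have hwBp : ∀ (m : Fin N → Fin n → ℤ) (z : P N n), wB (z + (latC m, 0)) = wB z := by
    intro m z
    by_cases hz : z ∈ B
    · rw [hwB, indicator_of_mem ((hBiff m z).2 hz), indicator_of_mem hz, hap]
    · rw [hwB, indicator_of_notMem (fun h => hz ((hBiff m z).1 h)), indicator_of_notMem hz]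
  have hθp : ∀ (t : ℝ) (m : Fin N → Fin n → ℤ) (z : P N n), θ t (z + (latC m, 0)) = θ t z := by
    intro t m z
    simp only [hθ]
    congr 1
    funext s
    rw [heq, hap]
  have hhp : ∀ (t : ℝ) (m : Fin N → Fin n → ℤ) (z : P N n), h t (z + (latC m, 0)) = h t z := by
    intro t m z
    simp only [hh]
    rw [heq, hwBp, hθp]
  have hchg : ∀ t, ∫⁻ z in slab N n, h t (φ t z) * ENNReal.ofReal |(M t z).det| =
      ∫⁻ z in slab N n, h t z := fun t => hC n N F φ M hφ heq t (h t) (hhm t) (hhp t)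
  -- lower bound
  have hlow : ENNReal.ofReal (δ * κ) * ∫⁻ z in B ∩ slab N n, ENNReal.ofReal (a z) ≤
      ∫⁻ t in Ici (0 : ℝ), ∫⁻ z in slab N n, h t (φ t z) * ENNReal.ofReal |(M t z).det| := by
    have e1 : ∫⁻ t in Ici (0 : ℝ), ∫⁻ z in slab N n, (wB z * ENNReal.ofReal κ) * ind (θ t z) ≤
        ∫⁻ t in Ici (0 : ℝ), ∫⁻ z in slab N n,
          h t (φ t z) * ENNReal.ofReal |(M t z).det| := by
      apply setLIntegral_mono' measurableSet_Ici
      intro t ht
      apply lintegral_mono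
      intro z
      simp only [hh]
      rw [hinv1]
      by_cases hz : z ∈ B
      · by_cases hi : θ t z ∈ I
        · have hk := (hBS z hz t ht hi).2
          calc (wB z * ENNReal.ofReal κ) * ind (θ t z)
              = wB z * ind (θ t z) * ENNReal.ofReal κ := by ring
            _ ≤ wB z * ind (θ t z) * ENNReal.ofReal |(M t z).det| := by
              gcongr
        · have : ind (θ t z) = 0 := by rw [hind, indicator_of_notMem hi]
          rw [this]
          simp
      · have : wB z = 0 := by rw [hwB, indicator_of_notMem hz]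
        rw [this]
        simp
    refine le_trans ?_ e1
    rw [lintegral_lintegral_swap]
    · have e2 : ∀ z, ∫⁻ t in Ici (0 : ℝ), (wB z * ENNReal.ofReal κ) * ind (θ t z) =
          (wB z * ENNReal.ofReal κ) * volume {t : ℝ | 0 ≤ t ∧ θ t z ∈ I} := by
        intro z
        have hm : Measurable (fun t => ind (θ t z)) :=
          hindm.comp (hθc.comp (Continuous.prodMk_left z)).measurable
        rw [lintegral_const_mul _ hm]
        congr 1
        have hms : MeasurableSet {t : ℝ | θ t z ∈ I} :=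
          (hθc.comp (Continuous.prodMk_left z)).measurable measurableSet_Icc
        have e3 : (fun t => ind (θ t z)) = {t : ℝ | θ t z ∈ I}.indicator (fun _ => 1) := by
          funext t
          rfl
        rw [e3, lintegral_indicator hms, setLIntegral_one, Measure.restrict_apply hms]
        congr 1
        ext t
        simp only [mem_inter_iff, mem_Ici]
        exact and_comm
      simp only [e2]
      have e4 : ∫⁻ z in slab N n, ENNReal.ofReal (δ * κ) * wB z ≤
          ∫⁻ z in slab N n, (wB z * ENNReal.ofReal κ) * volume {t : ℝ | 0 ≤ t ∧ θ t z ∈ I} := by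
        apply lintegral_mono
        intro z
        by_cases hz : z ∈ B
        · have := hvol z hz
          calc ENNReal.ofReal (δ * κ) * wB z
              = (wB z * ENNReal.ofReal κ) * ENNReal.ofReal δ := by
                rw [ENNReal.ofReal_mul hδ]
                ring
            _ ≤ (wB z * ENNReal.ofReal κ) * volume {t : ℝ | 0 ≤ t ∧ θ t z ∈ I} := by
                gcongr
        · have : wB z = 0 := by rw [hwB, indicator_of_notMem hz]
          simp only [this]
          simp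
      refine le_trans (le_of_eq ?_) e4
      rw [lintegral_const_mul _ hwBm]
      congr 1
      rw [hwB, lintegral_indicator hB, Measure.restrict_restrict hB]
    · apply Measurable.aemeasurable
      exact ((hwBm.comp measurable_snd).mul measurable_const).mul
        (hindm.comp hθc.measurable)
  -- upper bound
  have hupp : ∫⁻ t in Ici (0 : ℝ), ∫⁻ z in slab N n, h t z ≤ volume (S ∩ slab N n) := by
    set g : ℝ → P N n → ℝ≥0∞ := fun t w => ENNReal.ofReal (a (φ (-t) w)) *
      ind (∫ s in (0 : ℝ)..t, a (φ (-s) w)) with hg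
    have hgc : Continuous (fun p : ℝ × P N n => ∫ s in (0 : ℝ)..p.1, a (φ (-s) p.2)) := by
      have hf : Continuous (Function.uncurry fun (p : ℝ × P N n) (s : ℝ) => a (φ (-s) p.2)) := by
        apply ha.comp
        exact hφ.cont.comp (Continuous.prodMk (continuous_snd.neg)
          (continuous_snd.comp continuous_fst))
      exact intervalIntegral.continuous_parametric_intervalIntegral_of_continuous hf
        continuous_fst
    have hθb : ∀ t w, θ t (φ (-t) w) = ∫ s in (0 : ℝ)..t, a (φ (-s) w) := by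
      intro t w
      simp only [hθ]
      have e1 : ∀ s, a (φ s (φ (-t) w)) = (fun u => a (φ (-u) w)) (t - s) := by
        intro s
        simp only
        rw [← hφ.add]
        congr 2
        ring
      simp only [e1]
      rw [intervalIntegral.integral_comp_sub_left (fun u => a (φ (-u) w)) t]
      simp
    have e1 : ∫⁻ t in Ici (0 : ℝ), ∫⁻ z in slab N n, h t z ≤
        ∫⁻ t in Ici (0 : ℝ), ∫⁻ z in slab N n, S.indicator (fun _ => (1 : ℝ≥0∞)) z * g t z := by
      apply setLIntegral_mono' measurableSet_Ici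
      intro t ht
      apply lintegral_mono
      intro w
      simp only [hh, hg]
      rw [← hθb]
      by_cases hz : φ (-t) w ∈ B
      · by_cases hi : θ t (φ (-t) w) ∈ I
        · have hk := (hBS _ hz t ht hi).1
          rw [hinv2] at hk
          rw [indicator_of_mem hk, one_mul, hwB, indicator_of_mem hz]
        · have : ind (θ t (φ (-t) w)) = 0 := by rw [hind, indicator_of_notMem hi]
          rw [this]
          simp
      · have : wB (φ (-t) w) = 0 := by rw [hwB, indicator_of_notMem hz]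
        rw [this]
        simp
    refine le_trans e1 ?_
    rw [lintegral_lintegral_swap]
    · have e2 : ∀ z : P N n, ∫⁻ t in Ici (0 : ℝ), S.indicator (fun _ => (1 : ℝ≥0∞)) z * g t z ≤
          S.indicator (fun _ => (1 : ℝ≥0∞)) z := by
        intro z
        by_cases hz : z ∈ S
        · rw [indicator_of_mem hz]
          simp only [one_mul]
          apply one_orbit (fun t => a (φ (-t) z))
          · exact ha.comp ((hφ.cont.comp (Continuous.prodMk_left z)).comp continuous_neg)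
          · intro t
            exact ha0 _
        · rw [indicator_of_notMem hz]
          simp
      refine le_trans (lintegral_mono e2) ?_
      rw [lintegral_indicator hS, setLIntegral_one, Measure.restrict_apply hS]
    · apply Measurable.aemeasurable
      refine ((measurable_const.indicator hS).comp measurable_snd).mul ?_
      refine Measurable.mul ?_ (hindm.comp hgc.measurable)
      exact (ha.comp (hφ.cont.comp (Continuous.prodMk continuous_fst.neg
        continuous_snd))).measurable.ennreal_ofReal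
  refine le_trans hlow (le_trans (le_of_eq ?_) hupp)
  simp only [hchg]

end Pool.Agent.Work.MP_c9f990_an.Al

end

section

set_option autoImplicit false

/-!
# MP_c9f990_an, block AL, item INTG: different limits, integrable interaction
-/

open MeasureTheory Set Filter Topology

namespace Pool.Agent.Work.MP_c9f990_an.Al

namespace I_INTGX

variable {N n : ℕ}

lemma contx {Φ : E n → ℝ} {x v : ℝ → C N n} (h : IsFlock Φ x v) : ContinuousOn x (Ici 0) :=
  fun t ht => (h t ht).1.continuousWithinAt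

lemma contv {Φ : E n → ℝ} {x v : ℝ → C N n} (h : IsFlock Φ x v) : ContinuousOn v (Ici 0) :=
  fun t ht => (h t ht).2.continuousWithinAt

lemma contg {Φ : E n → ℝ} (hΦ : Kernel Φ) {x v : ℝ → C N n} (h : IsFlock Φ x v) (i j : Fin N) :
    ContinuousOn (fun t => Φ (x t i - x t j)) (Ici 0) := by
  have h1 : ContinuousOn (fun t => x t i) (Ici 0) :=
    (continuous_apply i).comp_continuousOn (contx h)
  have h2 : ContinuousOn (fun t => x t j) (Ici 0) :=
    (continuous_apply j).comp_continuousOn (contx h)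
  exact hΦ.smooth.continuous.comp_continuousOn (h1.sub h2)

lemma contw {Φ : E n → ℝ} {x v : ℝ → C N n} (h : IsFlock Φ x v) (i j : Fin N) :
    ContinuousOn (fun t => ‖v t i - v t j‖ ^ 2) (Ici 0) := by
  have h1 : ContinuousOn (fun t => v t i) (Ici 0) :=
    (continuous_apply i).comp_continuousOn (contv h)
  have h2 : ContinuousOn (fun t => v t j) (Ici 0) :=
    (continuous_apply j).comp_continuousOn (contv h)
  exact (h1.sub h2).norm.pow 2

lemma contF {Φ : E n → ℝ} (hΦ : Kernel Φ) {x v : ℝ → C N n} (h : IsFlock Φ x v) :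
    ContinuousOn (fun t => (N : ℝ)⁻¹ * ∑ i, ∑ j, Φ (x t i - x t j) * ‖v t i - v t j‖ ^ 2)
      (Ici 0) := by
  apply ContinuousOn.mul continuousOn_const
  apply continuousOn_finsetSum
  intro i _
  apply continuousOn_finsetSum
  intro j _
  exact (contg hΦ h i j).mul (contw h i j)

lemma intb {f : ℝ → ℝ} (hf : ContinuousOn f (Ici 0)) {a b : ℝ} (ha : 0 ≤ a) (hb : 0 ≤ b) :
    IntervalIntegrable f volume a b := by
  apply ContinuousOn.intervalIntegrable
  apply hf.mono
  intro t ht
  rw [mem_uIcc] at ht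
  rcases ht with ht | ht
  · exact ha.trans ht.1
  · exact hb.trans ht.1

end I_INTGX

open I_INTGX in
theorem I_INTG (hE : ENG) : INTG := by
  intro n N Φ hΦ x v hfl c hc i j hij
  obtain ⟨-, hen⟩ := hE n N Φ hΦ x v hfl
  have hN : (0 : ℝ) < N := by
    have : 0 < N := Fin.pos i
    exact_mod_cast this
  have hd : 0 < ‖c i - c j‖ ^ 2 := by
    have : 0 < ‖c i - c j‖ := norm_pos_iff.2 (sub_ne_zero.2 hij)
    positivity
  have hlim : Tendsto (fun t => ‖v t i - v t j‖ ^ 2) atTop (𝓝 (‖c i - c j‖ ^ 2)) :=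
    (((hc i).sub (hc j)).norm).pow 2
  have hev : ∀ᶠ t in atTop, ‖c i - c j‖ ^ 2 / 2 < ‖v t i - v t j‖ ^ 2 :=
    hlim.eventually (lt_mem_nhds (by linarith))
  obtain ⟨T0, hT0⟩ := eventually_atTop.1 hev
  set k : ℝ := ‖c i - c j‖ ^ 2 / 2 with hk
  have hk0 : 0 < k := by rw [hk]; linarith
  set T1 : ℝ := max T0 0 with hT1
  have hT10 : 0 ≤ T1 := le_max_right _ _
  set g : ℝ → ℝ := fun t => Φ (x t i - x t j) with hg
  set F : ℝ → ℝ := fun t => (N : ℝ)⁻¹ * ∑ i, ∑ j, Φ (x t i - x t j) * ‖v t i - v t j‖ ^ 2 with hF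
  have cg : ContinuousOn g (Ici 0) := contg hΦ hfl i j
  have cF : ContinuousOn F (Ici 0) := contF hΦ hfl
  have g0 : ∀ t, 0 ≤ g t := fun t => hΦ.nonneg _
  have F0 : ∀ t, 0 ≤ F t := by
    intro t
    apply mul_nonneg (by positivity)
    exact Finset.sum_nonneg fun a _ => Finset.sum_nonneg fun b _ =>
      mul_nonneg (hΦ.nonneg _) (by positivity)
  have gF : ∀ t, T1 ≤ t → g t ≤ (N : ℝ) / k * F t := by
    intro t ht
    have h1 : k < ‖v t i - v t j‖ ^ 2 := hT0 t ((le_max_left _ _).trans ht)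
    have h2 : Φ (x t i - x t j) * ‖v t i - v t j‖ ^ 2 ≤
        ∑ b, Φ (x t i - x t b) * ‖v t i - v t b‖ ^ 2 :=
      Finset.single_le_sum (f := fun b => Φ (x t i - x t b) * ‖v t i - v t b‖ ^ 2)
        (fun b _ => mul_nonneg (hΦ.nonneg _) (by positivity)) (Finset.mem_univ j)
    have h3 : ∑ b, Φ (x t i - x t b) * ‖v t i - v t b‖ ^ 2 ≤
        ∑ a, ∑ b, Φ (x t a - x t b) * ‖v t a - v t b‖ ^ 2 :=
      Finset.single_le_sum (f := fun a => ∑ b, Φ (x t a - x t b) * ‖v t a - v t b‖ ^ 2)
        (fun a _ => Finset.sum_nonneg fun b _ => mul_nonneg (hΦ.nonneg _) (by positivity))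
        (Finset.mem_univ i)
    have h4 : g t * k ≤ g t * ‖v t i - v t j‖ ^ 2 := mul_le_mul_of_nonneg_left h1.le (g0 t)
    have h5 : g t * k ≤ ∑ a, ∑ b, Φ (x t a - x t b) * ‖v t a - v t b‖ ^ 2 :=
      h4.trans (h2.trans h3)
    have h6 : (N : ℝ) / k * F t =
        (∑ a, ∑ b, Φ (x t a - x t b) * ‖v t a - v t b‖ ^ 2) / k := by
      rw [hF]
      field_simp
    rw [h6, le_div_iff₀ hk0]
    exact h5
  refine ⟨(∫ t in (0 : ℝ)..T1, g t) + (N : ℝ) / k * ke (v 0), ?_⟩
  intro T hT
  set T' : ℝ := max T T1 with hT'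
  have hTT' : T ≤ T' := le_max_left _ _
  have hT1T' : T1 ≤ T' := le_max_right _ _
  have hT'0 : 0 ≤ T' := hT.trans hTT'
  have a1 : ∫ t in (0 : ℝ)..T, g t ≤ ∫ t in (0 : ℝ)..T', g t := by
    rw [← intervalIntegral.integral_add_adjacent_intervals (intb cg le_rfl hT)
      (intb cg hT hT'0)]
    have : 0 ≤ ∫ t in T..T', g t :=
      intervalIntegral.integral_nonneg hTT' (fun t _ => g0 t)
    linarith
  have a2 : ∫ t in (0 : ℝ)..T', g t = (∫ t in (0 : ℝ)..T1, g t) + ∫ t in T1..T', g t :=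
    (intervalIntegral.integral_add_adjacent_intervals (intb cg le_rfl hT10)
      (intb cg hT10 hT'0)).symm
  have a3 : ∫ t in T1..T', g t ≤ ∫ t in T1..T', (N : ℝ) / k * F t := by
    apply intervalIntegral.integral_mono_on hT1T' (intb cg hT10 hT'0)
      ((intb cF hT10 hT'0).const_mul _)
    intro t ht
    exact gF t ht.1
  have a4 : ∫ t in T1..T', (N : ℝ) / k * F t = (N : ℝ) / k * ∫ t in T1..T', F t :=
    intervalIntegral.integral_const_mul _ _
  have a5 : ∫ t in (0 : ℝ)..T', F t = (∫ t in (0 : ℝ)..T1, F t) + ∫ t in T1..T', F t :=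
    (intervalIntegral.integral_add_adjacent_intervals (intb cF le_rfl hT10)
      (intb cF hT10 hT'0)).symm
  have a6 : 0 ≤ ∫ t in (0 : ℝ)..T1, F t :=
    intervalIntegral.integral_nonneg hT10 (fun t _ => F0 t)
  have a7 : ∫ t in (0 : ℝ)..T', F t ≤ ke (v 0) := hen T' hT'0
  have a8 : (N : ℝ) / k * ∫ t in T1..T', F t ≤ (N : ℝ) / k * ke (v 0) :=
    mul_le_mul_of_nonneg_left (by linarith) (by positivity)
  linarith

end Pool.Agent.Work.MP_c9f990_an.Al

end

section

set_option autoImplicit false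

/-!
# MP_c9f990_an: the formula of Liouville
-/

open MeasureTheory Set Filter Topology
open scoped NNReal ENNReal

namespace Pool.Agent.Work.MP_c9f990_an.Al

namespace I_LIOUX

section

variable {ι : Type} [Fintype ι] [DecidableEq ι]

/-- derivative of the determinant -/
theorem det_hasDerivAt (Y Y' : ℝ → Matrix ι ι ℝ) (z : ℝ)
    (h : ∀ i j, HasDerivAt (fun s => Y s i j) (Y' z i j) z) :
    HasDerivAt (fun s => (Y s).det) (∑ k, ((Y z).updateRow k (Y' z k)).det) z := by
  have h1 : ∀ σ : Equiv.Perm ι, HasDerivAt (fun s => ∏ i, Y s (σ i) i)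
      (∑ k, (∏ l ∈ Finset.univ.erase k, Y z (σ l) l) * Y' z (σ k) k) z := by
    intro σ
    have := HasDerivAt.fun_finsetProd (u := (Finset.univ : Finset ι)) (f := fun i s => Y s (σ i) i)
      (f' := fun i => Y' z (σ i) i) (x := z) (fun i _ => h (σ i) i)
    simpa only [smul_eq_mul] using this
  have h2 : HasDerivAt (fun s => (Y s).det) (∑ σ : Equiv.Perm ι, ((Equiv.Perm.sign σ : ℤ) : ℝ) *
      ∑ k, (∏ l ∈ Finset.univ.erase k, Y z (σ l) l) * Y' z (σ k) k) z := by
    simp only [Matrix.det_apply']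
    exact HasDerivAt.fun_sum fun σ _ => (h1 σ).const_mul _
  convert h2 using 1
  have h3 : ∀ k, ((Y z).updateRow k (Y' z k)).det = ∑ σ : Equiv.Perm ι,
      ((Equiv.Perm.sign σ : ℤ) : ℝ) * ((∏ l ∈ Finset.univ.erase (σ⁻¹ k), Y z (σ l) l)
        * Y' z k (σ⁻¹ k)) := by
    intro k
    rw [Matrix.det_apply']
    refine Finset.sum_congr rfl fun σ _ => ?_
    congr 1
    rw [← Finset.prod_erase_mul _ _ (Finset.mem_univ (σ⁻¹ k))]
    congr 1
    · refine Finset.prod_congr rfl fun l hl => ?_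
      have : σ l ≠ k := by
        rintro rfl
        simp at hl
      rw [Matrix.updateRow_ne this]
    · rw [show σ (σ⁻¹ k) = k from σ.apply_symm_apply k, Matrix.updateRow_self]
  simp only [h3]
  rw [Finset.sum_comm]
  refine Finset.sum_congr rfl fun σ _ => ?_
  rw [← Finset.mul_sum]
  congr 1
  refine Fintype.sum_equiv σ⁻¹ _ _ fun k => ?_
  rw [show σ (σ⁻¹ k) = k from σ.apply_symm_apply k]

theorem det_row_sum (A Y : Matrix ι ι ℝ) (k : ι) :
    (Y.updateRow k ((A * Y) k)).det = A k k * Y.det := by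
  have h : (A * Y) k = ∑ l, A k l • Y l := by
    ext j
    simp [Matrix.mul_apply]
  rw [h]
  exact Matrix.det_updateRow_sum Y k (fun l => A k l)

/-- the formula of Liouville and Jacobi -/
theorem det_deriv (A Y : ℝ → Matrix ι ι ℝ) (z : ℝ)
    (h : ∀ i j, HasDerivAt (fun s => Y s i j) ((A z * Y z) i j) z) :
    HasDerivAt (fun s => (Y s).det) ((A z).trace * (Y z).det) z := by
  have := det_hasDerivAt Y (fun z => A z * Y z) z h
  simp only [det_row_sum, ← Finset.sum_mul] at this
  exact this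

end

section

variable {Q : Type} [NormedAddCommGroup Q] [NormedSpace ℝ Q] [FiniteDimensional ℝ Q]

/-- derivative of the determinant of a curve of operators -/
theorem det_clm (A Y : ℝ → Q →L[ℝ] Q) (t : ℝ)
    (h : HasDerivAt Y ((A t).comp (Y t)) t) :
    HasDerivAt (fun s => (Y s).det)
      (LinearMap.trace ℝ Q (A t : Q →ₗ[ℝ] Q) * (Y t).det) t := by
  classical
  let b := Module.finBasis ℝ Q
  have hdet : ∀ T : Q →L[ℝ] Q, T.det = (LinearMap.toMatrix b b (T : Q →ₗ[ℝ] Q)).det := by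
    intro T
    rw [LinearMap.det_toMatrix]
  have htr : LinearMap.trace ℝ Q (A t : Q →ₗ[ℝ] Q) =
      (LinearMap.toMatrix b b (A t : Q →ₗ[ℝ] Q)).trace := LinearMap.trace_eq_matrix_trace ℝ b _
  rw [htr]
  simp only [hdet]
  refine det_deriv (fun s => LinearMap.toMatrix b b (A s : Q →ₗ[ℝ] Q))
    (fun s => LinearMap.toMatrix b b (Y s : Q →ₗ[ℝ] Q)) t ?_
  intro i j
  rw [← LinearMap.toMatrix_comp]
  have h1 : HasDerivAt (fun s => Y s (b j)) (((A t).comp (Y t)) (b j)) t := by
    have := h.clm_apply (hasDerivAt_const t (b j))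
    simpa using this
  have h2 := (LinearMap.toContinuousLinearMap (b.coord i)).hasFDerivAt.comp_hasDerivAt t h1
  have e1 : (fun s => LinearMap.toMatrix b b (Y s : Q →ₗ[ℝ] Q) i j) =
      (fun s => (LinearMap.toContinuousLinearMap (b.coord i)) (Y s (b j))) := by
    funext s
    rw [LinearMap.toMatrix_apply]
    rfl
  rw [e1, LinearMap.toMatrix_apply]
  exact h2

end

end I_LIOUX

theorem I_LIOU : LIOU := by
  intro Q _ _ _ F φ M hφ hF z t
  set tr : ℝ → ℝ := fun s => LinearMap.trace ℝ Q (fderiv ℝ F (φ s z) : Q →ₗ[ℝ] Q) with htr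
  have hcont : Continuous tr := by
    have h1 : Continuous (fun s => φ s z) :=
      hφ.cont.comp (continuous_id.prodMk continuous_const)
    have h2 : Continuous (fun s => fderiv ℝ F (φ s z)) :=
      (hF.continuous_fderiv one_ne_zero).comp h1
    have h3 : Continuous ((LinearMap.trace ℝ Q).comp (ContinuousLinearMap.coeLM ℝ) :
        (Q →L[ℝ] Q) →ₗ[ℝ] ℝ) := LinearMap.continuous_of_finiteDimensional _
    exact h3.comp h2
  have hI : ∀ s, HasDerivAt (fun u => ∫ x in (0 : ℝ)..u, tr x) (tr s) s := fun s =>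
    (hcont.integral_hasStrictDerivAt 0 s).hasDerivAt
  have hg : ∀ s, HasDerivAt (fun s => (M s z).det * Real.exp (-∫ x in (0 : ℝ)..s, tr x)) 0 s := by
    intro s
    have h1 := I_LIOUX.det_clm (fun s => fderiv ℝ F (φ s z)) (fun s => M s z) s (hφ.Mode z s)
    have h2 := h1.mul ((hI s).neg.exp)
    refine h2.congr_deriv ?_
    simp only [htr]
    ring
  have hconst := is_const_of_deriv_eq_zero (fun s => (hg s).differentiableAt)
    (fun s => (hg s).deriv) t 0
  have h0 : (M 0 z).det = 1 := by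
    rw [hφ.M0]
    exact LinearMap.det_id
  simp only [h0, intervalIntegral.integral_same, neg_zero, Real.exp_zero, mul_one] at hconst
  have h5 := congrArg (fun r => r * Real.exp (∫ x in (0 : ℝ)..t, tr x)) hconst
  simp only [one_mul, mul_assoc, ← Real.exp_add, neg_add_cancel, Real.exp_zero, mul_one] at h5
  exact h5

end Pool.Agent.Work.MP_c9f990_an.Al

end

section

set_option autoImplicit false
set_option linter.unusedSectionVars false

/-!
# MP_c9f990_an, block AL: global existence for `y' = G t y` (`ODE`)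

Banach's fixed point theorem in the space of bounded continuous functions, with the weight
`cosh (2 I t)`, where `I t` is the integral of `|K s| + ‖G s 0‖`.
-/

open MeasureTheory Set Filter Topology
open scoped NNReal ENNReal BoundedContinuousFunction

namespace Pool.Agent.Work.MP_c9f990_an.Al

namespace I_ODEX

variable {Q : Type} [NormedAddCommGroup Q] [NormedSpace ℝ Q]

/-- the rate -/
noncomputable def kk (G : ℝ → Q → Q) (K : ℝ → ℝ) (s : ℝ) : ℝ := |K s| + ‖G s 0‖

/-- accumulated rate -/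
noncomputable def II (G : ℝ → Q → Q) (K : ℝ → ℝ) (t : ℝ) : ℝ := ∫ s in (0 : ℝ)..t, kk G K s

/-- the weight -/
noncomputable def ww (G : ℝ → Q → Q) (K : ℝ → ℝ) (t : ℝ) : ℝ := Real.cosh (2 * II G K t)

section
variable {G : ℝ → Q → Q} {K : ℝ → ℝ} (hG : Continuous (fun p : ℝ × Q => G p.1 p.2))
  (hK : Continuous K)

include hG hK in
lemma kk_cont : Continuous (kk G K) := by
  have h1 : Continuous (fun s : ℝ => G s 0) := hG.comp (by fun_prop : Continuous fun s : ℝ => (s, (0 : Q)))
  exact hK.abs.add h1.norm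

lemma kk_nonneg (s : ℝ) : 0 ≤ kk G K s := add_nonneg (abs_nonneg _) (norm_nonneg _)

include hG hK in
lemma II_deriv (t : ℝ) : HasDerivAt (II G K) (kk G K t) t := by
  have hc := kk_cont hG hK
  exact intervalIntegral.integral_hasDerivAt_right (hc.intervalIntegrable _ _)
    hc.aestronglyMeasurable.stronglyMeasurableAtFilter hc.continuousAt

include hG hK in
lemma II_cont : Continuous (II G K) :=
  continuous_iff_continuousAt.2 fun t => (II_deriv hG hK t).continuousAt

include hG hK in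
lemma ww_cont : Continuous (ww G K) :=
  Real.continuous_cosh.comp (continuous_const.mul (II_cont hG hK))

lemma one_le_ww (t : ℝ) : 1 ≤ ww G K t := Real.one_le_cosh _

lemma ww_pos (t : ℝ) : 0 < ww G K t := Real.cosh_pos _

include hG hK in
lemma int_kw (c t : ℝ) : ∫ s in (0 : ℝ)..t, kk G K s * (ww G K s * c) =
    c * Real.sinh (2 * II G K t) / 2 := by
  have hd : ∀ s ∈ uIcc (0 : ℝ) t, HasDerivAt (fun s => c * Real.sinh (2 * II G K s) / 2)
      (kk G K s * (ww G K s * c)) s := by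
    intro s _
    have h1 := (Real.hasDerivAt_sinh (2 * II G K s)).comp s ((II_deriv hG hK s).const_mul 2)
    have h2 := (h1.const_mul c).div_const 2
    refine h2.congr_deriv ?_
    unfold ww
    ring
  have hc : Continuous (fun s => kk G K s * (ww G K s * c)) :=
    (kk_cont hG hK).mul ((ww_cont hG hK).mul continuous_const)
  rw [intervalIntegral.integral_eq_sub_of_hasDerivAt hd (hc.intervalIntegrable _ _)]
  have h0 : II G K 0 = 0 := by simp [II]
  simp [h0]

lemma abs_sinh_le (x : ℝ) : |Real.sinh x| ≤ Real.cosh x := by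
  rw [abs_le]
  constructor
  · have h := Real.sinh_lt_cosh (-x)
    rw [Real.sinh_neg, Real.cosh_neg] at h
    linarith
  · exact (Real.sinh_lt_cosh x).le

include hG hK in
lemma int_le {f : ℝ → Q} (_hf : Continuous f) {c : ℝ} (hc : 0 ≤ c)
    (h : ∀ s, ‖f s‖ ≤ kk G K s * (ww G K s * c)) (t : ℝ) :
    ‖∫ s in (0 : ℝ)..t, f s‖ ≤ c * ww G K t / 2 := by
  have hc' : Continuous (fun s => kk G K s * (ww G K s * c)) :=
    (kk_cont hG hK).mul ((ww_cont hG hK).mul continuous_const)
  have h1 : ‖∫ s in (0 : ℝ)..t, f s‖ ≤ |∫ s in (0 : ℝ)..t, kk G K s * (ww G K s * c)| :=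
    intervalIntegral.norm_integral_le_abs_of_norm_le (ae_of_all _ fun s => h s)
      (hc'.intervalIntegrable _ _)
  rw [int_kw hG hK] at h1
  refine h1.trans ?_
  rw [abs_div, abs_mul, abs_of_nonneg hc]
  have h2 := abs_sinh_le (2 * II G K t)
  have h3 : |(2 : ℝ)| = 2 := by norm_num
  rw [h3]
  unfold ww
  gcongr

include hG hK in
lemma integrand_cont (u : ℝ →ᵇ Q) : Continuous (fun s => G s (ww G K s • u s)) :=
  hG.comp (continuous_id.prodMk ((ww_cont hG hK).smul u.continuous))

/-- The Picard map, weighted. -/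
noncomputable def TT (G : ℝ → Q → Q) (K : ℝ → ℝ) (z : Q) (u : ℝ → Q) (t : ℝ) : Q :=
  (ww G K t)⁻¹ • (z + ∫ s in (0 : ℝ)..t, G s (ww G K s • u s))

include hG hK in
lemma TT_cont (z : Q) (u : ℝ →ᵇ Q) : Continuous (TT G K z u) := by
  have h1 : Continuous (fun t => ∫ s in (0 : ℝ)..t, G s (ww G K s • u s)) :=
    intervalIntegral.continuous_primitive
      (fun a b => (integrand_cont hG hK u).intervalIntegrable a b) 0
  exact ((ww_cont hG hK).inv₀ fun t => (ww_pos t).ne').smul (continuous_const.add h1)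

variable (hL : ∀ t x y, ‖G t x - G t y‖ ≤ K t * ‖x - y‖)

include hL in
lemma lip' (s : ℝ) (x y : Q) : ‖G s x - G s y‖ ≤ kk G K s * ‖x - y‖ := by
  refine (hL s x y).trans (mul_le_mul_of_nonneg_right ?_ (norm_nonneg _))
  exact (le_abs_self _).trans (le_add_of_nonneg_right (norm_nonneg _))

include hL in
lemma gr (s : ℝ) (x : Q) (c : ℝ) (hx : ‖x‖ ≤ ww G K s * c) :
    ‖G s x‖ ≤ kk G K s * (ww G K s * (1 + c)) := by
  have h1 : ‖G s x‖ ≤ ‖G s x - G s 0‖ + ‖G s 0‖ := by
    have := norm_add_le (G s x - G s 0) (G s 0)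
    simpa using this
  have h2 := hL s x 0
  rw [sub_zero] at h2
  have h3 : K s * ‖x‖ ≤ |K s| * ‖x‖ := mul_le_mul_of_nonneg_right (le_abs_self _) (norm_nonneg _)
  have h4 := one_le_ww (G := G) (K := K) s
  have h5 : 0 ≤ |K s| := abs_nonneg _
  have h6 : 0 ≤ ‖G s 0‖ := norm_nonneg _
  have h7 : 0 ≤ ww G K s * c := (norm_nonneg _).trans hx
  have h8 : |K s| * ‖x‖ ≤ |K s| * (ww G K s * c) := mul_le_mul_of_nonneg_left hx h5
  unfold kk
  nlinarith [mul_nonneg h5 h7, mul_nonneg h6 h7, mul_nonneg h5 (by linarith : 0 ≤ ww G K s - 1),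
    mul_nonneg h6 (by linarith : 0 ≤ ww G K s - 1)]

include hG hK hL in
lemma TT_bdd (z : Q) (u : ℝ →ᵇ Q) (t : ℝ) : ‖TT G K z u t‖ ≤ ‖z‖ + (1 + ‖u‖) / 2 := by
  have hw := ww_pos (G := G) (K := K) t
  have hw1 := one_le_ww (G := G) (K := K) t
  have h1 : ‖∫ s in (0 : ℝ)..t, G s (ww G K s • u s)‖ ≤ (1 + ‖u‖) * ww G K t / 2 := by
    refine int_le hG hK (integrand_cont hG hK u) (by positivity) (fun s => ?_) t
    refine gr hL s _ ‖u‖ ?_
    rw [norm_smul, Real.norm_of_nonneg (ww_pos s).le]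
    exact mul_le_mul_of_nonneg_left (u.norm_coe_le_norm s) (ww_pos s).le
  unfold TT
  rw [norm_smul, norm_inv, Real.norm_of_nonneg hw.le, inv_mul_le_iff₀ hw]
  refine (norm_add_le _ _).trans ?_
  nlinarith [norm_nonneg z, norm_nonneg u]

/-- The Picard map on bounded continuous functions. -/
noncomputable def BB (hG : Continuous (fun p : ℝ × Q => G p.1 p.2)) (hK : Continuous K)
    (hL : ∀ t x y, ‖G t x - G t y‖ ≤ K t * ‖x - y‖) (z : Q) (u : ℝ →ᵇ Q) : ℝ →ᵇ Q :=
  BoundedContinuousFunction.ofNormedAddCommGroup (TT G K z u) (TT_cont hG hK z u)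
    (‖z‖ + (1 + ‖u‖) / 2) (TT_bdd hG hK hL z u)

lemma BB_apply (z : Q) (u : ℝ →ᵇ Q) (t : ℝ) : BB hG hK hL z u t = TT G K z u t := rfl

lemma BB_contr (z : Q) : ContractingWith (1 / 2 : ℝ≥0) (BB hG hK hL z) := by
  refine ⟨by rw [← NNReal.coe_lt_coe]; norm_num, LipschitzWith.of_dist_le_mul fun u v => ?_⟩
  rw [dist_eq_norm, dist_eq_norm]
  have hc : ((1 / 2 : ℝ≥0) : ℝ) = 1 / 2 := by norm_num
  rw [hc, BoundedContinuousFunction.norm_le (by positivity)]
  intro t
  have hw := ww_pos (G := G) (K := K) t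
  show ‖TT G K z u t - TT G K z v t‖ ≤ 1 / 2 * ‖u - v‖
  unfold TT
  rw [← smul_sub, add_sub_add_left_eq_sub, norm_smul, norm_inv, Real.norm_of_nonneg hw.le,
    inv_mul_le_iff₀ hw, ← intervalIntegral.integral_sub
      ((integrand_cont hG hK u).intervalIntegrable _ _)
      ((integrand_cont hG hK v).intervalIntegrable _ _)]
  have h1 : ‖∫ s in (0 : ℝ)..t, (G s (ww G K s • u s) - G s (ww G K s • v s))‖ ≤
      ‖u - v‖ * ww G K t / 2 := by
    refine int_le hG hK ((integrand_cont hG hK u).sub (integrand_cont hG hK v)) (norm_nonneg _)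
      (fun s => ?_) t
    refine (lip' hL s _ _).trans (mul_le_mul_of_nonneg_left ?_ (kk_nonneg s))
    rw [← smul_sub, norm_smul, Real.norm_of_nonneg (ww_pos s).le]
    exact mul_le_mul_of_nonneg_left ((u - v).norm_coe_le_norm s) (ww_pos s).le
  linarith

end

end I_ODEX

open I_ODEX in
theorem I_ODE : ODE := by
  intro Q _ _ _ G K hG hK hL z
  have : CompleteSpace Q := FiniteDimensional.complete ℝ Q
  have hc := BB_contr hG hK hL z
  obtain ⟨u, hu⟩ : ∃ u, BB hG hK hL z u = u := ⟨_, hc.fixedPoint_isFixedPt⟩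
  have hy : ∀ t, ww G K t • u t = z + ∫ s in (0 : ℝ)..t, G s (ww G K s • u s) := by
    intro t
    have h1 : TT G K z u t = u t := by
      rw [← BB_apply hG hK hL, hu]
    have hw := ww_pos (G := G) (K := K) t
    rw [← h1, TT, smul_smul, mul_inv_cancel₀ hw.ne', one_smul]
  refine ⟨fun t => ww G K t • u t, ?_, fun t => ?_⟩
  · show ww G K 0 • u 0 = z
    rw [hy 0]
    simp
  · have hcont := integrand_cont hG hK u
    have h1 : HasDerivAt (fun t => z + ∫ s in (0 : ℝ)..t, G s (ww G K s • u s))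
        (G t (ww G K t • u t)) t :=
      (intervalIntegral.integral_hasDerivAt_right (hcont.intervalIntegrable _ _)
        hcont.aestronglyMeasurable.stronglyMeasurableAtFilter hcont.continuousAt).const_add z
    exact h1.congr_of_eventuallyEq (Eventually.of_forall hy)

end Pool.Agent.Work.MP_c9f990_an.Al

end
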