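import Pool.Agent.Work.MP_c9f990_an.Al.Stmts
import Pool.Agent.Work.MP_c9f990_an.Al.St3

/-! Bundle of small proof modules (one section per former module). -/

section

set_option autoImplicit false

/-!
# MP_c9f990_an: the first exceptional set is null
-/

open MeasureTheory Set Filter Topology
open scoped NNReal ENNReal

namespace Pool.Agent.Work.MP_c9f990_an.Al

namespace I_NUL1X

variable {N n : ℕ}

theorem haarP : (volume : Measure (P N n)).IsAddHaarMeasure :=
  Measure.prod.instIsAddHaarMeasure (volume : Measure (C N n)) (volume : Measure (C N n))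

/-- the functional -/
noncomputable def ell (i j : Fin N) (e : E n) : P N n →ₗ[ℝ] ℝ :=
  (innerₛₗ ℝ e).comp (((LinearMap.proj i : C N n →ₗ[ℝ] E n) -
    (LinearMap.proj j : C N n →ₗ[ℝ] E n)).comp (LinearMap.snd ℝ (C N n) (C N n)))

theorem ell_apply (i j : Fin N) (e : E n) (z : P N n) :
    ell i j e z = inner ℝ e (z.2 i - z.2 j) := rfl

theorem cont_ell (i j : Fin N) (e : E n) : Continuous (ell i j e : P N n → ℝ) :=
  LinearMap.continuous_of_finiteDimensional _

theorem cont_ke : Continuous (fun z : P N n => ke z.2) := by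
  unfold ke
  fun_prop

theorem ker_ne_top {i j : Fin N} (hij : i ≠ j) {e : E n} (he : e ≠ 0) :
    LinearMap.ker (ell i j e) ≠ ⊤ := by
  classical
  intro h
  have h1 : ((0 : C N n), (Pi.single i e : C N n)) ∈ LinearMap.ker (ell i j e) := by
    rw [h]; trivial
  rw [LinearMap.mem_ker, ell_apply] at h1
  simp only [Pi.single_eq_same, Pi.single_eq_of_ne (Ne.symm hij), sub_zero] at h1
  rw [inner_self_eq_zero] at h1
  exact he h1

/-- almost aligned states -/
def SS (R : ℝ) (i j : Fin N) (e : E n) (ε : ℝ) : Set (P N n) :=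
  {z | ke z.2 ≤ R ∧ |ell i j e z| ≤ ε}

theorem meas_SS (R : ℝ) (i j : Fin N) (e : E n) (ε : ℝ) : MeasurableSet (SS R i j e ε) := by
  apply IsClosed.measurableSet
  exact (isClosed_le cont_ke continuous_const).inter
    (isClosed_le (cont_ell i j e).abs continuous_const)

/-- states which are almost aligned from time `T` on -/
def BB (φ : ℝ → P N n → P N n) (M : ℝ → P N n → P N n →L[ℝ] P N n) (R κ : ℝ) (i j : Fin N)
    (e : E n) (ε : ℝ) (T : ℕ) : Set (P N n) :=
  {z | (∀ t, 0 ≤ t → ke (φ t z).2 ≤ R ∧ κ ≤ |(M t z).det|) ∧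
    ∀ t, (T : ℝ) ≤ t → |ell i j e (φ t z)| ≤ ε}

variable {F : P N n → P N n} {φ : ℝ → P N n → P N n} {M : ℝ → P N n → P N n →L[ℝ] P N n}

theorem cont_phi (h : IsFlow F φ M) (t : ℝ) : Continuous (φ t) :=
  h.cont.comp (by fun_prop : Continuous fun z : P N n => ((t, z) : ℝ × P N n))

theorem cont_det (h : IsFlow F φ M) (t : ℝ) : Continuous (fun z => (M t z).det) :=
  ContinuousLinearMap.continuous_det.comp
    (h.Mcont.comp (by fun_prop : Continuous fun z : P N n => ((t, z) : ℝ × P N n)))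

theorem meas_BB (h : IsFlow F φ M) (R κ : ℝ) (i j : Fin N) (e : E n) (ε : ℝ) (T : ℕ) :
    MeasurableSet (BB φ M R κ i j e ε T) := by
  apply IsClosed.measurableSet
  have h1 : BB φ M R κ i j e ε T =
      (⋂ t : ℝ, ⋂ _ : 0 ≤ t, ({z | ke (φ t z).2 ≤ R} ∩ {z | κ ≤ |(M t z).det|})) ∩
      (⋂ t : ℝ, ⋂ _ : (T : ℝ) ≤ t, {z | |ell i j e (φ t z)| ≤ ε}) := by
    ext z
    simp [BB]
  rw [h1]
  refine IsClosed.inter (isClosed_iInter fun t => isClosed_iInter fun _ => IsClosed.inter ?_ ?_)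
    (isClosed_iInter fun t => isClosed_iInter fun _ => ?_)
  · exact isClosed_le (cont_ke.comp (cont_phi h t)) continuous_const
  · exact isClosed_le continuous_const (cont_det h t).abs
  · exact isClosed_le ((cont_ell i j e).comp (cont_phi h t)).abs continuous_const

theorem BB_mono (R κ : ℝ) (i j : Fin N) (e : E n) (ε : ℝ) :
    Monotone (BB φ M R κ i j e ε) := by
  intro T T' hT z hz
  refine ⟨hz.1, fun t ht => hz.2 t (le_trans ?_ ht)⟩
  exact_mod_cast hT

theorem bad_sub (R κ : ℝ) (i j : Fin N) (e : E n) {ε : ℝ} (hε : 0 < ε) :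
    Bad1 φ M R κ i j e ⊆ ⋃ T, BB φ M R κ i j e ε T := by
  intro z hz
  obtain ⟨h1, h2⟩ := hz
  rw [Metric.tendsto_atTop] at h2
  obtain ⟨T, hT⟩ := h2 ε hε
  obtain ⟨T', hT'⟩ := exists_nat_ge T
  rw [mem_iUnion]
  refine ⟨T', h1, fun t ht => ?_⟩
  have h3 := hT t (hT'.trans ht)
  rw [Real.dist_eq, sub_zero] at h3
  exact h3.le

theorem add_snd (z : P N n) (m : Fin N → Fin n → ℤ) : (z + ((latC m : C N n), (0 : C N n))).2 = z.2 := by
  rw [Prod.snd_add, add_zero]

theorem step (hC : CHG) (h : IsFlow F φ M)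
    (hE : ∀ (m : Fin N → Fin n → ℤ) (t : ℝ) (z : P N n),
      φ t (z + (latC m, 0)) = φ t z + (latC m, 0)) (R κ : ℝ) (i j : Fin N) (e : E n) (ε : ℝ)
    (T : ℕ) : ENNReal.ofReal κ * volume (BB φ M R κ i j e ε T ∩ slab N n) ≤
      volume (SS R i j e ε ∩ slab N n) := by
  have h1 := hC n N F φ M h hE T ((SS R i j e ε).indicator (fun _ => 1))
    (measurable_const.indicator (meas_SS R i j e ε)) (by
      intro m z
      have h2 : z + ((latC m : C N n), (0 : C N n)) ∈ SS R i j e ε ↔ z ∈ SS R i j e ε := by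
        unfold SS
        rw [Set.mem_ofPred_eq, Set.mem_ofPred_eq, ell_apply, ell_apply, add_snd]
      by_cases h3 : z ∈ SS R i j e ε
      · rw [indicator_of_mem h3, indicator_of_mem (h2.2 h3)]
      · rw [indicator_of_notMem h3, indicator_of_notMem (fun h4 => h3 (h2.1 h4))])
  rw [lintegral_indicator_const (meas_SS R i j e ε), one_mul,
    Measure.restrict_apply (meas_SS R i j e ε)] at h1
  rw [← h1, ← Measure.restrict_apply (meas_BB h R κ i j e ε T),
    ← lintegral_indicator_const (meas_BB h R κ i j e ε T)]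
  refine lintegral_mono fun z => ?_
  by_cases hz : z ∈ BB φ M R κ i j e ε T
  · rw [indicator_of_mem hz]
    have h2 := hz.1 T (Nat.cast_nonneg T)
    have h3 : φ T z ∈ SS R i j e ε := ⟨h2.1, hz.2 T le_rfl⟩
    rw [indicator_of_mem h3, one_mul]
    exact ENNReal.ofReal_le_ofReal h2.2
  · rw [indicator_of_notMem hz]
    exact zero_le

theorem bad_le (hC : CHG) (h : IsFlow F φ M)
    (hE : ∀ (m : Fin N → Fin n → ℤ) (t : ℝ) (z : P N n),
      φ t (z + (latC m, 0)) = φ t z + (latC m, 0)) (R κ : ℝ) (i j : Fin N) (e : E n) {ε : ℝ}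
    (hε : 0 < ε) : ENNReal.ofReal κ * volume (Bad1 φ M R κ i j e ∩ slab N n) ≤
      volume (SS R i j e ε ∩ slab N n) := by
  have h1 : Bad1 φ M R κ i j e ∩ slab N n ⊆ ⋃ T, (BB φ M R κ i j e ε T ∩ slab N n) := by
    rw [← iUnion_inter]
    exact inter_subset_inter_left _ (bad_sub R κ i j e hε)
  have h2 : Monotone fun T => BB φ M R κ i j e ε T ∩ slab N n := fun T T' hT =>
    inter_subset_inter_left _ (BB_mono R κ i j e ε hT)
  calc ENNReal.ofReal κ * volume (Bad1 φ M R κ i j e ∩ slab N n)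
      ≤ ENNReal.ofReal κ * volume (⋃ T, (BB φ M R κ i j e ε T ∩ slab N n)) := by
        gcongr
    _ = ENNReal.ofReal κ * ⨆ T, volume (BB φ M R κ i j e ε T ∩ slab N n) := by
        rw [h2.measure_iUnion]
    _ = ⨆ T, ENNReal.ofReal κ * volume (BB φ M R κ i j e ε T ∩ slab N n) := by
        rw [ENNReal.mul_iSup]
    _ ≤ _ := iSup_le fun T => step hC h hE R κ i j e ε T

theorem bounded_SS (R : ℝ) (i j : Fin N) (e : E n) (ε : ℝ) :
    Bornology.IsBounded (SS R i j e ε ∩ slab N n) := by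
  rw [isBounded_iff_forall_norm_le]
  refine ⟨max (Real.sqrt (n * (2 * Real.pi) ^ 2)) (Real.sqrt R), ?_⟩
  rintro z ⟨⟨hz1, -⟩, hz2⟩
  rw [Prod.norm_def]
  refine max_le_max ?_ ?_
  · rw [pi_norm_le_iff_of_nonneg (Real.sqrt_nonneg _)]
    intro k
    rw [EuclideanSpace.norm_eq]
    apply Real.sqrt_le_sqrt
    calc ∑ l, ‖z.1 k l‖ ^ 2 ≤ ∑ _l : Fin n, (2 * Real.pi) ^ 2 := by
          refine Finset.sum_le_sum fun l _ => ?_
          obtain ⟨h1, h2⟩ := hz2 k l
          rw [Real.norm_eq_abs, sq_abs]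
          exact pow_le_pow_left₀ h1 h2.le 2
      _ = n * (2 * Real.pi) ^ 2 := by simp
  · rw [pi_norm_le_iff_of_nonneg (Real.sqrt_nonneg _)]
    intro k
    apply Real.le_sqrt_of_sq_le
    refine le_trans ?_ hz1
    unfold ke
    exact Finset.single_le_sum (f := fun l => ‖z.2 l‖ ^ 2) (fun l _ => by positivity)
      (Finset.mem_univ k)

theorem meas_slab : MeasurableSet (slab N n) := by
  have h1 : slab N n = ⋂ i : Fin N, ⋂ k : Fin n, ({z | 0 ≤ z.1 i k} ∩ {z | z.1 i k < 2 * Real.pi}) := by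
    ext z
    simp [slab]
  rw [h1]
  refine MeasurableSet.iInter fun i => MeasurableSet.iInter fun k => ?_
  have hc : Continuous fun z : P N n => z.1 i k := by fun_prop
  exact (isClosed_le continuous_const hc).measurableSet.inter
    (isOpen_lt hc continuous_const).measurableSet

theorem tendsto_SS (R : ℝ) {i j : Fin N} (hij : i ≠ j) {e : E n} (he : e ≠ 0) :
    Tendsto (fun k : ℕ => volume (SS R i j e (1 / ((k : ℝ) + 1)) ∩ slab N n)) atTop (𝓝 0) := by
  have h1 : volume (⋂ k : ℕ, (SS R i j e (1 / ((k : ℝ) + 1)) ∩ slab N n)) = 0 := by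
    have h2 : volume ((LinearMap.ker (ell i j e) : Submodule ℝ (P N n)) : Set (P N n)) = 0 :=
      have := haarP (N := N) (n := n)
      Measure.addHaar_submodule _ _ (ker_ne_top hij he)
    refine measure_mono_null ?_ h2
    intro z hz
    rw [SetLike.mem_coe, LinearMap.mem_ker]
    rw [mem_iInter] at hz
    have h3 : ∀ k : ℕ, |ell i j e z| ≤ 1 / ((k : ℝ) + 1) := fun k => (hz k).1.2
    have h4 : |ell i j e z| ≤ 0 :=
      ge_of_tendsto' tendsto_one_div_add_atTop_nhds_zero_nat h3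
    exact abs_eq_zero.1 (le_antisymm h4 (abs_nonneg _))
  rw [← h1]
  refine tendsto_measure_iInter_atTop (fun k => ((meas_SS R i j e _).inter
    meas_slab).nullMeasurableSet) ?_ ⟨0, ((bounded_SS R i j e _).measure_lt_top).ne⟩
  intro k k' hk z hz
  refine ⟨⟨hz.1.1, hz.1.2.trans ?_⟩, hz.2⟩
  apply one_div_le_one_div_of_le (by positivity)
  have : (k : ℝ) ≤ k' := by exact_mod_cast hk
  linarith

theorem bad_slab (hC : CHG) (h : IsFlow F φ M)
    (hE : ∀ (m : Fin N → Fin n → ℤ) (t : ℝ) (z : P N n),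
      φ t (z + (latC m, 0)) = φ t z + (latC m, 0)) (R κ : ℝ) {i j : Fin N} (hij : i ≠ j) {e : E n}
    (he : e ≠ 0) (hκ : 0 < κ) : volume (Bad1 φ M R κ i j e ∩ slab N n) = 0 := by
  have h1 : ENNReal.ofReal κ * volume (Bad1 φ M R κ i j e ∩ slab N n) ≤ 0 :=
    ge_of_tendsto' (tendsto_SS R hij he) fun k => bad_le hC h hE R κ i j e (by positivity)
  have h2 := le_antisymm h1 zero_le
  rcases mul_eq_zero.1 h2 with h3 | h3
  · rw [ENNReal.ofReal_eq_zero] at h3
    exact absurd hκ (not_lt.2 h3)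
  · exact h3

theorem M_add (h : IsFlow F φ M)
    (hE : ∀ (m : Fin N → Fin n → ℤ) (t : ℝ) (z : P N n),
      φ t (z + (latC m, 0)) = φ t z + (latC m, 0)) (m : Fin N → Fin n → ℤ) (t : ℝ) (z : P N n) :
    M t (z + (latC m, 0)) = M t z := by
  have h1 : HasFDerivAt (fun z => φ t (z + ((latC m : C N n), (0 : C N n))))
      (M t (z + (latC m, 0))) z := by
    have h2 := h.diff t (z + (latC m, 0))
    have h3 : HasFDerivAt (fun z : P N n => z + ((latC m : C N n), (0 : C N n)))
        (ContinuousLinearMap.id ℝ (P N n)) z := (hasFDerivAt_id z).add_const _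
    have h4 := h2.comp z h3
    rwa [ContinuousLinearMap.comp_id] at h4
  have h5 : HasFDerivAt (fun z => φ t (z + ((latC m : C N n), (0 : C N n)))) (M t z) z := by
    have h6 : (fun z => φ t (z + ((latC m : C N n), (0 : C N n)))) =
        fun z => φ t z + ((latC m : C N n), (0 : C N n)) := funext fun z => hE m t z
    rw [h6]
    exact (h.diff t z).add_const _
  exact h1.unique h5

theorem bad_inv (h : IsFlow F φ M)
    (hE : ∀ (m : Fin N → Fin n → ℤ) (t : ℝ) (z : P N n),
      φ t (z + (latC m, 0)) = φ t z + (latC m, 0)) (R κ : ℝ) (i j : Fin N) (e : E n)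
    (m : Fin N → Fin n → ℤ) (z : P N n) :
    z + (latC m, 0) ∈ Bad1 φ M R κ i j e ↔ z ∈ Bad1 φ M R κ i j e := by
  unfold Bad1
  simp only [Set.mem_ofPred_eq, hE, M_add h hE, add_snd]

theorem cover (z : P N n) : ∃ m : Fin N → Fin n → ℤ, z + (latC m, 0) ∈ slab N n := by
  refine ⟨fun i k => -⌊z.1 i k / (2 * Real.pi)⌋, ?_⟩
  intro i k
  have hpi : 0 < 2 * Real.pi := by positivity
  have h1 : (z + ((latC (fun i k => -⌊z.1 i k / (2 * Real.pi)⌋) : C N n), (0 : C N n))).1 i k =
      z.1 i k + 2 * Real.pi * ((-⌊z.1 i k / (2 * Real.pi)⌋ : ℤ) : ℝ) := rfl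
  rw [h1, Int.cast_neg]
  have h2 := Int.floor_le (z.1 i k / (2 * Real.pi))
  have h3 := Int.lt_floor_add_one (z.1 i k / (2 * Real.pi))
  rw [le_div_iff₀ hpi] at h2
  rw [div_lt_iff₀ hpi] at h3
  constructor
  · linarith
  · linarith

end I_NUL1X

open I_NUL1X in
theorem I_NUL1 (hE : EQV) (hC : CHG) : NUL1 := by
  intro n N Φ R hΦ φ M hM i j e κ hij he hκ
  have hE' := hE n N Φ R hΦ φ M hM
  have h0 := bad_slab hC hM hE' R κ hij he hκ
  have h1 : Bad1 φ M R κ i j e ⊆ ⋃ m : Fin N → Fin n → ℤ,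
      (fun z => z + ((latC m : C N n), (0 : C N n))) ⁻¹' (Bad1 φ M R κ i j e ∩ slab N n) := by
    intro z hz
    obtain ⟨m, hm⟩ := cover z
    rw [mem_iUnion]
    exact ⟨m, (bad_inv hM hE' R κ i j e m z).2 hz, hm⟩
  refine measure_mono_null h1 (measure_iUnion_null fun m => ?_)
  have := haarP (N := N) (n := n)
  rw [measure_preimage_add_right]
  exact h0

end Pool.Agent.Work.MP_c9f990_an.Al

end

section

set_option autoImplicit false

/-! MP_c9f990_an, block AL, item PERB -/

open MeasureTheory Set Filter Topology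

namespace Pool.Agent.Work.MP_c9f990_an.Al

namespace I_PERBX

/-- every point is a point of a fixed ball up to a lattice translation -/
theorem red {n : ℕ} (x : E n) : ∃ (m : Fin n → ℤ) (y : E n),
    y ∈ Metric.closedBall (0 : E n) (Real.sqrt (n * (2 * Real.pi) ^ 2)) ∧ x = y + lat m := by
  have hpi : 0 < 2 * Real.pi := by positivity
  refine ⟨fun k => ⌊x k / (2 * Real.pi)⌋,
    x - lat (fun k => ⌊x k / (2 * Real.pi)⌋), ?_, by abel⟩
  rw [mem_closedBall_zero_iff, EuclideanSpace.norm_eq]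
  apply Real.sqrt_le_sqrt
  have h : ∀ k : Fin n, ‖(x - lat (fun k => ⌊x k / (2 * Real.pi)⌋)) k‖ ^ 2 ≤ (2 * Real.pi) ^ 2 := by
    intro k
    have e : (x - lat (fun k => ⌊x k / (2 * Real.pi)⌋)) k =
        x k - 2 * Real.pi * (⌊x k / (2 * Real.pi)⌋ : ℝ) := by
      simp [lat]
    have h1 := Int.floor_le (x k / (2 * Real.pi))
    have h2 := Int.lt_floor_add_one (x k / (2 * Real.pi))
    rw [le_div_iff₀ hpi] at h1
    rw [div_lt_iff₀ hpi] at h2
    have h3 : 0 ≤ x k - 2 * Real.pi * (⌊x k / (2 * Real.pi)⌋ : ℝ) := by linarith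
    have h4 : x k - 2 * Real.pi * (⌊x k / (2 * Real.pi)⌋ : ℝ) ≤ 2 * Real.pi := by linarith
    rw [e, Real.norm_eq_abs, abs_of_nonneg h3]
    exact pow_le_pow_left₀ h3 h4 2
  calc ∑ k, ‖(x - lat (fun k => ⌊x k / (2 * Real.pi)⌋)) k‖ ^ 2
      ≤ ∑ _k : Fin n, (2 * Real.pi) ^ 2 := Finset.sum_le_sum fun k _ => h k
    _ = n * (2 * Real.pi) ^ 2 := by simp

end I_PERBX

theorem I_PERB : PERB := by
  intro n Φ hΦ
  have hc : Continuous Φ := hΦ.smooth.continuous
  have hd : Continuous (fderiv ℝ Φ) := hΦ.smooth.continuous_fderiv (by norm_num)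
  have hK : IsCompact (Metric.closedBall (0 : E n) (Real.sqrt (n * (2 * Real.pi) ^ 2))) :=
    isCompact_closedBall _ _
  obtain ⟨A, hA⟩ := hK.exists_bound_of_continuousOn hc.continuousOn
  obtain ⟨B, hB⟩ := hK.exists_bound_of_continuousOn hd.continuousOn
  refine ⟨max A B, fun x => ?_⟩
  obtain ⟨m, y, hy, rfl⟩ := I_PERBX.red x
  have h1 : Φ (y + lat m) = Φ y := hΦ.per m y
  have h2 : fderiv ℝ Φ (y + lat m) = fderiv ℝ Φ y := by
    rw [← fderiv_comp_add_right]
    congr 1
    funext z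
    exact hΦ.per m z
  rw [h1, h2]
  exact ⟨(hA y hy).trans (le_max_left _ _), (hB y hy).trans (le_max_right _ _)⟩

end Pool.Agent.Work.MP_c9f990_an.Al

end

section

set_option autoImplicit false

/-!
# MP_c9f990_an: item REP of block AL (helper10)
-/

open MeasureTheory Set Filter Topology
open scoped NNReal ENNReal

namespace Pool.Agent.Work.MP_c9f990_an.Al

namespace I_REPX

variable {N n : ℕ}

/-- the power of the forces is nonpositive -/
lemma power_nonpos {Φ : E n → ℝ} (hΦ : Kernel Φ) (x v : C N n) :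
    ∑ i, 2 * inner ℝ (v i) (force Φ (x, v) i) ≤ 0 := by
  have hsym : ∀ i j : Fin N, Φ (x i - x j) = Φ (x j - x i) := fun i j => by
    rw [← hΦ.even (x j - x i), neg_sub]
  have h1 : ∀ i : Fin N, inner ℝ (v i) (force Φ (x, v) i) =
      (N : ℝ)⁻¹ * ∑ j, Φ (x i - x j) * inner ℝ (v i) (v j - v i) := by
    intro i
    simp only [force, inner_smul_right, inner_sum]
  have h2 : ∑ i, ∑ j, Φ (x i - x j) * inner ℝ (v i) (v j - v i) =
      ∑ i, ∑ j, Φ (x i - x j) * inner ℝ (v j) (v i - v j) := by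
    rw [Finset.sum_comm]
    refine Finset.sum_congr rfl fun i _ => Finset.sum_congr rfl fun j _ => ?_
    rw [hsym j i]
  have h3 : ∑ i, ∑ j, Φ (x i - x j) * inner ℝ (v i) (v j - v i) +
      ∑ i, ∑ j, Φ (x i - x j) * inner ℝ (v j) (v i - v j) =
        -∑ i, ∑ j, Φ (x i - x j) * ‖v i - v j‖ ^ 2 := by
    rw [← Finset.sum_add_distrib, ← Finset.sum_neg_distrib]
    refine Finset.sum_congr rfl fun i _ => ?_
    rw [← Finset.sum_add_distrib, ← Finset.sum_neg_distrib]
    refine Finset.sum_congr rfl fun j _ => ?_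
    rw [← real_inner_self_eq_norm_sq, inner_sub_left, inner_sub_right, inner_sub_right,
      inner_sub_right]
    ring
  have h4 : 0 ≤ ∑ i, ∑ j, Φ (x i - x j) * ‖v i - v j‖ ^ 2 :=
    Finset.sum_nonneg fun i _ => Finset.sum_nonneg fun j _ =>
      mul_nonneg (hΦ.nonneg _) (sq_nonneg _)
  have h5 : ∑ i, ∑ j, Φ (x i - x j) * inner ℝ (v i) (v j - v i) ≤ 0 := by linarith
  have h6 : ∑ i, 2 * inner ℝ (v i) (force Φ (x, v) i) =
      2 * ((N : ℝ)⁻¹ * ∑ i, ∑ j, Φ (x i - x j) * inner ℝ (v i) (v j - v i)) := by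
    rw [← Finset.mul_sum, Finset.sum_congr rfl fun i _ => h1 i, ← Finset.mul_sum]
  rw [h6]
  have h7 : (0 : ℝ) ≤ (N : ℝ)⁻¹ := by positivity
  nlinarith [mul_nonneg h7 (neg_nonneg.2 h5)]

/-- derivative of the kinetic energy -/
lemma ke_deriv {v : ℝ → C N n} {v' : C N n} {s : Set ℝ} {t : ℝ} (h : HasDerivWithinAt v v' s t) :
    HasDerivWithinAt (fun t => ke (v t)) (∑ i, 2 * inner ℝ (v t i) (v' i)) s t := by
  unfold ke
  apply HasDerivWithinAt.fun_sum
  intro i _
  exact ((hasDerivWithinAt_pi.1 h) i).norm_sq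

/-- the kinetic energy does not increase -/
lemma ke_le {Φ : E n → ℝ} (hΦ : Kernel Φ) (x v : ℝ → C N n) (c : ℝ → ℝ) (hc : ∀ t, 0 ≤ c t)
    (h : ∀ t, 0 ≤ t → HasDerivWithinAt v (c t • force Φ (x t, v t)) (Ici 0) t) :
    ∀ t, 0 ≤ t → ke (v t) ≤ ke (v 0) := by
  have hd : ∀ t, 0 ≤ t → HasDerivWithinAt (fun t => ke (v t))
      (∑ i, 2 * inner ℝ (v t i) ((c t • force Φ (x t, v t)) i)) (Ici 0) t :=
    fun t ht => ke_deriv (h t ht)
  have ha : AntitoneOn (fun t => ke (v t)) (Ici 0) := by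
    apply antitoneOn_of_deriv_nonpos (convex_Ici 0)
    · intro t ht
      exact (hd t ht).continuousWithinAt
    · intro t ht
      rw [interior_Ici] at ht
      exact ((hd t (le_of_lt ht)).hasDerivAt (Ici_mem_nhds ht)).differentiableAt.differentiableWithinAt
    · intro t ht
      rw [interior_Ici] at ht
      rw [((hd t (le_of_lt ht)).hasDerivAt (Ici_mem_nhds ht)).deriv]
      have h1 : ∑ i, 2 * inner ℝ (v t i) ((c t • force Φ (x t, v t)) i) =
          c t * ∑ i, 2 * inner ℝ (v t i) (force Φ (x t, v t) i) := by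
        rw [Finset.mul_sum]
        refine Finset.sum_congr rfl fun i _ => ?_
        rw [Pi.smul_apply, inner_smul_right]
        ring
      rw [h1]
      exact mul_nonpos_of_nonneg_of_nonpos (hc t) (power_nonpos hΦ _ _)
  intro t ht
  exact ha (mem_Ici.2 le_rfl) (mem_Ici.2 ht) ht

lemma chi_one {R : ℝ} {v : C N n} (h : ke v ≤ R) : chi R v = 1 := by
  unfold chi
  exact Real.smoothTransition.one_of_one_le (by linarith)

lemma chi_nonneg (R : ℝ) (v : C N n) : 0 ≤ chi R v := Real.smoothTransition.nonneg _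

end I_REPX

open I_REPX in
theorem I_REP : REP := by
  intro n N Φ R hΦ φ M hφ
  constructor
  · intro z hz
    have h1 : ∀ t, HasDerivAt (fun s => (φ s z).1) (φ t z).2 t := by
      intro t
      have h := (hasFDerivAt_fst (𝕜 := ℝ) (E := C N n) (F := C N n)
        (p := φ t z)).comp_hasDerivAt t (hφ.ode z t)
      exact h
    have h2 : ∀ t, HasDerivAt (fun s => (φ s z).2) (chi R (φ t z).2 • force Φ (φ t z)) t := by
      intro t
      have h := (hasFDerivAt_snd (𝕜 := ℝ) (E := C N n) (F := C N n)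
        (p := φ t z)).comp_hasDerivAt t (hφ.ode z t)
      exact h
    have h3 : ∀ t, 0 ≤ t → ke (φ t z).2 ≤ R := by
      intro t ht
      have h := ke_le hΦ (fun s => (φ s z).1) (fun s => (φ s z).2) (fun s => chi R (φ s z).2)
        (fun s => chi_nonneg R _) (fun s _ => (h2 s).hasDerivWithinAt) t ht
      simp only [hφ.zero] at h
      exact h.trans hz
    refine ⟨h3, fun t ht => ⟨(h1 t).hasDerivWithinAt, ?_⟩⟩
    have h4 := h2 t
    rw [chi_one (h3 t ht), one_smul] at h4
    exact h4.hasDerivWithinAt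
  · intro x v hxv h0
    have h3 : ∀ t, 0 ≤ t → ke (v t) ≤ R := by
      intro t ht
      have h := ke_le hΦ x v (fun _ => 1) (fun _ => zero_le_one) (fun s hs => by
        rw [one_smul]
        exact (hxv s hs).2) t ht
      exact h.trans h0
    intro t ht
    refine hφ.uniq (fun t => (x t, v t)) ?_ t ht
    intro s hs
    have h4 : fld Φ R (x s, v s) = (v s, force Φ (x s, v s)) := by
      unfold fld
      rw [chi_one (h3 s hs), one_smul]
    rw [h4]
    exact (hxv s hs).1.prodMk (hxv s hs).2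

end Pool.Agent.Work.MP_c9f990_an.Al

end

section

set_option autoImplicit false

/-!
# MP_c9f990_an, block AL, item RESO
-/

open MeasureTheory Set Filter Topology
open scoped NNReal ENNReal

namespace Pool.Agent.Work.MP_c9f990_an.Al

namespace I_RESOX

variable {n : ℕ}

/-- a kernel with bounded derivative is Lipschitz -/
lemma lip (Φ : E n → ℝ) (hΦ : Kernel Φ) (A : ℝ) (hA : ∀ x, ‖fderiv ℝ Φ x‖ ≤ A) (x y : E n) :
    |Φ y - Φ x| ≤ A * ‖y - x‖ := by
  have hd : ∀ z ∈ (Set.univ : Set (E n)), DifferentiableAt ℝ Φ z := fun z _ =>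
    (hΦ.smooth.differentiable (by norm_num)).differentiableAt
  have h := Convex.norm_image_sub_le_of_norm_fderiv_le (f := Φ) (C := A) hd
    (fun z _ => hA z) convex_univ (Set.mem_univ x) (Set.mem_univ y)
  simpa [Real.norm_eq_abs] using h

/-- the trajectory is close to a straight line -/
lemma straight (r w : ℝ → E n) (u : E n) (η T : ℝ) (hT : 0 ≤ T)
    (hr : ∀ t, 0 ≤ t → HasDerivWithinAt r (w t) (Ici 0) t)
    (hw : ∀ t, T ≤ t → ‖w t - u‖ ≤ η) (s : ℝ) (hs : 0 ≤ s) :
    ‖r (T + s) - (r T + s • u)‖ ≤ η * s := by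
  have h1 : ∀ t ∈ Ici T, HasDerivWithinAt (fun t => r t - t • u) (w t - u) (Ici T) t := by
    intro t ht
    have h2 : HasDerivWithinAt r (w t) (Ici T) t :=
      (hr t (hT.trans ht)).mono (Ici_subset_Ici.mpr hT)
    have h3 : HasDerivWithinAt (fun t : ℝ => t • u) ((1 : ℝ) • u) (Ici T) t :=
      (hasDerivWithinAt_id t (Ici T)).smul_const u
    rw [one_smul] at h3
    exact h2.sub h3
  have h4 := Convex.norm_image_sub_le_of_norm_hasDerivWithin_le (f := fun t => r t - t • u)
    (f' := fun t => w t - u) (C := η) (s := Ici T) (x := T) (y := T + s) h1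
    (fun t ht => hw t ht) (convex_Ici T) (mem_Ici.mpr le_rfl) (mem_Ici.mpr (by linarith))
  have h5 : (r (T + s) - (T + s) • u) - (r T - T • u) = r (T + s) - (r T + s • u) := by
    rw [add_smul]
    abel
  have h6 : ‖T + s - T‖ = s := by
    rw [add_sub_cancel_left, Real.norm_eq_abs, abs_of_nonneg hs]
  simp only [h5, h6] at h4
  exact h4

end I_RESOX

theorem I_RESO (hP : PERB) (hU : UE) : RESO := by
  intro n Φ hΦ r w u hr hw hb
  by_contra hres
  obtain ⟨L, c, hL, hc, hUE⟩ := hU n Φ hΦ u hres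
  obtain ⟨A0, hA0⟩ := hP n Φ hΦ
  have hA00 : 0 ≤ A0 := (norm_nonneg _).trans (hA0 0).2
  have hlip := I_RESOX.lip Φ hΦ A0 (fun x => (hA0 x).2)
  set η : ℝ := c / (2 * A0 * L ^ 2 + 1) with hη
  have hden : (0 : ℝ) < 2 * A0 * L ^ 2 + 1 := by positivity
  have hη0 : 0 < η := by positivity
  have hη2 : A0 * η * L * L ≤ c / 2 := by
    have h1 : A0 * η * L * L = (A0 * L ^ 2) * c / (2 * A0 * L ^ 2 + 1) := by
      rw [hη]; ring
    rw [h1, div_le_iff₀ hden]
    nlinarith
  -- the velocity is almost constant after T0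
  obtain ⟨T1, hT1⟩ : ∃ T1 : ℝ, ∀ t, T1 ≤ t → ‖w t - u‖ ≤ η := by
    have h1 := Metric.tendsto_atTop.mp hw η hη0
    obtain ⟨T1, h2⟩ := h1
    refine ⟨T1, fun t ht => ?_⟩
    have h3 := h2 t ht
    rw [dist_eq_norm] at h3
    exact h3.le
  set T0 : ℝ := max T1 0 with hT0
  have hT00 : 0 ≤ T0 := le_max_right _ _
  -- continuity
  have hrc : ContinuousOn r (Ici 0) := fun t ht => (hr t ht).continuousWithinAt
  have hΦr : ContinuousOn (fun t => Φ (r t)) (Ici 0) := hΦ.smooth.continuous.comp_continuousOn hrc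
  have hII : ∀ a b : ℝ, 0 ≤ a → 0 ≤ b → IntervalIntegrable (fun t => Φ (r t)) volume a b := by
    intro a b ha hb
    apply ContinuousOn.intervalIntegrable
    apply hΦr.mono
    intro t ht
    rw [Set.mem_uIcc] at ht
    rcases ht with ht | ht
    · exact mem_Ici.mpr (ha.trans ht.1)
    · exact mem_Ici.mpr (hb.trans ht.1)
  -- one window
  have hwin : ∀ T, T0 ≤ T → c / 2 ≤ ∫ t in T..(T + L), Φ (r t) := by
    intro T hT
    have hT0' : 0 ≤ T := hT00.trans hT
    have h1 : ∫ t in T..(T + L), Φ (r t) = ∫ s in (0 : ℝ)..L, Φ (r (T + s)) := by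
      have := intervalIntegral.integral_comp_add_left (a := 0) (b := L) (fun t => Φ (r t)) T
      rw [add_zero] at this
      exact this.symm
    rw [h1]
    have hcont : Continuous (fun s : ℝ => Φ (r T + s • u)) := by
      apply hΦ.smooth.continuous.comp
      fun_prop
    have h2 : ∫ s in (0 : ℝ)..L, (Φ (r T + s • u) - A0 * η * L) ≤
        ∫ s in (0 : ℝ)..L, Φ (r (T + s)) := by
      apply intervalIntegral.integral_mono_on hL.le
      · exact (hcont.sub continuous_const).intervalIntegrable _ _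
      · apply ContinuousOn.intervalIntegrable
        apply hΦr.comp (t := Ici 0)
        · fun_prop
        · intro s hs
          rw [Set.uIcc_of_le hL.le] at hs
          exact mem_Ici.mpr (add_nonneg hT0' hs.1)
      · intro s hs
        have h3 := I_RESOX.straight r w u η T hT0' hr
          (fun t ht => hT1 t ((le_max_left _ _).trans (hT.trans ht))) s hs.1
        have h4 := hlip (r T + s • u) (r (T + s))
        have h5 : A0 * ‖r (T + s) - (r T + s • u)‖ ≤ A0 * (η * L) := by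
          apply mul_le_mul_of_nonneg_left _ hA00
          exact h3.trans (mul_le_mul_of_nonneg_left hs.2 hη0.le)
        have h6 := (abs_le.mp h4).1
        linarith
    have h3 : ∫ s in (0 : ℝ)..L, (Φ (r T + s • u) - A0 * η * L) =
        (∫ s in (0 : ℝ)..L, Φ (r T + s • u)) - A0 * η * L * L := by
      rw [intervalIntegral.integral_sub (hcont.intervalIntegrable _ _)
        (continuous_const.intervalIntegrable _ _), intervalIntegral.integral_const]
      simp only [sub_zero, smul_eq_mul]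
      ring
    have h4 := hUE (r T)
    linarith
  -- many windows
  have hmany : ∀ k : ℕ, (k : ℝ) * (c / 2) ≤ ∫ t in (0 : ℝ)..(T0 + k * L), Φ (r t) := by
    intro k
    induction k with
    | zero =>
      simp only [Nat.cast_zero, zero_mul, add_zero]
      exact intervalIntegral.integral_nonneg hT00 (fun t _ => hΦ.nonneg _)
    | succ k ih =>
      have hk0 : 0 ≤ (k : ℝ) * L := by positivity
      have h1 := hwin (T0 + k * L) (by linarith)
      have h2 : T0 + k * L + L = T0 + ((k + 1 : ℕ) : ℝ) * L := by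
        push_cast
        ring
      rw [h2] at h1
      have h3 := intervalIntegral.integral_add_adjacent_intervals
        (hII 0 (T0 + k * L) le_rfl (by linarith))
        (hII (T0 + k * L) (T0 + ((k + 1 : ℕ) : ℝ) * L) (by linarith) (by positivity))
      rw [← h3]
      push_cast at h1 ⊢
      linarith
  obtain ⟨A1, hA1⟩ := hb
  obtain ⟨k, hk⟩ := exists_nat_gt (A1 / (c / 2))
  have hc2 : 0 < c / 2 := by linarith
  rw [div_lt_iff₀ hc2] at hk
  have h1 := hmany k
  have h2 := hA1 (T0 + k * L) (by positivity)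
  linarith

end Pool.Agent.Work.MP_c9f990_an.Al

end

section

set_option autoImplicit false

/-!
# MP_c9f990_an: volume of the thin sets in the space of pairs
-/

open MeasureTheory Set Filter Topology
open scoped NNReal ENNReal

namespace Pool.Agent.Work.MP_c9f990_an.Al

namespace I_TH1X

/-- the set of admissible `q` -/
def Qs {n : ℕ} (m : E n) (A ε : ℝ) : Set (E n) := {q | ‖q‖ ≤ A ∧ |inner ℝ m q| ≤ A * ε}

theorem Qs_meas {n : ℕ} (m : E n) (A ε : ℝ) : MeasurableSet (Qs m A ε) := by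
  have h1 : IsClosed {q : E n | ‖q‖ ≤ A} := isClosed_le continuous_norm continuous_const
  have h2 : IsClosed {q : E n | |inner ℝ m q| ≤ A * ε} :=
    isClosed_le (by fun_prop) continuous_const
  exact (h1.inter h2).measurableSet

theorem inner_add_smul {n : ℕ} (m x : E n) (hm : m ≠ 0) (c : ℝ) :
    inner ℝ m (x + -((c / ‖m‖ ^ 2) • m)) = inner ℝ m x - c := by
  have hm0 : ‖m‖ ≠ 0 := norm_ne_zero_iff.2 hm
  rw [inner_add_right, inner_neg_right, inner_smul_right, real_inner_self_eq_norm_sq]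
  field_simp
  ring

theorem vol_Qs {n : ℕ} (m : E n) (hm : m ≠ 0) (A : ℝ) (hA : 0 < A) (ε : ℝ) (hε : 0 < ε)
    (hε1 : ε ≤ 1) :
    volume (Qs m A ε) ≤ ENNReal.ofReal
      (ε * (volume (Metric.closedBall (0 : E n) (A + 6 * A / ‖m‖))).toReal) := by
  classical
  have hm0 : 0 < ‖m‖ := norm_pos_iff.2 hm
  set K := ⌈1 / ε⌉₊ with hK
  have hK1 : 1 / ε ≤ K := Nat.le_ceil _
  have hK2 : (K : ℝ) < 1 / ε + 1 := Nat.ceil_lt_add_one (by positivity)
  set τ : ℕ → E n := fun k => -(((3 * A * ε * k) / ‖m‖ ^ 2) • m) with hτ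
  set T : ℕ → Set (E n) := fun k => (fun x => x + τ k) ⁻¹' (Qs m A ε) with hT
  have hTm : ∀ k, MeasurableSet (T k) := fun k =>
    (Qs_meas m A ε).preimage (by fun_prop)
  have hTv : ∀ k, volume (T k) = volume (Qs m A ε) := fun k =>
    measure_preimage_add_right volume (τ k) (Qs m A ε)
  have hin : ∀ k x, x ∈ T k → |inner ℝ m x - 3 * A * ε * k| ≤ A * ε := by
    intro k x hx
    have h1 := hx.2
    simp only [hτ] at h1
    rw [inner_add_smul m x hm] at h1
    exact h1
  have hdisj : ((Finset.range K : Finset ℕ) : Set ℕ).PairwiseDisjoint T := by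
    intro k _ l _ hkl
    rw [Function.onFun, Set.disjoint_left]
    intro x hxk hxl
    have h1 := abs_le.1 (hin k x hxk)
    have h2 := abs_le.1 (hin l x hxl)
    have hAε : 0 < A * ε := mul_pos hA hε
    rcases lt_or_gt_of_ne hkl with h | h
    · have h3 : (k : ℝ) + 1 ≤ l := by exact_mod_cast h
      nlinarith [h1.1, h1.2, h2.1, h2.2]
    · have h3 : (l : ℝ) + 1 ≤ k := by exact_mod_cast h
      nlinarith [h1.1, h1.2, h2.1, h2.2]
  have hsub : (⋃ k ∈ Finset.range K, T k) ⊆
      Metric.closedBall (0 : E n) (A + 6 * A / ‖m‖) := by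
    intro x hx
    simp only [Set.mem_iUnion, Finset.mem_range] at hx
    obtain ⟨k, hk, hx⟩ := hx
    rw [mem_closedBall_zero_iff]
    have h1 : ‖x + τ k‖ ≤ A := hx.1
    have h2 : ‖τ k‖ = 3 * A * ε * k / ‖m‖ := by
      simp only [hτ]
      rw [norm_neg, norm_smul, Real.norm_eq_abs, abs_of_nonneg (by positivity)]
      field_simp
    have h3 : ‖x‖ ≤ ‖x + τ k‖ + ‖τ k‖ := by
      have := norm_sub_le (x + τ k) (τ k)
      rwa [add_sub_cancel_right] at this
    have h4 : ((k : ℝ)) ≤ 1 / ε + 1 := by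
      have : (k : ℝ) < K := by exact_mod_cast hk
      linarith
    have h5 : 3 * A * ε * k / ‖m‖ ≤ 6 * A / ‖m‖ := by
      refine div_le_div_of_nonneg_right ?_ hm0.le
      have h6 : ε * k ≤ 2 := by
        calc ε * k ≤ ε * (1 / ε + 1) := mul_le_mul_of_nonneg_left h4 hε.le
          _ = 1 + ε := by field_simp
          _ ≤ 2 := by linarith
      nlinarith
    rw [h2] at h3
    linarith
  have hball : volume (Metric.closedBall (0 : E n) (A + 6 * A / ‖m‖)) ≠ ⊤ :=
    (isCompact_closedBall _ _).measure_lt_top.ne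
  have hsum : (K : ℝ≥0∞) * volume (Qs m A ε) ≤
      volume (Metric.closedBall (0 : E n) (A + 6 * A / ‖m‖)) := by
    calc (K : ℝ≥0∞) * volume (Qs m A ε) = ∑ k ∈ Finset.range K, volume (T k) := by
          rw [Finset.sum_congr rfl fun k _ => hTv k, Finset.sum_const, Finset.card_range,
            nsmul_eq_mul]
      _ = volume (⋃ k ∈ Finset.range K, T k) :=
          (measure_biUnion_finset hdisj fun k _ => hTm k).symm
      _ ≤ _ := measure_mono hsub
  have hQfin : volume (Qs m A ε) ≠ ⊤ := by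
    refine (lt_of_le_of_lt (measure_mono (t := Metric.closedBall (0 : E n) A) ?_)
      (isCompact_closedBall _ _).measure_lt_top).ne
    intro q hq
    rw [mem_closedBall_zero_iff]
    exact hq.1
  rw [← ENNReal.ofReal_toReal hQfin]
  refine ENNReal.ofReal_le_ofReal ?_
  have h7 : (K : ℝ) * (volume (Qs m A ε)).toReal ≤
      (volume (Metric.closedBall (0 : E n) (A + 6 * A / ‖m‖))).toReal := by
    have := ENNReal.toReal_mono hball hsum
    rwa [ENNReal.toReal_mul, ENNReal.toReal_natCast] at this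
  have h8 : (0 : ℝ) ≤ (volume (Qs m A ε)).toReal := ENNReal.toReal_nonneg
  calc (volume (Qs m A ε)).toReal = ε * (1 / ε * (volume (Qs m A ε)).toReal) := by field_simp
    _ ≤ ε * ((K : ℝ) * (volume (Qs m A ε)).toReal) :=
        mul_le_mul_of_nonneg_left (mul_le_mul_of_nonneg_right hK1 h8) hε.le
    _ ≤ _ := mul_le_mul_of_nonneg_left h7 hε.le

/-- the section over `q` -/
def Sec {n : ℕ} (q : E n) (A η ε : ℝ) : Set (E n) := {p | ‖p‖ ≤ η ∧ ‖dev p q‖ ≤ A * ε}

theorem dev_eq {n : ℕ} (p q : E n) (hq : q ≠ 0) :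
    dev p q = (‖q‖ ^ 2) • (p - (inner ℝ p q / ‖q‖) • ((1 / ‖q‖) • q)) := by
  have hq0 : ‖q‖ ≠ 0 := norm_ne_zero_iff.2 hq
  unfold dev
  rw [smul_sub, smul_smul, smul_smul]
  congr 2
  field_simp

theorem sec_sub {n : ℕ} (q : E n) (A η ε : ℝ) (hA : 0 < A) (hq : 1 ≤ A * ‖q‖) (hε : 0 < ε)
    (K : ℕ) (hK : η / ε + 1 ≤ K + 1) :
    Sec q A η ε ⊆ ⋃ k ∈ Finset.Icc (-(K : ℤ)) K,
      Metric.closedBall (((k : ℝ) * ε) • ((1 / ‖q‖) • q)) ((A ^ 3 + 1) * ε) := by
  intro p hp
  obtain ⟨hp1, hp2⟩ := hp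
  have hq1 : 0 < ‖q‖ := by
    by_contra h
    have h2 : ‖q‖ = 0 := le_antisymm (not_lt.1 h) (norm_nonneg _)
    rw [h2] at hq
    linarith
  have hq2 : q ≠ 0 := norm_pos_iff.1 hq1
  set u := (1 / ‖q‖) • q with hu
  have hu1 : ‖u‖ = 1 := by
    rw [hu, norm_smul, Real.norm_eq_abs, abs_of_pos (by positivity)]
    field_simp
  set α := inner ℝ p q / ‖q‖ with hα
  have hα1 : |α| ≤ η := by
    rw [hα, abs_div, abs_of_pos hq1, div_le_iff₀ hq1]
    exact (abs_real_inner_le_norm p q).trans (mul_le_mul_of_nonneg_right hp1 hq1.le)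
  have h1 : ‖p - α • u‖ ≤ A ^ 3 * ε := by
    rw [dev_eq p q hq2, norm_smul, Real.norm_eq_abs, abs_of_pos (by positivity)] at hp2
    have h2 : 1 ≤ (A * ‖q‖) ^ 2 := one_le_pow₀ hq
    have h3 : 0 ≤ ‖p - α • u‖ := norm_nonneg _
    calc ‖p - α • u‖ ≤ (A * ‖q‖) ^ 2 * ‖p - α • u‖ := le_mul_of_one_le_left h3 h2
      _ = A ^ 2 * (‖q‖ ^ 2 * ‖p - α • u‖) := by ring
      _ ≤ A ^ 2 * (A * ε) := mul_le_mul_of_nonneg_left hp2 (by positivity)
      _ = A ^ 3 * ε := by ring
  set k := round (α / ε) with hk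
  have h4 : |α / ε - k| ≤ 1 / 2 := abs_sub_round _
  have h5 : |α - k * ε| ≤ ε := by
    have h6 : α - k * ε = (α / ε - k) * ε := by field_simp
    rw [h6, abs_mul, abs_of_pos hε]
    nlinarith
  have h7 : |(k : ℝ)| ≤ η / ε + 1 / 2 := by
    have h8 : |(k : ℝ)| ≤ |α / ε| + |α / ε - k| := by
      have := abs_sub_abs_le_abs_sub (k : ℝ) (α / ε)
      rw [abs_sub_comm] at this
      linarith
    have h9 : |α / ε| ≤ η / ε := by
      rw [abs_div, abs_of_pos hε]
      exact div_le_div_of_nonneg_right hα1 hε.le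
    linarith
  have h10 : |(k : ℝ)| < K + 1 := by linarith
  have h11 : |k| < (K : ℤ) + 1 := by
    have : ((|k| : ℤ) : ℝ) < (K : ℤ) + 1 := by
      rw [Int.cast_abs]
      exact_mod_cast h10
    exact_mod_cast this
  simp only [Set.mem_iUnion]
  refine ⟨k, ?_, ?_⟩
  · rw [Finset.mem_Icc]
    exact abs_le.1 (Int.lt_add_one_iff.1 h11)
  · rw [mem_closedBall_iff_norm]
    have h12 : p - ((k : ℝ) * ε) • u = (p - α • u) + (α - k * ε) • u := by
      rw [sub_smul]
      abel
    rw [h12]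
    refine (norm_add_le _ _).trans ?_
    rw [norm_smul, hu1, mul_one, Real.norm_eq_abs]
    nlinarith

theorem vol_sec {n : ℕ} (q : E n) (A η ε : ℝ) (hA : 0 < A) (hq : 1 ≤ A * ‖q‖) (hε : 0 < ε)
    (hη : ε ≤ η) :
    volume (Sec q A η ε) ≤ ENNReal.ofReal
      (5 * (η / ε) * (((A ^ 3 + 1) * ε) ^ n * (volume (Metric.ball (0 : E n) 1)).toReal)) := by
  classical
  set K := ⌊η / ε + 1⌋₊ with hK
  have hηε : 1 ≤ η / ε := by rwa [le_div_iff₀ hε, one_mul]
  have hK1 : (K : ℝ) ≤ η / ε + 1 := Nat.floor_le (by linarith)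
  have hK2 : η / ε + 1 ≤ K + 1 := (Nat.lt_floor_add_one _).le
  have hbf : volume (Metric.ball (0 : E n) 1) ≠ ⊤ := measure_ball_lt_top.ne
  have hr : 0 ≤ (A ^ 3 + 1) * ε := by positivity
  have hb : ∀ x : E n, volume (Metric.closedBall x ((A ^ 3 + 1) * ε)) =
      ENNReal.ofReal (((A ^ 3 + 1) * ε) ^ n * (volume (Metric.ball (0 : E n) 1)).toReal) := by
    intro x
    rw [Measure.addHaar_closedBall volume x hr, finrank_euclideanSpace_fin,
      ENNReal.ofReal_mul (by positivity), ENNReal.ofReal_toReal hbf]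
  refine (measure_mono (sec_sub q A η ε hA hq hε K hK2)).trans ?_
  refine (measure_biUnion_finset_le _ _).trans ?_
  rw [Finset.sum_congr rfl fun k _ => hb _, Finset.sum_const, nsmul_eq_mul,
    ← ENNReal.ofReal_natCast, ← ENNReal.ofReal_mul (Nat.cast_nonneg _)]
  refine ENNReal.ofReal_le_ofReal (mul_le_mul_of_nonneg_right ?_ (by positivity))
  rw [Int.card_Icc]
  have h1 : ((((K : ℤ) + 1 - (-(K : ℤ))).toNat : ℕ) : ℝ) = 2 * K + 1 := by
    have h2 : ((K : ℤ) + 1 - (-(K : ℤ))).toNat = 2 * K + 1 := by omega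
    rw [h2]
    push_cast
    ring
  rw [h1]
  linarith

end I_TH1X

open I_TH1X in
theorem I_TH1 : TH1 := by
  intro n m A hm hA
  set V := (volume (Metric.ball (0 : E n) 1)).toReal with hV
  set W := (volume (Metric.closedBall (0 : E n) (A + 6 * A / ‖m‖))).toReal with hW
  have hV0 : 0 ≤ V := ENNReal.toReal_nonneg
  have hW0 : 0 ≤ W := ENNReal.toReal_nonneg
  refine ⟨5 * (A ^ 3 + 1) ^ n * V * W, by positivity, ?_⟩
  intro η ε hε hη hη1
  set S : Set (E n × E n) := {w : E n × E n | ‖w.2‖ ≤ A ∧ ‖w.1‖ ≤ η ∧ 1 ≤ A * ‖w.2‖ ∧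
    ‖dev w.1 w.2‖ ≤ A * ε ∧ |inner ℝ m w.2| ≤ A * ε} with hS
  have hSm : MeasurableSet S := by
    have hd : Continuous fun w : E n × E n => dev w.1 w.2 := by
      unfold dev
      fun_prop
    have h1 : IsClosed {w : E n × E n | ‖w.2‖ ≤ A} := isClosed_le (by fun_prop) continuous_const
    have h2 : IsClosed {w : E n × E n | ‖w.1‖ ≤ η} := isClosed_le (by fun_prop) continuous_const
    have h3 : IsClosed {w : E n × E n | 1 ≤ A * ‖w.2‖} :=
      isClosed_le continuous_const (by fun_prop)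
    have h4 : IsClosed {w : E n × E n | ‖dev w.1 w.2‖ ≤ A * ε} :=
      isClosed_le hd.norm continuous_const
    have h5 : IsClosed {w : E n × E n | |inner ℝ m w.2| ≤ A * ε} :=
      isClosed_le (by fun_prop) continuous_const
    exact (h1.inter (h2.inter (h3.inter (h4.inter h5)))).measurableSet
  rw [Measure.volume_eq_prod, Measure.prod_apply_symm hSm]
  set c := ENNReal.ofReal (5 * (η / ε) * (((A ^ 3 + 1) * ε) ^ n * V)) with hc
  have hle : ∀ q : E n, volume ((fun p => (p, q)) ⁻¹' S) ≤ (Qs m A ε).indicator (fun _ => c) q := by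
    intro q
    by_cases h : q ∈ Qs m A ε ∧ 1 ≤ A * ‖q‖
    · rw [Set.indicator_of_mem h.1]
      refine (measure_mono ?_).trans (vol_sec q A η ε hA h.2 hε hη)
      rintro p ⟨_, h2, _, h4, _⟩
      exact ⟨h2, h4⟩
    · have h0 : (fun p => (p, q)) ⁻¹' S = ∅ := by
        rw [Set.eq_empty_iff_forall_notMem]
        rintro p ⟨h1, h2, h3, h4, h5⟩
        exact h ⟨⟨h1, h5⟩, h3⟩
      rw [h0, measure_empty]
      exact bot_le
  refine (lintegral_mono hle).trans ?_
  rw [lintegral_indicator (Qs_meas m A ε), setLIntegral_const]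
  have hη0 : 0 < η := hε.trans_le hη
  have hvQ : volume (Qs m A ε) ≤ ENNReal.ofReal (ε * W) :=
    vol_Qs m hm A hA ε hε (hη.trans hη1)
  clear_value W V
  refine (mul_le_mul_right hvQ c).trans ?_
  rw [hc, ← ENNReal.ofReal_mul (by positivity)]
  refine ENNReal.ofReal_le_ofReal (le_of_eq ?_)
  rw [mul_pow]
  field_simp

end Pool.Agent.Work.MP_c9f990_an.Al

end

section

set_option autoImplicit false

/-!
# MP_c9f990_an, item TH2: from pairs to the phase space
-/

open MeasureTheory Set Filter Topology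
open scoped NNReal ENNReal

namespace Pool.Agent.Work.MP_c9f990_an.Al

namespace I_TH2X

/-- the pair of relative velocities -/
def rel {N n : ℕ} (i j k : Fin N) (v : C N n) : E n × E n := (v i - v j, v k - v j)

/-- a section of `rel` -/
def sec {N n : ℕ} (i k : Fin N) (w : E n × E n) : C N n :=
  fun l => if l = i then w.1 else if l = k then w.2 else 0

lemma rel_cont {N n : ℕ} (i j k : Fin N) : Continuous (rel (n := n) i j k) := by
  unfold rel
  fun_prop

lemma sec_cont {N n : ℕ} (i k : Fin N) : Continuous (sec (n := n) i k) := by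
  unfold sec
  apply continuous_pi
  intro l
  by_cases h1 : l = i
  · simp only [h1, if_true]
    fun_prop
  · by_cases h2 : l = k
    · subst h2
      simp only [h1, if_false, if_true]
      fun_prop
    · simp only [h1, h2, if_false]
      fun_prop

lemma rel_add {N n : ℕ} {i j k : Fin N} (hij : i ≠ j) (hik : i ≠ k) (hjk : j ≠ k) (v : C N n)
    (w : E n × E n) : rel i j k (v + sec i k w) = rel i j k v + w := by
  unfold rel sec
  have h1 : ¬ (j = i) := fun h => hij h.symm
  have h3 : ¬ (k = i) := fun h => hik h.symm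
  ext1
  · simp only [Pi.add_apply, if_true, h1, hjk, if_false, Prod.fst_add]
    abel
  · simp only [Pi.add_apply, if_true, h1, hjk, h3, if_false, Prod.snd_add]
    abel

lemma norm_sec {N n : ℕ} (i k : Fin N) (w : E n × E n) : ‖sec i k w‖ ≤ ‖w‖ := by
  unfold sec
  rw [pi_norm_le_iff_of_nonneg (norm_nonneg _)]
  intro l
  by_cases h1 : l = i
  · simp only [h1, if_true]
    exact norm_fst_le w
  · by_cases h2 : l = k
    · simp only [h2, if_true]
      split_ifs
      · exact norm_fst_le w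
      · exact norm_snd_le w
    · simp only [h1, h2, if_false, norm_zero]
      exact norm_nonneg _

lemma vel {N n : ℕ} {i j k : Fin N} (hij : i ≠ j) (hik : i ≠ k) (hjk : j ≠ k) (r : ℝ)
    (S : Set (E n × E n)) (hS : MeasurableSet S) :
    volume (Metric.closedBall (0 : E n × E n) 1) *
      volume {v : C N n | v ∈ Metric.closedBall (0 : C N n) r ∧ rel i j k v ∈ S} ≤
      volume (Metric.closedBall (0 : C N n) (r + 1)) * volume S := by
  have hinst : (volume : Measure (E n × E n)).IsAddHaarMeasure := by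
    rw [Measure.volume_eq_prod]
    infer_instance
  set D : Set (E n × E n) := Metric.closedBall 0 1 with hD
  set B : Set (C N n) := Metric.closedBall 0 r with hB
  set B' : Set (C N n) := Metric.closedBall 0 (r + 1) with hB'
  have hBm : MeasurableSet B := Metric.isClosed_closedBall.measurableSet
  have hBm' : MeasurableSet B' := Metric.isClosed_closedBall.measurableSet
  have hDm : MeasurableSet D := Metric.isClosed_closedBall.measurableSet
  have hrm : Measurable (rel (n := n) i j k) := (rel_cont i j k).measurable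
  have hsm : Measurable (sec (n := n) i k) := (sec_cont i k).measurable
  have hVm : MeasurableSet {v : C N n | v ∈ B ∧ rel i j k v ∈ S} := by
    exact hBm.inter (hrm hS)
  set f : C N n → ℝ≥0∞ := {v : C N n | v ∈ B ∧ rel i j k v ∈ S}.indicator 1 with hf
  have hfm : Measurable f := measurable_one.indicator hVm
  have e1 : volume {v : C N n | v ∈ B ∧ rel i j k v ∈ S} = ∫⁻ v, f v := by
    rw [hf, lintegral_indicator_one hVm]
  have e2 : volume D * volume {v : C N n | v ∈ B ∧ rel i j k v ∈ S} =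
      ∫⁻ w in D, ∫⁻ v, f (v + sec i k w) := by
    have : ∀ w : E n × E n, ∫⁻ v, f (v + sec i k w) = ∫⁻ v, f v := by
      intro w
      exact lintegral_add_right_eq_self f (sec i k w)
    simp_rw [this]
    rw [lintegral_const, Measure.restrict_apply MeasurableSet.univ, univ_inter, e1, mul_comm]
  rw [e2]
  have hmeas : Measurable (Function.uncurry fun (w : E n × E n) (v : C N n) =>
      f (v + sec i k w)) := by
    apply hfm.comp
    exact measurable_snd.add (hsm.comp measurable_fst)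
  rw [lintegral_lintegral_swap hmeas.aemeasurable]
  have hle : ∀ v : C N n, ∫⁻ w in D, f (v + sec i k w) ≤ B'.indicator (fun _ => volume S) v := by
    intro v
    by_cases hv : v ∈ B'
    · rw [indicator_of_mem hv]
      calc ∫⁻ w in D, f (v + sec i k w) ≤ ∫⁻ w in D, S.indicator 1 (rel i j k v + w) := by
            apply lintegral_mono
            intro w
            simp only [hf]
            by_cases h : v + sec i k w ∈ {v : C N n | v ∈ B ∧ rel i j k v ∈ S}
            · rw [indicator_of_mem h]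
              have h2 : rel i j k (v + sec i k w) ∈ S := h.2
              rw [rel_add hij hik hjk] at h2
              rw [indicator_of_mem h2]
              simp
            · rw [indicator_of_notMem h]
              simp
        _ ≤ ∫⁻ w, S.indicator 1 (rel i j k v + w) := setLIntegral_le_lintegral _ _
        _ = ∫⁻ w, S.indicator 1 w := lintegral_add_left_eq_self (S.indicator 1) (rel i j k v)
        _ = volume S := lintegral_indicator_one hS
    · rw [indicator_of_notMem hv]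
      have : ∫⁻ w in D, f (v + sec i k w) = ∫⁻ w in D, 0 := by
        apply setLIntegral_congr_fun hDm
        intro w hw
        simp only [hf]
        apply indicator_of_notMem
        intro h
        apply hv
        have h1 : ‖v + sec i k w‖ ≤ r := by simpa [hB] using h.1
        have h2 : ‖w‖ ≤ 1 := by simpa [hD] using hw
        have h3 := norm_sec i k w
        have h4 : ‖v‖ ≤ ‖v + sec i k w‖ + ‖sec i k w‖ := by
          have := norm_sub_le (v + sec i k w) (sec i k w)
          simpa using this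
        have h5 : ‖v‖ ≤ r + 1 := by linarith
        simpa [hB'] using h5
      rw [this]
      simp
  calc ∫⁻ v, ∫⁻ w in D, f (v + sec i k w) ≤ ∫⁻ v, B'.indicator (fun _ => volume S) v :=
        lintegral_mono hle
    _ = volume B' * volume S := by
        rw [lintegral_indicator hBm', setLIntegral_const, mul_comm]

lemma ke_ball {N n : ℕ} (v : C N n) (A : ℝ) (h : ke v ≤ A) :
    v ∈ Metric.closedBall (0 : C N n) (Real.sqrt A) := by
  rw [mem_closedBall_zero_iff, pi_norm_le_iff_of_nonneg (Real.sqrt_nonneg _)]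
  intro l
  apply Real.le_sqrt_of_sq_le
  refine le_trans ?_ h
  unfold ke
  exact Finset.single_le_sum (f := fun i => ‖v i‖ ^ 2) (fun i _ => by positivity)
    (Finset.mem_univ l)

/-- the box of the positions -/
def box (N n : ℕ) : Set (C N n) := {x | ∀ i k, 0 ≤ x i k ∧ x i k < 2 * Real.pi}

lemma box_fin (N n : ℕ) : volume (box N n) < ⊤ := by
  have hsub : box N n ⊆ Metric.closedBall (0 : C N n)
      (Real.sqrt (n * (2 * Real.pi) ^ 2)) := by
    intro x hx
    rw [mem_closedBall_zero_iff, pi_norm_le_iff_of_nonneg (Real.sqrt_nonneg _)]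
    intro l
    rw [EuclideanSpace.norm_eq]
    apply Real.sqrt_le_sqrt
    calc ∑ k, ‖x l k‖ ^ 2 ≤ ∑ _k : Fin n, (2 * Real.pi) ^ 2 := by
          apply Finset.sum_le_sum
          intro k _
          have h := hx l k
          rw [Real.norm_eq_abs, sq_abs]
          nlinarith [h.1, h.2]
      _ = n * (2 * Real.pi) ^ 2 := by simp
  refine lt_of_le_of_lt (measure_mono hsub) ?_
  exact (isCompact_closedBall _ _).measure_lt_top

end I_TH2X

open I_TH2X in
theorem I_TH2 : TH2 := by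
  intro n N i j k A hij hik hjk
  set r : ℝ := Real.sqrt A with hr
  set D : Set (E n × E n) := Metric.closedBall 0 1 with hD
  have hD0 : volume D ≠ 0 := (Metric.measure_closedBall_pos volume _ one_pos).ne'
  have hDt : volume D ≠ ⊤ := (isCompact_closedBall _ _).measure_lt_top.ne
  have hBt : volume (Metric.closedBall (0 : C N n) (r + 1)) ≠ ⊤ :=
    (isCompact_closedBall _ _).measure_lt_top.ne
  set c : ℝ≥0∞ := volume (box N n) * (volume (Metric.closedBall (0 : C N n) (r + 1)) / volume D)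
    with hc
  have hct : c ≠ ⊤ := by
    rw [hc]
    apply ENNReal.mul_ne_top (box_fin N n).ne
    exact ENNReal.div_ne_top hBt hD0
  refine ⟨c.toReal, ENNReal.toReal_nonneg, ?_⟩
  intro S hS
  rw [ENNReal.ofReal_toReal hct]
  have hsub : ({z : P N n | ke z.2 ≤ A ∧ (z.2 i - z.2 j, z.2 k - z.2 j) ∈ S} ∩ slab N n) ⊆
      (box N n) ×ˢ {v : C N n | v ∈ Metric.closedBall (0 : C N n) r ∧ rel i j k v ∈ S} := by
    rintro z ⟨⟨h1, h2⟩, h3⟩
    refine ⟨?_, ke_ball _ _ h1, h2⟩
    exact h3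
  refine (measure_mono hsub).trans ?_
  have hprod : (volume : Measure (P N n)) = (volume : Measure (C N n)).prod volume := rfl
  rw [hprod, Measure.prod_prod]
  have hv := vel hij hik hjk r S hS
  have hv2 : volume {v : C N n | v ∈ Metric.closedBall (0 : C N n) r ∧ rel i j k v ∈ S} ≤
      volume (Metric.closedBall (0 : C N n) (r + 1)) / volume D * volume S := by
    rw [mul_comm] at hv
    have := (ENNReal.le_div_iff_mul_le (Or.inl hD0) (Or.inl hDt)).2 hv
    refine this.trans (le_of_eq ?_)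
    rw [div_eq_mul_inv, div_eq_mul_inv]
    ring
  calc volume (box N n) *
        volume {v : C N n | v ∈ Metric.closedBall (0 : C N n) r ∧ rel i j k v ∈ S} ≤
      volume (box N n) *
        (volume (Metric.closedBall (0 : C N n) (r + 1)) / volume D * volume S) := by gcongr
    _ = c * volume S := by rw [hc]; ring

end Pool.Agent.Work.MP_c9f990_an.Al

end

section

set_option autoImplicit false

/-!
# MP_c9f990_an: volume of the thin sets of the phase space
-/

open MeasureTheory Set Filter Topology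
open scoped NNReal ENNReal

namespace Pool.Agent.Work.MP_c9f990_an.Al

namespace I_THINX

theorem norm_vel {N n : ℕ} (v : C N n) (A : ℝ) (h : ke v ≤ A) (k j : Fin N) :
    ‖v k - v j‖ ≤ A + 1 := by
  have hk : ∀ l : Fin N, ‖v l‖ ^ 2 ≤ A := fun l =>
    (Finset.single_le_sum (f := fun i => ‖v i‖ ^ 2) (fun i _ => sq_nonneg _)
      (Finset.mem_univ l)).trans h
  have h1 := hk k
  have h2 := hk j
  have h3 : ‖v k - v j‖ ≤ ‖v k‖ + ‖v j‖ := _root_.norm_sub_le (v k) (v j)
  have hA : 0 ≤ A := (sq_nonneg _).trans h1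
  have h4 : ‖v k‖ + ‖v j‖ ≤ A + 1 := by
    nlinarith [sq_nonneg (‖v k‖ - ‖v j‖), sq_nonneg (A - 1), norm_nonneg (v k),
      norm_nonneg (v j), sq_nonneg (‖v k‖ + ‖v j‖ - (A + 1)), sq_nonneg (‖v k‖ - 1),
      sq_nonneg (‖v j‖ - 1)]
  exact h3.trans h4

end I_THINX

theorem I_THIN (h1 : TH1) (h2 : TH2) : THIN := by
  intro n N i j k m A hij hik hjk hm hA
  obtain ⟨A₁, hA₁, h1'⟩ := h1 n m (A + 1) hm (by linarith)
  obtain ⟨A₂, hA₂, h2'⟩ := h2 n N i j k A hij hik hjk
  refine ⟨A₂ * A₁, mul_nonneg hA₂ hA₁, fun η ε hε hεη hη => ?_⟩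
  set S : Set (E n × E n) := {w : E n × E n | ‖w.2‖ ≤ A + 1 ∧ ‖w.1‖ ≤ η ∧ 1 ≤ (A + 1) * ‖w.2‖ ∧
    ‖dev w.1 w.2‖ ≤ (A + 1) * ε ∧ |inner ℝ m w.2| ≤ (A + 1) * ε} with hS
  have hSm : MeasurableSet S := by
    refine IsClosed.measurableSet ?_
    rw [hS]
    simp only [Set.ofPred_and]
    unfold dev
    refine IsClosed.inter ?_ (IsClosed.inter ?_ (IsClosed.inter ?_ (IsClosed.inter ?_ ?_)))
    all_goals exact isClosed_le (by fun_prop) (by fun_prop)
  have hsub : thin i j k m A η ε ∩ slab N n ⊆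
      {z : P N n | ke z.2 ≤ A ∧ (z.2 i - z.2 j, z.2 k - z.2 j) ∈ S} ∩ slab N n := by
    rintro z ⟨⟨g1, g2, g3, g4, g5⟩, hz⟩
    have hε' : A * ε ≤ (A + 1) * ε := by nlinarith
    have hn : A * ‖z.2 k - z.2 j‖ ≤ (A + 1) * ‖z.2 k - z.2 j‖ := by
      nlinarith [norm_nonneg (z.2 k - z.2 j)]
    exact ⟨⟨g1, I_THINX.norm_vel z.2 A g1 k j, g2, g3.trans hn, g4.trans hε', g5.trans hε'⟩, hz⟩
  calc volume (thin i j k m A η ε ∩ slab N n)
      ≤ volume ({z : P N n | ke z.2 ≤ A ∧ (z.2 i - z.2 j, z.2 k - z.2 j) ∈ S} ∩ slab N n) :=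
        measure_mono hsub
    _ ≤ ENNReal.ofReal A₂ * volume S := h2' S hSm
    _ ≤ ENNReal.ofReal A₂ * ENNReal.ofReal (A₁ * η * ε ^ n) :=
        mul_le_mul_right (h1' η ε hε hεη hη) _
    _ = ENNReal.ofReal (A₂ * A₁ * η * ε ^ n) := by
        rw [← ENNReal.ofReal_mul hA₂]
        congr 1
        ring

end Pool.Agent.Work.MP_c9f990_an.Al

end

section

set_option autoImplicit false

/-!
# MP_c9f990_an: trace of the derivative of the field
-/

open MeasureTheory Set Filter Topology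

namespace Pool.Agent.Work.MP_c9f990_an.Al

namespace I_TRFX

variable {N n : ℕ}

/-- the accelerations for fixed positions as a linear map of the velocities -/
noncomputable def lin (Φ : E n → ℝ) (x : C N n) : C N n →ₗ[ℝ] C N n :=
  ∑ i, ∑ j, ((N : ℝ)⁻¹ * Φ (x i - x j)) •
    ((LinearMap.single ℝ (fun _ : Fin N => E n) i).comp
      (LinearMap.proj (R := ℝ) (φ := fun _ : Fin N => E n) j -
        LinearMap.proj (R := ℝ) (φ := fun _ : Fin N => E n) i))

theorem lin_apply (Φ : E n → ℝ) (x v : C N n) : lin Φ x v = force Φ (x, v) := by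
  funext k
  unfold lin force
  simp only [LinearMap.sum_apply, LinearMap.smul_apply, LinearMap.comp_apply, Finset.sum_apply,
    Pi.smul_apply, LinearMap.sub_apply, LinearMap.proj_apply, LinearMap.coe_single]
  rw [Finset.sum_eq_single k]
  · rw [Finset.smul_sum]
    refine Finset.sum_congr rfl fun j _ => ?_
    rw [Pi.single_eq_same, mul_smul]
  · intro i _ hik
    refine Finset.sum_eq_zero fun j _ => ?_
    rw [Pi.single_eq_of_ne (Ne.symm hik), smul_zero]
  · intro h
    exact absurd (Finset.mem_univ k) h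

theorem trace_lin (Φ : E n → ℝ) (x v : C N n) :
    LinearMap.trace ℝ (C N n) (lin Φ x) = -(n : ℝ) * total Φ (x, v) := by
  have key : ∀ i j : Fin N, LinearMap.trace ℝ (C N n)
      ((LinearMap.single ℝ (fun _ : Fin N => E n) i).comp
      (LinearMap.proj (R := ℝ) (φ := fun _ : Fin N => E n) j -
        LinearMap.proj (R := ℝ) (φ := fun _ : Fin N => E n) i)) =
      if i = j then 0 else -(n : ℝ) := by
    intro i j
    rw [LinearMap.trace_comp_comm']
    split_ifs with h
    · subst h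
      rw [sub_self, LinearMap.zero_comp, map_zero]
    · have h1 : (LinearMap.proj (R := ℝ) (φ := fun _ : Fin N => E n) j -
        LinearMap.proj (R := ℝ) (φ := fun _ : Fin N => E n) i).comp
          (LinearMap.single ℝ (fun _ : Fin N => E n) i) = -LinearMap.id := by
        apply LinearMap.ext
        intro u
        show (Pi.single i u : Fin N → E n) j - (Pi.single i u : Fin N → E n) i = -u
        rw [Pi.single_eq_of_ne (Ne.symm h), Pi.single_eq_same, zero_sub]
      rw [h1, map_neg, LinearMap.trace_id, finrank_euclideanSpace, Fintype.card_fin]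
  unfold lin total
  rw [map_sum, Finset.mul_sum, Finset.mul_sum]
  refine Finset.sum_congr rfl fun i _ => ?_
  rw [map_sum, Finset.mul_sum, Finset.mul_sum]
  refine Finset.sum_congr rfl fun j _ => ?_
  rw [map_smul, key, smul_eq_mul]
  split_ifs
  · ring
  · ring

theorem differentiable_force {Φ : E n → ℝ} (h : Kernel Φ) :
    Differentiable ℝ (force (N := N) Φ) := by
  have hΦ : Differentiable ℝ Φ := h.smooth.differentiable one_ne_zero
  rw [differentiable_pi]
  intro i
  unfold force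
  have hp : ∀ k : Fin N, Differentiable ℝ (fun z : P N n => z.1 k) := fun k =>
    (differentiable_pi.1 differentiable_fst) k
  have hv : ∀ k : Fin N, Differentiable ℝ (fun z : P N n => z.2 k) := fun k =>
    (differentiable_pi.1 differentiable_snd) k
  have hs : Differentiable ℝ
      (fun z : P N n => ∑ j, Φ (z.1 i - z.1 j) • (z.2 j - z.2 i)) := by
    refine Differentiable.fun_sum fun j _ => ?_
    exact (hΦ.comp ((hp i).sub (hp j))).smul ((hv j).sub (hv i))
  exact hs.const_smul ((N : ℝ)⁻¹)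

theorem fderiv_force_inr {Φ : E n → ℝ} (h : Kernel Φ) (z : P N n) (u : C N n) :
    fderiv ℝ (force (N := N) Φ) z (0, u) = lin Φ z.1 u := by
  have h1 : HasFDerivAt (fun v : C N n => force Φ (z.1, v))
      ((fderiv ℝ (force (N := N) Φ) z).comp (ContinuousLinearMap.inr ℝ (C N n) (C N n))) z.2 := by
    have h2 : HasFDerivAt (force (N := N) Φ) (fderiv ℝ (force (N := N) Φ) z) (z.1, z.2) :=
      (differentiable_force h z).hasFDerivAt
    exact h2.comp z.2 (hasFDerivAt_prodMk_right z.1 z.2)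
  have h3 : (fun v : C N n => force Φ (z.1, v)) =
      (LinearMap.toContinuousLinearMap (lin Φ z.1) : C N n → C N n) := by
    funext v
    exact (lin_apply Φ z.1 v).symm
  rw [h3] at h1
  have h4 := h1.unique (LinearMap.toContinuousLinearMap (lin Φ z.1)).hasFDerivAt
  have h5 := congrArg (fun L : C N n →L[ℝ] C N n => L u) h4
  exact h5

theorem fld_eventually (Φ : E n → ℝ) (R : ℝ) (z : P N n) (hz : ke z.2 < R + 1) :
    fld Φ R =ᶠ[𝓝 z] fun w => (w.2, force Φ w) := by
  have hc : Continuous (fun w : P N n => ke w.2) := by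
    unfold ke
    fun_prop
  filter_upwards [hc.continuousAt.eventually_lt (continuousAt_const (y := R + 1)) hz] with w hw
  unfold fld chi
  rw [Real.smoothTransition.one_of_one_le (by linarith), one_smul]

end I_TRFX

open I_TRFX in
theorem I_TRF : TRF := by
  intro n N Φ R hΦ z hz
  have h1 : fderiv ℝ (fld Φ R) z =
      (ContinuousLinearMap.snd ℝ (C N n) (C N n)).prod (fderiv ℝ (force (N := N) Φ) z) := by
    rw [(fld_eventually Φ R z hz).fderiv_eq]
    exact (hasFDerivAt_snd.prodMk (differentiable_force hΦ z).hasFDerivAt).fderiv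
  have h2 : ((fderiv ℝ (fld Φ R) z : P N n →L[ℝ] P N n) : P N n →ₗ[ℝ] P N n) =
      (LinearMap.inl ℝ (C N n) (C N n)).comp (LinearMap.snd ℝ (C N n) (C N n)) +
      (LinearMap.inr ℝ (C N n) (C N n)).comp
        ((fderiv ℝ (force (N := N) Φ) z : P N n →L[ℝ] C N n) : P N n →ₗ[ℝ] C N n) := by
    rw [h1]
    apply LinearMap.ext
    intro w
    show (w.2, fderiv ℝ (force (N := N) Φ) z w) =
      (w.2, (0 : C N n)) + ((0 : C N n), fderiv ℝ (force (N := N) Φ) z w)
    rw [Prod.mk_add_mk, add_zero, zero_add]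
  rw [h2, map_add,
    LinearMap.trace_comp_comm' (LinearMap.snd ℝ (C N n) (C N n)) (LinearMap.inl ℝ (C N n) (C N n)),
    LinearMap.trace_comp_comm'
      ((fderiv ℝ (force (N := N) Φ) z : P N n →L[ℝ] C N n) : P N n →ₗ[ℝ] C N n)
      (LinearMap.inr ℝ (C N n) (C N n))]
  have h3 : (LinearMap.snd ℝ (C N n) (C N n)).comp (LinearMap.inl ℝ (C N n) (C N n)) = 0 :=
    LinearMap.ext fun _ => rfl
  have h4 : ((fderiv ℝ (force (N := N) Φ) z : P N n →L[ℝ] C N n) : P N n →ₗ[ℝ] C N n).comp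
      (LinearMap.inr ℝ (C N n) (C N n)) = lin Φ z.1 :=
    LinearMap.ext fun u => fderiv_force_inr hΦ z u
  rw [h3, h4, map_zero, zero_add]
  exact trace_lin Φ z.1 z.2

end Pool.Agent.Work.MP_c9f990_an.Al

end

section

set_option autoImplicit false

/-!
# MP_c9f990_an: item TUBE
-/

open MeasureTheory Set Filter Topology
open scoped NNReal ENNReal

namespace Pool.Agent.Work.MP_c9f990_an.Al

namespace I_TUBEX

variable {n : ℕ}

/-- component orthogonal to `u` -/
noncomputable def perp (u y : E n) : E n := y - (inner ℝ u y / ‖u‖ ^ 2) • u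

/-- test vector for the coordinate `a` of `perp u` -/
noncomputable def tv (u : E n) (a : Fin n) : E n :=
  EuclideanSpace.single a (1 : ℝ) - (u a / ‖u‖ ^ 2) • u

lemma inner_tv (u y : E n) (a : Fin n) : inner ℝ (tv u a) y = perp u y a := by
  unfold tv perp
  rw [inner_sub_left, EuclideanSpace.inner_single_left, inner_smul_left]
  simp only [map_one, one_mul, PiLp.sub_apply, PiLp.smul_apply, smul_eq_mul]
  have h : (starRingEnd ℝ) (u a / ‖u‖ ^ 2) = u a / ‖u‖ ^ 2 := rfl
  rw [h]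
  ring

lemma inner_tv_self (u : E n) (hu : u ≠ 0) (a : Fin n) : inner ℝ (tv u a) u = (0 : ℝ) := by
  rw [inner_tv]
  unfold perp
  have h : ‖u‖ ^ 2 ≠ 0 := by positivity
  rw [real_inner_self_eq_norm_sq, div_self h, one_smul, sub_self]
  rfl

lemma norm_le_sum (y : E n) : ‖y‖ ≤ ∑ a, |y a| := by
  have h : y = ∑ a, EuclideanSpace.single a (y a) := by
    ext b
    simp [Finset.sum_apply]
  calc ‖y‖ = ‖∑ a, EuclideanSpace.single a (y a)‖ := by rw [← h]
    _ ≤ ∑ a, ‖EuclideanSpace.single a (y a)‖ := norm_sum_le _ _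
    _ = ∑ a, |y a| := by simp

lemma decomp (u y : E n) : y = (inner ℝ u y / ‖u‖ ^ 2) • u + perp u y := by
  unfold perp
  abel

lemma dev_self (u q : E n) : dev u q =
    (inner ℝ q (perp u q)) • u - (inner ℝ u q) • perp u q := by
  set μ : ℝ := inner ℝ u q / ‖u‖ ^ 2 with hμ
  have hq : q = μ • u + perp u q := decomp u q
  have h1 : ‖q‖ ^ 2 = μ * inner ℝ u q + inner ℝ q (perp u q) := by
    rw [← real_inner_self_eq_norm_sq]
    have h2 : inner ℝ q q = inner ℝ q (μ • u + perp u q) := by rw [← hq]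
    rw [h2, inner_add_right, inner_smul_right, real_inner_comm]
  have h3 : perp u q = q - μ • u := rfl
  unfold dev
  rw [h1, add_smul]
  rw [h3]
  rw [smul_sub, smul_smul]
  rw [mul_comm (inner ℝ u q) μ]
  abel

lemma dev_norm (u p q : E n) (hu : u ≠ 0) : ‖dev p q‖ ≤
    ‖p‖ * (2 * ‖q‖ * ‖perp u q‖) + 2 * ‖q‖ ^ 2 * ‖perp u p‖ := by
  set l : ℝ := inner ℝ u p / ‖u‖ ^ 2 with hl
  have hu0 : 0 < ‖u‖ := norm_pos_iff.2 hu
  have hp : p = l • u + perp u p := decomp u p
  have h1 : dev p q = l • dev u q + dev (perp u p) q := by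
    have h2 : dev p q = dev (l • u + perp u p) q := by rw [← hp]
    rw [h2]
    unfold dev
    rw [inner_add_left, inner_smul_left, smul_add, add_smul, smul_sub, smul_smul, smul_smul,
      smul_smul]
    have h3 : (starRingEnd ℝ) l = l := rfl
    rw [h3, mul_comm l (‖q‖ ^ 2)]
    abel
  have h4 : ‖dev u q‖ ≤ ‖u‖ * (2 * ‖q‖ * ‖perp u q‖) := by
    rw [dev_self]
    refine (norm_sub_le _ _).trans ?_
    rw [norm_smul, norm_smul, Real.norm_eq_abs, Real.norm_eq_abs]
    have h5 := abs_real_inner_le_norm q (perp u q)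
    have h6 := abs_real_inner_le_norm u q
    have h7 := mul_le_mul_of_nonneg_right h5 hu0.le
    have h8 := mul_le_mul_of_nonneg_right h6 (norm_nonneg (perp u q))
    nlinarith
  have h5 : ‖dev (perp u p) q‖ ≤ 2 * ‖q‖ ^ 2 * ‖perp u p‖ := by
    unfold dev
    refine (norm_sub_le _ _).trans ?_
    rw [norm_smul, norm_smul, Real.norm_eq_abs, Real.norm_eq_abs, abs_of_nonneg (sq_nonneg ‖q‖)]
    have h6 := abs_real_inner_le_norm (perp u p) q
    have h7 := mul_le_mul_of_nonneg_right h6 (norm_nonneg q)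
    nlinarith
  have h6 : |l| * ‖u‖ ≤ ‖p‖ := by
    have h7 := abs_real_inner_le_norm u p
    rw [hl, abs_div, abs_of_nonneg (sq_nonneg ‖u‖)]
    have h8 : |inner ℝ u p| / ‖u‖ ^ 2 * ‖u‖ = |inner ℝ u p| / ‖u‖ := by
      field_simp
    rw [h8, div_le_iff₀ hu0]
    linarith [mul_comm ‖u‖ ‖p‖]
  rw [h1]
  refine (norm_add_le _ _).trans ?_
  refine add_le_add ?_ h5
  rw [norm_smul, Real.norm_eq_abs]
  have h9 : 0 ≤ 2 * ‖q‖ * ‖perp u q‖ := by positivity
  calc |l| * ‖dev u q‖ ≤ |l| * (‖u‖ * (2 * ‖q‖ * ‖perp u q‖)) :=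
        mul_le_mul_of_nonneg_left h4 (abs_nonneg l)
    _ = (|l| * ‖u‖) * (2 * ‖q‖ * ‖perp u q‖) := by ring
    _ ≤ ‖p‖ * (2 * ‖q‖ * ‖perp u q‖) := mul_le_mul_of_nonneg_right h6 h9

end I_TUBEX

open I_TUBEX in
theorem I_TUBE : TUBE := by
  intro n N v c σ i j k m hc hij hkj hm hσ hest
  set u : E n := c k - c j with hu_def
  have hu : u ≠ 0 := sub_ne_zero.2 hkj
  have hu0 : 0 < ‖u‖ := norm_pos_iff.2 hu
  -- the orthogonal components
  have hA : ∀ a : Fin n, ∃ A T₀ : ℝ, ∀ t, T₀ ≤ t → ∀ l l',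
      |inner ℝ (tv u a) (v t l - v t l')| ≤ A * σ t :=
    fun a => hest (tv u a) (inner_tv_self u hu a)
  choose A T hAT using hA
  obtain ⟨Am, Tm, hAm⟩ := hest m hm
  set B : ℝ := ∑ a, |A a| with hB
  have hB0 : 0 ≤ B := Finset.sum_nonneg fun a _ => abs_nonneg _
  set T₁ : ℝ := ∑ a, |T a| with hT₁
  have hTa : ∀ a, T a ≤ T₁ := fun a => (le_abs_self _).trans
    (Finset.single_le_sum (f := fun a => |T a|) (fun b _ => abs_nonneg _) (Finset.mem_univ a))
  have hperp : ∀ t, T₁ ≤ t → ∀ l l', ‖perp u (v t l - v t l')‖ ≤ B * σ t := by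
    intro t ht l l'
    refine (norm_le_sum _).trans ?_
    rw [hB, Finset.sum_mul]
    refine Finset.sum_le_sum fun a _ => ?_
    rw [← inner_tv]
    refine (hAT a t ((hTa a).trans ht) l l').trans ?_
    exact mul_le_mul_of_nonneg_right (le_abs_self _) (hσ t)
  -- limits
  have hp : Tendsto (fun t => v t i - v t j) atTop (𝓝 0) := by
    have := (hc i).sub (hc j)
    rwa [hij, sub_self] at this
  have hq : Tendsto (fun t => v t k - v t j) atTop (𝓝 u) := (hc k).sub (hc j)
  have hp1 : ∀ᶠ t in atTop, ‖v t i - v t j‖ < 1 := by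
    have := hp.norm
    rw [norm_zero] at this
    exact this.eventually (gt_mem_nhds one_pos)
  have hq1 : ∀ᶠ t in atTop, ‖v t k - v t j‖ < ‖u‖ + 1 :=
    hq.norm.eventually (gt_mem_nhds (by linarith))
  have hq2 : ∀ᶠ t in atTop, ‖u‖ / 2 < ‖v t k - v t j‖ :=
    hq.norm.eventually (lt_mem_nhds (by linarith))
  obtain ⟨T₂, hT₂⟩ := eventually_atTop.1 (hp1.and (hq1.and hq2))
  refine ⟨2 / ‖u‖ + |Am| + (2 * (‖u‖ + 1) * B + 2 * (‖u‖ + 1) ^ 2 * B), max T₁ (max Tm T₂), ?_, ?_⟩
  · positivity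
  intro t ht
  have ht1 : T₁ ≤ t := (le_max_left _ _).trans ht
  have ht2 : Tm ≤ t := ((le_max_left _ _).trans (le_max_right _ _)).trans ht
  have ht3 : T₂ ≤ t := ((le_max_right _ _).trans (le_max_right _ _)).trans ht
  obtain ⟨g1, g2, g3⟩ := hT₂ t ht3
  set p := v t i - v t j with hp_def
  set q := v t k - v t j with hq_def
  have hs := hσ t
  have hBs : 0 ≤ B * σ t := mul_nonneg hB0 hs
  have hK1 : 0 ≤ 2 / ‖u‖ := by positivity
  have hK2 : 0 ≤ |Am| := abs_nonneg _
  have hK3 : 0 ≤ 2 * (‖u‖ + 1) * B + 2 * (‖u‖ + 1) ^ 2 * B := by positivity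
  refine ⟨?_, ?_, ?_⟩
  · have h1 : 1 ≤ 2 / ‖u‖ * ‖q‖ := by
      rw [div_mul_eq_mul_div, le_div_iff₀ hu0]
      linarith
    have h2 : 2 / ‖u‖ * ‖q‖ ≤ (2 / ‖u‖ + |Am| +
        (2 * (‖u‖ + 1) * B + 2 * (‖u‖ + 1) ^ 2 * B)) * ‖q‖ :=
      mul_le_mul_of_nonneg_right (by linarith) (norm_nonneg _)
    linarith
  · have h1 := dev_norm u p q hu
    have h2 := hperp t ht1 i j
    have h3 := hperp t ht1 k j
    rw [← hp_def] at h2
    rw [← hq_def] at h3
    have h4 : ‖p‖ * (2 * ‖q‖ * ‖perp u q‖) ≤ 1 * (2 * (‖u‖ + 1) * (B * σ t)) := by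
      apply mul_le_mul g1.le _ (by positivity) zero_le_one
      apply mul_le_mul _ h3 (norm_nonneg _) (by positivity)
      linarith
    have h5 : 2 * ‖q‖ ^ 2 * ‖perp u p‖ ≤ 2 * (‖u‖ + 1) ^ 2 * (B * σ t) := by
      apply mul_le_mul _ h2 (norm_nonneg _) (by positivity)
      have h6 : ‖q‖ ^ 2 ≤ (‖u‖ + 1) ^ 2 := pow_le_pow_left₀ (norm_nonneg _) g2.le 2
      linarith
    have h7 : 0 ≤ (2 / ‖u‖ + |Am|) * σ t := by positivity
    calc ‖dev p q‖ ≤ _ := h1
      _ ≤ 1 * (2 * (‖u‖ + 1) * (B * σ t)) + 2 * (‖u‖ + 1) ^ 2 * (B * σ t) := add_le_add h4 h5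
      _ ≤ (2 / ‖u‖ + |Am|) * σ t +
          (1 * (2 * (‖u‖ + 1) * (B * σ t)) + 2 * (‖u‖ + 1) ^ 2 * (B * σ t)) := by linarith
      _ = _ := by ring
  · have h1 := hAm t ht2 k j
    rw [← hq_def] at h1
    refine h1.trans ?_
    apply mul_le_mul_of_nonneg_right _ hs
    have := le_abs_self Am
    linarith

end Pool.Agent.Work.MP_c9f990_an.Al

end

section

set_option autoImplicit false

/-!
# Preimages of null sets under a flow are null
-/

open MeasureTheory Set Filter Topology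
open scoped NNReal ENNReal

namespace Pool.Agent.Work.MP_c9f990_an.Al

theorem I_NPRE : NPRE := by
  intro Q _ _ _ _ _ μ _ F φ M hφ t A hA
  have inv1 : ∀ z, φ (-t) (φ t z) = z := by
    intro z
    rw [← hφ.add, neg_add_cancel, hφ.zero]
  have h1 : φ t ⁻¹' A ⊆ φ (-t) '' A := by
    intro z hz
    exact ⟨φ t z, hz, inv1 z⟩
  refine measure_mono_null h1 ?_
  exact addHaar_image_eq_zero_of_differentiableOn_of_addHaar_eq_zero μ
    (fun z _ => (hφ.diff (-t) z).differentiableAt.differentiableWithinAt) hA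

end Pool.Agent.Work.MP_c9f990_an.Al

end

section

set_option autoImplicit false

/-!
# MP_c9f990_an: one aligned pair and velocities in a proper affine subspace
-/

open MeasureTheory Set Filter Topology
open scoped NNReal ENNReal

namespace Pool.Agent.Work.MP_c9f990_an.Al

variable {N n d : ℕ}

/-- `u` is within `r` of a combination of the vectors `w s` with coefficients at most `b` -/
def Near (w : Fin d → E n) (u : E n) (b r : ℝ) : Prop :=
  ∃ α : Fin d → ℝ, (∀ s, |α s| ≤ b) ∧ ‖u - ∑ s, α s • w s‖ ≤ r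

/-- thin sets, `d` directions: all relative velocities are near the span of the velocities
`v (k s) - v j` -/
def thinD (i j : Fin N) (k : Fin d → Fin N) (A η ε : ℝ) : Set (P N n) :=
  {z | ke z.2 ≤ A ∧ Near (fun s => z.2 (k s) - z.2 j) (z.2 i - z.2 j) (A * η) (A * ε) ∧
    ∀ l, l ≠ i → l ≠ j → (∀ s, l ≠ k s) →
      Near (fun s => z.2 (k s) - z.2 j) (z.2 l - z.2 j) A (A * ε)}

/-- volume of these thin sets -/
def THD : Prop := ∀ (n N d : ℕ) (i j : Fin N) (k : Fin d → Fin N) (A : ℝ), i ≠ j →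
  Function.Injective k → (∀ s, k s ≠ i) → (∀ s, k s ≠ j) → d ≤ n → 0 < A →
  (∀ η ε : ℝ, MeasurableSet (thinD (n := n) i j k A η ε)) ∧
  ∃ A' : ℝ, 0 ≤ A' ∧ ∀ η ε : ℝ, 0 < ε → ε ≤ η → η ≤ 1 →
  volume (thinD (n := n) i j k A η ε ∩ slab N n) ≤
    ENNReal.ofReal (A' * η ^ d * ε ^ ((n - d) * (N - 1 - d)))

/-- exceptional set, `d` directions -/
def Bad4 (Φ : E n → ℝ) (φ : ℝ → P N n → P N n) (R : ℝ) (i j : Fin N) (k : Fin d → Fin N) :
    Set (P N n) :=
  {z | ke z.2 ≤ R ∧ BddInt (fun t => rest Φ i j (φ t z)) ∧ ¬ BddInt (fun t => bond Φ i j (φ t z)) ∧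
    Tendsto (fun t => (φ t z).2 i - (φ t z).2 j) atTop (𝓝 0) ∧
    ∃ A T₀ : ℝ, 0 < A ∧ ∀ t, T₀ ≤ t →
      Near (fun s => (φ t z).2 (k s) - (φ t z).2 j) ((φ t z).2 i - (φ t z).2 j)
        (A * ‖(φ t z).2 i - (φ t z).2 j‖) (A * Real.exp (-clock Φ i j (fun s => φ s z) t)) ∧
      ∀ l, l ≠ i → l ≠ j → (∀ s, l ≠ k s) →
        Near (fun s => (φ t z).2 (k s) - (φ t z).2 j) ((φ t z).2 l - (φ t z).2 j) A
          (A * Real.exp (-clock Φ i j (fun s => φ s z) t))}

/-- it is null if the codimension count is favourable -/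
def NUL4 : Prop := ∀ (n N d : ℕ) (Φ : E n → ℝ) (R : ℝ), Kernel Φ →
  ∀ (φ : ℝ → P N n → P N n) (M : ℝ → P N n → P N n →L[ℝ] P N n), IsFlow (fld Φ R) φ M →
  ∀ (i j : Fin N) (k : Fin d → Fin N), i ≠ j → Function.Injective k → (∀ s, k s ≠ i) →
  (∀ s, k s ≠ j) → 1 ≤ d → d ≤ n → n ≤ (n - d) * (N - 1 - d) →
  volume (Bad4 Φ φ R i j k) = 0

/-- linear algebra: from the components to `Near` -/
def TUB4 : Prop := ∀ (n N : ℕ) (v : ℝ → C N n) (c : C N n) (σ : ℝ → ℝ) (i j : Fin N),
  (∀ l, Tendsto (fun t => v t l) atTop (𝓝 (c l))) → c i = c j → (∀ t, 0 ≤ σ t) →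
  (∀ e : E n, (∀ l l', inner ℝ e (c l) = inner ℝ e (c l')) → ∃ A T₀ : ℝ, ∀ t, T₀ ≤ t → ∀ l l',
    |inner ℝ e (v t l - v t l')| ≤ A * σ t) →
  ∀ d : ℕ, d = Module.finrank ℝ (Submodule.span ℝ (Set.range (fun l => c l - c j))) →
  ∃ (k : Fin d → Fin N), Function.Injective k ∧ (∀ s, k s ≠ i) ∧ (∀ s, k s ≠ j) ∧
  ∃ A T₀ : ℝ, 0 < A ∧ ∀ t, T₀ ≤ t →
    Near (fun s => v t (k s) - v t j) (v t i - v t j) (A * ‖v t i - v t j‖) (A * σ t) ∧
    ∀ l, Near (fun s => v t (k s) - v t j) (v t l - v t j) A (A * σ t)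

end Pool.Agent.Work.MP_c9f990_an.Al

end
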