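import Pool.Agent.Work.MP_c9f990_an.Bd.B03
import Pool.Agent.Work.MP_c9f990_an.Bd.B02

/-! Bundle of small proof modules (one section per former module). -/

section

set_option autoImplicit false

/-!
# MP_c9f990_an: the fourth exceptional set is null
-/

open MeasureTheory Set Filter Topology
open scoped NNReal ENNReal

namespace Pool.Agent.Work.MP_c9f990_an.Al

namespace I_NUL4X

open I_NUL2X

variable {N n d : ℕ}

theorem near_mono {w : Fin d → E n} {u : E n} {b b' r r' : ℝ} (hb : b ≤ b') (hr : r ≤ r')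
    (h : Near w u b r) : Near w u b' r' := by
  obtain ⟨α, h1, h2⟩ := h
  exact ⟨α, fun s => (h1 s).trans hb, h2.trans hr⟩

/-- `Near` is a closed condition -/
theorem closed_near {X : Type*} [TopologicalSpace X] {w : X → Fin d → E n} {u : X → E n} {b : ℝ}
    {r : X → ℝ} (hw : ∀ s, Continuous (fun x => w x s)) (hu : Continuous u) (hr : Continuous r) :
    IsClosed {x | Near (w x) (u x) b (r x)} := by
  set K : Set (Fin d → ℝ) := Icc (fun _ => -b) (fun _ => b) with hK
  have hKc : IsCompact K := isCompact_Icc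
  have : CompactSpace K := isCompact_iff_compactSpace.1 hKc
  have h1 : {x | Near (w x) (u x) b (r x)} =
      Prod.snd '' {p : K × X | ‖u p.2 - ∑ s, (p.1 : Fin d → ℝ) s • w p.2 s‖ ≤ r p.2} := by
    ext x
    constructor
    · rintro ⟨α, h1, h2⟩
      refine ⟨(⟨α, ?_⟩, x), h2, rfl⟩
      exact ⟨fun s => (abs_le.1 (h1 s)).1, fun s => (abs_le.1 (h1 s)).2⟩
    · rintro ⟨⟨⟨α, hα⟩, y⟩, h2, rfl⟩
      exact ⟨α, fun s => abs_le.2 ⟨hα.1 s, hα.2 s⟩, h2⟩
  rw [h1]
  apply isClosedMap_snd_of_compactSpace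
  apply isClosed_le
  · refine Continuous.norm (Continuous.sub (hu.comp continuous_snd) ?_)
    refine continuous_finsetSum _ fun s _ => ?_
    have e1 : Continuous (fun p : K × X => (p.1 : Fin d → ℝ) s) :=
      (continuous_apply s).comp (continuous_subtype_val.comp continuous_fst)
    have e2 : Continuous (fun p : K × X => w p.2 s) := (hw s).comp continuous_snd
    exact e1.smul e2
  · exact hr.comp continuous_snd

variable {F : P N n → P N n} {φ : ℝ → P N n → P N n} {M : ℝ → P N n → P N n →L[ℝ] P N n}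

/-- approximations of the fourth exceptional set -/
def BB4 (Φ : E n → ℝ) (φ : ℝ → P N n → P N n) (R : ℝ) (i j : Fin N) (k : Fin d → Fin N) (A : ℕ)
    (η : ℝ) (T : ℕ) : Set (P N n) :=
  {z | ke z.2 ≤ R ∧ (∀ t, 0 ≤ t → (∫ s in (0 : ℝ)..t, rest Φ i j (φ s z)) ≤ (A : ℝ)) ∧
    (∀ J : ℕ, ∃ t : ℚ, (0 : ℝ) ≤ (t : ℝ) ∧ (J : ℝ) < clock Φ i j (fun s => φ s z) (t : ℝ)) ∧
    ∀ t, (T : ℝ) ≤ t →
      Near (fun s => (φ t z).2 (k s) - (φ t z).2 j) ((φ t z).2 i - (φ t z).2 j)
        ((A : ℝ) * η) ((A : ℝ) * Real.exp (-clock Φ i j (fun s => φ s z) t)) ∧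
      ∀ l, (l ≠ i ∧ l ≠ j ∧ ∀ s, l ≠ k s) →
        Near (fun s => (φ t z).2 (k s) - (φ t z).2 j) ((φ t z).2 l - (φ t z).2 j) (A : ℝ)
          ((A : ℝ) * Real.exp (-clock Φ i j (fun s => φ s z) t))}

theorem meas4 {Φ : E n → ℝ} (hΦ : Kernel Φ) (h : IsFlow F φ M) (R : ℝ) (i j : Fin N)
    (k : Fin d → Fin N) (A : ℕ) (η : ℝ) (T : ℕ) : MeasurableSet (BB4 Φ φ R i j k A η T) := by
  have h1 : BB4 Φ φ R i j k A η T =
      {z | ke z.2 ≤ R} ∩
      ((⋂ t : ℝ, ⋂ _ : 0 ≤ t, {z | (∫ s in (0 : ℝ)..t, rest Φ i j (φ s z)) ≤ (A : ℝ)}) ∩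
      ((⋂ J : ℕ, ⋃ t : ℚ, {z | (0 : ℝ) ≤ (t : ℝ) ∧
        (J : ℝ) < clock Φ i j (fun s => φ s z) (t : ℝ)}) ∩
      (⋂ t : ℝ, ⋂ _ : (T : ℝ) ≤ t,
        ({z | Near (fun s => (φ t z).2 (k s) - (φ t z).2 j) ((φ t z).2 i - (φ t z).2 j)
          ((A : ℝ) * η) ((A : ℝ) * Real.exp (-clock Φ i j (fun s => φ s z) t))} ∩
        (⋂ l : Fin N, ⋂ _ : l ≠ i ∧ l ≠ j ∧ ∀ s, l ≠ k s,
          {z | Near (fun s => (φ t z).2 (k s) - (φ t z).2 j) ((φ t z).2 l - (φ t z).2 j) (A : ℝ)
            ((A : ℝ) * Real.exp (-clock Φ i j (fun s => φ s z) t))}))))) := by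
    ext z
    simp only [BB4, mem_ofPred_eq, mem_inter_iff, mem_iInter, mem_iUnion]
  rw [h1]
  refine MeasurableSet.inter (isClosed_le cont_ke continuous_const).measurableSet
    (MeasurableSet.inter ?_ (MeasurableSet.inter ?_ ?_))
  · refine IsClosed.measurableSet (isClosed_iInter fun t => isClosed_iInter fun _ => ?_)
    exact isClosed_le (cont_int h (cont_rest hΦ i j) t) continuous_const
  · refine MeasurableSet.iInter fun J => MeasurableSet.iUnion fun t => ?_
    by_cases ht : (0 : ℝ) ≤ (t : ℝ)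
    · simp only [ht, true_and]
      exact (isOpen_lt continuous_const (cont_clock hΦ h i j t)).measurableSet
    · simp only [ht, false_and]
      simp
  · refine IsClosed.measurableSet (isClosed_iInter fun t => isClosed_iInter fun _ => ?_)
    have hc := cont_phi h t
    have hk := cont_clock hΦ h i j t
    refine IsClosed.inter ?_ (isClosed_iInter fun l => isClosed_iInter fun _ => ?_)
    · exact closed_near (fun s => by fun_prop) (by fun_prop) (by fun_prop)
    · exact closed_near (fun s => by fun_prop) (by fun_prop) (by fun_prop)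

theorem BB4_inv {Φ : E n → ℝ} (hΦ : Kernel Φ)
    (hE : ∀ (m : Fin N → Fin n → ℤ) (t : ℝ) (z : P N n),
      φ t (z + (latC m, 0)) = φ t z + (latC m, 0)) (R : ℝ) (i j : Fin N) (k : Fin d → Fin N) (A : ℕ)
    (η : ℝ) (T : ℕ) (m' : Fin N → Fin n → ℤ) (z : P N n) :
    z + (latC m', 0) ∈ BB4 Φ φ R i j k A η T ↔ z ∈ BB4 Φ φ R i j k A η T := by
  unfold BB4
  simp only [mem_ofPred_eq, hE, clock_inv hΦ, rest_inv hΦ, add_snd]

theorem BB4_mono (Φ : E n → ℝ) (φ : ℝ → P N n → P N n) (R : ℝ) (i j : Fin N) (k : Fin d → Fin N) (A : ℕ)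
    (η : ℝ) : Monotone (BB4 Φ φ R i j k A η) := by
  intro T T' hT z hz
  refine ⟨hz.1, hz.2.1, hz.2.2.1, fun t ht => hz.2.2.2 t (le_trans ?_ ht)⟩
  exact_mod_cast hT

/-- the flux inequality for the approximations -/
theorem flux4 (hF : FLUX) {Φ : E n → ℝ} (hΦ : Kernel Φ) {R : ℝ} (h : IsFlow (fld Φ R) φ M)
    (hE : ∀ (m : Fin N → Fin n → ℤ) (t : ℝ) (z : P N n),
      φ t (z + (latC m, 0)) = φ t z + (latC m, 0))
    (hR : ∀ z, ke z.2 ≤ R → ∀ t, 0 ≤ t → ke (φ t z).2 ≤ R)
    (hD : ∀ z, ke z.2 ≤ R → ∀ t, 0 ≤ t →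
      (M t z).det = Real.exp (-(n : ℝ) * ∫ s in (0 : ℝ)..t, total Φ (φ s z)))
    (hU : DUR) {Ab : ℝ} (hAb : 0 < Ab) (hb : ∀ (i j : Fin N) (z : P N n), bond Φ i j z ≤ Ab)
    {i j : Fin N} {k : Fin d → Fin N} (hij : i ≠ j) {A : ℕ} (hRA : R ≤ A)
    (hm : ∀ η ε : ℝ, MeasurableSet (thinD (n := n) i j k (A : ℝ) η ε)) {A' : ℝ}
    (hA' : ∀ η ε : ℝ, 0 < ε → ε ≤ η → η ≤ 1 →
      volume (thinD i j k (A : ℝ) η ε ∩ slab N n) ≤ ENNReal.ofReal (A' * η * ε ^ n))
    {η : ℝ} (hη : 0 < η) (hη1 : η ≤ 1) (T : ℕ) :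
    ∫⁻ z in BB4 Φ φ R i j k A η T ∩ slab N n, ENNReal.ofReal (bond Φ i j z) ≤
      ENNReal.ofReal (Ab * Real.exp (n * (1 + A)) * A' * η) := by
  -- the choice of the level
  obtain ⟨J, hJ⟩ := exists_nat_ge (max (Ab * T) (-Real.log η))
  have hJ1 : Ab * T ≤ J := (le_max_left _ _).trans hJ
  have hJ2 : Real.exp (-(J : ℝ)) ≤ η := by
    have h1 : -Real.log η ≤ J := (le_max_right _ _).trans hJ
    calc Real.exp (-(J : ℝ)) ≤ Real.exp (Real.log η) := Real.exp_le_exp.2 (by linarith)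
      _ = η := Real.exp_log hη
  have hcl : ∀ z t, clock Φ i j (fun s => φ s z) t = ∫ s in (0 : ℝ)..t, bond Φ i j (φ s z) :=
    fun z t => rfl
  have hclub : ∀ z t, 0 ≤ t → (∫ s in (0 : ℝ)..t, bond Φ i j (φ s z)) ≤ Ab * t := by
    intro z t ht
    have h1 : (∫ s in (0 : ℝ)..t, bond Φ i j (φ s z)) ≤ ∫ _s in (0 : ℝ)..t, Ab := by
      apply intervalIntegral.integral_mono_on ht
      · exact ((cont_bond hΦ i j).comp (cont_orb h z)).intervalIntegrable _ _
      · exact intervalIntegrable_const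
      · exact fun x _ => hb i j _
    rw [intervalIntegral.integral_const, smul_eq_mul, sub_zero] at h1
    linarith
  set κ : ℝ := Real.exp (-(n : ℝ) * (J + 1 + A)) with hκ
  have key := hF n N (fld Φ R) φ M h hE (bond Φ i j) (cont_bond hΦ i j) (bond_nonneg hΦ i j)
    (bond_inv hΦ i j) (BB4 Φ φ R i j k A η T) (thinD i j k (A : ℝ) η (Real.exp (-(J : ℝ))))
    (meas4 hΦ h R i j k A η T) (hm η _)
    (fun m' z hz => (BB4_inv hΦ hE R i j k A η T m' z).2 hz) J (1 / Ab) κ
    (by positivity) (Real.exp_pos _).le ?_ ?_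
  · have h2 := key.trans (hA' η (Real.exp (-(J : ℝ))) (Real.exp_pos _) hJ2 hη1)
    set I := ∫⁻ z in BB4 Φ φ R i j k A η T ∩ slab N n, ENNReal.ofReal (bond Φ i j z) with hI
    have hc : 0 < 1 / Ab * κ := by positivity
    have h3 : I = ENNReal.ofReal ((1 / Ab * κ)⁻¹) * (ENNReal.ofReal (1 / Ab * κ) * I) := by
      rw [← mul_assoc, ← ENNReal.ofReal_mul (by positivity), inv_mul_cancel₀ hc.ne',
        ENNReal.ofReal_one, one_mul]
    rw [h3]
    refine (mul_le_mul_right h2 _).trans ?_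
    rw [← ENNReal.ofReal_mul (by positivity)]
    apply le_of_eq
    congr 1
    have h4 : Real.exp (-(J : ℝ)) ^ n = Real.exp (-(n : ℝ) * J) := by
      rw [← Real.exp_nat_mul]
      congr 1
      ring
    have h5 : κ⁻¹ = Real.exp ((n : ℝ) * (J + 1 + A)) := by
      rw [hκ, ← Real.exp_neg]
      congr 1
      ring
    have h6 : Real.exp ((n : ℝ) * (J + 1 + A)) * Real.exp (-(n : ℝ) * J) =
        Real.exp (n * (1 + A)) := by
      rw [← Real.exp_add]
      congr 1
      ring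
    rw [mul_inv, h5, h4, one_div, inv_inv, ← h6]
    ring
  · intro z hz t ht hmem
    obtain ⟨hz1, hz2, hz3, hz4⟩ := hz
    have ht1 : (T : ℝ) ≤ t := by
      have h1 := hclub z t ht
      have h2 : (J : ℝ) ≤ Ab * t := hmem.1.trans h1
      have h3 : Ab * T ≤ Ab * t := hJ1.trans h2
      exact le_of_mul_le_mul_left h3 hAb
    obtain ⟨g1, g2⟩ := hz4 t ht1
    have hexp : Real.exp (-clock Φ i j (fun s => φ s z) t) ≤ Real.exp (-(J : ℝ)) := by
      apply Real.exp_le_exp.2
      rw [hcl]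
      linarith [hmem.1]
    have hA0 : (0 : ℝ) ≤ (A : ℝ) := Nat.cast_nonneg A
    have hexp' := mul_le_mul_of_nonneg_left hexp hA0
    refine ⟨⟨(hR z hz1 t ht).trans hRA, near_mono le_rfl hexp' g1,
      fun l h1 h2 h3 => near_mono le_rfl hexp' (g2 l ⟨h1, h2, h3⟩)⟩, ?_⟩
    · rw [hD z hz1 t ht, Real.abs_exp, hκ]
      apply Real.exp_le_exp.2
      have h1 : ∫ s in (0 : ℝ)..t, total Φ (φ s z) =
          (∫ s in (0 : ℝ)..t, bond Φ i j (φ s z)) + ∫ s in (0 : ℝ)..t, rest Φ i j (φ s z) := by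
        rw [← intervalIntegral.integral_add]
        · congr 1
          funext s
          exact total_eq Φ hΦ i j hij (φ s z)
        · exact ((cont_bond hΦ i j).comp (cont_orb h z)).intervalIntegrable _ _
        · exact ((cont_rest hΦ i j).comp (cont_orb h z)).intervalIntegrable _ _
      have h2 : ∫ s in (0 : ℝ)..t, total Φ (φ s z) ≤ J + 1 + A := by
        rw [h1]
        exact add_le_add hmem.2 (hz2 t ht)
      have hn : (0 : ℝ) ≤ (n : ℝ) := Nat.cast_nonneg n
      nlinarith [mul_le_mul_of_nonneg_left h2 hn]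
  · intro z hz
    obtain ⟨hz1, hz2, hz3, hz4⟩ := hz
    refine hU (fun t => bond Φ i j (φ t z)) Ab ((cont_bond hΦ i j).comp (cont_orb h z))
      (fun t => bond_nonneg hΦ i j _) (fun t => hb i j _) hAb ?_ J (Nat.cast_nonneg J)
    rintro ⟨B, hB⟩
    obtain ⟨J', hJ'⟩ := exists_nat_ge B
    obtain ⟨t, ht0, ht⟩ := hz3 J'
    have h1 := hB t ht0
    rw [hcl] at ht
    linarith

/-- the part of the good approximations on which the bond is positive -/
def NN4 (Φ : E n → ℝ) (φ : ℝ → P N n → P N n) (R : ℝ) (i j : Fin N) (k : Fin d → Fin N) (A : ℕ) :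
    Set (P N n) :=
  {z | 0 < bond Φ i j z} ∩ ⋂ q : ℕ, ⋃ T : ℕ, BB4 Φ φ R i j k A (1 / ((q : ℝ) + 1)) T

theorem NN4_null (hF : FLUX) {Φ : E n → ℝ} (hΦ : Kernel Φ) {R : ℝ} (h : IsFlow (fld Φ R) φ M)
    (hE : ∀ (m : Fin N → Fin n → ℤ) (t : ℝ) (z : P N n),
      φ t (z + (latC m, 0)) = φ t z + (latC m, 0))
    (hR : ∀ z, ke z.2 ≤ R → ∀ t, 0 ≤ t → ke (φ t z).2 ≤ R)
    (hD : ∀ z, ke z.2 ≤ R → ∀ t, 0 ≤ t →
      (M t z).det = Real.exp (-(n : ℝ) * ∫ s in (0 : ℝ)..t, total Φ (φ s z)))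
    (hU : DUR) {Ab : ℝ} (hAb : 0 < Ab) (hb : ∀ (i j : Fin N) (z : P N n), bond Φ i j z ≤ Ab)
    {i j : Fin N} {k : Fin d → Fin N} (hij : i ≠ j) {A : ℕ} (hRA : R ≤ A)
    (hm : ∀ η ε : ℝ, MeasurableSet (thinD (n := n) i j k (A : ℝ) η ε)) {A' : ℝ}
    (hA' : ∀ η ε : ℝ, 0 < ε → ε ≤ η → η ≤ 1 →
      volume (thinD i j k (A : ℝ) η ε ∩ slab N n) ≤ ENNReal.ofReal (A' * η * ε ^ n)) :
    volume (NN4 Φ φ R i j k A) = 0 := by
  set f : P N n → ℝ≥0∞ := fun z => ENNReal.ofReal (bond Φ i j z) with hf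
  have hfm : Measurable f := (cont_bond hΦ i j).measurable.ennreal_ofReal
  set ν : Measure (P N n) := volume.withDensity f with hν
  set Gs : Set (P N n) := ⋂ q : ℕ, ⋃ T : ℕ, BB4 Φ φ R i j k A (1 / ((q : ℝ) + 1)) T with hGs
  have hq : ∀ q : ℕ, ν (Gs ∩ slab N n) ≤
      ENNReal.ofReal (Ab * Real.exp (n * (1 + A)) * A' * (1 / ((q : ℝ) + 1))) := by
    intro q
    have hq0 : (0 : ℝ) < 1 / ((q : ℝ) + 1) := by positivity
    have hq1 : 1 / ((q : ℝ) + 1) ≤ 1 := by
      rw [div_le_one (by positivity)]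
      have : (0 : ℝ) ≤ (q : ℝ) := Nat.cast_nonneg q
      linarith
    have h1 : Gs ∩ slab N n ⊆
        ⋃ T : ℕ, (BB4 Φ φ R i j k A (1 / ((q : ℝ) + 1)) T ∩ slab N n) := by
      rw [← iUnion_inter]
      exact inter_subset_inter_left _ (iInter_subset _ q)
    have h2 : Monotone fun T => BB4 Φ φ R i j k A (1 / ((q : ℝ) + 1)) T ∩ slab N n :=
      fun T T' hT => inter_subset_inter_left _ (BB4_mono Φ φ R i j k A _ hT)
    refine (measure_mono h1).trans ?_
    rw [h2.measure_iUnion]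
    refine iSup_le fun T => ?_
    rw [hν, withDensity_apply _ ((meas4 hΦ h R i j k A _ T).inter meas_slab)]
    exact flux4 hF hΦ h hE hR hD hU hAb hb hij hRA hm hA' hq0 hq1 T
  have h0 : ν (Gs ∩ slab N n) = 0 := by
    have hlim : Tendsto (fun q : ℕ => ENNReal.ofReal
        (Ab * Real.exp (n * (1 + A)) * A' * (1 / ((q : ℝ) + 1)))) atTop (𝓝 0) := by
      have h1 : Tendsto (fun q : ℕ => Ab * Real.exp (n * (1 + A)) * A' * (1 / ((q : ℝ) + 1)))
          atTop (𝓝 (Ab * Real.exp (n * (1 + A)) * A' * 0)) :=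
        tendsto_one_div_add_atTop_nhds_zero_nat.const_mul _
      rw [mul_zero] at h1
      have h2 := ENNReal.tendsto_ofReal h1
      rwa [ENNReal.ofReal_zero] at h2
    exact le_antisymm (ge_of_tendsto' hlim hq) zero_le
  have h1 : volume (NN4 Φ φ R i j k A ∩ slab N n) = 0 := by
    rw [hν, withDensity_apply_eq_zero hfm] at h0
    refine measure_mono_null ?_ h0
    rintro z ⟨⟨hz1, hz2⟩, hz3⟩
    refine ⟨?_, hz2, hz3⟩
    have hz1' : 0 < bond Φ i j z := hz1
    show f z ≠ 0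
    rw [hf]
    simp only [ne_eq, ENNReal.ofReal_eq_zero, not_le]
    exact hz1'
  have h2 : NN4 Φ φ R i j k A ⊆ ⋃ m' : Fin N → Fin n → ℤ,
      (fun z => z + ((latC m' : C N n), (0 : C N n))) ⁻¹' (NN4 Φ φ R i j k A ∩ slab N n) := by
    intro z hz
    obtain ⟨m', hm'⟩ := cover z
    rw [mem_iUnion]
    refine ⟨m', ⟨?_, ?_⟩, hm'⟩
    · show 0 < bond Φ i j (z + (latC m', 0))
      rw [bond_inv hΦ]
      exact hz.1
    · have hz2 := hz.2
      rw [mem_iInter] at hz2 ⊢
      intro q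
      obtain ⟨T, hT⟩ := mem_iUnion.1 (hz2 q)
      exact mem_iUnion.2 ⟨T, (BB4_inv hΦ hE R i j k A _ T m' z).2 hT⟩
  refine measure_mono_null h2 (measure_iUnion_null fun m' => ?_)
  have := haarP (N := N) (n := n)
  rw [measure_preimage_add_right]
  exact h1

/-- the exceptional set is forward invariant -/
theorem bad4_fwd {Φ : E n → ℝ} (hΦ : Kernel Φ) {R : ℝ} (h : IsFlow F φ M)
    (hR : ∀ z, ke z.2 ≤ R → ∀ t, 0 ≤ t → ke (φ t z).2 ≤ R) {i j : Fin N}
    {k : Fin d → Fin N} {z : P N n} (hz : z ∈ Bad4 Φ φ R i j k) {t : ℝ} (ht : 0 ≤ t) :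
    φ t z ∈ Bad4 Φ φ R i j k := by
  obtain ⟨h1, ⟨A₁, hA₁⟩, h3, h4, A, T₀, hA, h5⟩ := hz
  have hsh : Tendsto (fun s : ℝ => s + t) atTop atTop :=
    tendsto_atTop_add_const_right _ _ tendsto_id
  refine ⟨hR z h1 t ht, ⟨A₁, fun T hT => ?_⟩, ?_, ?_, A, T₀, hA, ?_⟩
  · have e := int_split h (cont_rest hΦ i j) z T t
    have e1 := hA₁ (T + t) (by linarith)
    have e2 := int_nonneg (φ := φ) (rest_nonneg hΦ i j) z ht
    linarith
  · rintro ⟨B, hB⟩
    apply h3
    refine ⟨B + ∫ r in (0 : ℝ)..t, bond Φ i j (φ r z), fun T hT => ?_⟩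
    have e := int_split h (cont_bond hΦ i j) z T t
    have e1 := int_mono h (cont_bond hΦ i j) (bond_nonneg hΦ i j) z (show T ≤ T + t by linarith)
    have e2 := hB T hT
    linarith
  · have e := h4.comp hsh
    refine e.congr fun s => ?_
    simp only [Function.comp_apply]
    rw [h.add]
  · intro s hs
    have e := int_split h (cont_bond hΦ i j) z s t
    have e2 := int_nonneg (φ := φ) (bond_nonneg hΦ i j) z ht
    have e3 := h5 (s + t) (by linarith)
    have e4 : Real.exp (-clock Φ i j (fun s => φ s z) (s + t)) ≤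
        Real.exp (-clock Φ i j (fun r => φ r (φ t z)) s) := by
      apply Real.exp_le_exp.2
      unfold clock
      linarith
    rw [h.add] at e3
    obtain ⟨g1, g2⟩ := e3
    have e5 := mul_le_mul_of_nonneg_left e4 hA.le
    exact ⟨near_mono le_rfl e5 g1, fun l h1 h2 h3 => near_mono le_rfl e5 (g2 l h1 h2 h3)⟩

/-- the exceptional set is contained in the good approximations -/
theorem bad4_sub {Φ : E n → ℝ} (hΦ : Kernel Φ) {R : ℝ} (h : IsFlow F φ M) {i j : Fin N}
    {k : Fin d → Fin N} {z : P N n} (hz : z ∈ Bad4 Φ φ R i j k) :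
    ∃ A : ℕ, R ≤ A ∧ 1 ≤ A ∧
      z ∈ ⋂ q : ℕ, ⋃ T : ℕ, BB4 Φ φ R i j k A (1 / ((q : ℝ) + 1)) T := by
  obtain ⟨h1, ⟨A₁, hA₁⟩, h3, h4, A₂, T₀, hA₂, h5⟩ := hz
  obtain ⟨A, hA⟩ := exists_nat_ge (max (max R 1) (max A₁ A₂))
  have hAR : R ≤ A := ((le_max_left _ _).trans (le_max_left _ _)).trans hA
  have hA1 : (1 : ℝ) ≤ A := ((le_max_right _ _).trans (le_max_left _ _)).trans hA
  have hAA1 : A₁ ≤ A := ((le_max_left _ _).trans (le_max_right _ _)).trans hA
  have hAA2 : A₂ ≤ A := ((le_max_right _ _).trans (le_max_right _ _)).trans hA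
  refine ⟨A, hAR, by exact_mod_cast hA1, ?_⟩
  rw [mem_iInter]
  intro q
  rw [Metric.tendsto_atTop] at h4
  obtain ⟨T₁, hT₁⟩ := h4 (1 / ((q : ℝ) + 1)) (by positivity)
  obtain ⟨T, hT⟩ := exists_nat_ge (max T₀ T₁)
  rw [mem_iUnion]
  refine ⟨T, h1, fun t ht => (hA₁ t ht).trans hAA1, ?_, ?_⟩
  · intro J
    unfold BddInt at h3
    push Not at h3
    obtain ⟨s, hs, hs'⟩ := h3 J
    obtain ⟨t, ht⟩ := exists_rat_gt s
    refine ⟨t, hs.trans ht.le, ?_⟩
    exact lt_of_lt_of_le hs' (int_mono h (cont_bond hΦ i j) (bond_nonneg hΦ i j) z ht.le)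
  · intro t ht
    have ht0 : T₀ ≤ t := ((le_max_left _ _).trans hT).trans ht
    have ht1 : T₁ ≤ t := ((le_max_right _ _).trans hT).trans ht
    obtain ⟨g1, g2⟩ := h5 t ht0
    have g0 := hT₁ t ht1
    rw [dist_eq_norm, sub_zero] at g0
    have e5 := mul_le_mul_of_nonneg_right hAA2
      (Real.exp_pos (-clock Φ i j (fun s => φ s z) t)).le
    refine ⟨near_mono ?_ e5 g1, fun l hl => near_mono hAA2 e5 (g2 l hl.1 hl.2.1 hl.2.2)⟩
    exact mul_le_mul hAA2 g0.le (norm_nonneg _) (hA₂.le.trans hAA2)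

end I_NUL4X

open I_NUL2X I_NUL4X in
theorem I_NUL4 (hP : PERB) (hE : EQV) (hR : REP) (hD : DET) (hF : FLUX) (hT : THD) (hU : DUR) :
    NUL4 := by
  intro n N d Φ R hΦ φ M hφ i j k hij hkinj hki hkj hd1 hdn hcount
  have hE' := hE n N Φ R hΦ φ M hφ
  have hR' : ∀ z : P N n, ke z.2 ≤ R → ∀ t, 0 ≤ t → ke (φ t z).2 ≤ R := fun z hz =>
    ((hR n N Φ R hΦ φ M hφ).1 z hz).1
  have hD' := hD n N Φ R hΦ φ M hφ
  obtain ⟨A₀, hA₀⟩ := hP n Φ hΦ
  set Ab : ℝ := 2 * (N : ℝ)⁻¹ * |A₀| + 1 with hAbdef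
  have hAb : 0 < Ab := by positivity
  have hb : ∀ (i j : Fin N) (z : P N n), bond Φ i j z ≤ Ab := by
    intro i j z
    have h1 : Φ (z.1 i - z.1 j) ≤ |A₀| :=
      (le_abs_self _).trans ((hA₀ _).1.trans (le_abs_self _))
    have h2 : 2 * (N : ℝ)⁻¹ * Φ (z.1 i - z.1 j) ≤ 2 * (N : ℝ)⁻¹ * |A₀| :=
      mul_le_mul_of_nonneg_left h1 (by positivity)
    unfold bond
    rw [hAbdef]
    linarith
  set W : Set (P N n) := ⋃ t : ℚ, ⋃ A : ℕ, ⋃ _ : R ≤ A ∧ 1 ≤ A,
    φ (t : ℝ) ⁻¹' (NN4 Φ φ R i j k A) with hW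
  have hW0 : volume W = 0 := by
    refine measure_iUnion_null fun t => measure_iUnion_null fun A => measure_iUnion_null ?_
    rintro ⟨hRA, hA1⟩
    apply pre_null hφ
    have hA0 : (0 : ℝ) < (A : ℝ) := by exact_mod_cast hA1
    obtain ⟨hm, A', hA'0, hA'⟩ := hT n N d i j k A hij hkinj hki hkj hdn hA0
    refine NN4_null hF hΦ hφ hE' hR' hD' hU hAb hb hij hRA hm (A' := A') ?_
    intro η ε hε hεη hη1
    refine (hA' η ε hε hεη hη1).trans (ENNReal.ofReal_le_ofReal ?_)
    have hη : 0 < η := hε.trans_le hεη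
    have h1 : η ^ d ≤ η := by
      calc η ^ d ≤ η ^ 1 := pow_le_pow_of_le_one hη.le hη1 hd1
        _ = η := pow_one η
    have h2 : ε ^ ((n - d) * (N - 1 - d)) ≤ ε ^ n :=
      pow_le_pow_of_le_one hε.le (hεη.trans hη1) hcount
    have h3 : A' * η ^ d ≤ A' * η := mul_le_mul_of_nonneg_left h1 hA'0
    exact mul_le_mul h3 h2 (by positivity) (by positivity)
  refine measure_mono_null ?_ hW0
  intro z hz
  by_contra hzW
  have hrat : ∀ t : ℚ, (0 : ℝ) ≤ (t : ℝ) → bond Φ i j (φ t z) ≤ 0 := by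
    intro t ht
    by_contra hpos
    push Not at hpos
    obtain ⟨A, hRA, hA1, hmem⟩ := bad4_sub hΦ hφ (bad4_fwd hΦ hφ hR' hz ht)
    apply hzW
    rw [hW]
    simp only [mem_iUnion]
    exact ⟨t, A, ⟨hRA, hA1⟩, hpos, hmem⟩
  have hc : Continuous (fun t => bond Φ i j (φ t z)) := (cont_bond hΦ i j).comp (cont_orb hφ z)
  have hall : ∀ t : ℝ, 0 ≤ t → bond Φ i j (φ t z) ≤ 0 := by
    intro t ht
    by_contra hpos
    push Not at hpos
    have h1 : ∀ᶠ s in 𝓝 t, 0 < bond Φ i j (φ s z) := hc.continuousAt.eventually (lt_mem_nhds hpos)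
    obtain ⟨ε, hε, h2⟩ := Metric.eventually_nhds_iff.1 h1
    obtain ⟨s, hs1, hs2⟩ := exists_rat_btwn (show t < t + ε by linarith)
    have h3 := hrat s (ht.trans hs1.le)
    have h4 := h2 (y := (s : ℝ)) (by
      rw [Real.dist_eq, abs_of_pos (by linarith)]
      linarith)
    linarith
  apply hz.2.2.1
  refine ⟨0, fun T hT => ?_⟩
  have h1 : (∫ t in (0 : ℝ)..T, bond Φ i j (φ t z)) ≤ ∫ _t in (0 : ℝ)..T, (0 : ℝ) := by
    apply intervalIntegral.integral_mono_on hT (hc.intervalIntegrable _ _)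
      intervalIntegrable_const
    exact fun x hx => hall x hx.1
  simpa using h1

end Pool.Agent.Work.MP_c9f990_an.Al

end

section

set_option autoImplicit false

/-!
# MP_c9f990_an, item THD: volume of the thin sets with `d` directions
-/

open MeasureTheory Set Filter Topology
open scoped NNReal ENNReal

namespace Pool.Agent.Work.MP_c9f990_an.Al

namespace I_THDX

lemma near_closed {X : Type*} [TopologicalSpace X] {n d : ℕ} (w : Fin d → X → E n) (u : X → E n)
    (hw : ∀ s, Continuous (w s)) (hu : Continuous u) (b r : ℝ) :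
    IsClosed {x | Near (fun s => w s x) (u x) b r} := by
  set K : Set (Fin d → ℝ) := Set.pi univ (fun _ => Icc (-b) b) with hK
  have hKc : IsCompact K := isCompact_univ_pi (fun _ => isCompact_Icc)
  have : CompactSpace K := isCompact_iff_compactSpace.1 hKc
  have h1 : IsClosed {p : X × K | ‖u p.1 - ∑ s, (p.2 : Fin d → ℝ) s • w s p.1‖ ≤ r} := by
    have hc : Continuous fun b : X × K => u b.1 - ∑ s, (b.2 : Fin d → ℝ) s • w s b.1 :=
      (hu.comp continuous_fst).sub (continuous_finsetSum _ fun s _ =>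
        ((continuous_apply s).comp (continuous_subtype_val.comp continuous_snd)).smul
          ((hw s).comp continuous_fst))
    exact isClosed_le hc.norm continuous_const
  have h2 := isClosedMap_fst_of_compactSpace (X := X) (Y := K) _ h1
  convert h2 using 1
  ext x
  constructor
  · rintro ⟨α, h3, h4⟩
    exact ⟨(x, ⟨α, fun s _ => abs_le.1 (h3 s)⟩), h4, rfl⟩
  · rintro ⟨⟨y, α⟩, h3, rfl⟩
    exact ⟨α, fun s => abs_le.2 (α.2 s trivial), h3⟩

lemma near_sub {n d : ℕ} (q : Fin d → E n) (c : E n) (A ρ η ε : ℝ)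
    (hq : ∀ s, ‖q s‖ ≤ ρ) (hε : 0 < ε) (K : ℕ) (hK : A * η / ε + 1 ≤ K + 1) :
    {p | Near q (p - c) (A * η) (A * ε)} ⊆
      ⋃ m ∈ Fintype.piFinset (fun _ : Fin d => Finset.Icc (-(K : ℤ)) K),
        Metric.closedBall (c + ∑ s, ((m s : ℝ) * ε) • q s) ((A + d * ρ) * ε) := by
  rintro p ⟨α, h1, h2⟩
  simp only [mem_iUnion]
  refine ⟨fun s => round (α s / ε), ?_, ?_⟩
  · rw [Fintype.mem_piFinset]
    intro s
    have h4 : |α s / ε - round (α s / ε)| ≤ 1 / 2 := abs_sub_round _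
    have h7 : |((round (α s / ε) : ℤ) : ℝ)| ≤ A * η / ε + 1 / 2 := by
      have h8 : |((round (α s / ε) : ℤ) : ℝ)| ≤ |α s / ε| + |α s / ε - round (α s / ε)| := by
        have := abs_sub_abs_le_abs_sub ((round (α s / ε) : ℤ) : ℝ) (α s / ε)
        rw [abs_sub_comm] at this
        linarith
      have h9 : |α s / ε| ≤ A * η / ε := by
        rw [abs_div, abs_of_pos hε]
        exact div_le_div_of_nonneg_right (h1 s) hε.le
      linarith
    have h10 : |((round (α s / ε) : ℤ) : ℝ)| < K + 1 := by linarith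
    have h11 : |round (α s / ε)| < (K : ℤ) + 1 := by
      have : ((|round (α s / ε)| : ℤ) : ℝ) < (K : ℤ) + 1 := by
        rw [Int.cast_abs]
        exact_mod_cast h10
      exact_mod_cast this
    rw [Finset.mem_Icc]
    exact abs_le.1 (Int.lt_add_one_iff.1 h11)
  · rw [mem_closedBall_iff_norm]
    have h12 : p - (c + ∑ s, (((round (α s / ε) : ℤ) : ℝ) * ε) • q s) =
        (p - c - ∑ s, α s • q s) +
          ∑ s, (α s - ((round (α s / ε) : ℤ) : ℝ) * ε) • q s := by
      simp only [sub_smul, Finset.sum_sub_distrib]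
      abel
    rw [h12]
    refine (norm_add_le _ _).trans ?_
    have h13 : ‖∑ s, (α s - ((round (α s / ε) : ℤ) : ℝ) * ε) • q s‖ ≤ ∑ _s : Fin d, ε * ρ := by
      refine norm_sum_le_of_le _ fun s _ => ?_
      rw [norm_smul, Real.norm_eq_abs]
      have h4 : |α s / ε - round (α s / ε)| ≤ 1 / 2 := abs_sub_round _
      have h5 : |α s - ((round (α s / ε) : ℤ) : ℝ) * ε| ≤ ε := by
        have h6 : α s - ((round (α s / ε) : ℤ) : ℝ) * ε = (α s / ε - round (α s / ε)) * ε := by
          field_simp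
        rw [h6, abs_mul, abs_of_pos hε]
        nlinarith
      exact mul_le_mul h5 (hq s) (norm_nonneg _) hε.le
    rw [Finset.sum_const, Finset.card_univ, Fintype.card_fin, nsmul_eq_mul] at h13
    nlinarith

lemma vol_near {n d : ℕ} (q : Fin d → E n) (c : E n) (A ρ η ε : ℝ) (hA : 0 < A) (hρ : 0 ≤ ρ)
    (hq : ∀ s, ‖q s‖ ≤ ρ) (hε : 0 < ε) (hη : ε ≤ η) :
    volume {p | Near q (p - c) (A * η) (A * ε)} ≤ ENNReal.ofReal
      (((2 * A + 3) * (η / ε)) ^ d *
        (((A + d * ρ) * ε) ^ n * (volume (Metric.ball (0 : E n) 1)).toReal)) := by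
  classical
  set K := ⌊A * η / ε + 1⌋₊ with hK
  have hηε : 1 ≤ η / ε := by rwa [le_div_iff₀ hε, one_mul]
  have hη0 : 0 < η := hε.trans_le hη
  have hK1 : (K : ℝ) ≤ A * η / ε + 1 := Nat.floor_le (by positivity)
  have hK2 : A * η / ε + 1 ≤ K + 1 := (Nat.lt_floor_add_one _).le
  have hbf : volume (Metric.ball (0 : E n) 1) ≠ ⊤ := measure_ball_lt_top.ne
  have hr : 0 ≤ (A + d * ρ) * ε := by positivity
  have hb : ∀ x : E n, volume (Metric.closedBall x ((A + d * ρ) * ε)) =
      ENNReal.ofReal (((A + d * ρ) * ε) ^ n * (volume (Metric.ball (0 : E n) 1)).toReal) := by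
    intro x
    rw [Measure.addHaar_closedBall volume x hr, finrank_euclideanSpace_fin,
      ENNReal.ofReal_mul (by positivity), ENNReal.ofReal_toReal hbf]
  refine (measure_mono (near_sub q c A ρ η ε hq hε K hK2)).trans ?_
  refine (measure_biUnion_finset_le _ _).trans ?_
  rw [Finset.sum_congr rfl fun k _ => hb _, Finset.sum_const, nsmul_eq_mul,
    ← ENNReal.ofReal_natCast, ← ENNReal.ofReal_mul (Nat.cast_nonneg _)]
  refine ENNReal.ofReal_le_ofReal (mul_le_mul_of_nonneg_right ?_ (by positivity))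
  rw [Fintype.card_piFinset, Finset.prod_const, Finset.card_univ, Fintype.card_fin, Int.card_Icc]
  have h2 : ((K : ℤ) + 1 - (-(K : ℤ))).toNat = 2 * K + 1 := by omega
  rw [h2]
  push_cast
  refine pow_le_pow_left₀ (by positivity) ?_ _
  have h3 : A * η / ε = A * (η / ε) := by ring
  rw [h3] at hK1
  nlinarith

end I_THDX

open I_THDX in
theorem I_THD : THD := by
  classical
  intro n N d i j k A hij hk hki hkj hdn hA
  have hmeas : ∀ η ε : ℝ, IsClosed (thinD (n := n) i j k A η ε) := by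
    intro η ε
    have h1 : IsClosed {z : P N n | ke z.2 ≤ A} := by
      apply isClosed_le _ continuous_const
      unfold ke
      fun_prop
    have h2 : IsClosed {z : P N n | Near (fun s => z.2 (k s) - z.2 j) (z.2 i - z.2 j) (A * η)
        (A * ε)} :=
      near_closed (fun s (z : P N n) => z.2 (k s) - z.2 j) (fun z => z.2 i - z.2 j)
        (fun s => by fun_prop) (by fun_prop) _ _
    have h3 : ∀ l : Fin N, IsClosed {z : P N n | Near (fun s => z.2 (k s) - z.2 j)
        (z.2 l - z.2 j) A (A * ε)} := fun l =>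
      near_closed (fun s (z : P N n) => z.2 (k s) - z.2 j) (fun z => z.2 l - z.2 j)
        (fun s => by fun_prop) (by fun_prop) _ _
    have h4 : thinD (n := n) i j k A η ε = {z : P N n | ke z.2 ≤ A} ∩
        ({z : P N n | Near (fun s => z.2 (k s) - z.2 j) (z.2 i - z.2 j) (A * η) (A * ε)} ∩
        ⋂ (l : Fin N) (_ : l ≠ i) (_ : l ≠ j) (_ : ∀ s, l ≠ k s), {z : P N n |
          Near (fun s => z.2 (k s) - z.2 j) (z.2 l - z.2 j) A (A * ε)}) := by
      ext z
      simp only [thinD, mem_inter_iff, mem_iInter]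
      rfl
    rw [h4]
    refine h1.inter (h2.inter ?_)
    exact isClosed_iInter fun l => isClosed_iInter fun _ => isClosed_iInter fun _ =>
      isClosed_iInter fun _ => h3 l
  refine ⟨fun η ε => (hmeas η ε).measurableSet, ?_⟩
  set r : ℝ := Real.sqrt A with hr
  have hr0 : 0 ≤ r := Real.sqrt_nonneg _
  set p : Fin N → Prop := fun l => l ≠ j ∧ ∀ s, l ≠ k s with hp
  have hpi : p i := ⟨hij, fun s h => hki s h.symm⟩
  have hpj : ¬ p j := fun h => h.1 rfl
  have hpk : ∀ s, ¬ p (k s) := fun s h => h.2 s rfl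
  have hcard : Fintype.card {l // p l} = N - 1 - d := by
    have h1 : Fintype.card {l // ¬ p l} = d + 1 := by
      rw [Fintype.card_subtype]
      have h2 : (Finset.univ.filter fun l => ¬ p l) = insert j (Finset.univ.image k) := by
        ext l
        simp only [hp, Finset.mem_filter, Finset.mem_univ, true_and, Finset.mem_insert,
          Finset.mem_image, not_and_or, not_not, not_forall]
        constructor
        · rintro (h | ⟨s, h⟩)
          · exact Or.inl h
          · exact Or.inr ⟨s, h.symm⟩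
        · rintro (h | ⟨s, h⟩)
          · exact Or.inl h
          · exact Or.inr ⟨s, h.symm⟩
      rw [h2, Finset.card_insert_of_notMem, Finset.card_image_of_injective _ hk,
        Finset.card_univ, Fintype.card_fin]
      simp only [Finset.mem_image, Finset.mem_univ, true_and, not_exists]
      exact fun s => hkj s
    have h3 := Fintype.card_subtype_compl p
    have h4 := Fintype.card_subtype_le p
    rw [h1, Fintype.card_fin] at h3
    rw [Fintype.card_fin] at h4
    omega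
  set W := (volume (Metric.ball (0 : E n) 1)).toReal with hW
  have hW0 : 0 ≤ W := ENNReal.toReal_nonneg
  set ρ : ℝ := 2 * r with hρ
  have hρ0 : 0 ≤ ρ := by positivity
  set C0 : ℝ := (2 * A + 3) ^ d * ((A + d * ρ) ^ n * W) with hC0
  have hC00 : 0 ≤ C0 := by positivity
  set BB : ℝ≥0∞ := volume (Metric.closedBall (0 : {l // ¬ p l} → E n) r) with hBB
  have hBBt : BB ≠ ⊤ := (isCompact_closedBall _ _).measure_lt_top.ne
  have hbox : volume (I_TH2X.box N n) ≠ ⊤ := (I_TH2X.box_fin N n).ne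
  refine ⟨(volume (I_TH2X.box N n)).toReal * (BB.toReal * C0 ^ (N - 1 - d)), by positivity, ?_⟩
  intro η ε hε hεη hη1
  have hη0 : 0 < η := hε.trans_le hεη
  have hε1 : ε ≤ 1 := hεη.trans hη1
  -- the set of the velocities
  set V : Set (C N n) := {v | v ∈ Metric.closedBall (0 : C N n) r ∧
    ∀ l, p l → Near (fun s => v (k s) - v j) (v l - v j) (A * (if l = i then η else 1)) (A * ε)}
    with hV
  have hVc : IsClosed V := by
    have h3 : ∀ l : Fin N, IsClosed {v : C N n | Near (fun s => v (k s) - v j)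
        (v l - v j) (A * (if l = i then η else 1)) (A * ε)} := fun l =>
      near_closed (fun s (v : C N n) => v (k s) - v j) (fun v => v l - v j)
        (fun s => by fun_prop) (by fun_prop) _ _
    have h4 : V = Metric.closedBall (0 : C N n) r ∩ ⋂ (l : Fin N) (_ : p l),
        {v : C N n | Near (fun s => v (k s) - v j)
        (v l - v j) (A * (if l = i then η else 1)) (A * ε)} := by
      ext v
      simp only [hV, mem_inter_iff, mem_iInter]
      rfl
    rw [h4]
    exact Metric.isClosed_closedBall.inter (isClosed_iInter fun l => isClosed_iInter fun _ => h3 l)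
  have hsub : thinD (n := n) i j k A η ε ∩ slab N n ⊆ (I_TH2X.box N n) ×ˢ V := by
    rintro z ⟨⟨h1, h2, h3⟩, h4⟩
    refine ⟨h4, I_TH2X.ke_ball _ _ h1, ?_⟩
    intro l hl
    by_cases hli : l = i
    · subst hli
      rw [if_pos rfl]
      exact h2
    · rw [if_neg hli, mul_one]
      exact h3 l hli hl.1 hl.2
  refine (measure_mono hsub).trans ?_
  have hprod : (volume : Measure (P N n)) = (volume : Measure (C N n)).prod volume := rfl
  rw [hprod, Measure.prod_prod]
  -- volume of the velocities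
  set e := MeasurableEquiv.piEquivPiSubtypeProd (fun _ : Fin N => E n) p with he
  have hmp : MeasurePreserving e.symm :=
    (volume_preserving_piEquivPiSubtypeProd (fun _ : Fin N => E n) p).symm e
  have hVv : volume V = volume (e.symm ⁻¹' V) :=
    (hmp.measure_preimage_equiv V).symm
  have hem : MeasurableSet (e.symm ⁻¹' V) := hmp.measurable hVc.measurableSet
  set c : ℝ≥0∞ := ENNReal.ofReal (C0 ^ (N - 1 - d) * (η ^ d * ε ^ ((n - d) * (N - 1 - d))))
    with hc
  have hle : ∀ y : {l // ¬ p l} → E n, volume ((fun x => (x, y)) ⁻¹' (e.symm ⁻¹' V)) ≤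
      (Metric.closedBall (0 : {l // ¬ p l} → E n) r).indicator (fun _ => c) y := by
    intro y
    have hey : ∀ (x : {l // p l} → E n) (l : Fin N) (hl : ¬ p l), e.symm (x, y) l = y ⟨l, hl⟩ := by
      intro x l hl
      simp [he, MeasurableEquiv.piEquivPiSubtypeProd, Equiv.piEquivPiSubtypeProd, hl]
    have hex : ∀ (x : {l // p l} → E n) (l : Fin N) (hl : p l), e.symm (x, y) l = x ⟨l, hl⟩ := by
      intro x l hl
      simp [he, MeasurableEquiv.piEquivPiSubtypeProd, Equiv.piEquivPiSubtypeProd, hl]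
    by_cases hy : y ∈ Metric.closedBall (0 : {l // ¬ p l} → E n) r
    · rw [indicator_of_mem hy]
      have hyn : ∀ l, ‖y l‖ ≤ r := by
        rw [mem_closedBall_zero_iff, pi_norm_le_iff_of_nonneg hr0] at hy
        exact hy
      set w : Fin d → E n := fun s => y ⟨k s, hpk s⟩ - y ⟨j, hpj⟩ with hw
      have hwn : ∀ s, ‖w s‖ ≤ ρ := by
        intro s
        refine (norm_sub_le _ _).trans ?_
        have h1 := hyn ⟨k s, hpk s⟩
        have h2 := hyn ⟨j, hpj⟩
        linarith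
      have hsub2 : (fun x => (x, y)) ⁻¹' (e.symm ⁻¹' V) ⊆
          Set.pi univ (fun l : {l // p l} => {u : E n | Near w (u - y ⟨j, hpj⟩)
            (A * (if (l : Fin N) = i then η else 1)) (A * ε)}) := by
        intro x hx l _
        have h1 := (show e.symm (x, y) ∈ V from hx).2 l.1 l.2
        simp only [hey x j hpj, hex x l.1 l.2, hey x _ (hpk _)] at h1
        exact h1
      refine (measure_mono hsub2).trans ?_
      rw [volume_pi_pi]
      have hb : ∀ l : {l // p l}, volume {u : E n | Near w (u - y ⟨j, hpj⟩)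
            (A * (if (l : Fin N) = i then η else 1)) (A * ε)} ≤
          ENNReal.ofReal (C0 * ε ^ (n - d) * (if l = ⟨i, hpi⟩ then η ^ d else 1)) := by
        intro l
        have h1 : ε ≤ (if (l : Fin N) = i then η else 1) := by
          split_ifs
          · exact hεη
          · exact hε1
        refine (vol_near w (y ⟨j, hpj⟩) A ρ _ ε hA hρ0 hwn hε h1).trans ?_
        refine ENNReal.ofReal_le_ofReal (le_of_eq ?_)
        have h2 : ε ^ n = ε ^ (n - d) * ε ^ d := by
          rw [← pow_add]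
          congr 1
          omega
        have h3 : (if (l : Fin N) = i then η else 1) ^ d =
            (if l = ⟨i, hpi⟩ then η ^ d else 1) := by
          by_cases h : (l : Fin N) = i
          · rw [if_pos h, if_pos (Subtype.ext h)]
          · rw [if_neg h, if_neg (fun h' => h (congrArg Subtype.val h')), one_pow]
        rw [← h3, hC0, mul_pow, mul_pow, div_pow, h2]
        field_simp
        rfl
      refine (Finset.prod_le_prod' fun l _ => hb l).trans ?_
      rw [← ENNReal.ofReal_prod_of_nonneg (fun l _ => by positivity)]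
      refine ENNReal.ofReal_le_ofReal (le_of_eq ?_)
      rw [Finset.prod_mul_distrib, Finset.prod_const, Finset.card_univ, hcard,
        Finset.prod_ite_eq' Finset.univ (⟨i, hpi⟩ : {l // p l}) (fun _ => η ^ d),
        if_pos (Finset.mem_univ _), mul_pow, ← pow_mul]
      ring
    · rw [indicator_of_notMem hy]
      have h0 : (fun x => (x, y)) ⁻¹' (e.symm ⁻¹' V) = ∅ := by
        rw [Set.eq_empty_iff_forall_notMem]
        intro x hx
        apply hy
        have h1 := (show e.symm (x, y) ∈ V from hx).1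
        rw [mem_closedBall_zero_iff, pi_norm_le_iff_of_nonneg hr0] at h1 ⊢
        intro l
        have h2 := h1 l.1
        rw [hey x l.1 l.2] at h2
        exact h2
      rw [h0, measure_empty]
  have hvol : volume V ≤ c * BB := by
    rw [hVv, Measure.volume_eq_prod, Measure.prod_apply_symm hem]
    refine (lintegral_mono hle).trans ?_
    rw [lintegral_indicator Metric.isClosed_closedBall.measurableSet, setLIntegral_const]
  calc volume (I_TH2X.box N n) * volume V ≤ volume (I_TH2X.box N n) * (c * BB) := by gcongr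
    _ = ENNReal.ofReal (volume (I_TH2X.box N n)).toReal * (c * ENNReal.ofReal BB.toReal) := by
        rw [ENNReal.ofReal_toReal hbox, ENNReal.ofReal_toReal hBBt]
    _ = _ := by
        rw [hc, ← ENNReal.ofReal_mul (by positivity), ← ENNReal.ofReal_mul (by positivity)]
        congr 1
        ring

end Pool.Agent.Work.MP_c9f990_an.Al

end
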