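import Pool.Agent.Work.MP_c9f990_an.Rg.StR

/-! Bundle of small proof modules (one section per former module). -/

section

set_option autoImplicit false

/-!
# MP_c9f990_an, block RG, item ADJ: the adjoint operator
-/

open MeasureTheory Set Filter Topology
open scoped NNReal ENNReal

namespace Pool.Agent.Work.MP_c9f990_an.Al

namespace I_ADJX

variable {X VK : Type} [NormedAddCommGroup X] [InnerProductSpace ℝ X]
  [NormedAddCommGroup VK] [NormedSpace ℝ VK]

/-- the adjoint as a real linear map -/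
noncomputable def adjL (X : Type) [NormedAddCommGroup X] [InnerProductSpace ℝ X]
    [CompleteSpace X] : (X →L[ℝ] X) →ₗ[ℝ] (X →L[ℝ] X) where
  toFun A := ContinuousLinearMap.adjoint A
  map_add' A B := map_add _ A B
  map_smul' c A := by
    rw [LinearIsometryEquiv.map_smulₛₗ]
    rfl

/-- norm estimate -/
lemma bound (lam T : ℝ) (hlam : 0 < lam) (L : ℝ → X →L[ℝ] X) (y : ℝ → X) (r : X)
    (hy : ∀ t, HasDerivAt y (L t (y t) - r) t)
    (hg : ∀ t, lam * ‖y t‖ ^ 2 ≤ inner ℝ (L t (y t)) (y t)) (hT : y T = 0) (t : ℝ) (ht : t ≤ T) :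
    ‖y t‖ ≤ ‖r‖ / lam := by
  set c : ℝ := (‖r‖ / lam) ^ 2 with hc
  set k : ℝ → ℝ := fun s => Real.exp (-lam * s) * (‖y s‖ ^ 2 - c) with hk
  have hkd : ∀ s, HasDerivAt k (Real.exp (-lam * s) *
      (2 * inner ℝ (y s) (L s (y s) - r) - lam * (‖y s‖ ^ 2 - c))) s := by
    intro s
    have h1 : HasDerivAt (fun s => ‖y s‖ ^ 2) (2 * inner ℝ (y s) (L s (y s) - r)) s :=
      (hy s).norm_sq
    have h2 : HasDerivAt (fun s : ℝ => Real.exp (-lam * s)) (Real.exp (-lam * s) * (-lam)) s := by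
      have h3 : HasDerivAt (fun s : ℝ => -lam * s) (-lam) s := by
        simpa using (hasDerivAt_id s).const_mul (-lam)
      exact h3.exp
    have h4 := h2.mul (h1.sub_const c)
    refine h4.congr_deriv ?_
    ring
  have hmono : Monotone k := by
    refine monotone_of_deriv_nonneg (fun s => (hkd s).differentiableAt) fun s => ?_
    rw [(hkd s).deriv]
    refine mul_nonneg (Real.exp_pos _).le ?_
    have h1 : inner ℝ (y s) (L s (y s) - r) = inner ℝ (L s (y s)) (y s) - inner ℝ (y s) r := by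
      rw [inner_sub_right, real_inner_comm]
    have h2 : inner ℝ (y s) r ≤ ‖y s‖ * ‖r‖ := real_inner_le_norm _ _
    have h3 := hg s
    have h4 : lam * c = ‖r‖ ^ 2 / lam := by
      rw [hc]
      field_simp
    have h5 : 2 * (‖y s‖ * ‖r‖) ≤ lam * ‖y s‖ ^ 2 + ‖r‖ ^ 2 / lam := by
      have h6 : lam * ‖y s‖ ^ 2 + ‖r‖ ^ 2 / lam - 2 * (‖y s‖ * ‖r‖) =
          (lam * ‖y s‖ - ‖r‖) ^ 2 / lam := by
        field_simp
        ring
      have h7 : 0 ≤ (lam * ‖y s‖ - ‖r‖) ^ 2 / lam := by positivity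
      linarith
    rw [h1]
    linarith
  have h1 := hmono ht
  have h2 : k T ≤ 0 := by
    simp only [hk, hT, norm_zero]
    have h3 : 0 ≤ c := sq_nonneg _
    have h4 := (Real.exp_pos (-lam * T)).le
    nlinarith
  have h3 : k t ≤ 0 := h1.trans h2
  have h4 : ‖y t‖ ^ 2 - c ≤ 0 := by
    by_contra h5
    push Not at h5
    have h6 : 0 < k t := mul_pos (Real.exp_pos _) h5
    linarith
  exact (sq_le_sq₀ (norm_nonneg _) (by positivity)).1 (by linarith)

end I_ADJX

open I_ADJX in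
theorem I_ADJ (hO : ODE) : ADJ := by
  intro X VK _ _ _ _ _ io mu hmi hsym lam T hlam hT Lp hcont hL
  have : CompleteSpace X := FiniteDimensional.complete ℝ X
  set om : X →L[ℝ] X := ContinuousLinearMap.id ℝ X - io.comp mu with hom
  -- the projection
  have omv : ∀ u, om u = u - io (mu u) := fun u => rfl
  have mu_om : ∀ u, mu (om u) = 0 := by
    intro u
    rw [omv, map_sub, hmi, sub_self]
  have om_le : ∀ u, ‖om u‖ ≤ ‖u‖ := by
    intro u
    have h1 : inner ℝ (om u) (io (mu u)) = (0 : ℝ) := by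
      rw [← hsym, mu_om, map_zero, inner_zero_left]
    have h2 : ‖u‖ ^ 2 = ‖om u‖ ^ 2 + ‖io (mu u)‖ ^ 2 := by
      have h3 : u = om u + io (mu u) := by rw [omv]; abel
      conv_lhs => rw [h3]
      rw [norm_add_sq_real, h1]
      ring
    have h3 : ‖om u‖ ^ 2 ≤ ‖u‖ ^ 2 := by
      rw [h2]
      have := sq_nonneg ‖io (mu u)‖
      linarith
    exact (sq_le_sq₀ (norm_nonneg _) (norm_nonneg _)).1 h3
  have om_sym : ∀ x y, inner ℝ (om x) y = inner ℝ x (om y) := by
    intro x y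
    rw [omv, omv, inner_sub_left, inner_sub_right, hsym]
  -- the extended coefficient
  set L : ℝ → X →L[ℝ] X := fun t => Lp (projIcc 0 T hT t : ℝ) with hLdef
  have hLc : Continuous L := by
    have h1 := continuousOn_iff_continuous_domRestrict.1 hcont
    exact h1.comp continuous_projIcc
  have hLp : ∀ t ∈ Icc 0 T, L t = Lp t := by
    intro t ht
    simp only [hLdef]
    rw [projIcc_of_mem hT ht]
  have hL' : ∀ t, (∀ x y, inner ℝ (L t x) y = inner ℝ x (L t y)) ∧ (∀ τ, L t (io τ) = 0) ∧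
      ∀ x, mu x = 0 → lam * ‖x‖ ^ 2 ≤ inner ℝ (L t x) x := fun t => hL _ (projIcc 0 T hT t).2
  have muL0 : ∀ t x, mu (L t x) = 0 := by
    intro t x
    obtain ⟨h1, h2, -⟩ := hL' t
    have h3 : io (mu (L t x)) = 0 := by
      rw [← norm_eq_zero, ← sq_eq_zero_iff, ← real_inner_self_eq_norm_sq, hsym, hmi, h1, h2,
        inner_zero_right]
    rw [← hmi (mu (L t x)), h3, map_zero]
  -- the solution
  obtain ⟨Y, hY0, hY⟩ := hO (X →L[ℝ] X) (fun t A => (L (t + T)).comp A - om)
    (fun t => ‖L (t + T)‖) (by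
      have h1 : Continuous (fun p : ℝ × (X →L[ℝ] X) => L (p.1 + T)) := by fun_prop
      exact (h1.clm_comp continuous_snd).sub continuous_const) (by fun_prop) (by
      intro t A B
      have h1 : (L (t + T)).comp A - om - ((L (t + T)).comp B - om) = (L (t + T)).comp (A - B) := by
        rw [ContinuousLinearMap.comp_sub]
        abel
      rw [h1]
      exact ContinuousLinearMap.opNorm_comp_le _ _) 0
  set G : ℝ → X →L[ℝ] X := fun t => Y (t - T) with hG
  have hGT : G T = 0 := by simp only [hG, sub_self, hY0]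
  have hGd : ∀ t, HasDerivAt G ((L t).comp (G t) - om) t := by
    intro t
    have h1 := hY (t - T)
    rw [sub_add_cancel] at h1
    exact h1.comp_sub_const t T
  have hGu : ∀ u t, HasDerivAt (fun s => G s u) (L t (G t u) - om u) t := by
    intro u t
    exact ((ContinuousLinearMap.apply ℝ X u).hasFDerivAt.comp_hasDerivAt t (hGd t))
  have hmG : ∀ u t, mu (G t u) = 0 := by
    intro u t
    have h1 : ∀ t, HasDerivAt (fun s => mu (G s u)) 0 t := by
      intro t
      have h2 := mu.hasFDerivAt.comp_hasDerivAt t (hGu u t)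
      refine h2.congr_deriv ?_
      rw [map_sub, muL0, mu_om, sub_zero]
    have h2 := is_const_of_deriv_eq_zero (fun t => (h1 t).differentiableAt)
      (fun t => (h1 t).deriv) t T
    rw [h2, hGT]
    simp
  have hGb : ∀ u t, t ≤ T → ‖G t u‖ ≤ ‖om u‖ / lam := by
    intro u t ht
    refine bound lam T hlam L (fun s => G s u) (om u) (hGu u) ?_ ?_ t ht
    · intro s
      exact (hL' s).2.2 _ (hmG u s)
    · simp only [hGT, zero_apply]
  have hGio : ∀ τ t, t ≤ T → G t (io τ) = 0 := by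
    intro τ t ht
    have h1 := hGb (io τ) t ht
    rw [omv, hmi, sub_self, norm_zero, zero_div] at h1
    exact norm_le_zero_iff.1 h1
  refine ⟨fun t => ContinuousLinearMap.adjoint (G t), ?_, ?_⟩
  · simp only [hGT, map_zero]
  · intro t ht
    have hadj : ∀ x u, inner ℝ (ContinuousLinearMap.adjoint (G t) x) u = inner ℝ x (G t u) :=
      fun x u => ContinuousLinearMap.adjoint_inner_left (G t) u x
    refine ⟨?_, ?_, ?_, ?_⟩
    · have h1 := (LinearMap.toContinuousLinearMap (adjL X)).hasFDerivAt.comp_hasDerivAt t (hGd t)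
      refine (h1.congr_deriv ?_).hasDerivWithinAt
      show ContinuousLinearMap.adjoint ((L t).comp (G t) - om) = _
      rw [map_sub, ContinuousLinearMap.adjoint_comp]
      have h2 : ContinuousLinearMap.adjoint (L t) = Lp t := by
        rw [← hLp t ht]
        refine ((ContinuousLinearMap.eq_adjoint_iff _ _).2 ?_).symm
        exact (hL' t).1
      have h3 : ContinuousLinearMap.adjoint om = om :=
        ((ContinuousLinearMap.eq_adjoint_iff _ _).2 om_sym).symm
      rw [h2, h3]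
    · rw [LinearIsometryEquiv.norm_map]
      refine ContinuousLinearMap.opNorm_le_bound _ (by positivity) fun u => ?_
      refine (hGb u t ht.2).trans ?_
      rw [div_mul_eq_mul_div, one_mul]
      exact div_le_div_of_nonneg_right (om_le u) hlam.le
    · ext τ
      simp only [ContinuousLinearMap.comp_apply, zero_apply]
      refine ext_inner_right ℝ fun u => ?_
      rw [hadj, inner_zero_left, ← hmi τ, hsym, hmG, map_zero, inner_zero_right]
    · ext x
      simp only [ContinuousLinearMap.comp_apply, zero_apply]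
      have h1 : io (mu (ContinuousLinearMap.adjoint (G t) x)) = 0 := by
        refine ext_inner_right ℝ fun u => ?_
        rw [hsym, hadj, hGio _ t ht.2, inner_zero_right, inner_zero_left]
      rw [← hmi (mu (ContinuousLinearMap.adjoint (G t) x)), h1, map_zero]

end Pool.Agent.Work.MP_c9f990_an.Al

end

section

set_option autoImplicit false

/-!
# MP_c9f990_an: the invariant cone
-/

open MeasureTheory Set Filter Topology

namespace Pool.Agent.Work.MP_c9f990_an.Al

namespace I_CONEX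

/-- the scalar inequality -/
lemma scal (lam eta a b X ρ : ℝ) (hl : 0 < lam) (hl1 : lam ≤ 1) (he : 0 ≤ eta)
    (hel : 1000 * eta ≤ lam ^ 2) (ha : 0 ≤ a) (hb : 0 ≤ b) (hX : 0 ≤ X)
    (hρ : ρ ≤ eta * (X + (a + b))) :
    -2 * (lam * a ^ 2) + 2 * (a * ρ) + 2 * ((lam / 16) ^ 2 * (X * (a + b))) + 2 * (b * ρ) +
      lam * (a ^ 2 - (lam / 16) ^ 2 * X ^ 2 - b ^ 2) ≤ 0 := by
  set s := a + b with hs
  have hs0 : 0 ≤ s := by positivity
  have h1 : s * ρ ≤ s * (eta * (X + s)) := mul_le_mul_of_nonneg_left hρ hs0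
  have h2 : s * (eta * (X + s)) ≤ lam ^ 2 / 1000 * (X * s) + lam ^ 2 / 1000 * s ^ 2 := by
    have h3 : eta ≤ lam ^ 2 / 1000 := by linarith
    have h4 : 0 ≤ X * s + s ^ 2 := by positivity
    have h5 := mul_le_mul_of_nonneg_right h3 h4
    calc s * (eta * (X + s)) = eta * (X * s + s ^ 2) := by ring
      _ ≤ lam ^ 2 / 1000 * (X * s + s ^ 2) := h5
      _ = _ := by ring
  have h3 : lam ^ 2 * s ^ 2 ≤ lam * s ^ 2 := by
    have : lam ^ 2 ≤ lam := by nlinarith
    exact mul_le_mul_of_nonneg_right this (sq_nonneg s)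
  have h4 : s ^ 2 ≤ 2 * (a ^ 2 + b ^ 2) := by
    rw [hs]
    nlinarith [sq_nonneg (a - b)]
  have h5 : lam * s ^ 2 ≤ 2 * (lam * (a ^ 2 + b ^ 2)) := by
    have := mul_le_mul_of_nonneg_left h4 hl.le
    linarith
  have h6 : 0 ≤ lam * (s - lam * X / 16) ^ 2 := by positivity
  have h7 : 0 ≤ lam * (s ^ 2) := by positivity
  have h8 : 0 ≤ lam * (lam * X) ^ 2 := by positivity
  have e1 : a * ρ + b * ρ = s * ρ := by rw [hs]; ring
  nlinarith [h1, h2, h3, h5, h6, h7, h8, e1]

variable {X VK : Type} [NormedAddCommGroup X] [InnerProductSpace ℝ X]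
  [NormedAddCommGroup VK] [NormedSpace ℝ VK]

end I_CONEX

open I_CONEX in
theorem I_CONE : CONE := by
  intro X VK _ _ _ _ io mu hmi horth lam eta T hl hl1 he hel hT Lp hLp x v r hode hv0
  -- the projection
  set P : X →L[ℝ] X := io.comp mu with hP
  have hPa : ∀ y, P y = io (mu y) := fun y => rfl
  have hPP : ∀ y, P (P y) = P y := fun y => by rw [hPa, hPa, hmi]
  have hsymm : ∀ y z, inner ℝ (P y) z = inner ℝ y (P z) := horth
  have hPL : ∀ t ∈ Icc 0 T, ∀ y, P (Lp t y) = 0 := by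
    intro t ht y
    obtain ⟨h1, h2, _⟩ := hLp t ht
    have h3 : inner ℝ (P (Lp t y)) (P (Lp t y)) = (0 : ℝ) := by
      rw [hsymm, h1, hPa, hPa, h2, inner_zero_right]
    exact inner_self_eq_zero.1 h3
  set V : ℝ → X := fun t => P (v t) with hV
  set w : ℝ → X := fun t => v t - V t with hw
  have hdv : ∀ t ∈ Icc 0 T, HasDerivWithinAt v (-(Lp t (v t)) + r t) (Icc 0 T) t :=
    fun t ht => (hode t ht).2.1
  have hdx : ∀ t ∈ Icc 0 T, HasDerivWithinAt x (v t) (Icc 0 T) t := fun t ht => (hode t ht).1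
  have hdV : ∀ t ∈ Icc 0 T, HasDerivWithinAt V (P (r t)) (Icc 0 T) t := by
    intro t ht
    have h1 := P.hasFDerivAt.comp_hasDerivWithinAt t (hdv t ht)
    have h2 : P (-(Lp t (v t)) + r t) = P (r t) := by
      rw [map_add, map_neg, hPL t ht, neg_zero, zero_add]
    rw [h2] at h1
    exact h1
  have hdw : ∀ t ∈ Icc 0 T, HasDerivWithinAt w (-(Lp t (v t)) + r t - P (r t)) (Icc 0 T) t :=
    fun t ht => (hdv t ht).sub (hdV t ht)
  set Q : ℝ → ℝ := fun t => ‖w t‖ ^ 2 - (lam / 16) ^ 2 * ‖x t‖ ^ 2 - ‖V t‖ ^ 2 with hQ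
  set Q' : ℝ → ℝ := fun t => 2 * inner ℝ (w t) (-(Lp t (v t)) + r t - P (r t)) -
    (lam / 16) ^ 2 * (2 * inner ℝ (x t) (v t)) - 2 * inner ℝ (V t) (P (r t)) with hQ'
  have hdQ : ∀ t ∈ Icc 0 T, HasDerivWithinAt Q (Q' t) (Icc 0 T) t := by
    intro t ht
    exact ((hdw t ht).norm_sq.sub ((hdx t ht).norm_sq.const_mul ((lam / 16) ^ 2))).sub
      (hdV t ht).norm_sq
  have hmw : ∀ t, mu (w t) = 0 := by
    intro t
    show mu (v t - io (mu (v t))) = 0
    rw [map_sub, hmi, sub_self]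
  have hPw : ∀ t, P (w t) = 0 := by
    intro t
    rw [hPa, hmw, map_zero]
  have hineq : ∀ t ∈ Icc 0 T, Q' t + lam * Q t ≤ 0 := by
    intro t ht
    obtain ⟨h1, h2, h3⟩ := hLp t ht
    have e1 : Lp t (v t) = Lp t (w t) := by
      have : v t = w t + io (mu (v t)) := by
        show v t = v t - io (mu (v t)) + io (mu (v t))
        abel
      conv_lhs => rw [this]
      rw [map_add, h2, add_zero]
    have e2 : inner ℝ (w t) (P (r t)) = (0 : ℝ) := by rw [← hsymm, hPw, inner_zero_left]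
    have e3 : inner ℝ (V t) (P (r t)) = inner ℝ (V t) (r t) := by
      rw [← hsymm]
      show inner ℝ (P (P (v t))) (r t) = inner ℝ (P (v t)) (r t)
      rw [hPP]
    have e4 : Q' t = -2 * inner ℝ (Lp t (w t)) (w t) + 2 * inner ℝ (w t) (r t) -
        (lam / 16) ^ 2 * (2 * inner ℝ (x t) (v t)) - 2 * inner ℝ (V t) (r t) := by
      simp only [hQ']
      rw [e1, inner_sub_right, inner_add_right, inner_neg_right, e2, e3,
        real_inner_comm (Lp t (w t)) (w t)]
      ring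
    have b1 := h3 (w t) (hmw t)
    have b2 : inner ℝ (w t) (r t) ≤ ‖w t‖ * ‖r t‖ := real_inner_le_norm _ _
    have b3 : -inner ℝ (x t) (v t) ≤ ‖x t‖ * ‖v t‖ := by
      have := abs_real_inner_le_norm (x t) (v t)
      linarith [neg_abs_le (inner ℝ (x t) (v t) : ℝ)]
    have b4 : -inner ℝ (V t) (r t) ≤ ‖V t‖ * ‖r t‖ := by
      have := abs_real_inner_le_norm (V t) (r t)
      linarith [neg_abs_le (inner ℝ (V t) (r t) : ℝ)]
    have b5 : ‖v t‖ ≤ ‖w t‖ + ‖V t‖ := by
      have : v t = w t + V t := by simp only [hw, sub_add_cancel]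
      conv_lhs => rw [this]
      exact norm_add_le _ _
    have b6 : ‖r t‖ ≤ eta * (‖x t‖ + (‖w t‖ + ‖V t‖)) :=
      (hode t ht).2.2.trans (mul_le_mul_of_nonneg_left (by linarith) he)
    have b7 : ‖x t‖ * ‖v t‖ ≤ ‖x t‖ * (‖w t‖ + ‖V t‖) :=
      mul_le_mul_of_nonneg_left b5 (norm_nonneg _)
    have b8 : (lam / 16) ^ 2 * (-inner ℝ (x t) (v t)) ≤
        (lam / 16) ^ 2 * (‖x t‖ * (‖w t‖ + ‖V t‖)) :=
      mul_le_mul_of_nonneg_left (b3.trans b7) (by positivity)
    have b9 := scal lam eta ‖w t‖ ‖V t‖ ‖x t‖ ‖r t‖ hl hl1 he hel (norm_nonneg _) (norm_nonneg _)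
      (norm_nonneg _) b6
    rw [e4]
    simp only [hQ]
    linarith
  have hanti : AntitoneOn (fun t => Real.exp (lam * t) * Q t) (Icc 0 T) := by
    have hd : ∀ t ∈ Icc 0 T, HasDerivWithinAt (fun t => Real.exp (lam * t) * Q t)
        (Real.exp (lam * t) * (Q' t + lam * Q t)) (Icc 0 T) t := by
      intro t ht
      have h1 : HasDerivWithinAt (fun t => Real.exp (lam * t)) (Real.exp (lam * t) * lam)
          (Icc 0 T) t := by
        have h2 : HasDerivAt (fun t : ℝ => lam * t) lam t := by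
          simpa using (hasDerivAt_id t).const_mul lam
        exact h2.exp.hasDerivWithinAt
      have h3 := h1.mul (hdQ t ht)
      refine h3.congr_deriv ?_
      ring
    refine antitoneOn_of_hasDerivWithinAt_nonpos
      (f' := fun t => Real.exp (lam * t) * (Q' t + lam * Q t)) (convex_Icc 0 T)
      (fun t ht => (hd t ht).continuousWithinAt) ?_ ?_
    · intro t ht
      exact (hd t (interior_subset ht)).mono interior_subset
    · intro t ht
      exact mul_nonpos_of_nonneg_of_nonpos (Real.exp_pos _).le (hineq t (interior_subset ht))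
  have hQ0 : Q 0 ≤ 0 := by
    have h1 : w 0 = 0 := by
      show v 0 - io (mu (v 0)) = 0
      rw [← hv0, sub_self]
    simp only [hQ]
    rw [h1, norm_zero]
    have h2 : 0 ≤ (lam / 16) ^ 2 * ‖x 0‖ ^ 2 := by positivity
    have h3 : 0 ≤ ‖V 0‖ ^ 2 := by positivity
    nlinarith
  have hfin := hanti (left_mem_Icc.2 hT) (right_mem_Icc.2 hT) hT
  simp only [mul_zero, Real.exp_zero, one_mul] at hfin
  have h1 : Real.exp (lam * T) * Q T ≤ 0 := hfin.trans hQ0
  have h2 : Q T ≤ 0 := by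
    by_contra h
    push Not at h
    have := mul_pos (Real.exp_pos (lam * T)) h
    linarith
  simp only [hQ] at h2
  have h3 : ‖v T - io (mu (v T))‖ ^ 2 = ‖w T‖ ^ 2 := rfl
  have h4 : ‖io (mu (v T))‖ ^ 2 = ‖V T‖ ^ 2 := rfl
  rw [h3, h4]
  linarith

end Pool.Agent.Work.MP_c9f990_an.Al

end

section

set_option autoImplicit false

/-!
# MP_c9f990_an, block RG, item DENS: bounded density of the cluster means on the good set
-/

open MeasureTheory Set Filter Topology
open scoped NNReal ENNReal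

namespace Pool.Agent.Work.MP_c9f990_an.Al

namespace I_DENSX

variable {N n K : ℕ}

lemma io_eq (cl : Fin N → Fin K) (V : Fin K → E n) : ioL cl V = io cl V := rfl

lemma mu_eq (cl : Fin N → Fin K) (v : C N n) : muL cl v = mu cl v := by
  funext a
  simp [muL, mu]

lemma mu_io (cl : Fin N → Fin K) (hcl : Function.Surjective cl) (V : Fin K → E n) :
    mu cl (io cl V) = V := by
  funext a
  obtain ⟨i₀, hi₀⟩ := hcl a
  have h0 : (cnt cl a : ℝ) ≠ 0 := by
    have : 0 < cnt cl a := Finset.card_pos.2 ⟨i₀, by simp [hi₀]⟩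
    exact_mod_cast this.ne'
  have h1 : ∑ i ∈ Finset.univ.filter (fun i => cl i = a), io cl V i = (cnt cl a : ℝ) • V a := by
    have : ∀ i ∈ Finset.univ.filter (fun i => cl i = a), io cl V i = V a := by
      intro i hi
      have hi' : cl i = a := (Finset.mem_filter.1 hi).2
      show V (cl i) = V a
      rw [hi']
    rw [Finset.sum_congr rfl this, Finset.sum_const, cnt, ← Nat.cast_smul_eq_nsmul ℝ]
  show (cnt cl a : ℝ)⁻¹ • ∑ i ∈ Finset.univ.filter (fun i => cl i = a), io cl V i = V a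
  rw [h1, inv_smul_smul₀ h0]

lemma io_inj (cl : Fin N → Fin K) (hcl : Function.Surjective cl) {V W : Fin K → E n}
    (h : io cl V = io cl W) : V = W := by
  rw [← mu_io cl hcl V, h, mu_io cl hcl W]

lemma io_sub (cl : Fin N → Fin K) (V W : Fin K → E n) : io cl V - io cl W = io cl (V - W) := rfl

lemma meas_slab : MeasurableSet (slab N n) := by
  have h : slab N n = ⋂ (i : Fin N), ⋂ (k : Fin n),
      {z : P N n | 0 ≤ z.1 i k ∧ z.1 i k < 2 * Real.pi} := by
    ext z
    simp only [mem_iInter]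
    exact Iff.rfl
  rw [h]
  refine MeasurableSet.iInter fun i => MeasurableSet.iInter fun k => ?_
  have hc : Continuous (fun z : P N n => z.1 i k) := by fun_prop
  exact (measurableSet_le measurable_const hc.measurable).inter
    (measurableSet_lt hc.measurable measurable_const)

lemma latC_zero {x y : C N n} {m : Fin N → Fin n → ℤ} (h : x + latC m = y)
    (hx : ∀ i k, 0 ≤ x i k ∧ x i k < 2 * Real.pi) (hy : ∀ i k, 0 ≤ y i k ∧ y i k < 2 * Real.pi) :
    m = 0 := by
  funext i k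
  have e : x i k + 2 * Real.pi * (m i k : ℝ) = y i k := by
    have := congrArg (fun w : C N n => w i k) h
    exact this
  obtain ⟨a1, a2⟩ := hx i k
  obtain ⟨b1, b2⟩ := hy i k
  have hp := Real.pi_pos
  have h1 : (m i k : ℝ) < 1 := by
    by_contra hc
    push Not at hc
    nlinarith
  have h2 : (-1 : ℝ) < (m i k : ℝ) := by
    by_contra hc
    push Not at hc
    nlinarith
  have h3 : m i k < 1 := by exact_mod_cast h1
  have h4 : -1 < m i k := by exact_mod_cast h2
  show m i k = 0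
  omega

theorem haarV (N n : ℕ) : (volume : Measure (Fin N → E n)).IsAddHaarMeasure := by
  change (Measure.pi fun _ : Fin N => (volume : Measure (E n))).IsAddHaarMeasure
  infer_instance

theorem haarQ : (volume : Measure (C N n × (Fin K → E n))).IsAddHaarMeasure := by
  have h1 : (volume : Measure (C N n)).IsAddHaarMeasure := haarV N n
  have h2 : (volume : Measure (Fin K → E n)).IsAddHaarMeasure := haarV K n
  exact Measure.prod.instIsAddHaarMeasure (volume : Measure (C N n))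
    (volume : Measure (Fin K → E n))

/-- embedding of positions and cluster means -/
def gv (cl : Fin N → Fin K) (v : C N n) (y : C N n × (Fin K → E n)) : P N n :=
  (y.1, v + io cl y.2)

/-- positions and cluster means at time `T` -/
noncomputable def fv (cl : Fin N → Fin K) (ψ : P N n → P N n) (v : C N n)
    (y : C N n × (Fin K → E n)) : C N n × (Fin K → E n) :=
  ((ψ (gv cl v y)).1, mu cl (ψ (gv cl v y)).2)

lemma gv_diff (cl : Fin N → Fin K) (v : C N n) (y : C N n × (Fin K → E n)) :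
    HasFDerivAt (gv cl v) ((ContinuousLinearMap.fst ℝ (C N n) (Fin K → E n)).prod
      ((ioL cl).comp (ContinuousLinearMap.snd ℝ (C N n) (Fin K → E n)))) y := by
  have h1 := (ContinuousLinearMap.fst ℝ (C N n) (Fin K → E n)).hasFDerivAt (x := y)
  have h2 := ((ioL (n := n) cl).comp (ContinuousLinearMap.snd ℝ (C N n) (Fin K → E n))).hasFDerivAt
    (x := y)
  exact h1.prodMk (h2.const_add v)

lemma fv_diff (cl : Fin N → Fin K) {ψ : P N n → P N n} {M : P N n → P N n →L[ℝ] P N n}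
    (h : ∀ z, HasFDerivAt ψ (M z) z) (v : C N n) (y : C N n × (Fin K → E n)) :
    HasFDerivAt (fv cl ψ v) (Yop cl (M (gv cl v y))) y := by
  have h1 := (h (gv cl v y)).comp y (gv_diff cl v y)
  have h2 := (((ContinuousLinearMap.fst ℝ (C N n) (C N n)).prod ((muL cl).comp
    (ContinuousLinearMap.snd ℝ (C N n) (C N n)))).hasFDerivAt (x := ψ (gv cl v y))).comp y h1
  have e : fv cl ψ v = (fun z => ((ContinuousLinearMap.fst ℝ (C N n) (C N n)).prod ((muL cl).comp
    (ContinuousLinearMap.snd ℝ (C N n) (C N n)))) z) ∘ (ψ ∘ gv cl v) := by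
    funext w
    show _ = ((ψ (gv cl v w)).1, muL cl (ψ (gv cl v w)).2)
    rw [mu_eq]
    rfl
  rw [e]
  exact h2

lemma gv_cont (cl : Fin N → Fin K) (v : C N n) : Continuous (gv cl v) :=
  continuous_iff_continuousAt.2 fun y => (gv_diff cl v y).continuousAt

end I_DENSX

open I_DENSX in
theorem I_DENS (hD : DETF) (hI : INJ) (hM : GMS) (hL : LIFT) (hS : SLC) (hE : EQV) : DENS := by
  intro n N K Φ cl lam R hΦ hLG hcl hlam hlam1
  obtain ⟨e1, he1, hD'⟩ := hD n N K Φ cl lam R hΦ hLG hcl hlam hlam1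
  obtain ⟨e2, he2, hI'⟩ := hI n N K Φ cl lam R hΦ hLG hcl hlam hlam1
  refine ⟨min e1 e2, lt_min he1 he2, ?_⟩
  intro φ M hF
  have hD2 := hD' (min e1 e2) (lt_min he1 he2) (min_le_left _ _) φ M hF
  have hI2 := hI' (min e1 e2) (lt_min he1 he2) (min_le_right _ _) φ M hF
  obtain ⟨hcG, hlG⟩ := hM n N K Φ cl lam R (min e1 e2) hΦ φ M hF
  set G := GoodSet Φ cl lam R (min e1 e2) φ with hG
  obtain ⟨A, hA0, hS'⟩ := hS n N K cl R
  refine ⟨A * (2 * (2 * Real.pi) ^ (n * N)), ?_⟩
  intro T hT E' hE'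
  set S : Set (P N n) := {z : P N n | z ∈ G ∧ z ∈ slab N n ∧ mu cl (φ T z).2 ∈ E'} with hSdef
  have hφc : Continuous (φ T) := continuous_iff_continuousAt.2 fun z => (hF.diff T z).continuousAt
  have hmuc : Continuous (fun z : P N n => mu cl (φ T z).2) := by
    have : (fun z : P N n => mu cl (φ T z).2) = fun z => muL cl (φ T z).2 := by
      funext z; rw [mu_eq]
    rw [this]
    exact (muL cl).continuous.comp (continuous_snd.comp hφc)
  have hSm : MeasurableSet S := by
    have e : S = G ∩ (slab N n ∩ (fun z : P N n => mu cl (φ T z).2) ⁻¹' E') := rfl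
    rw [e]
    exact hcG.measurableSet.inter (meas_slab.inter (hmuc.measurable hE'))
  have hSke : ∀ z ∈ S, ke z.2 ≤ R := by
    intro z hz
    have h1 := hz.1.vel 0 le_rfl
    simpa [hF.zero] using h1
  have hdiff : ∀ z, HasFDerivAt (φ T) (M T z) z := fun z => hF.diff T z
  have key : ∀ v : C N n, volume {y : C N n × (Fin K → E n) | (y.1, v + io cl y.2) ∈ S} ≤
      2 * (ENNReal.ofReal ((2 * Real.pi) ^ (n * N)) * volume E') := by
    intro v
    set B : Set (C N n × (Fin K → E n)) := {y | (y.1, v + io cl y.2) ∈ S} with hB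
    have hBm : MeasurableSet B := (gv_cont cl v).measurable hSm
    have hinj : InjOn (fv cl (φ T) v) B := by
      intro y hy y' hy' hyy
      have hyy2 := Prod.ext_iff.1 hyy
      have h1 : gv cl v y = gv cl v y' := by
        refine hI2 (gv cl v y) hy.1 (gv cl v y') hy'.1 ?_ T hT hyy2.1 hyy2.2
        have e : (gv cl v y).2 - (gv cl v y').2 = io cl (y.2 - y'.2) := by
          show (v + io cl y.2) - (v + io cl y'.2) = _
          rw [add_sub_add_left_eq_sub, io_sub]
        rw [e, mu_io cl hcl]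
      have h1' := Prod.ext_iff.1 h1
      have h2 : y.1 = y'.1 := h1'.1
      have h3 : v + io cl y.2 = v + io cl y'.2 := h1'.2
      exact Prod.ext h2 (io_inj cl hcl (add_left_cancel h3))
    have hder : ∀ y ∈ B, HasFDerivWithinAt (fv cl (φ T) v) (Yop cl (M T (gv cl v y))) B y :=
      fun y _ => (fv_diff cl hdiff v y).hasFDerivWithinAt
    have hH : (volume : Measure (C N n × (Fin K → E n))).IsAddHaarMeasure := haarQ
    have harea := lintegral_abs_det_fderiv_eq_addHaar_image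
      (volume : Measure (C N n × (Fin K → E n))) hBm hder hinj
    have himm : MeasurableSet (fv cl (φ T) v '' B) :=
      measurable_image_of_fderivWithin hBm hder hinj
    have hlift := hL n N K (fv cl (φ T) v '' B) E' himm hE' (by
      rintro _ ⟨y, hy, rfl⟩
      exact hy.2.2) (by
      rintro _ ⟨y1, hy1, rfl⟩ m ⟨y2, hy2, h12⟩
      have hfl := hE n N Φ R hΦ φ M hF m T (gv cl v y1)
      have hz : gv cl v y1 + ((latC m, 0) : P N n) = gv cl v y2 := by
        refine hI2 (gv cl v y1 + ((latC m, 0) : P N n)) (hlG m _ hy1.1) (gv cl v y2) hy2.1 ?_ T hT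
          ?_ ?_
        · have e : (gv cl v y1 + ((latC m, 0) : P N n)).2 - (gv cl v y2).2 =
              io cl (y1.2 - y2.2) := by
            show (v + io cl y1.2) + 0 - (v + io cl y2.2) = _
            rw [add_zero, add_sub_add_left_eq_sub, io_sub]
          rw [e, mu_io cl hcl]
        · rw [hfl]
          exact (Prod.ext_iff.1 h12).1.symm
        · rw [hfl]
          have h3 := (Prod.ext_iff.1 h12).2
          have h4 : (φ T (gv cl v y1) + ((latC m, 0) : P N n)).2 = (φ T (gv cl v y1)).2 := by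
            show (φ T (gv cl v y1)).2 + 0 = _
            rw [add_zero]
          rw [h4]
          have h5 : mu cl (φ T (gv cl v y2)).2 = mu cl (φ T (gv cl v y1)).2 + 0 := h3
          rw [h5, add_zero]
      have hz1 : y1.1 + latC m = y2.1 := (Prod.ext_iff.1 hz).1
      exact latC_zero hz1 hy1.2.1 hy2.2.1)
    have hlow : ENNReal.ofReal (1 / 2) * volume B ≤ volume (fv cl (φ T) v '' B) := by
      rw [← harea, ← setLIntegral_const]
      refine setLIntegral_mono' hBm fun y hy => ?_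
      exact ENNReal.ofReal_le_ofReal (hD2 (gv cl v y) hy.1 T hT)
    have htwo : (2 : ℝ≥0∞) * ENNReal.ofReal (1 / 2) = 1 := by
      have : (2 : ℝ≥0∞) = ENNReal.ofReal 2 := by simp
      rw [this, ← ENNReal.ofReal_mul (by norm_num)]
      norm_num
    calc volume B = 2 * (ENNReal.ofReal (1 / 2) * volume B) := by
          rw [← mul_assoc, htwo, one_mul]
      _ ≤ 2 * volume (fv cl (φ T) v '' B) := by gcongr
      _ ≤ _ := by gcongr
  refine (hS' S hSm hSke _ key).trans_eq ?_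
  rw [ENNReal.ofReal_mul hA0, ENNReal.ofReal_mul (by norm_num : (0 : ℝ) ≤ 2)]
  have : (2 : ℝ≥0∞) = ENNReal.ofReal 2 := by simp
  rw [← this]
  ring

end Pool.Agent.Work.MP_c9f990_an.Al

end

section

set_option autoImplicit false
set_option linter.unusedSectionVars false

/-!
# MP_c9f990_an, block RG, item DETA: the determinant estimate (assembly of the linear theory)
-/

open MeasureTheory Set Filter Topology
open scoped NNReal ENNReal

namespace Pool.Agent.Work.MP_c9f990_an.Al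

namespace I_DETAX

/-- a scalar linear equation, one-sided -/
theorem sol (f a : ℝ → ℝ) (ha : ContinuousOn a (Ici 0)) (h0 : f 0 = 1)
    (hf : ∀ t, 0 ≤ t → HasDerivWithinAt f (a t * f t) (Ici 0) t) (T : ℝ) (hT : 0 ≤ T) :
    f T = Real.exp (∫ t in (0 : ℝ)..T, a t) := by
  set b : ℝ → ℝ := fun t => a (max 0 t) with hb
  have hbc : Continuous b := ha.comp_continuous (by fun_prop) fun t => le_max_left 0 t
  have hI : ∀ s, HasDerivAt (fun u => ∫ x in (0 : ℝ)..u, b x) (b s) s := fun s =>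
    (hbc.integral_hasStrictDerivAt 0 s).hasDerivAt
  have hba : ∀ t, 0 ≤ t → b t = a t := fun t ht => by rw [hb]; simp [max_eq_right ht]
  have hg : ∀ t, 0 ≤ t → HasDerivWithinAt
      (fun s => f s * Real.exp (-∫ x in (0 : ℝ)..s, b x)) 0 (Ici 0) t := by
    intro t ht
    have h1 := (hf t ht).mul ((hI t).neg.exp.hasDerivWithinAt (s := Ici 0))
    refine h1.congr_deriv ?_
    rw [hba t ht]
    ring
  have hconst := constant_of_has_deriv_right_zero
    (f := fun s => f s * Real.exp (-∫ x in (0 : ℝ)..s, b x)) (a := 0) (b := T)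
    (fun t ht => ((hg t ht.1).continuousWithinAt).mono fun x hx => hx.1)
    (fun t ht => (hg t ht.1).mono fun x hx => ht.1.trans hx) T ⟨hT, le_rfl⟩
  simp only [h0, intervalIntegral.integral_same, neg_zero, Real.exp_zero, mul_one] at hconst
  have h5 := congrArg (fun r => r * Real.exp (∫ x in (0 : ℝ)..T, b x)) hconst
  simp only [one_mul, mul_assoc, ← Real.exp_add, neg_add_cancel, Real.exp_zero, mul_one] at h5
  rw [h5]
  congr 1
  refine intervalIntegral.integral_congr fun t ht => ?_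
  rw [uIcc_of_le hT] at ht
  exact hba t ht.1

/-- integrals of functions bounded by each other -/
theorem int_le {T : ℝ} (hT : 0 ≤ T) {f b : ℝ → ℝ} (hb : ContinuousOn b (Icc 0 T))
    (h : ∀ t ∈ Icc 0 T, |f t| ≤ b t) : |∫ t in (0 : ℝ)..T, f t| ≤ ∫ t in (0 : ℝ)..T, b t := by
  have h1 := intervalIntegral.norm_integral_le_of_norm_le (μ := volume) (f := f) (g := b) hT
    (by
      refine ae_of_all _ fun t ht => ?_
      exact h t ⟨ht.1.le, ht.2⟩)
    (by
      apply ContinuousOn.intervalIntegrable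
      rwa [uIcc_of_le hT])
  exact h1

section

variable {X : Type} [NormedAddCommGroup X] [InnerProductSpace ℝ X] [FiniteDimensional ℝ X]

/-- the trace as a continuous linear map -/
noncomputable def trL (X : Type) [NormedAddCommGroup X] [InnerProductSpace ℝ X]
    [FiniteDimensional ℝ X] : (X →L[ℝ] X) →L[ℝ] ℝ :=
  LinearMap.toContinuousLinearMap
    ((LinearMap.trace ℝ X).comp (ContinuousLinearMap.coeLM ℝ) : (X →L[ℝ] X) →ₗ[ℝ] ℝ)

theorem trL_apply (f : X →L[ℝ] X) : trL X f = LinearMap.trace ℝ X (f : X →ₗ[ℝ] X) := rfl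

/-- the operator norm is bounded by the Hilbert-Schmidt norm -/
theorem hs (f : X →L[ℝ] X) :
    ‖f‖ ^ 2 ≤ ∑ k, ‖f (stdOrthonormalBasis ℝ X k)‖ ^ 2 := by
  set e := stdOrthonormalBasis ℝ X
  set S : ℝ := ∑ k, ‖f (e k)‖ ^ 2 with hS
  have hS0 : 0 ≤ S := Finset.sum_nonneg fun k _ => sq_nonneg _
  have h1 : ‖f‖ ≤ √S := by
    refine f.opNorm_le_bound (Real.sqrt_nonneg _) fun x => ?_
    have h2 : f x = ∑ k, e.repr x k • f (e k) := by
      conv_lhs => rw [← e.sum_repr x]
      rw [map_sum]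
      simp only [map_smul]
    have h3 : ‖f x‖ ≤ ∑ k, |e.repr x k| * ‖f (e k)‖ := by
      rw [h2]
      refine (norm_sum_le _ _).trans (Finset.sum_le_sum fun k _ => ?_)
      rw [norm_smul, Real.norm_eq_abs]
    have h4 : (∑ k, |e.repr x k| * ‖f (e k)‖) ^ 2 ≤ (∑ k, |e.repr x k| ^ 2) * S :=
      Finset.sum_mul_sq_le_sq_mul_sq _ _ _
    have h5 : ∑ k, |e.repr x k| ^ 2 = ‖x‖ ^ 2 := by
      rw [← e.repr.norm_map x, EuclideanSpace.norm_sq_eq]
      refine Finset.sum_congr rfl fun k _ => ?_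
      rw [Real.norm_eq_abs]
    rw [h5] at h4
    have h6 : ∑ k, |e.repr x k| * ‖f (e k)‖ ≤ √S * ‖x‖ := by
      refine abs_le_of_sq_le_sq' ?_ (by positivity) |>.2
      rw [mul_pow, Real.sq_sqrt hS0]
      linarith
    exact h3.trans h6
  calc ‖f‖ ^ 2 ≤ √S ^ 2 := by gcongr
    _ = S := Real.sq_sqrt hS0

end

section

variable {X VK : Type} [NormedAddCommGroup X] [InnerProductSpace ℝ X] [FiniteDimensional ℝ X]
    [NormedAddCommGroup VK] [NormedSpace ℝ VK] [FiniteDimensional ℝ VK]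

/-- the part of the slope over the positions -/
noncomputable def R1 (Rm : ℝ → (X × VK) →L[ℝ] X) (t : ℝ) : X →L[ℝ] X :=
  (Rm t).comp (ContinuousLinearMap.inl ℝ X VK)

/-- the part of the slope over the means, composed with `mu` -/
noncomputable def R2 (D : LinData X VK) (Rm : ℝ → (X × VK) →L[ℝ] X) (t : ℝ) : X →L[ℝ] X :=
  ((Rm t).comp (ContinuousLinearMap.inr ℝ X VK)).comp D.mu

/-- the quadratic terms -/
noncomputable def ZZ (D : LinData X VK) (Rm : ℝ → (X × VK) →L[ℝ] X) (t : ℝ) : X →L[ℝ] X :=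
  (D.Sg t).comp (R1 Rm t) - (R1 Rm t).comp (R1 Rm t) -
    (R2 D Rm t).comp ((D.Sg t).comp (R1 Rm t) + D.Ge t)

theorem R1_apply (Rm : ℝ → (X × VK) →L[ℝ] X) (t : ℝ) (x : X) : R1 Rm t x = Rm t (x, 0) := rfl

theorem R2_apply (D : LinData X VK) (Rm : ℝ → (X × VK) →L[ℝ] X) (t : ℝ) (x : X) :
    R2 D Rm t x = Rm t (0, D.mu x) := rfl

theorem split (R : (X × VK) →L[ℝ] X) (x : X) (τ : VK) : R (x, τ) = R (x, 0) + R (0, τ) := by
  rw [← map_add]
  congr 1
  simp

theorem split2 (R : (X × VK) →L[ℝ] X) (τ τ' : VK) :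
    R (0, τ + τ') = R (0, τ) + R (0, τ') := by
  have h := R.map_add ((0 : X), τ) ((0 : X), τ')
  rw [Prod.mk_add_mk, add_zero] at h
  exact h

variable {D : LinData X VK} {lam eta : ℝ} {q g s : ℝ → ℝ} {xm vm : ℝ → (X × VK) →L[ℝ] X}
  {Rm : ℝ → (X × VK) →L[ℝ] X}

theorem io_mu (hD : LinOK D lam eta q g s) (x : X) : ‖D.io (D.mu x)‖ ≤ ‖x‖ := by
  have h1 : ‖D.io (D.mu x)‖ ^ 2 ≤ ‖x‖ * ‖D.io (D.mu x)‖ := by
    rw [← real_inner_self_eq_norm_sq, hD.orth, hD.mu_io]
    exact real_inner_le_norm _ _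
  rcases (norm_nonneg (D.io (D.mu x))).eq_or_lt with h | h
  · rw [← h]; exact norm_nonneg _
  · nlinarith

theorem nR1 (hS : SlopeOK D lam xm vm Rm) (h0 : 0 < lam) (h1 : lam ≤ 1) {t : ℝ} (ht : 0 ≤ t) :
    ‖R1 Rm t‖ ≤ 1 := by
  refine ContinuousLinearMap.opNorm_le_bound _ zero_le_one fun x => ?_
  rw [R1_apply, one_mul]
  have h2 := hS.bound t ht (x, 0)
  simp only [map_zero, norm_zero] at h2
  have h3 : (lam / 16) ^ 2 ≤ 1 := by nlinarith
  refine abs_le_of_sq_le_sq' ?_ (norm_nonneg _) |>.2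
  nlinarith [sq_nonneg ‖x‖]

theorem nR2a (hS : SlopeOK D lam xm vm Rm) {t : ℝ} (ht : 0 ≤ t) (τ : VK) :
    ‖Rm t (0, τ)‖ ≤ ‖D.io τ‖ := by
  have h2 := hS.bound t ht (0, τ)
  simp only [norm_zero] at h2
  refine abs_le_of_sq_le_sq' ?_ (norm_nonneg _) |>.2
  linarith

theorem nR2 (hD : LinOK D lam eta q g s) (hS : SlopeOK D lam xm vm Rm) {t : ℝ} (ht : 0 ≤ t) :
    ‖R2 D Rm t‖ ≤ 1 := by
  refine ContinuousLinearMap.opNorm_le_bound _ zero_le_one fun x => ?_
  rw [R2_apply, one_mul]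
  exact (nR2a hS ht _).trans (io_mu hD x)

/-- the trace of the generator -/
theorem trAA (hB : TRB) (D : LinData X VK) (Rm : ℝ → (X × VK) →L[ℝ] X) (t : ℝ) :
    LinearMap.trace ℝ (X × VK) (AA D Rm t : (X × VK) →ₗ[ℝ] (X × VK)) =
      trL X (R1 Rm t) + trL X ((D.Sg t).comp (D.io.comp D.mu + R2 D Rm t)) := by
  rw [hB X VK (AA D Rm t)]
  congr 1
  · rw [trL_apply]
    congr 2
    ext x
    simp [AA, R1]
  · rw [trL_apply]
    have h1 : (((ContinuousLinearMap.snd ℝ X VK).comp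
        ((AA D Rm t).comp (ContinuousLinearMap.inr ℝ X VK)) : VK →L[ℝ] VK) : VK →ₗ[ℝ] VK) =
        (D.mu : X →ₗ[ℝ] VK) ∘ₗ (((D.Sg t).comp (D.io + (Rm t).comp
          (ContinuousLinearMap.inr ℝ X VK)) : VK →L[ℝ] X) : VK →ₗ[ℝ] X) := by
      ext x
      simp [AA]
    have h2 : (((D.Sg t).comp (D.io.comp D.mu + R2 D Rm t) : X →L[ℝ] X) : X →ₗ[ℝ] X) =
        (((D.Sg t).comp (D.io + (Rm t).comp
          (ContinuousLinearMap.inr ℝ X VK)) : VK →L[ℝ] X) : VK →ₗ[ℝ] X) ∘ₗ
            (D.mu : X →ₗ[ℝ] VK) := by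
      ext x
      simp [R2]
    rw [h1, h2]
    exact LinearMap.trace_comp_comm' _ _

/-- composition with the inclusion -/
theorem dR1 {T : ℝ} {R' : (X × VK) →L[ℝ] X} {t : ℝ} (h : HasDerivWithinAt Rm R' (Ici 0) t) :
    HasDerivWithinAt (R1 Rm) (R'.comp (ContinuousLinearMap.inl ℝ X VK)) (Icc 0 T) t :=
  (((ContinuousLinearMap.compL ℝ X (X × VK) X).flip
    (ContinuousLinearMap.inl ℝ X VK)).hasFDerivAt.comp_hasDerivWithinAt t
      (h.mono (fun _ hx => hx.1)))

/-- derivative of `H R1` -/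
theorem dHR {T : ℝ} (hS : SlopeOK D lam xm vm Rm) {H : ℝ → X →L[ℝ] X} {t : ℝ} (ht : t ∈ Icc 0 T)
    (hH : HasDerivWithinAt H ((H t).comp (D.Lp t) - D.om) (Icc 0 T) t)
    (hio : (H t).comp D.io = 0) :
    HasDerivWithinAt (fun r => (H r).comp (R1 Rm r))
      (-(R1 Rm t) + (H t).comp (D.Ge t) + ((H t).comp (D.Ga t) + (H t).comp (ZZ D Rm t)))
      (Icc 0 T) t := by
  have h1 := dR1 (T := T) (hS.dR t ht.1)
  have h2 := hH.clm_comp h1
  have hio' : ∀ τ, H t (D.io τ) = 0 := fun τ => by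
    have := congrArg (fun f : VK →L[ℝ] X => f τ) hio
    simpa using this
  convert h2 using 1
  ext x
  have hmu := hS.muR t ht.1 (x, 0)
  have hsp := split (Rm t) (Rm t (x, 0)) (D.mu (D.Sg t (Rm t (x, 0)) + D.Ge t x))
  have hA : AA D Rm t (x, 0) = (Rm t (x, 0), D.mu (D.Sg t (Rm t (x, 0)) + D.Ge t x)) := by
    simp [AA]
  have e1 : D.om (R1 Rm t x) = Rm t (x, 0) := by
    rw [R1_apply]
    simp [LinData.om, hmu]
  have e2 : ∀ u, H t (D.om u) = H t u := by
    intro u
    simp [LinData.om, hio']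
  have e3 : ((-(D.Lp t).comp (Rm t) +
    D.om.comp ((D.Sg t).comp (D.io.comp (ContinuousLinearMap.snd ℝ X VK) + Rm t)) +
    D.om.comp ((D.Ge t).comp (ContinuousLinearMap.fst ℝ X VK)) +
    (D.Ga t).comp (ContinuousLinearMap.fst ℝ X VK) - (Rm t).comp (AA D Rm t)).comp
      (ContinuousLinearMap.inl ℝ X VK)) x = -(D.Lp t (Rm t (x, 0))) +
      D.om (D.Sg t (Rm t (x, 0))) + D.om (D.Ge t x) + D.Ga t x -
        Rm t (Rm t (x, 0), D.mu (D.Sg t (Rm t (x, 0)) + D.Ge t x)) := by
    rw [← hA]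
    simp only [ContinuousLinearMap.comp_apply, ContinuousLinearMap.inl_apply,
      _root_.add_apply, _root_.sub_apply, _root_.neg_apply,
      ContinuousLinearMap.coe_snd', ContinuousLinearMap.coe_fst', map_zero, zero_add]
  conv_rhs => rw [_root_.add_apply, ContinuousLinearMap.comp_apply,
    ContinuousLinearMap.comp_apply (H t), e3, hsp]
  simp only [map_add, map_sub, map_neg, _root_.add_apply,
    _root_.sub_apply, _root_.neg_apply, ContinuousLinearMap.comp_apply,
    e1, e2, ZZ, R2_apply]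
  simp only [R1_apply]
  have e4 : Rm t (0, D.mu (D.Sg t (Rm t (x, 0))) + D.mu (D.Ge t x)) =
      Rm t (0, D.mu (D.Sg t (Rm t (x, 0)))) + Rm t (0, D.mu (D.Ge t x)) := split2 _ _ _
  rw [e4]
  simp only [map_add]
  abel

/-- sums of squares -/
noncomputable def N1 (Rm : ℝ → (X × VK) →L[ℝ] X) (t : ℝ) : ℝ :=
  ∑ k, ‖Rm t (stdOrthonormalBasis ℝ X k, 0)‖ ^ 2

/-- sums of squares -/
noncomputable def N2 (D : LinData X VK) (Rm : ℝ → (X × VK) →L[ℝ] X) (t : ℝ) : ℝ :=
  ∑ k, ‖Rm t (0, D.mu (stdOrthonormalBasis ℝ X k))‖ ^ 2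

theorem nZ (hD : LinOK D lam eta q g s) (hS : SlopeOK D lam xm vm Rm) (h0 : 0 < lam)
    (h1 : lam ≤ 1) {t : ℝ} (ht : 0 ≤ t) :
    ‖ZZ D Rm t‖ ≤ 2 * q t + N1 Rm t + (N2 D Rm t + g t ^ 2) / 2 := by
  have a1 := nR1 hS h0 h1 ht
  have a2 := nR2 hD hS ht
  have a3 := hD.nSg t ht
  have a4 := hD.nGe t ht
  have b1 : ‖R1 Rm t‖ ^ 2 ≤ N1 Rm t := hs (R1 Rm t)
  have b2 : ‖R2 D Rm t‖ ^ 2 ≤ N2 D Rm t := hs (R2 D Rm t)
  have c1 : ‖(D.Sg t).comp (R1 Rm t)‖ ≤ q t := by
    refine (ContinuousLinearMap.opNorm_comp_le _ _).trans ?_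
    calc ‖D.Sg t‖ * ‖R1 Rm t‖ ≤ ‖D.Sg t‖ * 1 := by gcongr
      _ ≤ q t := by rw [mul_one]; exact a3
  have c2 : ‖(R1 Rm t).comp (R1 Rm t)‖ ≤ N1 Rm t := by
    refine (ContinuousLinearMap.opNorm_comp_le _ _).trans ?_
    rw [← sq]; exact b1
  have c3 : ‖(D.Sg t).comp (R1 Rm t) + D.Ge t‖ ≤ q t + g t :=
    (norm_add_le _ _).trans (add_le_add c1 a4)
  have c4 : ‖(R2 D Rm t).comp ((D.Sg t).comp (R1 Rm t) + D.Ge t)‖ ≤
      q t + (N2 D Rm t + g t ^ 2) / 2 := by
    refine (ContinuousLinearMap.opNorm_comp_le _ _).trans ?_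
    have d1 : 0 ≤ q t := (norm_nonneg _).trans a3
    have d2 : 0 ≤ g t := (norm_nonneg _).trans a4
    calc ‖R2 D Rm t‖ * ‖(D.Sg t).comp (R1 Rm t) + D.Ge t‖ ≤ ‖R2 D Rm t‖ * (q t + g t) := by
          gcongr
      _ ≤ q t + (N2 D Rm t + g t ^ 2) / 2 := by
          nlinarith [sq_nonneg (‖R2 D Rm t‖ - g t), norm_nonneg (R2 D Rm t)]
  unfold ZZ
  refine (norm_sub_le _ _).trans ?_
  have := norm_sub_le ((D.Sg t).comp (R1 Rm t)) ((R1 Rm t).comp (R1 Rm t))
  linarith

theorem cR1 (hS : SlopeOK D lam xm vm Rm) : ContinuousOn (R1 Rm) (Ici 0) :=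
  hS.cR.clm_comp continuousOn_const

theorem cR2 (hS : SlopeOK D lam xm vm Rm) : ContinuousOn (R2 D Rm) (Ici 0) :=
  (hS.cR.clm_comp continuousOn_const).clm_comp continuousOn_const

theorem cZ (hD : LinOK D lam eta q g s) (hS : SlopeOK D lam xm vm Rm) :
    ContinuousOn (ZZ D Rm) (Ici 0) := by
  have h1 := cR1 hS
  have h2 := cR2 hS
  have h3 := hD.cSg.clm_comp h1
  exact (h3.sub (h1.clm_comp h1)).sub (h2.clm_comp (h3.add hD.cGe))

theorem cN1 (hS : SlopeOK D lam xm vm Rm) (k) :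
    ContinuousOn (fun t => ‖Rm t (stdOrthonormalBasis ℝ X k, 0)‖ ^ 2) (Ici 0) :=
  ((hS.cR.clm_apply continuousOn_const).norm).pow 2

theorem cN2 (hS : SlopeOK D lam xm vm Rm) (k) :
    ContinuousOn (fun t => ‖Rm t (0, D.mu (stdOrthonormalBasis ℝ X k))‖ ^ 2) (Ici 0) :=
  ((hS.cR.clm_apply continuousOn_const).norm).pow 2

/-- continuous functions on the half line are integrable on intervals -/
theorem ii {f : ℝ → ℝ} (hf : ContinuousOn f (Ici 0)) {T : ℝ} (hT : 0 ≤ T) :
    IntervalIntegrable f volume 0 T := by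
  apply ContinuousOn.intervalIntegrable
  rw [uIcc_of_le hT]
  exact hf.mono fun x hx => hx.1

theorem iN1 (hL : RL2) (h0 : 0 < lam) (h1 : lam ≤ 1) (h2 : 2000 * eta ≤ lam ^ 2)
    (hD : LinOK D lam eta q g s) (hS : SlopeOK D lam xm vm Rm) {T : ℝ} (hT : 0 ≤ T) :
    ∫ t in (0 : ℝ)..T, N1 Rm t ≤ Module.finrank ℝ X * (400 / lam ^ 4 * eta) := by
  unfold N1
  rw [intervalIntegral.integral_finsetSum fun k _ => ii (cN1 hS k) hT]
  have h3 := (hL X VK D lam eta q g s h0 h1 h2 hD xm vm Rm hS T hT).1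
  calc ∑ k, ∫ t in (0 : ℝ)..T, ‖Rm t (stdOrthonormalBasis ℝ X k, 0)‖ ^ 2 ≤
      ∑ k : Fin (Module.finrank ℝ X), 400 / lam ^ 4 * eta := by
        refine Finset.sum_le_sum fun k _ => ?_
        have := h3 (stdOrthonormalBasis ℝ X k)
        rwa [(stdOrthonormalBasis ℝ X).norm_eq_one k, one_pow, mul_one] at this
    _ = _ := by simp

theorem iN2 (hL : RL2) (h0 : 0 < lam) (h1 : lam ≤ 1) (he : 0 ≤ eta) (h2 : 2000 * eta ≤ lam ^ 2)
    (hD : LinOK D lam eta q g s) (hS : SlopeOK D lam xm vm Rm) {T : ℝ} (hT : 0 ≤ T) :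
    ∫ t in (0 : ℝ)..T, N2 D Rm t ≤ Module.finrank ℝ X * (400 / lam ^ 4 * eta) := by
  unfold N2
  rw [intervalIntegral.integral_finsetSum fun k _ => ii (cN2 hS k) hT]
  have h3 := (hL X VK D lam eta q g s h0 h1 h2 hD xm vm Rm hS T hT).2
  calc ∑ k, ∫ t in (0 : ℝ)..T, ‖Rm t (0, D.mu (stdOrthonormalBasis ℝ X k))‖ ^ 2 ≤
      ∑ k : Fin (Module.finrank ℝ X), 400 / lam ^ 4 * eta := by
        refine Finset.sum_le_sum fun k _ => ?_
        refine (h3 (D.mu (stdOrthonormalBasis ℝ X k))).trans ?_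
        have h4 := io_mu hD (stdOrthonormalBasis ℝ X k)
        rw [(stdOrthonormalBasis ℝ X).norm_eq_one k] at h4
        have h5 : ‖D.io (D.mu (stdOrthonormalBasis ℝ X k))‖ ^ 2 ≤ 1 := by
          nlinarith [norm_nonneg (D.io (D.mu (stdOrthonormalBasis ℝ X k)))]
        have h6 : 0 ≤ 400 / lam ^ 4 * eta := by positivity
        nlinarith
    _ = _ := by simp

end

end I_DETAX

open I_DETAX in
theorem I_DETA (hS : SLP) (hL : RL2) (hN : TRN) (hB : TRB) : DETA := by
  intro X VK _ _ _ _ _ _ lam hlam hlam1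
  set d : ℝ := ((Module.finrank ℝ X : ℕ) : ℝ) with hd
  have hd0 : 0 ≤ d := Nat.cast_nonneg _
  set C : ℝ := 2 * d + (d / lam) * (7 / 2 + 600 * d / lam ^ 4) with hC
  have hC0 : 0 ≤ C := by positivity
  refine ⟨min (lam ^ 2 / 2000) (1 / (8 * (C + 1))), by positivity, ?_⟩
  set eta : ℝ := min (lam ^ 2 / 2000) (1 / (8 * (C + 1))) with heta
  have he0 : 0 ≤ eta := by positivity
  have he1 : 2000 * eta ≤ lam ^ 2 := by
    have := min_le_left (lam ^ 2 / 2000) (1 / (8 * (C + 1)))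
    linarith
  have he2 : C * eta ≤ 1 / 8 := by
    have h1 := min_le_right (lam ^ 2 / 2000) (1 / (8 * (C + 1)))
    have h2 : (C + 1) * eta ≤ (C + 1) * (1 / (8 * (C + 1))) := by gcongr
    have h3 : (C + 1) * (1 / (8 * (C + 1))) = 1 / 8 := by
      have : C + 1 ≠ 0 := by positivity
      field_simp
    nlinarith
  intro D q g s hD xm vm hsol T hT H hH hHT hG
  obtain ⟨Rm, hR⟩ := hS X VK D lam eta q g s hlam hlam1 he1 hD xm vm hsol
  have sub : Icc 0 T ⊆ Ici 0 := fun x hx => hx.1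
  -- continuity
  have cH : ContinuousOn H (Icc 0 T) := fun t ht => (hH t ht).1.continuousWithinAt
  have c1 := cR1 hR
  have c2 := cR2 hR
  have cz := cZ hD hR
  set r : ℝ → ℝ := fun t => trL X (R1 Rm t) with hr
  set e : ℝ → ℝ := fun t => trL X ((D.Sg t).comp (D.io.comp D.mu + R2 D Rm t)) with he
  set G : ℝ → ℝ := fun t => trL X ((H t).comp (D.Ge t)) with hGd
  set W : ℝ → ℝ := fun t => trL X ((H t).comp (D.Ga t) + (H t).comp (ZZ D Rm t)) with hW
  have cr : ContinuousOn r (Ici 0) := (trL X).continuous.comp_continuousOn c1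
  have ce : ContinuousOn e (Ici 0) := (trL X).continuous.comp_continuousOn
    (hD.cSg.clm_comp (continuousOn_const.add c2))
  have cG : ContinuousOn G (Icc 0 T) := (trL X).continuous.comp_continuousOn
    (cH.clm_comp (hD.cGe.mono sub))
  have cW : ContinuousOn W (Icc 0 T) := (trL X).continuous.comp_continuousOn
    ((cH.clm_comp (hD.cGa.mono sub)).add (cH.clm_comp (cz.mono sub)))
  -- the determinant
  have hdet : (Ym D xm vm T).det = Real.exp (∫ t in (0 : ℝ)..T, (r t + e t)) := by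
    refine sol (fun t => (Ym D xm vm t).det) (fun t => r t + e t) (cr.add ce) hR.Y0 ?_ T hT
    intro t ht
    have := hR.dY t ht
    rw [trAA hB D Rm t] at this
    exact this
  -- the derivative of `tr (H R1)`
  have hP : ∀ t ∈ Icc 0 T, HasDerivWithinAt (fun u => trL X ((H u).comp (R1 Rm u)))
      (-(r t) + G t + W t) (Icc 0 T) t := by
    intro t ht
    obtain ⟨k1, _, k3⟩ := hH t ht
    have h1 := (trL X).hasFDerivAt.comp_hasDerivWithinAt t (dHR hR ht k1 k3)
    refine h1.congr_deriv ?_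
    rw [map_add, map_add, map_neg]
  have iiT : ∀ {f : ℝ → ℝ}, ContinuousOn f (Icc 0 T) → IntervalIntegrable f volume 0 T := by
    intro f hf
    apply ContinuousOn.intervalIntegrable
    rwa [uIcc_of_le hT]
  have cr' := cr.mono sub
  have ce' := ce.mono sub
  have hint : ∫ t in (0 : ℝ)..T, (-(r t) + G t + W t) = 0 := by
    have h1 := intervalIntegral.integral_eq_sub_of_hasDerivAt_of_le hT
      (f := fun u => trL X ((H u).comp (R1 Rm u))) (f' := fun t => -(r t) + G t + W t)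
      (fun t ht => (hP t ht).continuousWithinAt)
      (fun t ht => (hP t (Ioo_subset_Icc_self ht)).hasDerivAt (Icc_mem_nhds ht.1 ht.2))
      (iiT ((cr'.neg.add cG).add cW))
    rw [h1, hHT]
    have h2 : R1 Rm 0 = 0 := by rw [R1, hR.R0, ContinuousLinearMap.zero_comp]
    rw [h2, ContinuousLinearMap.zero_comp, ContinuousLinearMap.comp_zero, sub_self]
  have hint2 : ∫ t in (0 : ℝ)..T, r t = (∫ t in (0 : ℝ)..T, G t) + ∫ t in (0 : ℝ)..T, W t := by
    have jr : IntervalIntegrable (fun t => -(r t)) volume 0 T := iiT cr'.neg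
    rw [intervalIntegral.integral_add (jr.add (iiT cG)) (iiT cW),
      intervalIntegral.integral_add jr (iiT cG), intervalIntegral.integral_neg] at hint
    linarith
  have hint3 : ∫ t in (0 : ℝ)..T, (r t + e t) = (∫ t in (0 : ℝ)..T, G t) +
      (∫ t in (0 : ℝ)..T, W t) + ∫ t in (0 : ℝ)..T, e t := by
    rw [intervalIntegral.integral_add (iiT cr') (iiT ce'), hint2]
  -- bounds
  have be : |∫ t in (0 : ℝ)..T, e t| ≤ 2 * d * eta := by
    have h1 : |∫ t in (0 : ℝ)..T, e t| ≤ ∫ t in (0 : ℝ)..T, 2 * d * q t := by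
      refine int_le hT ((hD.cq.mono sub).const_smul (2 * d)) fun t ht => ?_
      refine (hN X _).trans ?_
      have h2 : ‖D.io.comp D.mu + R2 D Rm t‖ ≤ 2 := by
        refine (norm_add_le _ _).trans ?_
        have h3 : ‖D.io.comp D.mu‖ ≤ 1 :=
          ContinuousLinearMap.opNorm_le_bound _ zero_le_one fun x => by
            rw [one_mul]; exact io_mu hD x
        have h4 := nR2 hD hR ht.1
        linarith
      have h5 : ‖(D.Sg t).comp (D.io.comp D.mu + R2 D Rm t)‖ ≤ q t * 2 :=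
        (ContinuousLinearMap.opNorm_comp_le _ _).trans
          (mul_le_mul (hD.nSg t ht.1) h2 (norm_nonneg _) ((norm_nonneg _).trans (hD.nSg t ht.1)))
      calc d * ‖(D.Sg t).comp (D.io.comp D.mu + R2 D Rm t)‖ ≤ d * (q t * 2) := by gcongr
        _ = 2 * d * q t := by ring
    refine h1.trans ?_
    rw [intervalIntegral.integral_const_mul]
    exact mul_le_mul_of_nonneg_left (hD.q_int T hT) (by positivity)
  have cN1' : ContinuousOn (N1 Rm) (Ici 0) := continuousOn_finsetSum _ fun k _ => cN1 hR k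
  have cN2' : ContinuousOn (N2 D Rm) (Ici 0) := continuousOn_finsetSum _ fun k _ => cN2 hR k
  have bW : |∫ t in (0 : ℝ)..T, W t| ≤ (d / lam) * (7 / 2 + 600 * d / lam ^ 4) * eta := by
    set b : ℝ → ℝ := fun t => (d / lam) * (s t + (2 * q t + N1 Rm t + (N2 D Rm t + g t ^ 2) / 2))
      with hb
    have cb : ContinuousOn b (Ici 0) := by
      refine continuousOn_const.mul (hD.cs.add ((((continuousOn_const.mul hD.cq)).add cN1').add
        ((cN2'.add (hD.cg.pow 2)).div_const 2)))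
    have h1 : |∫ t in (0 : ℝ)..T, W t| ≤ ∫ t in (0 : ℝ)..T, b t := by
      refine int_le hT (cb.mono sub) fun t ht => ?_
      refine (hN X ((H t).comp (D.Ga t) + (H t).comp (ZZ D Rm t))).trans ?_
      obtain ⟨_, k2, _⟩ := hH t ht
      have h2 : ‖(H t).comp (D.Ga t) + (H t).comp (ZZ D Rm t)‖ ≤
          1 / lam * (s t + (2 * q t + N1 Rm t + (N2 D Rm t + g t ^ 2) / 2)) := by
        rw [← ContinuousLinearMap.comp_add]
        refine (ContinuousLinearMap.opNorm_comp_le _ _).trans ?_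
        refine mul_le_mul k2 ?_ (norm_nonneg _) (by positivity)
        exact (norm_add_le _ _).trans (add_le_add (hD.nGa t ht.1) (nZ hD hR hlam hlam1 ht.1))
      calc d * ‖(H t).comp (D.Ga t) + (H t).comp (ZZ D Rm t)‖ ≤
          d * (1 / lam * (s t + (2 * q t + N1 Rm t + (N2 D Rm t + g t ^ 2) / 2))) := by gcongr
        _ = b t := by rw [hb]; ring
    refine h1.trans ?_
    have i1 := iN1 hL hlam hlam1 he1 hD hR hT
    have i2 := iN2 hL hlam hlam1 he0 he1 hD hR hT
    have h3 : ∫ t in (0 : ℝ)..T, b t = (d / lam) * ((∫ t in (0 : ℝ)..T, s t) +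
        (2 * (∫ t in (0 : ℝ)..T, q t) + (∫ t in (0 : ℝ)..T, N1 Rm t) +
          ((∫ t in (0 : ℝ)..T, N2 D Rm t) + ∫ t in (0 : ℝ)..T, g t ^ 2) / 2)) := by
      have j1 := ii hD.cs hT
      have j2 := ii (hD.cq.const_smul (2 : ℝ)) hT
      have j3 := ii cN1' hT
      have j4 := ii cN2' hT
      have j5 := ii (hD.cg.pow 2) hT
      have j2' : IntervalIntegrable (fun t => 2 * q t) volume 0 T := j2
      have j5' : IntervalIntegrable (fun t => g t ^ 2) volume 0 T := j5
      rw [hb, intervalIntegral.integral_const_mul,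
        intervalIntegral.integral_add j1 ((j2'.add j3).add ((j4.add j5').div_const 2)),
        intervalIntegral.integral_add (j2'.add j3) ((j4.add j5').div_const 2),
        intervalIntegral.integral_add j2' j3, intervalIntegral.integral_div,
        intervalIntegral.integral_add j4 j5', intervalIntegral.integral_const_mul]
    rw [h3]
    have k1 := hD.s_int T hT
    have k2 := hD.q_int T hT
    have k3 := hD.g_int T hT
    rw [mul_assoc]
    refine mul_le_mul_of_nonneg_left ?_ (by positivity)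
    have h4 : 600 * d / lam ^ 4 * eta = 3 / 2 * (d * (400 / lam ^ 4 * eta)) := by ring
    rw [add_mul, h4]
    linarith
  have tot : |∫ t in (0 : ℝ)..T, (r t + e t)| ≤ 1 / 4 := by
    rw [hint3]
    refine (abs_add_three _ _ _).trans ?_
    have h1 : C * eta = 2 * d * eta + (d / lam) * (7 / 2 + 600 * d / lam ^ 4) * eta := by
      rw [hC]; ring
    have h2 : |∫ t in (0 : ℝ)..T, G t| ≤ 1 / 8 := hG
    linarith
  rw [hdet, abs_of_pos (Real.exp_pos _)]
  have h1 := Real.add_one_le_exp (∫ t in (0 : ℝ)..T, (r t + e t))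
  have h2 := (abs_le.1 tot).1
  linarith

end Pool.Agent.Work.MP_c9f990_an.Al

end

section

set_option autoImplicit false

/-!
# MP_c9f990_an: determinant estimate for the flow
-/

open MeasureTheory Set Filter Topology
open scoped NNReal ENNReal

namespace Pool.Agent.Work.MP_c9f990_an.Al

theorem I_DETF (h1 : LOK) (h2 : LSOL) (h3 : YDET) (h4 : HAD) (h5 : DETA) (h6 : REP) : DETF := by
  intro n N K Φ cl lam R hΦ hL hs hlam hlam1
  obtain ⟨eta, heta, hD⟩ := h5 (XX N n) (Fin K → E n) lam hlam hlam1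
  obtain ⟨A1, hA1, hLOK⟩ := h1 n N K Φ cl lam R hΦ hL hs hlam
  obtain ⟨A2, hA2, hHAD⟩ := h4 n N K Φ cl lam R hΦ hs hlam hlam1
  refine ⟨min 1 (min (eta / A1) (1 / (8 * A2))), by positivity, ?_⟩
  intro eps heps heps0 φ M hF z hz T hT
  have e1 : eps ≤ 1 := heps0.trans (min_le_left _ _)
  have e2 : A1 * eps ≤ eta := by
    have : eps ≤ eta / A1 := heps0.trans ((min_le_right _ _).trans (min_le_left _ _))
    rw [le_div_iff₀ hA1] at this
    linarith
  have e3 : A2 * eps ≤ 1 / 8 := by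
    have : eps ≤ 1 / (8 * A2) := heps0.trans ((min_le_right _ _).trans (min_le_right _ _))
    rw [le_div_iff₀ (by positivity)] at this
    linarith
  obtain ⟨q, g, s, hOK⟩ := hLOK eps heps e1 φ M hF z hz
  have hOK' : LinOK (dat Φ cl (fun t => φ t z)) lam eta q g s :=
    { hOK with
      q_le := fun t ht => (hOK.q_le t ht).trans e2
      g_le := fun t ht => (hOK.g_le t ht).trans e2
      s_le := fun t ht => (hOK.s_le t ht).trans e2
      q_int := fun t ht => (hOK.q_int t ht).trans e2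
      g_int := fun t ht => (hOK.g_int t ht).trans e2
      s_int := fun t ht => (hOK.s_int t ht).trans e2 }
  have hz' : GoodTraj Φ cl lam R eps (fun t => (φ t z).1) (fun t => (φ t z).2) := hz
  have hsol := h2 n N K Φ cl R hΦ φ M hF z hz'.vel
  have hke : ke z.2 ≤ R := by
    have := hz'.vel 0 le_rfl
    rw [hF.zero] at this
    exact this
  obtain ⟨_, hfl⟩ := (h6 n N Φ R hΦ φ M hF).1 z hke
  obtain ⟨H, hH0, hH1, hH2⟩ := hHAD eps heps e1 _ _ hfl hz' T hT
  have h := hD (dat Φ cl (fun t => φ t z)) q g s hOK' _ _ hsol T hT H hH1 hH0 (hH2.trans e3)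
  rw [h3] at h
  exact h

end Pool.Agent.Work.MP_c9f990_an.Al

end

section

set_option autoImplicit false

/-!
# MP_c9f990_an: derivative of the determinant along a curve of operators, one-sided
-/

open MeasureTheory Set Filter Topology
open scoped NNReal ENNReal

namespace Pool.Agent.Work.MP_c9f990_an.Al

namespace I_DTDX

section

variable {ι : Type} [Fintype ι] [DecidableEq ι]

/-- derivative of the determinant -/
theorem det_hasDeriv (Y : ℝ → Matrix ι ι ℝ) (Y' : Matrix ι ι ℝ) (S : Set ℝ) (z : ℝ)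
    (h : ∀ i j, HasDerivWithinAt (fun s => Y s i j) (Y' i j) S z) :
    HasDerivWithinAt (fun s => (Y s).det) (∑ k, ((Y z).updateRow k (Y' k)).det) S z := by
  have h1 : ∀ σ : Equiv.Perm ι, HasDerivWithinAt (fun s => ∏ i, Y s (σ i) i)
      (∑ k, (∏ l ∈ Finset.univ.erase k, Y z (σ l) l) * Y' (σ k) k) S z := by
    intro σ
    have := HasDerivWithinAt.fun_finsetProd (u := (Finset.univ : Finset ι))
      (f := fun i s => Y s (σ i) i)
      (f' := fun i => Y' (σ i) i) (x := z) (fun i _ => h (σ i) i)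
    simpa only [smul_eq_mul] using this
  have h2 : HasDerivWithinAt (fun s => (Y s).det)
      (∑ σ : Equiv.Perm ι, ((Equiv.Perm.sign σ : ℤ) : ℝ) *
      ∑ k, (∏ l ∈ Finset.univ.erase k, Y z (σ l) l) * Y' (σ k) k) S z := by
    simp only [Matrix.det_apply']
    exact HasDerivWithinAt.fun_sum fun σ _ => (h1 σ).const_mul _
  convert h2 using 1
  have h3 : ∀ k, ((Y z).updateRow k (Y' k)).det = ∑ σ : Equiv.Perm ι,
      ((Equiv.Perm.sign σ : ℤ) : ℝ) * ((∏ l ∈ Finset.univ.erase (σ⁻¹ k), Y z (σ l) l)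
        * Y' k (σ⁻¹ k)) := by
    intro k
    rw [Matrix.det_apply']
    refine Finset.sum_congr rfl fun σ _ => ?_
    congr 1
    rw [← Finset.prod_erase_mul _ _ (Finset.mem_univ (σ⁻¹ k))]
    congr 1
    · refine Finset.prod_congr rfl fun l hl => ?_
      have : σ l ≠ k := by
        rintro rfl
        simp at hl
      rw [Matrix.updateRow_ne this]
    · rw [show σ (σ⁻¹ k) = k from σ.apply_symm_apply k, Matrix.updateRow_self]
  simp only [h3]
  rw [Finset.sum_comm]
  refine Finset.sum_congr rfl fun σ _ => ?_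
  rw [← Finset.mul_sum]
  congr 1
  refine Fintype.sum_equiv σ⁻¹ _ _ fun k => ?_
  rw [show σ (σ⁻¹ k) = k from σ.apply_symm_apply k]

theorem det_row_sum (A Y : Matrix ι ι ℝ) (k : ι) :
    (Y.updateRow k ((A * Y) k)).det = A k k * Y.det := by
  have h : (A * Y) k = ∑ l, A k l • Y l := by
    ext j
    simp [Matrix.mul_apply]
  rw [h]
  exact Matrix.det_updateRow_sum Y k (fun l => A k l)

/-- the formula of Liouville and Jacobi -/
theorem det_deriv (A : Matrix ι ι ℝ) (Y : ℝ → Matrix ι ι ℝ) (S : Set ℝ) (z : ℝ)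
    (h : ∀ i j, HasDerivWithinAt (fun s => Y s i j) ((A * Y z) i j) S z) :
    HasDerivWithinAt (fun s => (Y s).det) (A.trace * (Y z).det) S z := by
  have := det_hasDeriv Y (A * Y z) S z h
  simp only [det_row_sum, ← Finset.sum_mul] at this
  exact this

end

end I_DTDX

theorem I_DTD : DTD := by
  intro Q _ _ _ A Y S t h
  classical
  let b := Module.finBasis ℝ Q
  have hdet : ∀ T : Q →L[ℝ] Q, T.det = (LinearMap.toMatrix b b (T : Q →ₗ[ℝ] Q)).det := by
    intro T
    rw [LinearMap.det_toMatrix]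
  have htr : LinearMap.trace ℝ Q (A : Q →ₗ[ℝ] Q) =
      (LinearMap.toMatrix b b (A : Q →ₗ[ℝ] Q)).trace := LinearMap.trace_eq_matrix_trace ℝ b _
  rw [htr]
  simp only [hdet]
  refine I_DTDX.det_deriv (LinearMap.toMatrix b b (A : Q →ₗ[ℝ] Q))
    (fun s => LinearMap.toMatrix b b (Y s : Q →ₗ[ℝ] Q)) S t ?_
  intro i j
  rw [← LinearMap.toMatrix_comp]
  have h1 : HasDerivWithinAt (fun s => Y s (b j)) ((A.comp (Y t)) (b j)) S t := by
    have := h.clm_apply (hasDerivWithinAt_const t S (b j))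
    simpa using this
  have h2 := (LinearMap.toContinuousLinearMap (b.coord i)).hasFDerivAt.comp_hasDerivWithinAt t h1
  have e1 : (fun s => LinearMap.toMatrix b b (Y s : Q →ₗ[ℝ] Q) i j) =
      (fun s => (LinearMap.toContinuousLinearMap (b.coord i)) (Y s (b j))) := by
    funext s
    rw [LinearMap.toMatrix_apply]
    rfl
  rw [e1, LinearMap.toMatrix_apply]
  exact h2

end Pool.Agent.Work.MP_c9f990_an.Al

end

section

set_option autoImplicit false

/-!
# MP_c9f990_an: connected clusters have a spectral gap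
-/

open MeasureTheory Set Filter Topology
open scoped NNReal ENNReal

namespace Pool.Agent.Work.MP_c9f990_an.Al

namespace I_GAPLX

variable {N n K : ℕ}

/-- the dissipation inside of the clusters -/
noncomputable def dis (Φ : E n → ℝ) (cl : Fin N → Fin K) (x u : C N n) : ℝ :=
  ∑ i, ∑ j, if cl i = cl j then Φ (x i - x j) * ‖u i - u j‖ ^ 2 else 0

theorem term_nonneg {Φ : E n → ℝ} (hΦ : ∀ x, 0 ≤ Φ x) (cl : Fin N → Fin K) (x u : C N n)
    (i j : Fin N) : 0 ≤ if cl i = cl j then Φ (x i - x j) * ‖u i - u j‖ ^ 2 else 0 := by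
  split_ifs
  · exact mul_nonneg (hΦ _) (sq_nonneg _)
  · exact le_rfl

theorem term_le {Φ : E n → ℝ} (hΦ : ∀ x, 0 ≤ Φ x) (cl : Fin N → Fin K) (x u : C N n)
    {i j : Fin N} (h : cl i = cl j) : Φ (x i - x j) * ‖u i - u j‖ ^ 2 ≤ dis Φ cl x u := by
  have h1 : Φ (x i - x j) * ‖u i - u j‖ ^ 2 =
      if cl i = cl j then Φ (x i - x j) * ‖u i - u j‖ ^ 2 else 0 := by rw [if_pos h]
  rw [h1, dis]
  refine le_trans (Finset.single_le_sum (f := fun j => if cl i = cl j then
    Φ (x i - x j) * ‖u i - u j‖ ^ 2 else 0) (fun k _ => term_nonneg hΦ cl x u i k)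
    (Finset.mem_univ j)) ?_
  exact Finset.single_le_sum (f := fun i => ∑ j, if cl i = cl j then
    Φ (x i - x j) * ‖u i - u j‖ ^ 2 else 0)
    (fun k _ => Finset.sum_nonneg fun l _ => term_nonneg hΦ cl x u k l) (Finset.mem_univ i)

theorem dis_nonneg {Φ : E n → ℝ} (hΦ : ∀ x, 0 ≤ Φ x) (cl : Fin N → Fin K) (x u : C N n) :
    0 ≤ dis Φ cl x u :=
  Finset.sum_nonneg fun k _ => Finset.sum_nonneg fun l _ => term_nonneg hΦ cl x u k l

/-- all members of a cluster are reached in at most `N` steps -/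
theorem reach (Φ : E n → ℝ) (cl : Fin N → Fin K) (x u : C N n) (δ m : ℝ) (hm : 0 ≤ m)
    (hcut : ∀ A : Finset (Fin N), (∀ i ∈ A, ∀ j ∈ A, cl i = cl j) →
      (∃ i ∈ A, ∃ j, j ∉ A ∧ cl j = cl i) →
      ∃ i ∈ A, ∃ j, j ∉ A ∧ cl j = cl i ∧ δ ≤ Φ (x i - x j))
    (hedge : ∀ i j, cl i = cl j → δ ≤ Φ (x i - x j) → ‖u i - u j‖ ≤ m) (i : Fin N) (k : ℕ) :
    (∀ j, cl j = cl i → ‖u i - u j‖ ≤ k * m) ∨
      k + 1 ≤ (Finset.univ.filter fun j => cl j = cl i ∧ ‖u i - u j‖ ≤ k * m).card := by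
  classical
  induction k with
  | zero =>
    right
    have h1 : i ∈ Finset.univ.filter fun j => cl j = cl i ∧ ‖u i - u j‖ ≤ ((0 : ℕ) : ℝ) * m := by
      rw [Finset.mem_filter]
      exact ⟨Finset.mem_univ _, rfl, by simp⟩
    have h2 := Finset.card_pos.2 ⟨i, h1⟩
    omega
  | succ k ih =>
    have hk : (k : ℝ) * m ≤ ((k + 1 : ℕ) : ℝ) * m := by
      push_cast
      nlinarith
    rcases ih with ih | ih
    · left
      intro j hj
      exact (ih j hj).trans hk
    · by_cases hall : ∀ j, cl j = cl i → ‖u i - u j‖ ≤ k * m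
      · left
        intro j hj
        exact (hall j hj).trans hk
      · right
        push Not at hall
        obtain ⟨j₀, hj₀, hj₀'⟩ := hall
        set A := Finset.univ.filter fun j => cl j = cl i ∧ ‖u i - u j‖ ≤ k * m with hA
        have hmem : ∀ j, j ∈ A ↔ cl j = cl i ∧ ‖u i - u j‖ ≤ k * m := by
          intro j
          rw [hA, Finset.mem_filter]
          exact ⟨fun h => h.2, fun h => ⟨Finset.mem_univ _, h⟩⟩
        have hi : i ∈ A := (hmem i).2 ⟨rfl, by simpa using mul_nonneg (Nat.cast_nonneg k) hm⟩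
        obtain ⟨a, ha, b, hb, hba, hab⟩ := hcut A
          (fun p hp q hq => ((hmem p).1 hp).1.trans ((hmem q).1 hq).1.symm)
          ⟨i, hi, j₀, fun h => absurd ((hmem j₀).1 h).2 (not_le.2 hj₀'), hj₀⟩
        have h1 := hedge a b hba.symm hab
        have h2 : insert b A ⊆ Finset.univ.filter fun j => cl j = cl i ∧
            ‖u i - u j‖ ≤ ((k + 1 : ℕ) : ℝ) * m := by
          intro j hj
          rw [Finset.mem_insert] at hj
          rw [Finset.mem_filter]
          refine ⟨Finset.mem_univ _, ?_⟩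
          rcases hj with rfl | hj
          · refine ⟨hba.trans ((hmem a).1 ha).1, ?_⟩
            calc ‖u i - u j‖ = ‖(u i - u a) + (u a - u j)‖ := by congr 1; abel
              _ ≤ ‖u i - u a‖ + ‖u a - u j‖ := norm_add_le _ _
              _ ≤ k * m + m := add_le_add ((hmem a).1 ha).2 h1
              _ = ((k + 1 : ℕ) : ℝ) * m := by push_cast; ring
          · exact ⟨((hmem j).1 hj).1, ((hmem j).1 hj).2.trans hk⟩
        have h3 := Finset.card_le_card h2
        rw [Finset.card_insert_of_notMem hb] at h3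
        omega

theorem reach' (Φ : E n → ℝ) (cl : Fin N → Fin K) (x u : C N n) (δ m : ℝ) (hm : 0 ≤ m)
    (hcut : ∀ A : Finset (Fin N), (∀ i ∈ A, ∀ j ∈ A, cl i = cl j) →
      (∃ i ∈ A, ∃ j, j ∉ A ∧ cl j = cl i) →
      ∃ i ∈ A, ∃ j, j ∉ A ∧ cl j = cl i ∧ δ ≤ Φ (x i - x j))
    (hedge : ∀ i j, cl i = cl j → δ ≤ Φ (x i - x j) → ‖u i - u j‖ ≤ m) (i j : Fin N)
    (h : cl j = cl i) : ‖u i - u j‖ ≤ N * m := by
  rcases reach Φ cl x u δ m hm hcut hedge i N with h1 | h1
  · exact h1 j h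
  · exfalso
    have h2 := Finset.card_le_univ
      (Finset.univ.filter fun j => cl j = cl i ∧ ‖u i - u j‖ ≤ (N : ℝ) * m)
    rw [Fintype.card_fin] at h2
    omega

/-- velocities with mean zero are bounded by their differences -/
theorem norm_le (cl : Fin N → Fin K) (u : C N n) (hu : mu cl u = 0) (B : ℝ) (i : Fin N)
    (h : ∀ j, cl j = cl i → ‖u i - u j‖ ≤ B) : ‖u i‖ ≤ B := by
  classical
  set s := Finset.univ.filter fun j => cl j = cl i with hs
  have hi : i ∈ s := by rw [hs, Finset.mem_filter]; exact ⟨Finset.mem_univ _, rfl⟩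
  have hc : 0 < (s.card : ℝ) := by exact_mod_cast Finset.card_pos.2 ⟨i, hi⟩
  have h1 : ∑ j ∈ s, u j = 0 := by
    have h2 := congrFun hu (cl i)
    simp only [mu, cnt, Pi.zero_apply] at h2
    rcases smul_eq_zero.1 h2 with h3 | h3
    · rw [inv_eq_zero] at h3
      exact absurd h3 hc.ne'
    · exact h3
  have h2 : (s.card : ℝ) • u i = ∑ j ∈ s, (u i - u j) := by
    rw [Finset.sum_sub_distrib, h1, sub_zero, Finset.sum_const, Nat.cast_smul_eq_nsmul]
  have h3 : (s.card : ℝ) * ‖u i‖ ≤ s.card * B := by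
    calc (s.card : ℝ) * ‖u i‖ = ‖(s.card : ℝ) • u i‖ := by
          rw [norm_smul, Real.norm_eq_abs, abs_of_pos hc]
      _ = ‖∑ j ∈ s, (u i - u j)‖ := by rw [h2]
      _ ≤ ∑ j ∈ s, ‖u i - u j‖ := norm_sum_le _ _
      _ ≤ ∑ _j ∈ s, B := Finset.sum_le_sum fun j hj => h j (Finset.mem_filter.1 hj).2
      _ = s.card * B := by rw [Finset.sum_const, nsmul_eq_mul]
  exact le_of_mul_le_mul_left h3 hc

end I_GAPLX

open I_GAPLX in
theorem I_GAPL : GAPL := by
  intro N K cl δ hδ
  have hN0 : (0 : ℝ) ≤ N := Nat.cast_nonneg N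
  have hD : 0 < 2 * (N : ℝ) ^ 4 + 1 := by positivity
  refine ⟨min 1 (δ / (2 * (N : ℝ) ^ 4 + 1)), lt_min one_pos (div_pos hδ hD), min_le_left _ _, ?_⟩
  intro n Φ x hΦ hcut u hu
  have hD0 := dis_nonneg hΦ.nonneg cl x u
  change _ ≤ (2 * (N : ℝ))⁻¹ * dis Φ cl x u
  set D := dis Φ cl x u with hDd
  rcases Nat.eq_zero_or_pos N with hN | hN
  · subst hN
    simp [ke]
  have hN1 : (1 : ℝ) ≤ N := by exact_mod_cast hN
  have hNp : (0 : ℝ) < N := by linarith
  set m := Real.sqrt (D / δ) with hm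
  have hm0 : 0 ≤ m := Real.sqrt_nonneg _
  have hm2 : m ^ 2 = D / δ := Real.sq_sqrt (div_nonneg hD0 hδ.le)
  have hedge : ∀ i j, cl i = cl j → δ ≤ Φ (x i - x j) → ‖u i - u j‖ ≤ m := by
    intro i j hij h
    refine Real.le_sqrt_of_sq_le ?_
    rw [le_div_iff₀ hδ]
    have h1 := term_le hΦ.nonneg cl x u hij
    have h2 : δ * ‖u i - u j‖ ^ 2 ≤ Φ (x i - x j) * ‖u i - u j‖ ^ 2 :=
      mul_le_mul_of_nonneg_right h (sq_nonneg _)
    linarith
  have hu1 : ∀ i, ‖u i‖ ≤ N * m := fun i => norm_le cl u hu (N * m) i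
    fun j hj => reach' Φ cl x u δ m hm0 hcut hedge i j hj
  have hke : ke u ≤ (N : ℝ) ^ 3 * (D / δ) := by
    calc ke u = ∑ i, ‖u i‖ ^ 2 := rfl
      _ ≤ ∑ _i : Fin N, (N * m) ^ 2 :=
        Finset.sum_le_sum fun i _ => pow_le_pow_left₀ (norm_nonneg _) (hu1 i) 2
      _ = (N : ℝ) ^ 3 * (D / δ) := by
        rw [Finset.sum_const, Finset.card_univ, Fintype.card_fin, nsmul_eq_mul, mul_pow, hm2]
        ring
  have hke0 : 0 ≤ ke u := Finset.sum_nonneg fun i _ => sq_nonneg _
  calc min 1 (δ / (2 * (N : ℝ) ^ 4 + 1)) * ke u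
      ≤ δ / (2 * (N : ℝ) ^ 4 + 1) * ke u := mul_le_mul_of_nonneg_right (min_le_right _ _) hke0
    _ ≤ δ / (2 * (N : ℝ) ^ 4 + 1) * ((N : ℝ) ^ 3 * (D / δ)) :=
      mul_le_mul_of_nonneg_left hke (div_nonneg hδ.le hD.le)
    _ = ((N : ℝ) ^ 3 / (2 * (N : ℝ) ^ 4 + 1)) * D := by
      field_simp
    _ ≤ (2 * (N : ℝ))⁻¹ * D := by
      refine mul_le_mul_of_nonneg_right ?_ hD0
      rw [div_le_iff₀ hD]
      have h5 : (2 * (N : ℝ))⁻¹ * (2 * (N : ℝ) ^ 4 + 1) = (N : ℝ) ^ 3 + (2 * (N : ℝ))⁻¹ := by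
        field_simp
      rw [h5]
      have h6 : 0 < (2 * (N : ℝ))⁻¹ := by positivity
      linarith

end Pool.Agent.Work.MP_c9f990_an.Al

end

section

set_option autoImplicit false

/-!
# MP_c9f990_an, block RG, item GMS: the good set is closed and lattice invariant
-/

open MeasureTheory Set Filter Topology
open scoped NNReal ENNReal

namespace Pool.Agent.Work.MP_c9f990_an.Al

namespace I_GMSX

variable {N n K : ℕ}

lemma cont_ke : Continuous (fun v : C N n => ke v) := by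
  unfold ke
  fun_prop

lemma cont_mu (cl : Fin N → Fin K) (a : Fin K) : Continuous (fun v : C N n => mu cl v a) := by
  unfold mu
  fun_prop

lemma cont_sI (cl : Fin N → Fin K) : Continuous (fun v : C N n => sI cl v) := by
  unfold sI
  apply continuous_finsetSum
  intro i _
  exact ((continuous_apply i).sub (cont_mu cl (cl i))).norm

lemma cont_pr {Φ : E n → ℝ} (hΦ : Kernel Φ) (i j : Fin N) :
    Continuous (fun x : C N n => Φ (x i - x j)) :=
  hΦ.smooth.continuous.comp ((continuous_apply i).sub (continuous_apply j))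

lemma cont_qI {Φ : E n → ℝ} (hΦ : Kernel Φ) (cl : Fin N → Fin K) :
    Continuous (fun x : C N n => qI Φ cl x) := by
  unfold qI
  apply continuous_finsetSum
  intro i _
  apply continuous_finsetSum
  intro j _
  split_ifs
  · exact continuous_const
  · exact cont_pr hΦ i j

lemma closed_gap {Φ : E n → ℝ} (hΦ : Kernel Φ) (cl : Fin N → Fin K) (lam : ℝ) :
    IsClosed {x : C N n | Gap Φ cl lam x} := by
  have h : {x : C N n | Gap Φ cl lam x} = ⋂ (u : C N n) (_ : mu cl u = 0),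
      {x : C N n | lam * ke u ≤ (2 * N : ℝ)⁻¹ * ∑ i, ∑ j,
        if cl i = cl j then Φ (x i - x j) * ‖u i - u j‖ ^ 2 else 0} := by
    ext x
    simp only [mem_iInter]
    exact Iff.rfl
  rw [h]
  apply isClosed_iInter
  intro u
  apply isClosed_iInter
  intro _
  apply isClosed_le continuous_const
  apply Continuous.mul continuous_const
  apply continuous_finsetSum
  intro i _
  apply continuous_finsetSum
  intro j _
  split_ifs
  · exact (cont_pr hΦ i j).mul continuous_const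
  · exact continuous_const

lemma lat_sub (m m' : Fin n → ℤ) : lat m - lat m' = lat (m - m') := by
  unfold lat
  ext k
  simp
  ring

lemma pr_lat {Φ : E n → ℝ} (hΦ : Kernel Φ) (m : Fin N → Fin n → ℤ) (x : C N n) (i j : Fin N) :
    Φ ((x + latC m) i - (x + latC m) j) = Φ (x i - x j) := by
  have h : (x + latC m) i - (x + latC m) j = (x i - x j) + lat (m i - m j) := by
    show (x i + lat (m i)) - (x j + lat (m j)) = (x i - x j) + lat (m i - m j)
    rw [← lat_sub]
    abel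
  rw [h, hΦ.per]

lemma qI_lat {Φ : E n → ℝ} (hΦ : Kernel Φ) (cl : Fin N → Fin K) (m : Fin N → Fin n → ℤ)
    (x : C N n) : qI Φ cl (x + latC m) = qI Φ cl x := by
  unfold qI
  simp only [pr_lat hΦ]

lemma gap_lat {Φ : E n → ℝ} (hΦ : Kernel Φ) (cl : Fin N → Fin K) (lam : ℝ)
    (m : Fin N → Fin n → ℤ) (x : C N n) : Gap Φ cl lam (x + latC m) ↔ Gap Φ cl lam x := by
  unfold Gap
  simp only [pr_lat hΦ]

end I_GMSX

open I_GMSX in
theorem I_GMS (hE : EQV) : GMS := by
  intro n N K Φ cl lam R eps hΦ φ M hφ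
  have hc : ∀ t, Continuous (fun z : P N n => φ t z) := fun t =>
    hφ.cont.comp (Continuous.prodMk continuous_const continuous_id)
  have hcs : Continuous (fun p : P N n × ℝ => φ p.2 p.1) :=
    hφ.cont.comp (Continuous.prodMk continuous_snd continuous_fst)
  constructor
  · have h : GoodSet Φ cl lam R eps φ =
        (⋂ (t : ℝ) (_ : 0 ≤ t), {z : P N n | ke (φ t z).2 ≤ R}) ∩
        ((⋂ (t : ℝ) (_ : 0 ≤ t), {z : P N n | sI cl (φ t z).2 ≤ eps}) ∩
        ((⋂ (T : ℝ) (_ : 0 ≤ T), {z : P N n | ∫ t in (0 : ℝ)..T, sI cl (φ t z).2 ≤ eps}) ∩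
        ((⋂ (t : ℝ) (_ : 0 ≤ t), {z : P N n | qI Φ cl (φ t z).1 ≤ eps ^ 2}) ∩
        ((⋂ (T : ℝ) (_ : 0 ≤ T),
          {z : P N n | ∫ t in (0 : ℝ)..T, qI Φ cl (φ t z).1 ≤ eps ^ 2}) ∩
        (⋂ (t : ℝ) (_ : 0 ≤ t), {z : P N n | Gap Φ cl lam (φ t z).1}))))) := by
      ext z
      simp only [mem_inter_iff, mem_iInter]
      constructor
      · intro hz
        exact ⟨hz.vel, hz.s_le, hz.s_int, hz.q_le, hz.q_int, hz.gap⟩
      · rintro ⟨h1, h2, h3, h4, h5, h6⟩
        exact ⟨h1, h2, h3, h4, h5, h6⟩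
    rw [h]
    refine IsClosed.inter ?_ (IsClosed.inter ?_ (IsClosed.inter ?_ (IsClosed.inter ?_
      (IsClosed.inter ?_ ?_))))
    · refine isClosed_iInter fun t => isClosed_iInter fun _ => ?_
      exact isClosed_le (cont_ke.comp (continuous_snd.comp (hc t))) continuous_const
    · refine isClosed_iInter fun t => isClosed_iInter fun _ => ?_
      exact isClosed_le ((cont_sI cl).comp (continuous_snd.comp (hc t))) continuous_const
    · refine isClosed_iInter fun T => isClosed_iInter fun _ => ?_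
      refine isClosed_le ?_ continuous_const
      apply intervalIntegral.continuous_parametric_intervalIntegral_of_continuous'
      exact (cont_sI cl).comp (continuous_snd.comp hcs)
    · refine isClosed_iInter fun t => isClosed_iInter fun _ => ?_
      exact isClosed_le ((cont_qI hΦ cl).comp (continuous_fst.comp (hc t))) continuous_const
    · refine isClosed_iInter fun T => isClosed_iInter fun _ => ?_
      refine isClosed_le ?_ continuous_const
      apply intervalIntegral.continuous_parametric_intervalIntegral_of_continuous'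
      exact (cont_qI hΦ cl).comp (continuous_fst.comp hcs)
    · refine isClosed_iInter fun t => isClosed_iInter fun _ => ?_
      exact (closed_gap hΦ cl lam).preimage (continuous_fst.comp (hc t))
  · intro m z hz
    have heq : ∀ t, φ t (z + (latC m, 0)) = φ t z + (latC m, 0) := fun t =>
      hE n N Φ R hΦ φ M hφ m t z
    have e1 : ∀ t, (φ t (z + (latC m, 0))).1 = (φ t z).1 + latC m := fun t => by
      rw [heq t]; rfl
    have e2 : ∀ t, (φ t (z + (latC m, 0))).2 = (φ t z).2 := fun t => by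
      rw [heq t]
      exact add_zero _
    refine ⟨?_, ?_, ?_, ?_, ?_, ?_⟩
    · intro t ht
      simp only [e2]
      exact hz.vel t ht
    · intro t ht
      simp only [e2]
      exact hz.s_le t ht
    · intro T hT
      simp only [e2]
      exact hz.s_int T hT
    · intro t ht
      simp only [e1, qI_lat hΦ]
      exact hz.q_le t ht
    · intro T hT
      simp only [e1, qI_lat hΦ]
      exact hz.q_int T hT
    · intro t ht
      simp only [e1, gap_lat hΦ]
      exact hz.gap t ht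

end Pool.Agent.Work.MP_c9f990_an.Al

end

section

set_option autoImplicit false

/-!
# MP_c9f990_an, block RG: item GRD, nonnegative functions with Lipschitz gradient
-/

open MeasureTheory Set Filter Topology
open scoped NNReal ENNReal

namespace Pool.Agent.Work.MP_c9f990_an.Al

namespace I_GRDX

variable {n : ℕ}

lemma taylor {Φ : E n → ℝ} (hd : Differentiable ℝ Φ) {L : ℝ} (_hL : 0 ≤ L)
    (hL : ∀ x y, ‖fderiv ℝ Φ x - fderiv ℝ Φ y‖ ≤ L * ‖x - y‖) (x h : E n) :
    Φ (x + h) ≤ Φ x + fderiv ℝ Φ x h + L * ‖h‖ ^ 2 := by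
  have hder : ∀ t : ℝ, HasDerivAt (fun t : ℝ => Φ (x + t • h)) (fderiv ℝ Φ (x + t • h) h) t := by
    intro t
    have h1 : HasDerivAt (fun t : ℝ => x + t • h) h t := by
      have := ((hasDerivAt_id t).smul_const h).const_add x
      simpa using this
    exact (hd (x + t • h)).hasFDerivAt.comp_hasDerivAt t h1
  obtain ⟨t, ht, he⟩ := exists_hasDerivAt_eq_slope (fun t : ℝ => Φ (x + t • h))
    (fun t => fderiv ℝ Φ (x + t • h) h) (a := 0) (b := 1) zero_lt_one
    (fun t _ => (hder t).continuousAt.continuousWithinAt) (fun t _ => hder t)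
  have he' : Φ (x + h) - Φ x = fderiv ℝ Φ (x + t • h) h := by
    rw [he]; simp
  have hb : fderiv ℝ Φ (x + t • h) h - fderiv ℝ Φ x h ≤ L * ‖h‖ ^ 2 := by
    have h1 : ‖(fderiv ℝ Φ (x + t • h) - fderiv ℝ Φ x) h‖ ≤ L * ‖x + t • h - x‖ * ‖h‖ :=
      (ContinuousLinearMap.le_opNorm _ _).trans
        (mul_le_mul_of_nonneg_right (hL _ _) (norm_nonneg _))
    have h2 : ‖x + t • h - x‖ ≤ ‖h‖ := by
      rw [add_sub_cancel_left, norm_smul, Real.norm_eq_abs, abs_of_pos ht.1]
      exact mul_le_of_le_one_left (norm_nonneg _) ht.2.le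
    have h3 : (fderiv ℝ Φ (x + t • h) - fderiv ℝ Φ x) h
        ≤ ‖(fderiv ℝ Φ (x + t • h) - fderiv ℝ Φ x) h‖ := le_abs_self _
    have h4 : L * ‖x + t • h - x‖ * ‖h‖ ≤ L * ‖h‖ * ‖h‖ := by gcongr
    have h5 : (fderiv ℝ Φ (x + t • h) - fderiv ℝ Φ x) h
        = fderiv ℝ Φ (x + t • h) h - fderiv ℝ Φ x h := rfl
    nlinarith
  linarith

lemma gradBound {Φ : E n → ℝ} (hd : Differentiable ℝ Φ) (hnn : ∀ x, 0 ≤ Φ x) {L : ℝ} (hLp : 0 < L)
    (hL : ∀ x y, ‖fderiv ℝ Φ x - fderiv ℝ Φ y‖ ≤ L * ‖x - y‖) (x : E n) :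
    ‖fderiv ℝ Φ x‖ ≤ 2 * √L * √(Φ x) := by
  set g : E n := (InnerProductSpace.toDual ℝ (E n)).symm (fderiv ℝ Φ x) with hg
  have hgn : ‖g‖ = ‖fderiv ℝ Φ x‖ := by rw [hg, LinearIsometryEquiv.norm_map]
  have hgi : ∀ h, fderiv ℝ Φ x h = inner ℝ g h := by
    intro h
    rw [hg, InnerProductSpace.toDual_symm_apply]
  have h1 := taylor hd hLp.le hL x (-((2 * L)⁻¹ • g))
  have h2 := hnn (x + -((2 * L)⁻¹ • g))
  rw [hgi, inner_neg_right, inner_smul_right, real_inner_self_eq_norm_sq, norm_neg, norm_smul,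
    Real.norm_eq_abs, abs_of_pos (by positivity : (0:ℝ) < (2 * L)⁻¹), mul_pow] at h1
  have h3 : (2 * L)⁻¹ * ‖g‖ ^ 2 - L * ((2 * L)⁻¹ ^ 2 * ‖g‖ ^ 2) = ‖g‖ ^ 2 / (4 * L) := by
    field_simp
    ring
  have h4 : ‖g‖ ^ 2 / (4 * L) ≤ Φ x := by linarith
  rw [div_le_iff₀ (by positivity)] at h4
  rw [← hgn]
  have h5 : ‖g‖ ^ 2 ≤ (2 * √L * √(Φ x)) ^ 2 := by
    rw [mul_pow, mul_pow, Real.sq_sqrt hLp.le, Real.sq_sqrt (hnn x)]
    linarith
  exact le_of_sq_le_sq h5 (by positivity)
where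
  le_of_sq_le_sq {a b : ℝ} (h : a ^ 2 ≤ b ^ 2) (hb : 0 ≤ b) : a ≤ b :=
    le_of_abs_le (by rw [← abs_of_nonneg hb]; exact sq_le_sq.mp h)

end I_GRDX

open I_GRDX in
/-- item GRD -/
theorem I_GRD : GRD := by
  intro n Φ hK hLG
  obtain ⟨L₀, hL₀⟩ := hLG
  have hd : Differentiable ℝ Φ := hK.smooth.differentiable (by norm_num)
  have hnn := hK.nonneg
  set L : ℝ := max L₀ 1 with hLdef
  have hLp : 0 < L := lt_of_lt_of_le one_pos (le_max_right _ _)
  have hL : ∀ x y, ‖fderiv ℝ Φ x - fderiv ℝ Φ y‖ ≤ L * ‖x - y‖ := fun x y =>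
    (hL₀ x y).trans (mul_le_mul_of_nonneg_right (le_max_left _ _) (norm_nonneg _))
  have hg := gradBound hd hnn hLp hL
  have hsL : 0 < √L := Real.sqrt_pos.mpr hLp
  refine ⟨2 * √L, by positivity, hg, fun x y => ?_⟩
  -- the regularised square root is Lipschitz
  have key : ∀ d : ℝ, 0 < d →
      |Φ x - Φ y| ≤ √L * ‖x - y‖ * (√(Φ x + d) + √(Φ y + d)) := by
    intro d hd0
    have hpos : ∀ z, 0 < Φ z + d := fun z => by linarith [hnn z]
    have hF : ∀ z, HasFDerivAt (fun z => √(Φ z + d)) ((1 / (2 * √(Φ z + d))) • fderiv ℝ Φ z) z := by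
      intro z
      have h1 : HasFDerivAt (fun z => Φ z + d) (fderiv ℝ Φ z) z := (hd z).hasFDerivAt.add_const d
      exact h1.sqrt (hpos z).ne'
    have hbd : ∀ z, ‖(1 / (2 * √(Φ z + d))) • fderiv ℝ Φ z‖ ≤ √L := by
      intro z
      have hs : 0 < √(Φ z + d) := Real.sqrt_pos.mpr (hpos z)
      have hle : √(Φ z) ≤ √(Φ z + d) := Real.sqrt_le_sqrt (by linarith)
      rw [norm_smul, Real.norm_eq_abs, abs_of_pos (by positivity), one_div,
        inv_mul_le_iff₀ (by positivity)]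
      calc ‖fderiv ℝ Φ z‖ ≤ 2 * √L * √(Φ z) := hg z
        _ ≤ 2 * √L * √(Φ z + d) := by gcongr
        _ = 2 * √(Φ z + d) * √L := by ring
    have h2 : ‖√(Φ x + d) - √(Φ y + d)‖ ≤ √L * ‖x - y‖ :=
      Convex.norm_image_sub_le_of_norm_hasFDerivWithin_le (s := Set.univ)
        (fun z _ => (hF z).hasFDerivWithinAt) (fun z _ => hbd z) convex_univ
        (Set.mem_univ y) (Set.mem_univ x)
    rw [Real.norm_eq_abs] at h2
    have h3 : Φ x - Φ y = (√(Φ x + d) - √(Φ y + d)) * (√(Φ x + d) + √(Φ y + d)) := by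
      have hx := Real.sq_sqrt (hpos x).le
      have hy := Real.sq_sqrt (hpos y).le
      nlinarith
    rw [h3, abs_mul, abs_of_nonneg (by positivity : 0 ≤ √(Φ x + d) + √(Φ y + d))]
    exact mul_le_mul_of_nonneg_right h2 (by positivity)
  have hlim : Tendsto (fun d : ℝ => √L * ‖x - y‖ * (√(Φ x + d) + √(Φ y + d))) (𝓝[>] 0)
      (𝓝 (√L * ‖x - y‖ * (√(Φ x + 0) + √(Φ y + 0)))) := by
    apply tendsto_nhdsWithin_of_tendsto_nhds
    apply Continuous.tendsto (f := fun d : ℝ => √L * ‖x - y‖ * (√(Φ x + d) + √(Φ y + d)))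
    fun_prop
  have h1 : |Φ x - Φ y| ≤ √L * ‖x - y‖ * (√(Φ x + 0) + √(Φ y + 0)) :=
    ge_of_tendsto hlim (by filter_upwards [self_mem_nhdsWithin] with d hd0 using key d hd0)
  simp only [add_zero] at h1
  have h4 : 0 ≤ √L * ((√(Φ x) + √(Φ y)) * ‖x - y‖) := by positivity
  nlinarith

end Pool.Agent.Work.MP_c9f990_an.Al

end

section

set_option autoImplicit false

/-!
# MP_c9f990_an: trace of a block operator
-/

namespace Pool.Agent.Work.MP_c9f990_an.Al

theorem I_TRB : TRB := by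
  intro X VK _ _ _ _ _ _ A
  have h1 : (A : (X × VK) →ₗ[ℝ] (X × VK)) =
      ((A : (X × VK) →ₗ[ℝ] (X × VK)) ∘ₗ LinearMap.inl ℝ X VK) ∘ₗ LinearMap.fst ℝ X VK +
      ((A : (X × VK) →ₗ[ℝ] (X × VK)) ∘ₗ LinearMap.inr ℝ X VK) ∘ₗ LinearMap.snd ℝ X VK := by
    refine LinearMap.ext fun x => ?_
    simp only [LinearMap.add_apply, LinearMap.comp_apply, LinearMap.fst_apply,
      LinearMap.snd_apply, LinearMap.inl_apply, LinearMap.inr_apply]
    rw [← map_add]
    congr 1
    ext <;> simp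
  have h2 := LinearMap.trace_comp_comm' (R := ℝ)
    (LinearMap.fst ℝ X VK) ((A : (X × VK) →ₗ[ℝ] (X × VK)) ∘ₗ LinearMap.inl ℝ X VK)
  have h3 := LinearMap.trace_comp_comm' (R := ℝ)
    (LinearMap.snd ℝ X VK) ((A : (X × VK) →ₗ[ℝ] (X × VK)) ∘ₗ LinearMap.inr ℝ X VK)
  conv_lhs => rw [h1]
  rw [map_add, h2, h3]
  rfl

end Pool.Agent.Work.MP_c9f990_an.Al

end
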