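import Pool.Agent.Work.MP_c9f990_an.Rg.StR
import Pool.Agent.Work.MP_c9f990_an.Bd.B02

/-! Bundle of small proof modules (one section per former module). -/

section

set_option autoImplicit false

/-!
# MP_c9f990_an: rigid clusters lead to a good trajectory
-/

open MeasureTheory Set Filter Topology
open scoped NNReal ENNReal

namespace Pool.Agent.Work.MP_c9f990_an.Al

namespace I_ENTERX

variable {N n K : ℕ}

/-- internal velocities -/
noncomputable def wi (cl : Fin N → Fin K) (v : C N n) : C N n := fun i => v i - mu cl v (cl i)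

theorem sum_wi (cl : Fin N → Fin K) (v : C N n) (a : Fin K) :
    ∑ i ∈ Finset.univ.filter (fun i => cl i = a), wi cl v i = 0 := by
  have h1 : ∑ i ∈ Finset.univ.filter (fun i => cl i = a), wi cl v i =
      ∑ i ∈ Finset.univ.filter (fun i => cl i = a), v i - (cnt cl a : ℝ) • mu cl v a := by
    have h2 : ∀ i ∈ Finset.univ.filter (fun i => cl i = a), wi cl v i = v i - mu cl v a := by
      intro i hi
      rw [wi, (Finset.mem_filter.1 hi).2]
    rw [Finset.sum_congr rfl h2, Finset.sum_sub_distrib, Finset.sum_const,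
      ← Nat.cast_smul_eq_nsmul ℝ]
    rfl
  rw [h1, mu]
  by_cases h : (cnt cl a : ℝ) = 0
  · have hc : cnt cl a = 0 := by exact_mod_cast h
    have h3 : Finset.univ.filter (fun i => cl i = a) = ∅ := Finset.card_eq_zero.1 hc
    rw [h3]
    simp
  · rw [smul_inv_smul₀ h, sub_self]

theorem mu_wi (cl : Fin N → Fin K) (v : C N n) : mu cl (wi cl v) = 0 := by
  funext a
  rw [mu, sum_wi, smul_zero]
  rfl

theorem orth (cl : Fin N → Fin K) (v : C N n) (V : Fin K → E n) :
    ∑ i, inner ℝ (wi cl v i) (V (cl i)) = 0 := by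
  rw [← Finset.sum_fiberwise Finset.univ cl]
  apply Finset.sum_eq_zero
  intro a _
  have h : ∀ i ∈ Finset.univ.filter (fun i => cl i = a),
      inner ℝ (wi cl v i) (V (cl i)) = inner ℝ (wi cl v i) (V a) := by
    intro i hi
    rw [(Finset.mem_filter.1 hi).2]
  rw [Finset.sum_congr rfl h, ← sum_inner, sum_wi, inner_zero_left]

theorem cont_mu (cl : Fin N → Fin K) (V : ℝ → C N n) (hV : Continuous V) (a : Fin K) :
    Continuous (fun t => mu cl (V t) a) := by
  have h : Continuous (fun t => ∑ i ∈ Finset.univ.filter (fun i => cl i = a), V t i) :=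
    continuous_finset_sum _ fun j _ => (continuous_apply j).comp hV
  exact h.const_smul ((cnt cl a : ℝ)⁻¹)

theorem deriv_mu (cl : Fin N → Fin K) (V : ℝ → C N n) (V' : C N n) (t : ℝ)
    (hV : ∀ i, HasDerivAt (fun t => V t i) (V' i) t) (a : Fin K) :
    HasDerivAt (fun t => mu cl (V t) a) (mu cl V' a) t := by
  have h : HasDerivAt (fun t => ∑ i ∈ Finset.univ.filter (fun i => cl i = a), V t i)
      (∑ i ∈ Finset.univ.filter (fun i => cl i = a), V' i) t :=
    HasDerivAt.fun_sum fun j _ => hV j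
  exact h.const_smul ((cnt cl a : ℝ)⁻¹)

theorem norm_le_ke (u : C N n) (i : Fin N) : ‖u i‖ ≤ √(ke u) := by
  apply Real.le_sqrt_of_sq_le
  exact Finset.single_le_sum (f := fun i => ‖u i‖ ^ 2) (fun j _ => by positivity)
    (Finset.mem_univ i)

theorem ke_nonneg (u : C N n) : 0 ≤ ke u := Finset.sum_nonneg fun i _ => by positivity

theorem qI_nonneg (Φ : E n → ℝ) (hΦ : Kernel Φ) (cl : Fin N → Fin K) (x : C N n) :
    0 ≤ qI Φ cl x := by
  unfold qI
  refine Finset.sum_nonneg fun i _ => Finset.sum_nonneg fun j _ => ?_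
  split_ifs
  · exact le_rfl
  · exact hΦ.nonneg _

theorem sI_le (cl : Fin N → Fin K) (v : C N n) : sI cl v ≤ N * √(ke (wi cl v)) := by
  have h : ∑ i : Fin N, ‖wi cl v i‖ ≤ ∑ _i : Fin N, √(ke (wi cl v)) :=
    Finset.sum_le_sum fun i _ => norm_le_ke _ i
  rw [Finset.sum_const, Finset.card_univ, Fintype.card_fin, nsmul_eq_mul] at h
  exact h

/-- the dissipation of the internal energy -/
theorem energy (Φ : E n → ℝ) (hΦ : Kernel Φ) (cl : Fin N → Fin K) (lam R : ℝ) (x v : C N n)
    (hgap : Gap Φ cl lam x) (hR : ke v ≤ R) :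
    ∑ i, 2 * inner ℝ (wi cl v i) (force Φ (x, v) i) ≤
      -2 * lam * ke (wi cl v) + 4 * √R * √(ke (wi cl v)) * qI Φ cl x := by
  set w := wi cl v with hw
  have e1 : ∀ i, 2 * inner ℝ (w i) (force Φ (x, v) i) =
      (N : ℝ)⁻¹ * ∑ j, 2 * (Φ (x i - x j) * inner ℝ (w i) (v j - v i)) := by
    intro i
    simp only [force]
    rw [inner_smul_right, inner_sum]
    simp only [inner_smul_right]
    rw [← Finset.mul_sum]
    ring
  simp only [e1]
  rw [← Finset.mul_sum]
  have hg := hgap w (mu_wi cl v)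
  set S : ℝ := ∑ i, ∑ j, if cl i = cl j then Φ (x i - x j) * ‖w i - w j‖ ^ 2 else 0 with hS
  set W : ℝ := √(ke w) with hW
  have hW0 : 0 ≤ W := Real.sqrt_nonneg _
  -- the symmetric part
  have e2 : ∑ i, ∑ j, (if cl i = cl j then 2 * (Φ (x i - x j) * inner ℝ (w i) (w j - w i)) else 0)
      = -S := by
    have h1 : ∑ i, ∑ j, (if cl i = cl j then Φ (x i - x j) * inner ℝ (w i) (w j - w i) else 0) =
        ∑ i, ∑ j, (if cl i = cl j then Φ (x i - x j) * inner ℝ (w j) (w i - w j) else 0) := by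
      rw [Finset.sum_comm]
      refine Finset.sum_congr rfl fun i _ => Finset.sum_congr rfl fun j _ => ?_
      have h2 : Φ (x j - x i) = Φ (x i - x j) := by rw [← hΦ.even, neg_sub]
      by_cases h : cl i = cl j
      · rw [if_pos h, if_pos h.symm, h2]
      · rw [if_neg h, if_neg (fun h' => h h'.symm)]
    have h3 : ∑ i, ∑ j, (if cl i = cl j then 2 * (Φ (x i - x j) * inner ℝ (w i) (w j - w i))
        else 0) =
        ∑ i, ∑ j, (if cl i = cl j then Φ (x i - x j) * inner ℝ (w i) (w j - w i) else 0) +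
        ∑ i, ∑ j, (if cl i = cl j then Φ (x i - x j) * inner ℝ (w j) (w i - w j) else 0) := by
      rw [← h1, ← Finset.sum_add_distrib]
      refine Finset.sum_congr rfl fun i _ => ?_
      rw [← Finset.sum_add_distrib]
      refine Finset.sum_congr rfl fun j _ => ?_
      split_ifs
      · ring
      · ring
    rw [h3, hS, ← Finset.sum_add_distrib, ← Finset.sum_neg_distrib]
    refine Finset.sum_congr rfl fun i _ => ?_
    rw [← Finset.sum_add_distrib, ← Finset.sum_neg_distrib]
    refine Finset.sum_congr rfl fun j _ => ?_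
    split_ifs
    · have h4 : ‖w i - w j‖ ^ 2 = -(inner ℝ (w i) (w j - w i) + inner ℝ (w j) (w i - w j)) := by
        rw [← real_inner_self_eq_norm_sq]
        simp only [inner_sub_left, inner_sub_right]
        ring
      rw [h4]
      ring
    · ring
  have hvn : ∀ i, ‖v i‖ ≤ √R := fun i => le_trans (norm_le_ke v i) (Real.sqrt_le_sqrt hR)
  have e3 : ∑ i, ∑ j, 2 * (Φ (x i - x j) * inner ℝ (w i) (v j - v i)) ≤
      -S + 4 * √R * W * qI Φ cl x := by
    rw [← e2, qI, Finset.mul_sum, ← Finset.sum_add_distrib]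
    refine Finset.sum_le_sum fun i _ => ?_
    rw [Finset.mul_sum, ← Finset.sum_add_distrib]
    refine Finset.sum_le_sum fun j _ => ?_
    by_cases h : cl i = cl j
    · rw [if_pos h, if_pos h]
      have h5 : v j - v i = w j - w i := by
        rw [hw]
        simp only [wi]
        rw [h]
        abel
      rw [h5]
      simp
    · rw [if_neg h, if_neg h]
      have hΦ0 := hΦ.nonneg (x i - x j)
      have h6 : inner ℝ (w i) (v j - v i) ≤ W * (2 * √R) := by
        refine le_trans (real_inner_le_norm _ _) ?_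
        refine mul_le_mul (norm_le_ke w i) ?_ (norm_nonneg _) hW0
        have := norm_sub_le (v j) (v i)
        linarith [hvn i, hvn j]
      have h7 : Φ (x i - x j) * inner ℝ (w i) (v j - v i) ≤ Φ (x i - x j) * (W * (2 * √R)) :=
        mul_le_mul_of_nonneg_left h6 hΦ0
      linarith
  have hN0 : (0 : ℝ) ≤ (N : ℝ)⁻¹ := by positivity
  have hN1 : (N : ℝ)⁻¹ ≤ 1 := by
    rcases Nat.eq_zero_or_pos N with h | h
    · rw [h]; simp
    · exact inv_le_one_of_one_le₀ (by exact_mod_cast h)
  have hq := qI_nonneg Φ hΦ cl x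
  have e4 : (N : ℝ)⁻¹ * (4 * √R * W * qI Φ cl x) ≤ 1 * (4 * √R * W * qI Φ cl x) :=
    mul_le_mul_of_nonneg_right hN1 (by positivity)
  have e5 := mul_le_mul_of_nonneg_left e3 hN0
  have e6 : ((2 * N : ℝ))⁻¹ * S = 2⁻¹ * ((N : ℝ)⁻¹ * S) := by
    rw [mul_inv]; ring
  rw [e6] at hg
  have e7 : (N : ℝ)⁻¹ * (-S + 4 * √R * W * qI Φ cl x) =
      -((N : ℝ)⁻¹ * S) + (N : ℝ)⁻¹ * (4 * √R * W * qI Φ cl x) := by ring
  linarith

/-- tails of a bounded integral -/
theorem tail (g : ℝ → ℝ) (hg : Continuous g) (h0 : ∀ t, 0 ≤ g t) (hB : BddInt g) :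
    ∀ δ, 0 < δ → ∃ T, 0 ≤ T ∧ ∀ a b, T ≤ a → a ≤ b → ∫ t in a..b, g t ≤ δ := by
  intro δ hδ
  obtain ⟨A, hA⟩ := hB
  set F : ℝ → ℝ := fun T => ∫ t in (0 : ℝ)..T, g t with hF
  have hdiff : ∀ a b, ∫ t in a..b, g t = F b - F a := fun a b =>
    (intervalIntegral.integral_interval_sub_left (hg.intervalIntegrable _ _)
      (hg.intervalIntegrable _ _)).symm
  have hmono : ∀ a b, a ≤ b → F a ≤ F b := by
    intro a b hab
    have := intervalIntegral.integral_nonneg (μ := volume) hab (fun t _ => h0 t)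
    rw [hdiff] at this
    linarith
  have hbdd : BddAbove (F '' Ici 0) := ⟨A, by rintro _ ⟨T, hT, rfl⟩; exact hA T hT⟩
  have hne : (F '' Ici 0).Nonempty := ⟨F 0, 0, by simp, rfl⟩
  obtain ⟨_, ⟨T, hT, rfl⟩, hlt⟩ := exists_lt_of_lt_csSup hne
    (show sSup (F '' Ici 0) - δ < sSup (F '' Ici 0) by linarith)
  refine ⟨T, hT, fun a b hTa hab => ?_⟩
  rw [hdiff]
  have h1 : F b ≤ sSup (F '' Ici 0) := le_csSup hbdd ⟨b, le_trans hT (le_trans hTa hab), rfl⟩
  have h2 := hmono T a hTa
  linarith

/-- a Lipschitz function with bounded integral tends to zero -/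
theorem small (g : ℝ → ℝ) (hg : Continuous g) (h0 : ∀ t, 0 ≤ g t) (hB : BddInt g) (L : ℝ)
    (hL : 0 ≤ L) (hLip : ∀ s t, 0 ≤ s → s ≤ t → g s - g t ≤ L * (t - s)) :
    ∀ e, 0 < e → ∃ T, 0 ≤ T ∧ ∀ t, T ≤ t → g t ≤ e := by
  intro e he
  set h : ℝ := e / (2 * (L + 1)) with hh
  have hpos : 0 < h := by positivity
  obtain ⟨T, hT, htail⟩ := tail g hg h0 hB (h * e / 4) (by positivity)
  refine ⟨T, hT, fun t ht => ?_⟩
  by_contra hc
  push Not at hc
  have hLh : L * h ≤ e / 2 := by
    have h1 : (L + 1) * h = e / 2 := by rw [hh]; field_simp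
    nlinarith
  have h1 : ∀ s ∈ Icc t (t + h), e / 2 ≤ g s := by
    intro s hs
    have h2 := hLip t s (by linarith) hs.1
    have h3 : L * (s - t) ≤ L * h := mul_le_mul_of_nonneg_left (by linarith [hs.2]) hL
    linarith
  have h2 : ∫ _s in t..(t + h), e / 2 ≤ ∫ s in t..(t + h), g s :=
    intervalIntegral.integral_mono_on (by linarith) (by simp) (hg.intervalIntegrable _ _) h1
  rw [intervalIntegral.integral_const, smul_eq_mul] at h2
  have h3 := htail t (t + h) ht (by linarith)
  have h4 : (t + h - t) * (e / 2) = h * e / 2 := by ring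
  have h5 : 0 < h * e := by positivity
  linarith

/-- derivative of the internal energy -/
theorem deriv_energy (Φ : E n → ℝ) (cl : Fin N → Fin K) (X V : ℝ → C N n) (t : ℝ)
    (hV : HasDerivAt V (force Φ (X t, V t)) t) :
    HasDerivAt (fun t => ke (wi cl (V t)))
      (∑ i, 2 * inner ℝ (wi cl (V t) i) (force Φ (X t, V t) i)) t := by
  have hVi : ∀ i, HasDerivAt (fun t => V t i) (force Φ (X t, V t) i) t := hasDerivAt_pi.1 hV
  have hwi : ∀ i, HasDerivAt (fun t => wi cl (V t) i) (wi cl (force Φ (X t, V t)) i) t := by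
    intro i
    refine (hVi i).sub ?_
    exact deriv_mu cl V _ t hVi (cl i)
  have h1 : HasDerivAt (fun t => ke (wi cl (V t)))
      (∑ i, 2 * inner ℝ (wi cl (V t) i) (wi cl (force Φ (X t, V t)) i)) t :=
    HasDerivAt.fun_sum fun i _ => (hwi i).norm_sq
  have h2 : ∑ i, 2 * inner ℝ (wi cl (V t) i) (wi cl (force Φ (X t, V t)) i) =
      ∑ i, 2 * inner ℝ (wi cl (V t) i) (force Φ (X t, V t) i) := by
    have h3 : ∀ i, 2 * inner ℝ (wi cl (V t) i) (wi cl (force Φ (X t, V t)) i) =
        2 * inner ℝ (wi cl (V t) i) (force Φ (X t, V t) i) -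
          2 * inner ℝ (wi cl (V t) i) (mu cl (force Φ (X t, V t)) (cl i)) := by
      intro i
      have h4 : wi cl (force Φ (X t, V t)) i =
        force Φ (X t, V t) i - mu cl (force Φ (X t, V t)) (cl i) := rfl
      rw [h4, inner_sub_right]
      ring
    simp only [h3]
    rw [Finset.sum_sub_distrib, ← Finset.mul_sum (a := (2 : ℝ))
      (f := fun i => inner ℝ (wi cl (V t) i) (mu cl (force Φ (X t, V t)) (cl i))), orth]
    ring
  rw [h2] at h1
  exact h1

/-- the integral of the internal velocities -/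
theorem int_bound (Φ : E n → ℝ) (hΦ : Kernel Φ) (cl : Fin N → Fin K) (lam R : ℝ)
    (hlam : 0 < lam) (X V : ℝ → C N n) (hX : Continuous X) (hV : Continuous V)
    (hd : ∀ t, 0 < t → HasDerivAt V (force Φ (X t, V t)) t) (hR : ∀ t, ke (V t) ≤ R) (T S d : ℝ)
    (hT : 0 ≤ T) (hTS : T ≤ S) (hdp : 0 < d) (hgap : ∀ t, T ≤ t → Gap Φ cl lam (X t)) :
    lam * ∫ t in T..S, √(ke (wi cl (V t))) ≤ √(ke (wi cl (V T))) + d + lam * d * (S - T) +
      2 * √R * ∫ t in T..S, qI Φ cl (X t) := by
  set En : ℝ → ℝ := fun t => ke (wi cl (V t)) with hEn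
  have hEc : Continuous En := by
    refine continuous_finset_sum _ fun i _ => ?_
    refine Continuous.pow (Continuous.norm ?_) 2
    refine Continuous.sub ((continuous_apply i).comp hV) ?_
    exact cont_mu cl V hV (cl i)
  have hE0 : ∀ t, 0 ≤ En t := fun t => ke_nonneg _
  set q : ℝ → ℝ := fun t => qI Φ cl (X t) with hq
  have hqc : Continuous q := by
    refine continuous_finset_sum _ fun i _ => continuous_finset_sum _ fun j _ => ?_
    by_cases h : cl i = cl j
    · simp only [if_pos h]; exact continuous_const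
    · simp only [if_neg h]
      exact hΦ.smooth.continuous.comp
        (((continuous_apply i).comp hX).sub ((continuous_apply j).comp hX))
  have hq0 : ∀ t, 0 ≤ q t := fun t => qI_nonneg Φ hΦ cl _
  set y : ℝ → ℝ := fun t => √(En t + d ^ 2) with hy
  have hpos : ∀ t, 0 < En t + d ^ 2 := fun t => by have := hE0 t; positivity
  have hyc : Continuous y := (hEc.add continuous_const).sqrt
  have hyp : ∀ t, 0 < y t := fun t => Real.sqrt_pos.2 (hpos t)
  have hysq : ∀ t, y t ^ 2 = En t + d ^ 2 := fun t => Real.sq_sqrt (hpos t).le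
  have hdy : ∀ t, d ≤ y t := fun t => Real.le_sqrt_of_sq_le (by have := hE0 t; linarith)
  have hWy : ∀ t, √(En t) ≤ y t := fun t => Real.sqrt_le_sqrt (by nlinarith)
  set G : ℝ → ℝ := fun t => y t + lam * (∫ s in T..t, y s) - lam * d * (t - T) -
    2 * √R * ∫ s in T..t, q s with hG
  have hderG : ∀ t, 0 < t → HasDerivAt G ((∑ i, 2 * inner ℝ (wi cl (V t) i)
      (force Φ (X t, V t) i)) / (2 * y t) + lam * y t - lam * d * 1 - 2 * √R * q t) t := by
    intro t ht
    have h1 := (deriv_energy Φ cl X V t (hd t ht)).add_const (d ^ 2)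
    have h2 : HasDerivAt y ((∑ i, 2 * inner ℝ (wi cl (V t) i) (force Φ (X t, V t) i)) /
      (2 * y t)) t := h1.sqrt (hpos t).ne'
    have h3 : HasDerivAt (fun t => ∫ s in T..t, y s) (y t) t :=
      intervalIntegral.integral_hasDerivAt_right (hyc.intervalIntegrable _ _)
        (hyc.stronglyMeasurableAtFilter _ _) hyc.continuousAt
    have h4 : HasDerivAt (fun t => ∫ s in T..t, q s) (q t) t :=
      intervalIntegral.integral_hasDerivAt_right (hqc.intervalIntegrable _ _)
        (hqc.stronglyMeasurableAtFilter _ _) hqc.continuousAt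
    have h5 : HasDerivAt (fun t => t - T) 1 t := (hasDerivAt_id t).sub_const T
    exact ((h2.add (h3.const_mul lam)).sub (h5.const_mul (lam * d))).sub
      (h4.const_mul (2 * √R))
  have hGc : Continuous G := by
    refine ((hyc.add (continuous_const.mul ?_)).sub (by fun_prop)).sub (continuous_const.mul ?_)
    · exact intervalIntegral.continuous_primitive (fun a b => hyc.intervalIntegrable a b) T
    · exact intervalIntegral.continuous_primitive (fun a b => hqc.intervalIntegrable a b) T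
  have hanti : AntitoneOn G (Icc T S) := by
    apply antitoneOn_of_deriv_nonpos (convex_Icc T S) hGc.continuousOn
    · rw [interior_Icc]
      intro t ht
      exact (hderG t (lt_of_le_of_lt hT ht.1)).differentiableAt.differentiableWithinAt
    · rw [interior_Icc]
      intro t ht
      have ht0 : 0 < t := lt_of_le_of_lt hT ht.1
      rw [(hderG t ht0).deriv]
      have hen := energy Φ hΦ cl lam R (X t) (V t) (hgap t ht.1.le) (hR t)
      have hyt := hyp t
      have h1 : (∑ i, 2 * inner ℝ (wi cl (V t) i) (force Φ (X t, V t) i)) / (2 * y t) ≤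
          -lam * y t + lam * d + 2 * √R * q t := by
        rw [div_le_iff₀ (by positivity)]
        refine le_trans hen ?_
        have e1 : ke (wi cl (V t)) = y t ^ 2 - d ^ 2 := by rw [hysq]; ring
        have e2 : √(ke (wi cl (V t))) ≤ y t := hWy t
        have e3 : 4 * √R * √(ke (wi cl (V t))) * qI Φ cl (X t) ≤ 4 * √R * y t * q t := by
          have := hq0 t
          have h6 : 0 ≤ 4 * √R := by positivity
          exact mul_le_mul_of_nonneg_right (mul_le_mul_of_nonneg_left e2 h6) this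
        have e4 : lam * (d * d) ≤ lam * (d * y t) :=
          mul_le_mul_of_nonneg_left (mul_le_mul_of_nonneg_left (hdy t) hdp.le) hlam.le
        rw [e1]
        rw [e1] at e3
        nlinarith
      linarith
  have hGS := hanti (left_mem_Icc.2 hTS) (right_mem_Icc.2 hTS) hTS
  have hGT : G T = y T := by
    simp only [hG, intervalIntegral.integral_same]
    ring
  have hGSd : G S = y S + lam * (∫ s in T..S, y s) - lam * d * (S - T) -
    2 * √R * ∫ s in T..S, q s := rfl
  have hyT : y T ≤ √(En T) + d := by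
    apply Real.sqrt_le_iff.2
    refine ⟨by positivity, ?_⟩
    have e1 := Real.sq_sqrt (hE0 T)
    have e2 := Real.sqrt_nonneg (En T)
    nlinarith
  have hint : ∫ t in T..S, √(En t) ≤ ∫ t in T..S, y t :=
    intervalIntegral.integral_mono_on hTS (hEc.sqrt.intervalIntegrable _ _)
      (hyc.intervalIntegrable _ _) (fun t _ => hWy t)
  have hint' := mul_le_mul_of_nonneg_left hint hlam.le
  have hyS := hyp S
  rw [hGT, hGSd] at hGS
  linarith

/-- the internal energy tends to zero -/
theorem ke_tendsto (cl : Fin N → Fin K) (v : ℝ → C N n) (c : C N n)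
    (hc : ∀ i, Tendsto (fun t => v t i) atTop (𝓝 (c i))) (hcl : ∀ i j, cl i = cl j ↔ c i = c j) :
    Tendsto (fun t => ke (wi cl (v t))) atTop (𝓝 0) := by
  have h1 : ∀ i, mu cl c (cl i) = c i := by
    intro i
    have h2 : ∀ j ∈ Finset.univ.filter (fun j => cl j = cl i), c j = c i := fun j hj =>
      (hcl j i).1 (Finset.mem_filter.1 hj).2
    rw [mu, Finset.sum_congr rfl h2, Finset.sum_const, ← Nat.cast_smul_eq_nsmul ℝ]
    have h3 : (cnt cl (cl i) : ℝ) ≠ 0 := by
      have : 0 < cnt cl (cl i) := Finset.card_pos.2 ⟨i, by simp⟩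
      exact_mod_cast this.ne'
    exact inv_smul_smul₀ h3 _
  have h2 : ∀ i, Tendsto (fun t => wi cl (v t) i) atTop (𝓝 0) := by
    intro i
    have h3 : Tendsto (fun t => wi cl (v t) i) atTop (𝓝 (c i - mu cl c (cl i))) := by
      refine (hc i).sub ?_
      exact (tendsto_finset_sum _ fun j _ => hc j).const_smul _
    rwa [h1, sub_self] at h3
  have h4 : Tendsto (fun t => ke (wi cl (v t))) atTop (𝓝 (∑ _i : Fin N, ‖(0 : E n)‖ ^ 2)) :=
    tendsto_finset_sum _ fun i _ => (h2 i).norm.pow 2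
  simpa using h4

end I_ENTERX

open I_ENTERX in
theorem I_ENTER (hP : PERB) (hE : ENG) (hI : INTG) : ENTER := by
  intro n N K Φ hΦ x v hf c hc cl hcl lam T₁ hlam hgap R hR eps heps
  -- extension to the whole line
  set X : ℝ → C N n := fun t => x (max t 0) with hXd
  set V : ℝ → C N n := fun t => v (max t 0) with hVd
  have hXeq : ∀ t, 0 ≤ t → X t = x t := fun t ht => by simp only [hXd]; rw [max_eq_left ht]
  have hVeq : ∀ t, 0 ≤ t → V t = v t := fun t ht => by simp only [hVd]; rw [max_eq_left ht]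
  have hxc : ContinuousOn x (Ici 0) := fun t ht => (hf t ht).1.continuousWithinAt
  have hvc : ContinuousOn v (Ici 0) := fun t ht => (hf t ht).2.continuousWithinAt
  have hmax : Continuous (fun t : ℝ => max t 0) := continuous_id.max continuous_const
  have hX : Continuous X := hxc.comp_continuous hmax (fun t => le_max_right t 0)
  have hV : Continuous V := hvc.comp_continuous hmax (fun t => le_max_right t 0)
  have hEn := hE n N Φ hΦ x v hf
  have hkeR : ∀ t, 0 ≤ t → ke (v t) ≤ R := fun t ht => le_trans (hEn.1 0 t le_rfl ht) hR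
  have hVR : ∀ t, ke (V t) ≤ R := fun t => hkeR _ (le_max_right t 0)
  have hVder : ∀ t, 0 < t → HasDerivAt V (force Φ (X t, V t)) t := by
    intro t ht
    have h1 : HasDerivAt v (force Φ (x t, v t)) t :=
      (hf t ht.le).2.hasDerivAt (Ici_mem_nhds ht)
    rw [hXeq t ht.le, hVeq t ht.le]
    refine h1.congr_of_eventuallyEq ?_
    filter_upwards [lt_mem_nhds ht] with s hs
    exact hVeq s hs.le
  -- the external interaction
  set q : ℝ → ℝ := fun t => qI Φ cl (X t) with hq
  have hqc : Continuous q := by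
    refine continuous_finset_sum _ fun i _ => continuous_finset_sum _ fun j _ => ?_
    by_cases h : cl i = cl j
    · simp only [if_pos h]; exact continuous_const
    · simp only [if_neg h]
      exact hΦ.smooth.continuous.comp
        (((continuous_apply i).comp hX).sub ((continuous_apply j).comp hX))
  have hq0 : ∀ t, 0 ≤ q t := fun t => qI_nonneg Φ hΦ cl _
  have hqB : BddInt q := by
    have h1 : ∀ i j : Fin N, ∃ A : ℝ, ∀ T, 0 ≤ T →
        ∫ t in (0 : ℝ)..T, (if cl i = cl j then 0 else Φ (X t i - X t j)) ≤ A := by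
      intro i j
      by_cases h : cl i = cl j
      · exact ⟨0, fun T _ => by simp [h]⟩
      · obtain ⟨A, hA⟩ := hI n N Φ hΦ x v hf c hc i j (fun h' => h ((hcl i j).2 h'))
        refine ⟨A, fun T hT => ?_⟩
        refine le_trans (le_of_eq ?_) (hA T hT)
        apply intervalIntegral.integral_congr
        intro t ht
        rw [uIcc_of_le hT] at ht
        simp only [if_neg h]
        rw [hXeq t ht.1]
    choose A hA using h1
    refine ⟨∑ i, ∑ j, A i j, fun T hT => ?_⟩
    simp only [hq, qI]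
    have hc2 : ∀ i j : Fin N, Continuous fun t => (if cl i = cl j then 0 else Φ (X t i - X t j)) := by
      intro i j
      by_cases h : cl i = cl j
      · simp only [if_pos h]; exact continuous_const
      · simp only [if_neg h]
        exact hΦ.smooth.continuous.comp
          (((continuous_apply i).comp hX).sub ((continuous_apply j).comp hX))
    rw [intervalIntegral.integral_finset_sum fun i _ =>
      (continuous_finset_sum _ fun j _ => hc2 i j).intervalIntegrable _ _]
    refine Finset.sum_le_sum fun i _ => ?_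
    rw [intervalIntegral.integral_finset_sum fun j _ => (hc2 i j).intervalIntegrable _ _]
    exact Finset.sum_le_sum fun j _ => hA i j T hT
  -- Lipschitz bound
  obtain ⟨A, hA⟩ := hP n Φ hΦ
  have hA0 : 0 ≤ A := le_trans (abs_nonneg _) (hA 0).1
  have hΦL : ∀ a b : E n, Φ a - Φ b ≤ A * ‖a - b‖ := by
    intro a b
    have h1 := Convex.norm_image_sub_le_of_norm_fderiv_le (𝕜 := ℝ) (f := Φ) (C := A) (s := univ)
      (x := b) (y := a) (fun z _ => (hΦ.smooth.differentiable one_ne_zero) z)
      (fun z _ => (hA z).2) convex_univ (mem_univ _) (mem_univ _)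
    exact le_trans (le_abs_self _) h1
  have hxL : ∀ i s t, 0 ≤ s → s ≤ t → ‖x s i - x t i‖ ≤ √R * (t - s) := by
    intro i s t hs hst
    have h1 := Convex.norm_image_sub_le_of_norm_hasDerivWithin_le (f := fun t => x t i)
      (f' := fun t => v t i) (C := √R) (s := Ici 0) (x := t) (y := s)
      (fun r hr => hasDerivWithinAt_pi.1 (hf r hr).1 i)
      (fun r hr => le_trans (norm_le_ke (v r) i) (Real.sqrt_le_sqrt (hkeR r hr)))
      (convex_Ici 0) (le_trans hs hst) hs
    rw [Real.norm_eq_abs, abs_sub_comm, abs_of_nonneg (by linarith)] at h1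
    exact h1
  have hqL : ∀ s t, 0 ≤ s → s ≤ t → q s - q t ≤ (N * (N * (A * (2 * √R)))) * (t - s) := by
    intro s t hs hst
    simp only [hq, qI]
    rw [hXeq s hs, hXeq t (le_trans hs hst), ← Finset.sum_sub_distrib]
    have h1 : ∀ i ∈ (Finset.univ : Finset (Fin N)),
        ((∑ j, if cl i = cl j then 0 else Φ (x s i - x s j)) -
          ∑ j, if cl i = cl j then 0 else Φ (x t i - x t j)) ≤
          N * (A * (2 * √R)) * (t - s) := by
      intro i _
      rw [← Finset.sum_sub_distrib]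
      have h2 : ∀ j ∈ (Finset.univ : Finset (Fin N)),
          ((if cl i = cl j then 0 else Φ (x s i - x s j)) -
            if cl i = cl j then 0 else Φ (x t i - x t j)) ≤ A * (2 * √R) * (t - s) := by
        intro j _
        have hts : 0 ≤ t - s := by linarith
        by_cases h : cl i = cl j
        · rw [if_pos h, if_pos h, sub_self]
          positivity
        · rw [if_neg h, if_neg h]
          refine le_trans (hΦL _ _) ?_
          have h3 : (x s i - x s j) - (x t i - x t j) = (x s i - x t i) - (x s j - x t j) := by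
            abel
          have h4 : ‖(x s i - x s j) - (x t i - x t j)‖ ≤ 2 * √R * (t - s) := by
            rw [h3]
            refine le_trans (norm_sub_le _ _) ?_
            linarith [hxL i s t hs hst, hxL j s t hs hst]
          calc A * ‖(x s i - x s j) - (x t i - x t j)‖ ≤ A * (2 * √R * (t - s)) :=
                mul_le_mul_of_nonneg_left h4 hA0
            _ = A * (2 * √R) * (t - s) := by ring
      refine le_trans (Finset.sum_le_sum h2) (le_of_eq ?_)
      rw [Finset.sum_const, Finset.card_univ, Fintype.card_fin, nsmul_eq_mul]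
      ring
    refine le_trans (Finset.sum_le_sum h1) (le_of_eq ?_)
    rw [Finset.sum_const, Finset.card_univ, Fintype.card_fin, nsmul_eq_mul]
    ring
  -- the constants
  set mn : ℝ := min lam 1 with hmn
  have hmn0 : 0 < mn := lt_min hlam one_pos
  set κ : ℝ := eps * mn / (4 * (N + 1)) with hκ
  have hN0 : (0 : ℝ) ≤ N := Nat.cast_nonneg N
  have hκ0 : 0 < κ := by positivity
  have hNκ : N * κ ≤ eps / 4 * mn := by
    have h1 : (N + 1) * κ = eps / 4 * mn := by rw [hκ]; field_simp
    nlinarith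
  obtain ⟨Ta, hTa0, hTa⟩ := small q hqc hq0 hqB _ (by positivity) hqL (eps ^ 2) (by positivity)
  obtain ⟨Tb, hTb0, hTb⟩ := tail q hqc hq0 hqB (min (eps ^ 2) (κ / (2 * √R + 1)))
    (lt_min (by positivity) (by positivity))
  have hke := ke_tendsto cl v c hc hcl
  have hev : ∀ᶠ t in atTop, ke (wi cl (v t)) < κ ^ 2 :=
    hke.eventually (gt_mem_nhds (by positivity))
  obtain ⟨Tc, hTc⟩ := eventually_atTop.1 hev
  obtain ⟨T₀, hT₀⟩ := exists_nat_ge (max (max T₁ Ta) (max Tb Tc))
  have h1 : T₁ ≤ T₀ := le_trans (le_trans (le_max_left _ _) (le_max_left _ _)) hT₀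
  have h2 : Ta ≤ T₀ := le_trans (le_trans (le_max_right _ _) (le_max_left _ _)) hT₀
  have h3 : Tb ≤ T₀ := le_trans (le_trans (le_max_left _ _) (le_max_right _ _)) hT₀
  have h4 : Tc ≤ T₀ := le_trans (le_trans (le_max_right _ _) (le_max_right _ _)) hT₀
  have hT0 : (0 : ℝ) ≤ T₀ := Nat.cast_nonneg _
  have hW : ∀ t, (T₀ : ℝ) ≤ t → √(ke (wi cl (v t))) ≤ κ := by
    intro t ht
    exact Real.sqrt_le_iff.2 ⟨hκ0.le, (hTc t (le_trans h4 ht)).le⟩
  have hmn1 : mn ≤ 1 := min_le_right _ _
  have hmnl : mn ≤ lam := min_le_left _ _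
  refine ⟨T₀, ?_, ?_, ?_, ?_, ?_, ?_⟩
  · intro t ht
    exact hkeR _ (by linarith)
  · intro t ht
    refine le_trans (sI_le cl _) ?_
    have h5 := mul_le_mul_of_nonneg_left (hW (T₀ + t) (by linarith)) hN0
    nlinarith
  · intro T hT
    have e1 : ∫ t in (0 : ℝ)..T, sI cl (v (T₀ + t)) =
        ∫ t in (T₀ : ℝ)..(T₀ + T), sI cl (V t) := by
      have h5 := intervalIntegral.integral_comp_add_left (a := 0) (b := T)
        (fun t => sI cl (V t)) (T₀ : ℝ)
      rw [add_zero] at h5
      rw [← h5]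
      apply intervalIntegral.integral_congr
      intro t ht
      rw [uIcc_of_le hT] at ht
      simp only
      rw [hVeq _ (by linarith [ht.1])]
    rw [e1]
    have hEc : Continuous (fun t => ke (wi cl (V t))) := by
      refine continuous_finset_sum _ fun i _ => ?_
      refine Continuous.pow (Continuous.norm ?_) 2
      refine Continuous.sub ((continuous_apply i).comp hV) ?_
      exact cont_mu cl V hV (cl i)
    have hsc : Continuous (fun t => sI cl (V t)) := by
      refine continuous_finset_sum _ fun i _ => ?_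
      refine Continuous.norm ?_
      refine Continuous.sub ((continuous_apply i).comp hV) ?_
      exact cont_mu cl V hV (cl i)
    have e2 : ∫ t in (T₀ : ℝ)..(T₀ + T), sI cl (V t) ≤
        ∫ t in (T₀ : ℝ)..(T₀ + T), N * √(ke (wi cl (V t))) :=
      intervalIntegral.integral_mono_on (by linarith) (hsc.intervalIntegrable _ _)
        ((continuous_const.mul hEc.sqrt).intervalIntegrable _ _) (fun t _ => sI_le cl _)
    refine le_trans e2 ?_
    rw [intervalIntegral.integral_const_mul]
    set d : ℝ := κ / ((1 + lam) * (1 + T)) with hd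
    have hd0 : 0 < d := by positivity
    have e3 := int_bound Φ hΦ cl lam R hlam X V hX hV hVder hVR T₀ (T₀ + T) d hT0
      (by linarith) hd0 (fun t ht => by
        rw [hXeq t (le_trans hT0 ht)]
        exact hgap t (le_trans h1 ht))
    have e4 : d + lam * d * (T₀ + T - T₀) ≤ κ := by
      have h6 : (1 + lam) * (1 + T) * d = κ := by rw [hd]; field_simp
      have h7 : 0 ≤ T * d := by positivity
      have h8 : 0 ≤ lam * d := by positivity
      nlinarith
    have e5 : 2 * √R * ∫ t in (T₀ : ℝ)..(T₀ + T), qI Φ cl (X t) ≤ κ := by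
      have h6 := hTb T₀ (T₀ + T) h3 (by linarith)
      have h7 : ∫ t in (T₀ : ℝ)..(T₀ + T), qI Φ cl (X t) ≤ κ / (2 * √R + 1) :=
        le_trans h6 (min_le_right _ _)
      have h8 : 0 ≤ 2 * √R := by positivity
      calc 2 * √R * ∫ t in (T₀ : ℝ)..(T₀ + T), qI Φ cl (X t) ≤ 2 * √R * (κ / (2 * √R + 1)) :=
            mul_le_mul_of_nonneg_left h7 h8
        _ ≤ (2 * √R + 1) * (κ / (2 * √R + 1)) := by
            apply mul_le_mul_of_nonneg_right (by linarith) (by positivity)
        _ = κ := by field_simp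
    have e6 : √(ke (wi cl (V T₀))) ≤ κ := by
      rw [hVeq _ hT0]
      exact hW T₀ le_rfl
    have e7 : lam * ∫ t in (T₀ : ℝ)..(T₀ + T), √(ke (wi cl (V t))) ≤ 3 * κ := by linarith
    have e8 : lam * (N * ∫ t in (T₀ : ℝ)..(T₀ + T), √(ke (wi cl (V t)))) ≤ lam * eps := by
      have h6 := mul_le_mul_of_nonneg_left e7 hN0
      have h7 : eps / 4 * mn ≤ eps / 4 * lam := mul_le_mul_of_nonneg_left hmnl (by positivity)
      have h8 : 0 < eps * lam := by positivity
      nlinarith
    exact le_of_mul_le_mul_left e8 hlam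
  · intro t ht
    have h5 := hTa (T₀ + t) (by linarith)
    simp only [hq] at h5
    rw [hXeq _ (by linarith)] at h5
    exact h5
  · intro T hT
    have e1 : ∫ t in (0 : ℝ)..T, qI Φ cl (x (T₀ + t)) =
        ∫ t in (T₀ : ℝ)..(T₀ + T), q t := by
      have h5 := intervalIntegral.integral_comp_add_left (a := 0) (b := T) q (T₀ : ℝ)
      rw [add_zero] at h5
      rw [← h5]
      apply intervalIntegral.integral_congr
      intro t ht
      rw [uIcc_of_le hT] at ht
      simp only [hq]
      rw [hXeq _ (by linarith [ht.1])]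
    rw [e1]
    exact le_trans (hTb T₀ (T₀ + T) h3 (by linarith)) (min_le_left _ _)
  · intro t ht
    exact hgap _ (by linarith)

end Pool.Agent.Work.MP_c9f990_an.Al

end

section

set_option autoImplicit false

/-!
# MP_c9f990_an: derivative of the cut-off field in block form
-/

open MeasureTheory Set Filter Topology

namespace Pool.Agent.Work.MP_c9f990_an.Al

namespace I_FDFX

variable {N n K : ℕ}

theorem LpC_apply (Φ : E n → ℝ) (cl : Fin N → Fin K) (x u : C N n) (i : Fin N) :
    LpC Φ cl x u i = (N : ℝ)⁻¹ • ∑ j, if cl i = cl j then Φ (x i - x j) • (u i - u j) else 0 := by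
  unfold LpC
  rw [ContinuousLinearMap.pi_apply, smul_apply, sum_apply]
  refine congrArg _ (Finset.sum_congr rfl fun j _ => ?_)
  split_ifs
  · rfl
  · rfl

theorem SgC_apply (Φ : E n → ℝ) (cl : Fin N → Fin K) (x u : C N n) (i : Fin N) :
    SgC Φ cl x u i = (N : ℝ)⁻¹ • ∑ j, if cl i = cl j then 0 else Φ (x i - x j) • (u j - u i) := by
  unfold SgC
  rw [ContinuousLinearMap.pi_apply, smul_apply, sum_apply]
  refine congrArg _ (Finset.sum_congr rfl fun j _ => ?_)
  split_ifs
  · rfl
  · rfl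

theorem GeC_apply (Φ : E n → ℝ) (cl : Fin N → Fin K) (z : P N n) (u : C N n) (i : Fin N) :
    GeC Φ cl z u i = (N : ℝ)⁻¹ • ∑ j, if cl i = cl j then 0 else
      fderiv ℝ Φ (z.1 i - z.1 j) (u i - u j) • (z.2 j - z.2 i) := by
  unfold GeC
  rw [ContinuousLinearMap.pi_apply, smul_apply, sum_apply]
  refine congrArg _ (Finset.sum_congr rfl fun j _ => ?_)
  split_ifs
  · rfl
  · rfl

theorem GaC_apply (Φ : E n → ℝ) (cl : Fin N → Fin K) (z : P N n) (u : C N n) (i : Fin N) :
    GaC Φ cl z u i = (N : ℝ)⁻¹ • ∑ j, if cl i = cl j then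
      fderiv ℝ Φ (z.1 i - z.1 j) (u i - u j) • (z.2 j - z.2 i) else 0 := by
  unfold GaC
  rw [ContinuousLinearMap.pi_apply, smul_apply, sum_apply]
  refine congrArg _ (Finset.sum_congr rfl fun j _ => ?_)
  split_ifs
  · rfl
  · rfl

theorem fderiv_force {Φ : E n → ℝ} (h : Kernel Φ) (z w : P N n) (i : Fin N) :
    fderiv ℝ (force (N := N) Φ) z w i = (N : ℝ)⁻¹ • ∑ j, (Φ (z.1 i - z.1 j) • (w.2 j - w.2 i) +
      fderiv ℝ Φ (z.1 i - z.1 j) (w.1 i - w.1 j) • (z.2 j - z.2 i)) := by
  have hΦ : Differentiable ℝ Φ := h.smooth.differentiable one_ne_zero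
  have h1 : HasFDerivAt (fun y : P N n => force Φ y i)
      ((ContinuousLinearMap.proj i : C N n →L[ℝ] E n).comp (fderiv ℝ (force (N := N) Φ) z)) z :=
    (ContinuousLinearMap.proj i : C N n →L[ℝ] E n).hasFDerivAt.comp z
      (I_TRFX.differentiable_force h z).hasFDerivAt
  have p1 : ∀ k : Fin N, HasFDerivAt (fun y : P N n => y.1 k)
      ((ContinuousLinearMap.proj k : C N n →L[ℝ] E n).comp
        (ContinuousLinearMap.fst ℝ (C N n) (C N n))) z := fun k =>
    ((ContinuousLinearMap.proj k : C N n →L[ℝ] E n).comp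
        (ContinuousLinearMap.fst ℝ (C N n) (C N n))).hasFDerivAt
  have p2 : ∀ k : Fin N, HasFDerivAt (fun y : P N n => y.2 k)
      ((ContinuousLinearMap.proj k : C N n →L[ℝ] E n).comp
        (ContinuousLinearMap.snd ℝ (C N n) (C N n))) z := fun k =>
    ((ContinuousLinearMap.proj k : C N n →L[ℝ] E n).comp
        (ContinuousLinearMap.snd ℝ (C N n) (C N n))).hasFDerivAt
  have pj : ∀ j : Fin N, HasFDerivAt (fun y : P N n => Φ (y.1 i - y.1 j) • (y.2 j - y.2 i))
      (Φ (z.1 i - z.1 j) • (((ContinuousLinearMap.proj j : C N n →L[ℝ] E n).comp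
        (ContinuousLinearMap.snd ℝ (C N n) (C N n))) -
        ((ContinuousLinearMap.proj i : C N n →L[ℝ] E n).comp
        (ContinuousLinearMap.snd ℝ (C N n) (C N n)))) +
      ((fderiv ℝ Φ (z.1 i - z.1 j)).comp (((ContinuousLinearMap.proj i : C N n →L[ℝ] E n).comp
        (ContinuousLinearMap.fst ℝ (C N n) (C N n))) -
        ((ContinuousLinearMap.proj j : C N n →L[ℝ] E n).comp
        (ContinuousLinearMap.fst ℝ (C N n) (C N n))))).smulRight (z.2 j - z.2 i)) z := by
    intro j
    have a1 : HasFDerivAt (fun y : P N n => Φ (y.1 i - y.1 j)) _ z :=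
      (hΦ (z.1 i - z.1 j)).hasFDerivAt.comp z ((p1 i).fun_sub (p1 j))
    exact a1.fun_smul ((p2 j).fun_sub (p2 i))
  have h2 : HasFDerivAt (fun y : P N n => force Φ y i) _ z :=
    (HasFDerivAt.fun_sum (u := Finset.univ) fun j _ => pj j).fun_const_smul ((N : ℝ)⁻¹)
  have h3 := congrArg (fun L : P N n →L[ℝ] E n => L w) (h1.unique h2)
  have h4 : ((ContinuousLinearMap.proj i : C N n →L[ℝ] E n).comp
      (fderiv ℝ (force (N := N) Φ) z)) w = fderiv ℝ (force (N := N) Φ) z w i := rfl
  rw [← h4]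
  refine h3.trans ?_
  rw [smul_apply, sum_apply]
  rfl

end I_FDFX

open I_FDFX in
theorem I_FDF : FDF := by
  intro n N K Φ R cl hΦ z hz w
  have h1 : fderiv ℝ (fld Φ R) z =
      (ContinuousLinearMap.snd ℝ (C N n) (C N n)).prod (fderiv ℝ (force (N := N) Φ) z) := by
    rw [(I_TRFX.fld_eventually Φ R z hz).fderiv_eq]
    exact (hasFDerivAt_snd.prodMk (I_TRFX.differentiable_force hΦ z).hasFDerivAt).fderiv
  rw [h1]
  show (w.2, fderiv ℝ (force (N := N) Φ) z w) = _
  refine congrArg (Prod.mk w.2) (funext fun i => ?_)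
  rw [fderiv_force hΦ]
  show _ = -(LpC Φ cl z.1 w.2 i) + SgC Φ cl z.1 w.2 i + GeC Φ cl z w.1 i + GaC Φ cl z w.1 i
  rw [LpC_apply, SgC_apply, GeC_apply, GaC_apply, ← smul_neg, ← smul_add, ← smul_add, ← smul_add,
    ← Finset.sum_neg_distrib, ← Finset.sum_add_distrib, ← Finset.sum_add_distrib,
    ← Finset.sum_add_distrib]
  refine congrArg _ (Finset.sum_congr rfl fun j _ => ?_)
  split_ifs
  · rw [← smul_neg, neg_sub, add_zero, add_zero]
  · rw [neg_zero, zero_add, add_zero]

end Pool.Agent.Work.MP_c9f990_an.Al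

end

section

set_option autoImplicit false

/-!
# MP_c9f990_an: the concrete adjoint and the trace of its product with the external operator
-/

open MeasureTheory Set Filter Topology

namespace Pool.Agent.Work.MP_c9f990_an.Al

namespace I_HADX

variable {N n K : ℕ}

/-- identification of functions with the Euclidean space -/
noncomputable def toE (N : ℕ) : (Fin N → ℝ) →L[ℝ] E N :=
  (PiLp.continuousLinearEquiv 2 ℝ (fun _ : Fin N => ℝ)).symm.toContinuousLinearMap

theorem toE_apply (f : Fin N → ℝ) (i : Fin N) : toE N f i = f i := rfl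

/-- scalar internal friction -/
noncomputable def l1 (Φ : E n → ℝ) (cl : Fin N → Fin K) (x : C N n) : E N →L[ℝ] E N :=
  (toE N).comp (ContinuousLinearMap.pi fun i => (N : ℝ)⁻¹ • ∑ j, if cl i = cl j then
    Φ (x i - x j) • ((EuclideanSpace.proj i : E N →L[ℝ] ℝ) - EuclideanSpace.proj j) else 0)

/-- scalar inclusion -/
noncomputable def io1 (cl : Fin N → Fin K) : (Fin K → ℝ) →L[ℝ] E N :=
  (toE N).comp (ContinuousLinearMap.pi fun i => ContinuousLinearMap.proj (cl i))

/-- scalar means -/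
noncomputable def mu1 (cl : Fin N → Fin K) : E N →L[ℝ] (Fin K → ℝ) :=
  ContinuousLinearMap.pi fun a => (cnt cl a : ℝ)⁻¹ •
    ∑ i ∈ Finset.univ.filter (fun i => cl i = a), (EuclideanSpace.proj i : E N →L[ℝ] ℝ)

/-- component `c` on the class `a` -/
noncomputable def U (N n : ℕ) {K : ℕ} (cl : Fin N → Fin K) (c : Fin n) (a : Fin K) :
    XX N n →L[ℝ] E N :=
  (toE N).comp (ContinuousLinearMap.pi fun i => if cl i = a then
    (EuclideanSpace.proj c : E n →L[ℝ] ℝ).comp
      ((ContinuousLinearMap.proj i : C N n →L[ℝ] E n).comp (ofL N n)) else 0)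

/-- adjoint of `U` -/
noncomputable def V' (N n : ℕ) {K : ℕ} (cl : Fin N → Fin K) (c : Fin n) (a : Fin K) :
    E N →L[ℝ] XX N n :=
  (toL N n).comp (ContinuousLinearMap.pi fun i => if cl i = a then
    (EuclideanSpace.proj i : E N →L[ℝ] ℝ).smulRight (EuclideanSpace.single c (1 : ℝ)) else 0)

theorem l1_apply (Φ : E n → ℝ) (cl : Fin N → Fin K) (x : C N n) (w : E N) (i : Fin N) :
    l1 Φ cl x w i = (N : ℝ)⁻¹ * ∑ j, if cl i = cl j then Φ (x i - x j) * (w i - w j) else 0 := by
  show ((N : ℝ)⁻¹ • ∑ j, if cl i = cl j then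
    Φ (x i - x j) • ((EuclideanSpace.proj i : E N →L[ℝ] ℝ) - EuclideanSpace.proj j) else 0 :
      E N →L[ℝ] ℝ) w = _
  rw [smul_apply, sum_apply, smul_eq_mul]
  refine congrArg _ (Finset.sum_congr rfl fun j _ => ?_)
  split_ifs
  · rfl
  · rfl

theorem io1_apply (cl : Fin N → Fin K) (τ : Fin K → ℝ) (i : Fin N) : io1 cl τ i = τ (cl i) := rfl

theorem mu1_apply (cl : Fin N → Fin K) (w : E N) (a : Fin K) :
    mu1 cl w a = (cnt cl a : ℝ)⁻¹ * ∑ i ∈ Finset.univ.filter (fun i => cl i = a), w i := by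
  show ((cnt cl a : ℝ)⁻¹ •
    ∑ i ∈ Finset.univ.filter (fun i => cl i = a), (EuclideanSpace.proj i : E N →L[ℝ] ℝ)) w = _
  rw [smul_apply, sum_apply, smul_eq_mul]
  rfl

theorem U_apply (cl : Fin N → Fin K) (c : Fin n) (a : Fin K) (u : XX N n) (i : Fin N) :
    U N n cl c a u i = if cl i = a then u i c else 0 := by
  show (if cl i = a then
    (EuclideanSpace.proj c : E n →L[ℝ] ℝ).comp
      ((ContinuousLinearMap.proj i : C N n →L[ℝ] E n).comp (ofL N n)) else 0) u = _
  split_ifs
  · rfl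
  · rfl

theorem V'_apply (cl : Fin N → Fin K) (c : Fin n) (a : Fin K) (w : E N) (i : Fin N) :
    V' N n cl c a w i = if cl i = a then w i • EuclideanSpace.single c (1 : ℝ) else 0 := by
  show (if cl i = a then
    (EuclideanSpace.proj i : E N →L[ℝ] ℝ).smulRight (EuclideanSpace.single c (1 : ℝ)) else 0 :
      E N →L[ℝ] E n) w = _
  split_ifs
  · rfl
  · rfl

/-- a class of a surjective map is not empty -/
theorem cnt_ne (cl : Fin N → Fin K) (hcl : Function.Surjective cl) (a : Fin K) :
    (cnt cl a : ℝ) ≠ 0 := by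
  obtain ⟨i, hi⟩ := hcl a
  have : 0 < cnt cl a := Finset.card_pos.2 ⟨i, by simp [hi]⟩
  exact_mod_cast this.ne'

theorem mu1_io1 (cl : Fin N → Fin K) (hcl : Function.Surjective cl) (τ : Fin K → ℝ) :
    mu1 cl (io1 cl τ) = τ := by
  funext a
  rw [mu1_apply, Finset.sum_congr rfl (g := fun _ => τ a), Finset.sum_const, nsmul_eq_mul]
  · have h := cnt_ne cl hcl a
    show (cnt cl a : ℝ)⁻¹ * ((cnt cl a : ℝ) * τ a) = τ a
    rw [← mul_assoc, inv_mul_cancel₀ h, one_mul]
  · intro i hi
    rw [io1_apply, (Finset.mem_filter.1 hi).2]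

theorem inner_E (w y : E N) : inner ℝ w y = ∑ i, w i * y i := by
  rw [PiLp.inner_apply]
  refine Finset.sum_congr rfl fun i _ => ?_
  rw [mul_comm]
  rfl

theorem orth1 (cl : Fin N → Fin K) (w y : E N) :
    inner ℝ (io1 cl (mu1 cl w)) y = inner ℝ w (io1 cl (mu1 cl y)) := by
  rw [inner_E, inner_E]
  have h1 : ∀ i, io1 cl (mu1 cl w) i * y i =
      ∑ j, if cl j = cl i then (cnt cl (cl i) : ℝ)⁻¹ * w j * y i else 0 := by
    intro i
    rw [io1_apply, mu1_apply, Finset.sum_filter, Finset.mul_sum, Finset.sum_mul]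
    refine Finset.sum_congr rfl fun j _ => ?_
    split_ifs
    · rfl
    · rw [mul_zero, zero_mul]
  have h2 : ∀ i, w i * io1 cl (mu1 cl y) i =
      ∑ j, if cl j = cl i then (cnt cl (cl i) : ℝ)⁻¹ * w i * y j else 0 := by
    intro i
    rw [io1_apply, mu1_apply, Finset.sum_filter, Finset.mul_sum, Finset.mul_sum]
    refine Finset.sum_congr rfl fun j _ => ?_
    split_ifs
    · ring
    · rw [mul_zero, mul_zero]
  rw [Finset.sum_congr rfl fun i _ => h1 i, Finset.sum_congr rfl fun i _ => h2 i,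
    Finset.sum_comm]
  refine Finset.sum_congr rfl fun i _ => Finset.sum_congr rfl fun j _ => ?_
  by_cases h : cl i = cl j
  · rw [if_pos h, if_pos h.symm, h]
  · rw [if_neg h, if_neg (Ne.symm h)]

theorem inner_l1 {Φ : E n → ℝ} (hΦ : Kernel Φ) (cl : Fin N → Fin K) (x : C N n) (w y : E N) :
    inner ℝ (l1 Φ cl x w) y = (2 * N : ℝ)⁻¹ * ∑ i, ∑ j, if cl i = cl j then
      Φ (x i - x j) * ((w i - w j) * (y i - y j)) else 0 := by
  rw [inner_E]
  have hs : ∀ i j, Φ (x j - x i) = Φ (x i - x j) := by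
    intro i j
    rw [← hΦ.even (x i - x j), neg_sub]
  have h1 : ∀ i, l1 Φ cl x w i * y i = (N : ℝ)⁻¹ * ∑ j, if cl i = cl j then
      Φ (x i - x j) * ((w i - w j) * y i) else 0 := by
    intro i
    rw [l1_apply, mul_assoc, Finset.sum_mul]
    refine congrArg _ (Finset.sum_congr rfl fun j _ => ?_)
    split_ifs
    · ring
    · rw [zero_mul]
  rw [Finset.sum_congr rfl fun i _ => h1 i, ← Finset.mul_sum]
  have h2 : (∑ i, ∑ j, if cl i = cl j then Φ (x i - x j) * ((w i - w j) * y i) else 0) =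
      ∑ i, ∑ j, if cl i = cl j then Φ (x i - x j) * ((w i - w j) * (- y j)) else 0 := by
    rw [Finset.sum_comm]
    refine Finset.sum_congr rfl fun i _ => Finset.sum_congr rfl fun j _ => ?_
    by_cases h : cl i = cl j
    · rw [if_pos h, if_pos h.symm, hs i j]
      ring
    · rw [if_neg h, if_neg (Ne.symm h)]
  have h3 : (∑ i, ∑ j, if cl i = cl j then Φ (x i - x j) * ((w i - w j) * (y i - y j)) else 0) =
      (∑ i, ∑ j, if cl i = cl j then Φ (x i - x j) * ((w i - w j) * y i) else 0) +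
      ∑ i, ∑ j, if cl i = cl j then Φ (x i - x j) * ((w i - w j) * (- y j)) else 0 := by
    rw [← Finset.sum_add_distrib]
    refine Finset.sum_congr rfl fun i _ => ?_
    rw [← Finset.sum_add_distrib]
    refine Finset.sum_congr rfl fun j _ => ?_
    split_ifs
    · ring
    · rw [add_zero]
  rw [h3, ← h2, mul_inv]
  ring

theorem sym1 {Φ : E n → ℝ} (hΦ : Kernel Φ) (cl : Fin N → Fin K) (x : C N n) (w y : E N) :
    inner ℝ (l1 Φ cl x w) y = inner ℝ w (l1 Φ cl x y) := by
  rw [real_inner_comm (l1 Φ cl x y) w, inner_l1 hΦ, inner_l1 hΦ]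
  refine congrArg _ (Finset.sum_congr rfl fun i _ => Finset.sum_congr rfl fun j _ => ?_)
  split_ifs
  · ring
  · rfl

theorem l1_io1 (Φ : E n → ℝ) (cl : Fin N → Fin K) (x : C N n) (τ : Fin K → ℝ) :
    l1 Φ cl x (io1 cl τ) = 0 := by
  ext i
  rw [l1_apply, Finset.sum_eq_zero, mul_zero]
  · rfl
  · intro j _
    split_ifs with h
    · rw [io1_apply, io1_apply, h, sub_self, mul_zero]
    · rfl

theorem norm_e {m : ℕ} (i : Fin m) (a : ℝ) : ‖(EuclideanSpace.single i a : E m)‖ = ‖a‖ := by
  simp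

theorem e_apply {m : ℕ} (i j : Fin m) (a : ℝ) :
    (EuclideanSpace.single i a : E m) j = if j = i then a else 0 := by
  simp

theorem gap1 {Φ : E (n + 1) → ℝ} (hΦ : Kernel Φ) (cl : Fin N → Fin K) (x : C N (n + 1)) (lam : ℝ)
    (h : Gap Φ cl lam x) (w : E N) (hw : mu1 cl w = 0) :
    lam * ‖w‖ ^ 2 ≤ inner ℝ (l1 Φ cl x w) w := by
  have h1 := h (fun i => w i • EuclideanSpace.single 0 (1 : ℝ)) (by
    funext a
    unfold mu
    rw [← Finset.sum_smul, smul_smul, ← mu1_apply, hw]
    simp)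
  have h2 : ke (fun i => w i • EuclideanSpace.single (0 : Fin (n + 1)) (1 : ℝ)) = ‖w‖ ^ 2 := by
    unfold ke
    rw [EuclideanSpace.norm_sq_eq]
    refine Finset.sum_congr rfl fun i _ => ?_
    rw [norm_smul, norm_e, norm_one, mul_one]
  rw [h2] at h1
  refine h1.trans (le_of_eq ?_)
  rw [inner_l1 hΦ]
  refine congrArg _ (Finset.sum_congr rfl fun i _ => Finset.sum_congr rfl fun j _ => ?_)
  split_ifs
  · rw [← sub_smul, norm_smul, norm_e, norm_one, mul_one, Real.norm_eq_abs,
      sq_abs]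
    ring
  · rfl

/-! ### identities for `U` and `V'` -/

theorem LpC_apply (Φ : E n → ℝ) (cl : Fin N → Fin K) (x u : C N n) (i : Fin N) :
    LpC Φ cl x u i = (N : ℝ)⁻¹ • ∑ j, if cl i = cl j then Φ (x i - x j) • (u i - u j) else 0 := by
  unfold LpC
  rw [ContinuousLinearMap.pi_apply, smul_apply, sum_apply]
  refine congrArg _ (Finset.sum_congr rfl fun j _ => ?_)
  split_ifs
  · rfl
  · rfl

theorem sum_comp {m M : ℕ} (f : Fin M → E m) (c : Fin m) : (∑ j, f j) c = ∑ j, f j c := by
  rw [WithLp.ofLp_sum, Finset.sum_apply]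

theorem U_Lp (Φ : E n → ℝ) (cl : Fin N → Fin K) (x : C N n) (c : Fin n) (a : Fin K)
    (u : XX N n) : U N n cl c a (cj (LpC Φ cl x) u) = l1 Φ cl x (U N n cl c a u) := by
  ext i
  rw [U_apply, l1_apply]
  have h1 : (cj (LpC Φ cl x) u) i = LpC Φ cl x (ofL N n u) i := rfl
  rw [h1, LpC_apply]
  split_ifs with h
  · show (N : ℝ)⁻¹ * (∑ j, if cl i = cl j then
      Φ (x i - x j) • ((ofL N n u) i - (ofL N n u) j) else 0 : E n) c = _
    rw [sum_comp]
    refine congrArg _ (Finset.sum_congr rfl fun j _ => ?_)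
    by_cases hj : cl i = cl j
    · rw [if_pos hj, if_pos hj, U_apply, U_apply, if_pos h, if_pos (hj ▸ h)]
      rfl
    · rw [if_neg hj, if_neg hj]
      rfl
  · rw [Finset.sum_eq_zero, mul_zero]
    intro j _
    by_cases hj : cl i = cl j
    · rw [if_pos hj, U_apply, U_apply, if_neg h, if_neg (hj ▸ h), sub_self, mul_zero]
    · rw [if_neg hj]

/-- projection to the internal velocities, concrete -/
noncomputable def omX (N n : ℕ) {K : ℕ} (cl : Fin N → Fin K) : XX N n →L[ℝ] XX N n :=
  ContinuousLinearMap.id ℝ (XX N n) - ((toL N n).comp (ioL cl)).comp ((muL cl).comp (ofL N n))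

theorem omX_apply (cl : Fin N → Fin K) (u : XX N n) (i : Fin N) (c : Fin n) :
    (omX N n cl u) i c = u i c - (cnt cl (cl i) : ℝ)⁻¹ *
      ∑ j ∈ Finset.univ.filter (fun j => cl j = cl i), u j c := by
  show u i c - (muL cl (ofL N n u) (cl i)) c = _
  have h1 : muL cl (ofL N n u) (cl i) = (cnt cl (cl i) : ℝ)⁻¹ •
      ∑ j ∈ Finset.univ.filter (fun j => cl j = cl i), u j := by
    show ((cnt cl (cl i) : ℝ)⁻¹ •
      ∑ j ∈ Finset.univ.filter (fun j => cl j = cl i),
        (ContinuousLinearMap.proj j : C N n →L[ℝ] E n)) (ofL N n u) = _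
    rw [smul_apply, sum_apply]
    rfl
  rw [h1]
  show _ - (cnt cl (cl i) : ℝ)⁻¹ * (∑ j ∈ Finset.univ.filter (fun j => cl j = cl i), u j) c = _
  rw [WithLp.ofLp_sum, Finset.sum_apply]

theorem U_om (cl : Fin N → Fin K) (c : Fin n) (a : Fin K) (u : XX N n) :
    U N n cl c a (omX N n cl u) =
      U N n cl c a u - io1 cl (mu1 cl (U N n cl c a u)) := by
  ext i
  show _ = U N n cl c a u i - io1 cl (mu1 cl (U N n cl c a u)) i
  rw [U_apply, io1_apply, mu1_apply, U_apply, omX_apply]
  split_ifs with h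
  · congr 2
    refine Finset.sum_congr rfl fun j hj => ?_
    rw [U_apply, if_pos ((Finset.mem_filter.1 hj).2.trans h)]
  · rw [Finset.sum_eq_zero, mul_zero, sub_zero]
    intro j hj
    rw [U_apply, if_neg (fun h' => h ((Finset.mem_filter.1 hj).2.symm.trans h'))]

theorem U_io (cl : Fin N → Fin K) (c : Fin n) (a : Fin K) (τ : Fin K → E n) :
    U N n cl c a (toL N n (ioL cl τ)) = io1 cl (fun b => if b = a then τ b c else 0) := by
  ext i
  rw [U_apply, io1_apply]
  rfl

theorem sum_VU (cl : Fin N → Fin K) (u : XX N n) :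
    ∑ c, ∑ a, V' N n cl c a (U N n cl c a u) = u := by
  ext i d
  rw [WithLp.ofLp_sum, Finset.sum_apply]
  have h1 : ∀ c : Fin n, (∑ a, V' N n cl c a (U N n cl c a u) : XX N n) i =
      u i c • EuclideanSpace.single c (1 : ℝ) := by
    intro c
    rw [WithLp.ofLp_sum, Finset.sum_apply, Finset.sum_eq_single (cl i)]
    · rw [V'_apply, if_pos rfl, U_apply, if_pos rfl]
    · intro b _ hb
      rw [V'_apply, if_neg (Ne.symm hb)]
    · intro h
      exact absurd (Finset.mem_univ _) h
  rw [Finset.sum_congr rfl fun c _ => h1 c, sum_comp, Finset.sum_eq_single d]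
  · show u i d * (EuclideanSpace.single d (1 : ℝ) : E n) d = u i d
    rw [e_apply, if_pos rfl, mul_one]
  · intro b _ hb
    show u i b * (EuclideanSpace.single b (1 : ℝ) : E n) d = 0
    rw [e_apply, if_neg (Ne.symm hb), mul_zero]
  · intro h
    exact absurd (Finset.mem_univ _) h

theorem inner_VU (cl : Fin N → Fin K) (c : Fin n) (a : Fin K) (w : E N) (u : XX N n) :
    inner ℝ (V' N n cl c a w) u = inner ℝ w (U N n cl c a u) := by
  rw [inner_E, PiLp.inner_apply]
  refine Finset.sum_congr rfl fun i _ => ?_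
  rw [V'_apply, U_apply]
  split_ifs
  · rw [real_inner_smul_left, EuclideanSpace.inner_single_left, map_one, one_mul]
  · rw [inner_zero_left, mul_zero]

/-- the operator on all velocities -/
noncomputable def Th (N n : ℕ) {K : ℕ} (cl : Fin N → Fin K) (B : E N →L[ℝ] E N) :
    XX N n →L[ℝ] XX N n :=
  ∑ c, ∑ a, (V' N n cl c a).comp (B.comp (U N n cl c a))

theorem Th_apply (cl : Fin N → Fin K) (B : E N →L[ℝ] E N) (u : XX N n) :
    Th N n cl B u = ∑ c, ∑ a, V' N n cl c a (B (U N n cl c a u)) := by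
  unfold Th
  rw [sum_apply]
  refine Finset.sum_congr rfl fun c _ => ?_
  rw [sum_apply]
  rfl

theorem sum_U (cl : Fin N → Fin K) (u : XX N n) :
    ∑ c, ∑ a, ‖U N n cl c a u‖ ^ 2 = ‖u‖ ^ 2 := by
  have h1 : ∀ c a, ‖U N n cl c a u‖ ^ 2 =
      inner ℝ (V' N n cl c a (U N n cl c a u)) u := by
    intro c a
    rw [inner_VU, real_inner_self_eq_norm_sq]
  rw [← real_inner_self_eq_norm_sq u]
  conv_rhs => rw [← sum_VU cl u]
  rw [sum_inner]
  refine Finset.sum_congr rfl fun c _ => ?_
  rw [sum_inner]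
  refine Finset.sum_congr rfl fun a _ => ?_
  rw [h1, sum_VU]

theorem norm_Th (cl : Fin N → Fin K) (B : E N →L[ℝ] E N) (b : ℝ) (hb : ‖B‖ ≤ b) :
    ‖Th N n cl B‖ ≤ b := by
  have hb0 : 0 ≤ b := (norm_nonneg _).trans hb
  refine ContinuousLinearMap.opNorm_le_bound _ hb0 fun u => ?_
  have h1 : ‖Th N n cl B u‖ ^ 2 ≤ b * ‖u‖ * ‖Th N n cl B u‖ := by
    set w := Th N n cl B u with hw
    have e1 : inner ℝ w w = inner ℝ (∑ c, ∑ a, V' N n cl c a (B (U N n cl c a u))) w :=
      congrArg (fun y => inner ℝ y w) (Th_apply cl B u)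
    rw [← real_inner_self_eq_norm_sq, e1, sum_inner]
    have h2 : ∀ c ∈ (Finset.univ : Finset (Fin n)),
        inner ℝ (∑ a, V' N n cl c a (B (U N n cl c a u))) w ≤
        ∑ a, b * (‖U N n cl c a u‖ * ‖U N n cl c a w‖) := by
      intro c _
      rw [sum_inner]
      refine Finset.sum_le_sum fun a _ => ?_
      rw [inner_VU]
      calc inner ℝ (B (U N n cl c a u)) (U N n cl c a w)
          ≤ ‖B (U N n cl c a u)‖ * ‖U N n cl c a w‖ := real_inner_le_norm _ _
        _ ≤ (b * ‖U N n cl c a u‖) * ‖U N n cl c a w‖ :=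
          mul_le_mul_of_nonneg_right ((B.le_opNorm _).trans
            (mul_le_mul_of_nonneg_right hb (norm_nonneg _))) (norm_nonneg _)
        _ = _ := by ring
    refine (Finset.sum_le_sum h2).trans ?_
    have h3 : ∑ c, ∑ a, b * (‖U N n cl c a u‖ * ‖U N n cl c a w‖) =
        b * ∑ p : Fin n × Fin K, ‖U N n cl p.1 p.2 u‖ * ‖U N n cl p.1 p.2 w‖ := by
      rw [Finset.mul_sum, Fintype.sum_prod_type]
    rw [h3, mul_assoc]
    refine mul_le_mul_of_nonneg_left ?_ hb0
    refine abs_le_of_sq_le_sq' ?_ (by positivity) |>.2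
    rw [mul_pow, ← sum_U cl u, ← sum_U cl w, ← Fintype.sum_prod_type', ← Fintype.sum_prod_type']
    exact Finset.sum_mul_sq_le_sq_mul_sq _ _ _
  rcases eq_or_lt_of_le (norm_nonneg (Th N n cl B u)) with h | h
  · rw [← h]
    positivity
  · rw [sq] at h1
    exact le_of_mul_le_mul_right h1 h

/-- composition with fixed operators on both sides -/
noncomputable def both {Q Y Z W : Type} [NormedAddCommGroup Q] [NormedSpace ℝ Q]
    [NormedAddCommGroup Y] [NormedSpace ℝ Y] [NormedAddCommGroup Z] [NormedSpace ℝ Z]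
    [NormedAddCommGroup W] [NormedSpace ℝ W] (L : Y →L[ℝ] Z) (B : W →L[ℝ] Q) :
    (Q →L[ℝ] Y) →L[ℝ] (W →L[ℝ] Z) :=
  (ContinuousLinearMap.compL ℝ W Y Z L).comp ((ContinuousLinearMap.compL ℝ W Q Y).flip B)

theorem deriv_both {Q Y Z W : Type} [NormedAddCommGroup Q] [NormedSpace ℝ Q]
    [NormedAddCommGroup Y] [NormedSpace ℝ Y] [NormedAddCommGroup Z] [NormedSpace ℝ Z]
    [NormedAddCommGroup W] [NormedSpace ℝ W] (L : Y →L[ℝ] Z) (B : W →L[ℝ] Q)
    {A : ℝ → Q →L[ℝ] Y} {A' : Q →L[ℝ] Y} {S : Set ℝ} {t : ℝ} (h : HasDerivWithinAt A A' S t) :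
    HasDerivWithinAt (fun s => L.comp ((A s).comp B)) (L.comp (A'.comp B)) S t :=
  (both L B).hasFDerivAt.comp_hasDerivWithinAt t h

theorem deriv_Th (cl : Fin N → Fin K) {A : ℝ → E N →L[ℝ] E N} {A' : E N →L[ℝ] E N} {S : Set ℝ}
    {t : ℝ} (h : HasDerivWithinAt A A' S t) :
    HasDerivWithinAt (fun s => Th N n cl (A s)) (Th N n cl A') S t :=
  HasDerivWithinAt.fun_sum fun c _ => HasDerivWithinAt.fun_sum fun a _ =>
    deriv_both (V' N n cl c a) (U N n cl c a) h

theorem Th_zero (cl : Fin N → Fin K) : Th N n cl 0 = 0 := by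
  apply ContinuousLinearMap.ext
  intro u
  rw [Th_apply]
  simp

theorem Th_eq (Φ : E n → ℝ) (cl : Fin N → Fin K) (x : C N n) (B : E N →L[ℝ] E N) :
    Th N n cl (B.comp (l1 Φ cl x) - (ContinuousLinearMap.id ℝ (E N) - (io1 cl).comp (mu1 cl))) =
      (Th N n cl B).comp (cj (LpC Φ cl x)) - omX N n cl := by
  apply ContinuousLinearMap.ext
  intro u
  show _ = Th N n cl B (cj (LpC Φ cl x) u) - omX N n cl u
  conv_rhs => rw [← sum_VU cl (omX N n cl u)]
  rw [Th_apply, Th_apply, ← Finset.sum_sub_distrib]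
  refine Finset.sum_congr rfl fun c _ => ?_
  rw [← Finset.sum_sub_distrib]
  refine Finset.sum_congr rfl fun a _ => ?_
  rw [U_om, U_Lp, ← map_sub]
  rfl

theorem Th_io (cl : Fin N → Fin K) (B : E N →L[ℝ] E N) (hB : B.comp (io1 cl) = 0) :
    (Th N n cl B).comp ((toL N n).comp (ioL cl)) = 0 := by
  apply ContinuousLinearMap.ext
  intro τ
  show Th N n cl B (toL N n (ioL cl τ)) = 0
  rw [Th_apply]
  refine Finset.sum_eq_zero fun c _ => Finset.sum_eq_zero fun a _ => ?_
  rw [U_io]
  have h := congrArg (fun L : (Fin K → ℝ) →L[ℝ] E N => L (fun b => if b = a then τ b c else 0)) hB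
  have h' : B (io1 cl (fun b => if b = a then τ b c else 0)) = 0 := h
  rw [h', map_zero]

/-! ### the trace -/

theorem U_single (cl : Fin N → Fin K) (c : Fin n) (a : Fin K) (k : Fin N) (y : E n) :
    U N n cl c a (toL N n (Pi.single k y)) =
      if cl k = a then (y c) • EuclideanSpace.single k (1 : ℝ) else 0 := by
  ext i
  rw [U_apply]
  have h1 : (toL N n (Pi.single k y)) i = (Pi.single k y : Fin N → E n) i := rfl
  rw [h1]
  by_cases hik : i = k
  · subst hik
    rw [Pi.single_eq_same]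
    split_ifs
    · show y c = y c * (EuclideanSpace.single i (1 : ℝ) : E N) i
      rw [e_apply, if_pos rfl, mul_one]
    · rfl
  · rw [Pi.single_eq_of_ne hik]
    have h2 : ((y c) • EuclideanSpace.single k (1 : ℝ) : E N) i = 0 := by
      show y c * (EuclideanSpace.single k (1 : ℝ) : E N) i = 0
      rw [e_apply, if_neg hik, mul_zero]
    by_cases hk : cl k = a
    · rw [if_pos hk, h2]
      split_ifs
      · rfl
      · rfl
    · rw [if_neg hk]
      split_ifs
      · rfl
      · rfl

theorem Th_single (cl : Fin N → Fin K) (B : E N →L[ℝ] E N) (k : Fin N) (y : E n) (i : Fin N) :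
    (Th N n cl B (toL N n (Pi.single k y))) i =
      if cl i = cl k then (B (EuclideanSpace.single k 1) i) • y else 0 := by
  rw [Th_apply, WithLp.ofLp_sum, Finset.sum_apply]
  have h1 : ∀ c : Fin n, (∑ a, V' N n cl c a (B (U N n cl c a (toL N n (Pi.single k y)))) :
      XX N n) i = if cl i = cl k then
        (y c * B (EuclideanSpace.single k 1) i) • EuclideanSpace.single c (1 : ℝ) else 0 := by
    intro c
    rw [WithLp.ofLp_sum, Finset.sum_apply, Finset.sum_eq_single (cl i)]
    · rw [V'_apply, if_pos rfl, U_single]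
      by_cases h : cl i = cl k
      · rw [if_pos h, if_pos h.symm, map_smul]
        rfl
      · rw [if_neg h, if_neg (Ne.symm h), map_zero]
        exact zero_smul ℝ _
    · intro b _ hb
      rw [V'_apply, if_neg (Ne.symm hb)]
    · intro h
      exact absurd (Finset.mem_univ _) h
  rw [Finset.sum_congr rfl fun c _ => h1 c]
  split_ifs with h
  · ext d
    rw [sum_comp, Finset.sum_eq_single d]
    · show y d * B (EuclideanSpace.single k 1) i * (EuclideanSpace.single d (1 : ℝ) : E n) d =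
        B (EuclideanSpace.single k 1) i * y d
      rw [e_apply, if_pos rfl, mul_one, mul_comm]
    · intro b _ hb
      show y b * B (EuclideanSpace.single k 1) i * (EuclideanSpace.single b (1 : ℝ) : E n) d = 0
      rw [e_apply, if_neg (Ne.symm hb), mul_zero]
    · intro h
      exact absurd (Finset.mem_univ _) h
  · exact Finset.sum_const_zero

/-- the linear forms in the external operator -/
noncomputable def ff (Φ : E n → ℝ) (x : C N n) (k j : Fin N) : XX N n →L[ℝ] ℝ :=
  (fderiv ℝ Φ (x k - x j)).comp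
    (((ContinuousLinearMap.proj k : C N n →L[ℝ] E n) - ContinuousLinearMap.proj j).comp (ofL N n))

theorem GeC_apply (Φ : E n → ℝ) (cl : Fin N → Fin K) (z : P N n) (u : C N n) (i : Fin N) :
    GeC Φ cl z u i = (N : ℝ)⁻¹ • ∑ j, if cl i = cl j then 0 else
      fderiv ℝ Φ (z.1 i - z.1 j) (u i - u j) • (z.2 j - z.2 i) := by
  unfold GeC
  rw [ContinuousLinearMap.pi_apply, smul_apply, sum_apply]
  refine congrArg _ (Finset.sum_congr rfl fun j _ => ?_)
  split_ifs
  · rfl
  · rfl

theorem Ge_eq (Φ : E n → ℝ) (cl : Fin N → Fin K) (z : P N n) (u : XX N n) :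
    cj (GeC Φ cl z) u = ∑ k, ∑ j, if cl k = cl j then 0 else
      ((N : ℝ)⁻¹ * ff Φ z.1 k j u) • toL N n (Pi.single k (z.2 j - z.2 k)) := by
  ext i : 1
  have h0 : (cj (GeC Φ cl z) u) i = GeC Φ cl z (ofL N n u) i := rfl
  rw [h0, GeC_apply, WithLp.ofLp_sum, Finset.sum_apply]
  refine Eq.trans ?_ (Finset.sum_eq_single i ?_ ?_).symm
  · rw [WithLp.ofLp_sum, Finset.sum_apply, Finset.smul_sum]
    refine Finset.sum_congr rfl fun j _ => ?_
    split_ifs
    · exact smul_zero _
    · rw [smul_smul]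
      show _ = ((N : ℝ)⁻¹ * ff Φ z.1 i j u) • (Pi.single i (z.2 j - z.2 i) : Fin N → E n) i
      rw [Pi.single_eq_same]
      rfl
  · intro k _ hk
    rw [WithLp.ofLp_sum, Finset.sum_apply]
    refine Finset.sum_eq_zero fun j _ => ?_
    split_ifs
    · rfl
    · show ((N : ℝ)⁻¹ * ff Φ z.1 k j u) • (Pi.single k (z.2 j - z.2 k) : Fin N → E n) i = 0
      rw [Pi.single_eq_of_ne (Ne.symm hk), smul_zero]
  · intro h
    exact absurd (Finset.mem_univ _) h

theorem trace_Th (Φ : E n → ℝ) (cl : Fin N → Fin K) (z : P N n) (B : E N →L[ℝ] E N) :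
    LinearMap.trace ℝ (XX N n) (((Th N n cl B).comp (cj (GeC Φ cl z)) : XX N n →L[ℝ] XX N n) :
      XX N n →ₗ[ℝ] XX N n) =
      ∑ k, (N : ℝ)⁻¹ * (B (EuclideanSpace.single k 1) k * ∑ j, if cl k = cl j then 0 else
        fderiv ℝ Φ (z.1 k - z.1 j) (z.2 j - z.2 k)) := by
  have h1 : (((Th N n cl B).comp (cj (GeC Φ cl z)) : XX N n →L[ℝ] XX N n) :
      XX N n →ₗ[ℝ] XX N n) = ∑ k, ∑ j, if cl k = cl j then 0 else
      (((N : ℝ)⁻¹ • (ff Φ z.1 k j : XX N n →ₗ[ℝ] ℝ)).smulRight
        (Th N n cl B (toL N n (Pi.single k (z.2 j - z.2 k))))) := by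
    apply LinearMap.ext
    intro u
    rw [LinearMap.sum_apply]
    show Th N n cl B (cj (GeC Φ cl z) u) = _
    rw [Ge_eq, map_sum]
    refine Finset.sum_congr rfl fun k _ => ?_
    rw [map_sum, LinearMap.sum_apply]
    refine Finset.sum_congr rfl fun j _ => ?_
    split_ifs
    · exact map_zero _
    · rw [map_smul]
      rfl
  rw [h1, map_sum]
  refine Finset.sum_congr rfl fun k _ => ?_
  rw [map_sum, Finset.mul_sum, Finset.mul_sum]
  refine Finset.sum_congr rfl fun j _ => ?_
  split_ifs with h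
  · rw [map_zero, mul_zero, mul_zero]
  · rw [LinearMap.trace_smulRight]
    show (N : ℝ)⁻¹ * (fderiv ℝ Φ (z.1 k - z.1 j)
      ((Th N n cl B (toL N n (Pi.single k (z.2 j - z.2 k)))) k -
        (Th N n cl B (toL N n (Pi.single k (z.2 j - z.2 k)))) j)) = _
    rw [Th_single, Th_single, if_pos rfl, if_neg (Ne.symm h), sub_zero, map_smul, smul_eq_mul]

/-! ### estimates -/

theorem norm_l1 (Φ : E n → ℝ) (cl : Fin N → Fin K) (x : C N n) (A0 : ℝ) (hA0 : ∀ y, |Φ y| ≤ A0)
    (k : Fin N) : ‖l1 Φ cl x (EuclideanSpace.single k 1)‖ ≤ N * A0 := by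
  have hA : 0 ≤ A0 := (abs_nonneg _).trans (hA0 0)
  have hN : (1 : ℝ) ≤ N := by
    have : 1 ≤ N := Nat.one_le_iff_ne_zero.2 (fun h => by subst h; exact k.elim0)
    exact_mod_cast this
  have h1 : ∀ i, |l1 Φ cl x (EuclideanSpace.single k 1) i| ≤ A0 := by
    intro i
    rw [l1_apply, abs_mul, abs_of_nonneg (by positivity)]
    have h2 : |∑ j, if cl i = cl j then Φ (x i - x j) *
        ((EuclideanSpace.single k (1 : ℝ) : E N) i - (EuclideanSpace.single k (1 : ℝ) : E N) j)
          else 0| ≤ N * A0 := by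
      refine (Finset.abs_sum_le_sum_abs _ _).trans ?_
      have h3 : ∀ j ∈ (Finset.univ : Finset (Fin N)), |if cl i = cl j then Φ (x i - x j) *
        ((EuclideanSpace.single k (1 : ℝ) : E N) i - (EuclideanSpace.single k (1 : ℝ) : E N) j)
          else 0| ≤ A0 := by
        intro j _
        split_ifs
        · rw [abs_mul, e_apply, e_apply]
          have h4 : |(if i = k then (1 : ℝ) else 0) - if j = k then (1 : ℝ) else 0| ≤ 1 := by
            split_ifs <;> norm_num
          calc |Φ (x i - x j)| * |(if i = k then (1 : ℝ) else 0) - if j = k then (1 : ℝ) else 0|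
              ≤ A0 * 1 := mul_le_mul (hA0 _) h4 (abs_nonneg _) hA
            _ = A0 := mul_one _
        · rw [abs_zero]; exact hA
      refine (Finset.sum_le_sum h3).trans (le_of_eq ?_)
      rw [Finset.sum_const, Finset.card_univ, Fintype.card_fin, nsmul_eq_mul]
    calc (N : ℝ)⁻¹ * _ ≤ (N : ℝ)⁻¹ * (N * A0) := mul_le_mul_of_nonneg_left h2 (by positivity)
      _ = A0 := by
        rw [← mul_assoc, inv_mul_cancel₀ (by linarith), one_mul]
  have h5 : ‖l1 Φ cl x (EuclideanSpace.single k 1)‖ ^ 2 ≤ (N * A0) ^ 2 := by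
    rw [EuclideanSpace.norm_sq_eq]
    have h6 : ∀ i ∈ (Finset.univ : Finset (Fin N)),
        ‖l1 Φ cl x (EuclideanSpace.single k 1) i‖ ^ 2 ≤ A0 ^ 2 := by
      intro i _
      rw [Real.norm_eq_abs]
      exact pow_le_pow_left₀ (abs_nonneg _) (h1 i) 2
    refine (Finset.sum_le_sum h6).trans ?_
    rw [Finset.sum_const, Finset.card_univ, Fintype.card_fin, nsmul_eq_mul, mul_pow]
    refine mul_le_mul_of_nonneg_right ?_ (by positivity)
    nlinarith
  exact (pow_le_pow_iff_left₀ (norm_nonneg _) (by positivity) two_ne_zero).1 h5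

theorem om1_e (cl : Fin N → Fin K) (k : Fin N) :
    |((ContinuousLinearMap.id ℝ (E N) - (io1 cl).comp (mu1 cl)) (EuclideanSpace.single k 1)) k| ≤
      2 := by
  show |(EuclideanSpace.single k (1 : ℝ) : E N) k -
    mu1 cl (EuclideanSpace.single k 1) (cl k)| ≤ 2
  rw [e_apply, if_pos rfl, mu1_apply, Finset.sum_eq_single k]
  · rw [e_apply, if_pos rfl, mul_one]
    have h1 : (0 : ℝ) ≤ (cnt cl (cl k) : ℝ)⁻¹ := by positivity
    have h2 : (cnt cl (cl k) : ℝ)⁻¹ ≤ 1 := Nat.cast_inv_le_one _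
    rw [abs_le]
    constructor <;> linarith
  · intro j _ hj
    rw [e_apply, if_neg hj]
  · intro h
    exact absurd (by simp) h

theorem cont_l1 {Φ : E n → ℝ} (hΦ : Continuous Φ) (cl : Fin N → Fin K) {x : ℝ → C N n} {S : Set ℝ}
    (hx : ContinuousOn x S) : ContinuousOn (fun t => l1 Φ cl (x t)) S := by
  rw [continuousOn_clm_apply]
  intro w
  have h1 : (fun t => l1 Φ cl (x t) w) = fun t => toE N (fun i =>
      (N : ℝ)⁻¹ * ∑ j, if cl i = cl j then Φ (x t i - x t j) * (w i - w j) else 0) := by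
    funext t
    ext i
    rw [l1_apply, toE_apply]
  rw [h1]
  refine (toE N).continuous.comp_continuousOn (continuousOn_pi.2 fun i => ?_)
  refine continuousOn_const.mul (continuousOn_finsetSum _ fun j _ => ?_)
  split_ifs
  · refine ContinuousOn.mul (hΦ.comp_continuousOn ?_) continuousOn_const
    exact ((continuous_apply i).comp_continuousOn hx).sub ((continuous_apply j).comp_continuousOn hx)
  · exact continuousOn_const

/-- interaction of one agent with the other clusters -/
noncomputable def FF (Φ : E n → ℝ) (cl : Fin N → Fin K) (x : C N n) (k : Fin N) : ℝ :=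
  ∑ j, if cl k = cl j then 0 else Φ (x k - x j)

/-- its derivative -/
noncomputable def FD (Φ : E n → ℝ) (cl : Fin N → Fin K) (x v : C N n) (k : Fin N) : ℝ :=
  ∑ j, if cl k = cl j then 0 else fderiv ℝ Φ (x k - x j) (v k - v j)

theorem FF_nonneg {Φ : E n → ℝ} (hΦ : Kernel Φ) (cl : Fin N → Fin K) (x : C N n) (k : Fin N) :
    0 ≤ FF Φ cl x k := by
  refine Finset.sum_nonneg fun j _ => ?_
  split_ifs
  · exact le_refl _
  · exact hΦ.nonneg _

theorem sum_FF (Φ : E n → ℝ) (cl : Fin N → Fin K) (x : C N n) : ∑ k, FF Φ cl x k = qI Φ cl x := rfl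

theorem deriv_FF {Φ : E n → ℝ} (hΦ : Kernel Φ) (cl : Fin N → Fin K) {x v : ℝ → C N n}
    {S : Set ℝ} {t : ℝ} (hx : HasDerivWithinAt x (v t) S t) (k : Fin N) :
    HasDerivWithinAt (fun s => FF Φ cl (x s) k) (FD Φ cl (x t) (v t) k) S t := by
  have hd : Differentiable ℝ Φ := hΦ.smooth.differentiable one_ne_zero
  have hk : ∀ j, HasDerivWithinAt (fun s => x s j) (v t j) S t := hasDerivWithinAt_pi.1 hx
  unfold FF FD
  refine HasDerivWithinAt.fun_sum fun j _ => ?_
  split_ifs
  · exact hasDerivWithinAt_const _ _ _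
  · exact (hd (x t k - x t j)).hasFDerivAt.comp_hasDerivWithinAt t ((hk k).fun_sub (hk j))

theorem cont_FD {Φ : E n → ℝ} (hΦ : Kernel Φ) (cl : Fin N → Fin K) {x v : ℝ → C N n} {S : Set ℝ}
    (hx : ContinuousOn x S) (hv : ContinuousOn v S) (k : Fin N) :
    ContinuousOn (fun t => FD Φ cl (x t) (v t) k) S := by
  have hd : Continuous (fderiv ℝ Φ) := hΦ.smooth.continuous_fderiv (by norm_num)
  have hxk : ∀ j, ContinuousOn (fun t => x t j) S := fun j =>
    (continuous_apply j).comp_continuousOn hx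
  have hvk : ∀ j, ContinuousOn (fun t => v t j) S := fun j =>
    (continuous_apply j).comp_continuousOn hv
  unfold FD
  refine continuousOn_finsetSum _ fun j _ => ?_
  split_ifs
  · exact continuousOn_const
  · exact (hd.comp_continuousOn ((hxk k).sub (hxk j))).clm_apply ((hvk k).sub (hvk j))

end I_HADX

open I_HADX in
theorem I_HAD (hA : ADJ) (hP : PERB) : HAD := by
  intro n N K Φ cl lam R hΦ hcl hlam hlam1
  obtain ⟨A0, hA0⟩ := hP n Φ hΦ
  have hA0' : 0 ≤ A0 := (abs_nonneg _).trans (hA0 0).1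
  refine ⟨1 / lam + (1 / lam * (N * A0) + 2), by positivity, ?_⟩
  intro eps heps heps1 x v hfl hgood T hT
  have hx : ∀ t ∈ Icc 0 T, HasDerivWithinAt x (v t) (Icc 0 T) t := fun t ht =>
    (hfl t ht.1).1.mono Icc_subset_Ici_self
  have hxc : ContinuousOn x (Icc 0 T) := fun t ht => (hx t ht).continuousWithinAt
  have hvc : ContinuousOn v (Icc 0 T) := fun t ht =>
    ((hfl t ht.1).2.mono Icc_subset_Ici_self).continuousWithinAt
  rcases n with _ | n
  · refine ⟨fun _ => 0, rfl, fun t ht => ⟨?_, ?_, ?_⟩, ?_⟩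
    · have h0 : ((0 : XX N 0 →L[ℝ] XX N 0).comp ((dat Φ cl (fun r => (x r, v r))).Lp t) -
          (dat Φ cl (fun r => (x r, v r))).om) = 0 := by
        apply ContinuousLinearMap.ext
        intro u
        ext i c
        exact c.elim0
      rw [h0]
      exact hasDerivWithinAt_const _ _ _
    · rw [norm_zero]
      positivity
    · rfl
    · have h1 : ∀ t, LinearMap.trace ℝ (XX N 0)
          (((0 : XX N 0 →L[ℝ] XX N 0).comp ((dat Φ cl (fun r => (x r, v r))).Ge t) :
            XX N 0 →L[ℝ] XX N 0) : XX N 0 →ₗ[ℝ] XX N 0) = 0 := by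
        intro t
        exact map_zero _
      simp only [h1]
      rw [intervalIntegral.integral_zero, abs_zero]
      positivity
  obtain ⟨H1, hT1, h1⟩ := hA (E N) (Fin K → ℝ) (io1 cl) (mu1 cl) (mu1_io1 cl hcl) (orth1 cl) lam T
    hlam hT (fun t => l1 Φ cl (x t)) (cont_l1 hΦ.smooth.continuous cl hxc) fun t ht =>
      ⟨sym1 hΦ cl (x t), l1_io1 Φ cl (x t), gap1 hΦ cl (x t) lam (hgood.gap t ht.1)⟩
  refine ⟨fun t => Th N (n + 1) cl (H1 t), ?_, fun t ht => ⟨?_, ?_, ?_⟩, ?_⟩
  · show Th N (n + 1) cl (H1 T) = 0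
    rw [hT1, Th_zero]
  · have h2 := deriv_Th (n := n + 1) cl (h1 t ht).1
    rw [Th_eq Φ cl (x t)] at h2
    exact h2
  · exact norm_Th cl (H1 t) (1 / lam) (h1 t ht).2.1
  · exact Th_io cl (H1 t) (h1 t ht).2.2.1
  · have htr : ∀ t, LinearMap.trace ℝ (XX N (n + 1))
        (((Th N (n + 1) cl (H1 t)).comp ((dat Φ cl (fun r => (x r, v r))).Ge t) :
          XX N (n + 1) →L[ℝ] XX N (n + 1)) : XX N (n + 1) →ₗ[ℝ] XX N (n + 1)) =
        ∑ k, (-(N : ℝ)⁻¹) * (H1 t (EuclideanSpace.single k 1) k * FD Φ cl (x t) (v t) k) := by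
      intro t
      refine (trace_Th Φ cl (x t, v t) (H1 t)).trans (Finset.sum_congr rfl fun k _ => ?_)
      have h3 : (∑ j, if cl k = cl j then 0 else fderiv ℝ Φ (x t k - x t j) (v t j - v t k)) =
          - FD Φ cl (x t) (v t) k := by
        unfold FD
        rw [← Finset.sum_neg_distrib]
        refine Finset.sum_congr rfl fun j _ => ?_
        split_ifs
        · rw [neg_zero]
        · rw [← map_neg, neg_sub]
      show (N : ℝ)⁻¹ * (H1 t (EuclideanSpace.single k 1) k *
        ∑ j, if cl k = cl j then 0 else fderiv ℝ Φ (x t k - x t j) (v t j - v t k)) = _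
      rw [h3]
      ring
    simp only [htr]
    have hI : Set.uIcc 0 T = Icc 0 T := Set.uIcc_of_le hT
    set om1 : E N →L[ℝ] E N := ContinuousLinearMap.id ℝ (E N) - (io1 cl).comp (mu1 cl) with hom1
    have hH1c : ContinuousOn H1 (Icc 0 T) := fun t ht => (h1 t ht).1.continuousWithinAt
    have hev : ∀ (k : Fin N) (B : E N →L[ℝ] E N), ((EuclideanSpace.proj k : E N →L[ℝ] ℝ).comp
        (ContinuousLinearMap.apply ℝ (E N) (EuclideanSpace.single k (1 : ℝ)))) B =
        B (EuclideanSpace.single k 1) k := fun k B => rfl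
    have hb : ∀ k, ∀ t ∈ Icc 0 T, HasDerivWithinAt (fun s => H1 s (EuclideanSpace.single k 1) k)
        (((H1 t).comp (l1 Φ cl (x t)) - om1) (EuclideanSpace.single k 1) k) (Icc 0 T) t := by
      intro k t ht
      exact ((EuclideanSpace.proj k : E N →L[ℝ] ℝ).comp
        (ContinuousLinearMap.apply ℝ (E N)
          (EuclideanSpace.single k (1 : ℝ)))).hasFDerivAt.comp_hasDerivWithinAt t (h1 t ht).1
    have hbc : ∀ k, ContinuousOn (fun t => ((H1 t).comp (l1 Φ cl (x t)) - om1)
        (EuclideanSpace.single k 1) k) (Icc 0 T) := by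
      intro k
      exact ((EuclideanSpace.proj k : E N →L[ℝ] ℝ).comp
        (ContinuousLinearMap.apply ℝ (E N)
          (EuclideanSpace.single k (1 : ℝ)))).continuous.comp_continuousOn
        ((hH1c.clm_comp (cont_l1 hΦ.smooth.continuous cl hxc)).sub continuousOn_const)
    have hF : ∀ k, ∀ t ∈ Icc 0 T, HasDerivWithinAt (fun s => FF Φ cl (x s) k)
        (FD Φ cl (x t) (v t) k) (Icc 0 T) t := fun k t ht => deriv_FF hΦ cl (hx t ht) k
    have hFc : ∀ k, ContinuousOn (fun s => FF Φ cl (x s) k) (Icc 0 T) := fun k t ht =>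
      (hF k t ht).continuousWithinAt
    have hbc0 : ∀ k, ContinuousOn (fun s => H1 s (EuclideanSpace.single k 1) k) (Icc 0 T) :=
      fun k t ht => (hb k t ht).continuousWithinAt
    have hFD := cont_FD hΦ cl hxc hvc
    have hbb : ∀ k, ∀ t ∈ Icc 0 T, |((H1 t).comp (l1 Φ cl (x t)) - om1)
        (EuclideanSpace.single k 1) k| ≤ 1 / lam * (N * A0) + 2 := by
      intro k t ht
      show |H1 t (l1 Φ cl (x t) (EuclideanSpace.single k 1)) k -
        om1 (EuclideanSpace.single k 1) k| ≤ _
      refine (abs_sub _ _).trans (add_le_add ?_ (om1_e cl k))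
      have h4 := PiLp.norm_apply_le (H1 t (l1 Φ cl (x t) (EuclideanSpace.single k 1))) k
      rw [Real.norm_eq_abs] at h4
      refine h4.trans (((H1 t).le_opNorm _).trans ?_)
      exact mul_le_mul (h1 t ht).2.1 (norm_l1 Φ cl (x t) A0 (fun y => (hA0 y).1) k)
        (norm_nonneg _) (by positivity)
    have hint : ∀ k, |∫ t in (0 : ℝ)..T, H1 t (EuclideanSpace.single k 1) k *
        FD Φ cl (x t) (v t) k| ≤ 1 / lam * FF Φ cl (x 0) k +
          (1 / lam * (N * A0) + 2) * ∫ t in (0 : ℝ)..T, FF Φ cl (x t) k := by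
      intro k
      rw [intervalIntegral.integral_mul_deriv_eq_deriv_mul_of_hasDerivWithinAt
        (u := fun t => H1 t (EuclideanSpace.single k 1) k)
        (v := fun t => FF Φ cl (x t) k)
        (u' := fun t => ((H1 t).comp (l1 Φ cl (x t)) - om1) (EuclideanSpace.single k 1) k)
        (by rw [hI]; exact hb k) (by rw [hI]; exact hF k)
        ((hI ▸ hbc k : ContinuousOn _ (Set.uIcc 0 T)).intervalIntegrable)
        ((hI ▸ hFD k : ContinuousOn _ (Set.uIcc 0 T)).intervalIntegrable)]
      have e1 : (H1 T) (EuclideanSpace.single k 1) k = 0 := by rw [hT1]; rfl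
      rw [e1, zero_mul, zero_sub]
      refine (abs_sub _ _).trans (add_le_add ?_ ?_)
      · rw [abs_neg, abs_mul, abs_of_nonneg (FF_nonneg hΦ cl (x 0) k)]
        refine mul_le_mul_of_nonneg_right ?_ (FF_nonneg hΦ cl (x 0) k)
        have h4 := PiLp.norm_apply_le (H1 0 (EuclideanSpace.single k 1)) k
        rw [Real.norm_eq_abs] at h4
        refine h4.trans (((H1 0).le_opNorm _).trans ?_)
        rw [norm_e, norm_one, mul_one]
        exact (h1 0 ⟨le_refl _, hT⟩).2.1
      · rw [← intervalIntegral.integral_const_mul]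
        refine (intervalIntegral.abs_integral_le_integral_abs hT).trans ?_
        refine intervalIntegral.integral_mono_on hT ?_ ?_ ?_
        · exact ((hI ▸ ((hbc k).mul (hFc k)).abs :
            ContinuousOn _ (Set.uIcc 0 T)).intervalIntegrable)
        · exact ((hI ▸ (continuousOn_const.mul (hFc k)) :
            ContinuousOn _ (Set.uIcc 0 T)).intervalIntegrable)
        · intro t ht
          rw [abs_mul, abs_of_nonneg (FF_nonneg hΦ cl (x t) k)]
          exact mul_le_mul_of_nonneg_right (hbb k t ht) (FF_nonneg hΦ cl (x t) k)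
    rw [intervalIntegral.integral_finsetSum]
    · refine (Finset.abs_sum_le_sum_abs _ _).trans ?_
      have hN1 : |-(N : ℝ)⁻¹| ≤ 1 := by
        rw [abs_neg, abs_of_nonneg (by positivity)]
        exact Nat.cast_inv_le_one _
      have h5 : ∀ k ∈ (Finset.univ : Finset (Fin N)), |∫ t in (0 : ℝ)..T, (-(N : ℝ)⁻¹) *
          (H1 t (EuclideanSpace.single k 1) k * FD Φ cl (x t) (v t) k)| ≤
          1 / lam * FF Φ cl (x 0) k +
          (1 / lam * (N * A0) + 2) * ∫ t in (0 : ℝ)..T, FF Φ cl (x t) k := by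
        intro k _
        rw [intervalIntegral.integral_const_mul, abs_mul]
        calc |-(N : ℝ)⁻¹| * |∫ t in (0 : ℝ)..T, H1 t (EuclideanSpace.single k 1) k *
              FD Φ cl (x t) (v t) k|
            ≤ 1 * |∫ t in (0 : ℝ)..T, H1 t (EuclideanSpace.single k 1) k *
              FD Φ cl (x t) (v t) k| := mul_le_mul_of_nonneg_right hN1 (abs_nonneg _)
          _ ≤ _ := by rw [one_mul]; exact hint k
      refine (Finset.sum_le_sum h5).trans ?_
      rw [Finset.sum_add_distrib, ← Finset.mul_sum, ← Finset.mul_sum, sum_FF,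
        ← intervalIntegral.integral_finsetSum]
      · have h6 : (fun t => ∑ k, FF Φ cl (x t) k) = fun t => qI Φ cl (x t) := rfl
        have h7 : (∫ t in (0 : ℝ)..T, ∑ k, FF Φ cl (x t) k) ≤ eps ^ 2 := by
          rw [show (∫ t in (0 : ℝ)..T, ∑ k, FF Φ cl (x t) k) =
            ∫ t in (0 : ℝ)..T, qI Φ cl (x t) from rfl]
          exact hgood.q_int T hT
        have h8 := hgood.q_le 0 (le_refl _)
        have h9 : eps ^ 2 ≤ eps := by nlinarith
        have h10 : (0 : ℝ) ≤ 1 / lam := by positivity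
        have h11 : (0 : ℝ) ≤ 1 / lam * (N * A0) + 2 := by positivity
        calc 1 / lam * qI Φ cl (x 0) + (1 / lam * (N * A0) + 2) *
              ∫ t in (0 : ℝ)..T, ∑ k, FF Φ cl (x t) k
            ≤ 1 / lam * eps + (1 / lam * (N * A0) + 2) * eps :=
              add_le_add (mul_le_mul_of_nonneg_left (h8.trans h9) h10)
                (mul_le_mul_of_nonneg_left (h7.trans h9) h11)
          _ = _ := by ring
      · intro k _
        exact ((hI ▸ hFc k : ContinuousOn _ (Set.uIcc 0 T)).intervalIntegrable)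
    · intro k _
      exact ((hI ▸ (continuousOn_const.mul ((hbc0 k).mul (hFD k))) :
        ContinuousOn _ (Set.uIcc 0 T)).intervalIntegrable)

end Pool.Agent.Work.MP_c9f990_an.Al

end

section

set_option autoImplicit false

/-!
# Volume of a set meeting every lattice class at most once
-/

open MeasureTheory Set Filter Topology
open scoped NNReal ENNReal

namespace Pool.Agent.Work.MP_c9f990_an.Al

namespace I_LIFTX

variable {N n K : ℕ}

theorem latC_apply (m : Fin N → Fin n → ℤ) (i : Fin N) (k : Fin n) :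
    (latC m : C N n) i k = 2 * Real.pi * (m i k : ℝ) := rfl

/-- box of one agent -/
def box1 (n : ℕ) : Set (E n) := {x | ∀ k, 0 ≤ x k ∧ x k < 2 * Real.pi}

/-- box of all agents -/
def box (N n : ℕ) : Set (C N n) := {x | ∀ i k, 0 ≤ x i k ∧ x i k < 2 * Real.pi}

theorem box1_eq (n : ℕ) : box1 n = (@WithLp.ofLp 2 (Fin n → ℝ)) ⁻¹'
    (Set.pi univ fun _ : Fin n => Ico (0 : ℝ) (2 * Real.pi)) := by
  ext x
  simp only [box1, mem_preimage, Set.mem_pi, mem_univ, forall_true_left, mem_Ico,
    Set.mem_ofPred_eq]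

theorem box1_meas (n : ℕ) : MeasurableSet (box1 n) := by
  rw [box1_eq]
  exact (PiLp.volume_preserving_ofLp (Fin n)).measurable
    (MeasurableSet.univ_pi fun _ => measurableSet_Ico)

theorem box1_vol (n : ℕ) : volume (box1 n) = ENNReal.ofReal ((2 * Real.pi) ^ n) := by
  rw [box1_eq, (PiLp.volume_preserving_ofLp (Fin n)).measure_preimage
    (MeasurableSet.univ_pi fun _ => measurableSet_Ico).nullMeasurableSet, volume_pi_pi]
  simp only [Real.volume_Ico, sub_zero, Finset.prod_const, Finset.card_univ, Fintype.card_fin]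
  rw [ENNReal.ofReal_pow (by positivity)]

theorem box_eq : box N n = Set.pi univ fun _ : Fin N => box1 n := by
  ext x
  simp only [box, box1, Set.mem_pi, mem_univ, forall_true_left, Set.mem_ofPred_eq]

theorem box_meas : MeasurableSet (box N n) := by
  rw [box_eq]
  exact MeasurableSet.univ_pi fun _ => box1_meas n

theorem box_vol : volume (box N n) = ENNReal.ofReal ((2 * Real.pi) ^ (n * N)) := by
  rw [box_eq, volume_pi_pi]
  simp only [box1_vol, Finset.prod_const, Finset.card_univ, Fintype.card_fin]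
  rw [← ENNReal.ofReal_pow (by positivity), ← pow_mul]

/-- every point has a translate in the box -/
theorem box_ex (x : C N n) : ∃ m : Fin N → Fin n → ℤ, x - latC m ∈ box N n := by
  have hp : 0 < 2 * Real.pi := by positivity
  refine ⟨fun i k => ⌊x i k / (2 * Real.pi)⌋, fun i k => ?_⟩
  have h3 := Int.floor_le (x i k / (2 * Real.pi))
  have h4 := Int.lt_floor_add_one (x i k / (2 * Real.pi))
  rw [le_div_iff₀ hp] at h3
  rw [div_lt_iff₀ hp] at h4
  have h5 : (x - latC (fun i k => ⌊x i k / (2 * Real.pi)⌋)) i k =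
      x i k - 2 * Real.pi * (⌊x i k / (2 * Real.pi)⌋ : ℝ) := rfl
  rw [h5]
  constructor
  · linarith
  · linarith

theorem haarC : (volume : Measure (C N n)).IsAddHaarMeasure := by
  change (Measure.pi fun _ : Fin N => (volume : Measure (E n))).IsAddHaarMeasure
  infer_instance

theorem haarK : (volume : Measure (Fin K → E n)).IsAddHaarMeasure := by
  change (Measure.pi fun _ : Fin K => (volume : Measure (E n))).IsAddHaarMeasure
  infer_instance

theorem haarY : (volume : Measure (C N n × (Fin K → E n))).IsAddHaarMeasure := by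
  have h1 := haarC (N := N) (n := n)
  have h2 := haarK (K := K) (n := n)
  exact Measure.prod.instIsAddHaarMeasure (volume : Measure (C N n))
    (volume : Measure (Fin K → E n))

theorem latC_sub (m m' : Fin N → Fin n → ℤ) :
    (latC (m - m') : C N n) = latC m - latC m' := by
  ext i k
  rw [latC_apply]
  change _ = (latC m : C N n) i k - (latC m' : C N n) i k
  rw [latC_apply, latC_apply]
  simp only [Pi.sub_apply]
  push_cast
  ring

end I_LIFTX

open I_LIFTX in
theorem I_LIFT : LIFT := by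
  intro n N K A E' hA hE' hAE hinj
  have hhaar := haarY (N := N) (n := n) (K := K)
  set B : (Fin N → Fin n → ℤ) → Set (C N n × (Fin K → E n)) := fun m =>
    {w | w.1 ∈ box N n ∧ w + (latC m, 0) ∈ A} with hB
  have hBm : ∀ m, MeasurableSet (B m) := by
    intro m
    have h1 : Measurable (fun w : C N n × (Fin K → E n) => w + (latC m, 0)) :=
      measurable_id.add_const _
    exact (measurable_fst box_meas).inter (h1 hA)
  have hcover : A ⊆ ⋃ m, (fun y : C N n × (Fin K → E n) => y + -(latC m, 0)) ⁻¹' B m := by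
    intro y hy
    obtain ⟨m, hm⟩ := box_ex y.1
    rw [mem_iUnion]
    refine ⟨m, ?_, ?_⟩
    · have h1 : (y + -((latC m, 0) : C N n × (Fin K → E n))).1 = y.1 - latC m := by
        rw [sub_eq_add_neg]
        rfl
      rw [h1]
      exact hm
    · have h1 : (fun y : C N n × (Fin K → E n) => y + -(latC m, 0)) y + (latC m, 0) = y := by
        change y + -(latC m, 0) + (latC m, 0) = y
        rw [neg_add_cancel_right]
      rw [h1]
      exact hy
  have hdisj : Pairwise (Function.onFun Disjoint B) := by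
    intro m m' hne
    rw [Function.onFun, Set.disjoint_left]
    rintro w ⟨_, h1⟩ ⟨_, h2⟩
    have h3 : (w + (latC m, 0)) + (latC (m' - m), 0) ∈ A := by
      have h4 : (w + (latC m, 0)) + ((latC (m' - m), 0) : C N n × (Fin K → E n)) =
          w + (latC m', 0) := by
        have h6 : ((latC m, 0) : C N n × (Fin K → E n)) + (latC (m' - m), 0) = (latC m', 0) := by
          rw [Prod.mk_add_mk, latC_sub, add_zero, add_sub_cancel]
        rw [add_assoc, h6]
      rw [h4]
      exact h2
    have h5 := hinj _ h1 _ h3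
    exact hne (sub_eq_zero.1 h5).symm
  have hsub : (⋃ m, B m) ⊆ box N n ×ˢ E' := by
    intro w hw
    rw [mem_iUnion] at hw
    obtain ⟨m, h1, h2⟩ := hw
    refine ⟨h1, ?_⟩
    have h3 := hAE _ h2
    have h4 : (w + ((latC m, 0) : C N n × (Fin K → E n))).2 = w.2 := by
      change w.2 + 0 = w.2
      rw [add_zero]
    rwa [h4] at h3
  calc volume A ≤ volume (⋃ m, (fun y : C N n × (Fin K → E n) => y + -(latC m, 0)) ⁻¹' B m) :=
        measure_mono hcover
    _ ≤ ∑' m, volume ((fun y : C N n × (Fin K → E n) => y + -(latC m, 0)) ⁻¹' B m) :=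
        measure_iUnion_le _
    _ = ∑' m, volume (B m) := by
        refine tsum_congr fun m => ?_
        exact measure_preimage_add_right volume _ _
    _ = volume (⋃ m, B m) := (measure_iUnion hdisj hBm).symm
    _ ≤ volume (box N n ×ˢ E') := measure_mono hsub
    _ = volume (box N n) * volume E' := Measure.prod_prod _ _
    _ = ENNReal.ofReal ((2 * Real.pi) ^ (n * N)) * volume E' := by rw [box_vol]

end Pool.Agent.Work.MP_c9f990_an.Al

end

section

set_option autoImplicit false

/-!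
# MP_c9f990_an, block RG, item NULG: exceptional good points are null
-/

open MeasureTheory Set Filter Topology
open scoped NNReal ENNReal

namespace Pool.Agent.Work.MP_c9f990_an.Al

namespace I_NULGX

variable {N n K : ℕ}

/-- the linear relation -/
noncomputable def ellK (a b : Fin K) (m : E n) : (Fin K → E n) →ₗ[ℝ] ℝ :=
  (innerSL ℝ m).toLinearMap ∘ₗ
    ((LinearMap.proj a : (Fin K → E n) →ₗ[ℝ] E n) - LinearMap.proj b)

theorem ellK_apply (a b : Fin K) (m : E n) (V : Fin K → E n) :
    ellK a b m V = inner ℝ m (V a - V b) := rfl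

theorem ker_ne {a b : Fin K} (hab : a ≠ b) {m : E n} (hm : m ≠ 0) :
    LinearMap.ker (ellK a b m) ≠ ⊤ := by
  intro h
  have h1 : (Pi.single a m : Fin K → E n) ∈ LinearMap.ker (ellK a b m) := by
    rw [h]; trivial
  rw [LinearMap.mem_ker, ellK_apply, Pi.single_eq_same, Pi.single_eq_of_ne hab.symm, sub_zero,
    real_inner_self_eq_norm_sq] at h1
  have h2 : 0 < ‖m‖ := norm_pos_iff.2 hm
  have h3 : 0 < ‖m‖ ^ 2 := by positivity
  exact h3.ne' h1

/-- cluster means which almost satisfy the relation -/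
def EE (R : ℝ) (a b : Fin K) (m : E n) (η : ℝ) : Set (Fin K → E n) :=
  {V | |inner ℝ m (V a - V b)| ≤ η ∧ ∀ c, ‖V c‖ ≤ Real.sqrt R}

theorem closed_EE (R : ℝ) (a b : Fin K) (m : E n) (η : ℝ) : IsClosed (EE R a b m η) := by
  have h : EE R a b m η = {V | |inner ℝ m (V a - V b)| ≤ η} ∩
      ⋂ c : Fin K, {V : Fin K → E n | ‖V c‖ ≤ Real.sqrt R} := by
    ext V
    simp [EE]
  rw [h]
  refine IsClosed.inter (isClosed_le ?_ continuous_const) (isClosed_iInter fun c =>
    isClosed_le ?_ continuous_const)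
  · fun_prop
  · fun_prop

theorem bounded_EE (R : ℝ) (a b : Fin K) (m : E n) (η : ℝ) :
    Bornology.IsBounded (EE R a b m η) := by
  rw [isBounded_iff_forall_norm_le]
  refine ⟨Real.sqrt R, fun V hV => ?_⟩
  rw [pi_norm_le_iff_of_nonneg (Real.sqrt_nonneg _)]
  exact hV.2

theorem tendsto_EE (R : ℝ) {a b : Fin K} (hab : a ≠ b) {m : E n} (hm : m ≠ 0) :
    Tendsto (fun k : ℕ => volume (EE R a b m (1 / ((k : ℝ) + 1)))) atTop (𝓝 0) := by
  have h1 : volume (⋂ k : ℕ, EE R a b m (1 / ((k : ℝ) + 1))) = 0 := by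
    have h2 : volume ((LinearMap.ker (ellK a b m) : Submodule ℝ (Fin K → E n)) :
        Set (Fin K → E n)) = 0 := Measure.addHaar_submodule _ _ (ker_ne hab hm)
    refine measure_mono_null ?_ h2
    intro z hz
    rw [SetLike.mem_coe, LinearMap.mem_ker, ellK_apply]
    rw [mem_iInter] at hz
    have h3 : ∀ k : ℕ, |inner ℝ m (z a - z b)| ≤ 1 / ((k : ℝ) + 1) := fun k => (hz k).1
    have h4 : |inner ℝ m (z a - z b)| ≤ 0 :=
      ge_of_tendsto' tendsto_one_div_add_atTop_nhds_zero_nat h3
    exact abs_eq_zero.1 (le_antisymm h4 (abs_nonneg _))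
  rw [← h1]
  refine tendsto_measure_iInter_atTop (fun k => (closed_EE R a b m _).measurableSet.nullMeasurableSet)
    ?_ ⟨0, ((bounded_EE R a b m _).measure_lt_top).ne⟩
  intro k k' hk z hz
  refine ⟨hz.1.trans ?_, hz.2⟩
  apply one_div_le_one_div_of_le (by positivity)
  have : (k : ℝ) ≤ k' := by exact_mod_cast hk
  linarith

theorem mu_le (cl : Fin N → Fin K) {R : ℝ} {v : C N n} (hv : ke v ≤ R) (c : Fin K) :
    ‖mu cl v c‖ ≤ Real.sqrt R := by
  have h1 : ∀ i, ‖v i‖ ≤ Real.sqrt R := by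
    intro i
    apply Real.le_sqrt_of_sq_le
    refine le_trans ?_ hv
    unfold ke
    exact Finset.single_le_sum (f := fun l => ‖v l‖ ^ 2) (fun l _ => by positivity)
      (Finset.mem_univ i)
  unfold mu
  rw [norm_smul, norm_inv, Real.norm_natCast]
  rcases Nat.eq_zero_or_pos (cnt cl c) with h | h
  · rw [h, Nat.cast_zero, inv_zero, zero_mul]
    exact Real.sqrt_nonneg _
  · have h2 : (0 : ℝ) < cnt cl c := by exact_mod_cast h
    rw [inv_mul_le_iff₀ h2]
    refine (norm_sum_le _ _).trans ?_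
    have h3 := Finset.sum_le_card_nsmul (Finset.univ.filter (fun i => cl i = c))
      (fun i => ‖v i‖) (Real.sqrt R) (fun i _ => h1 i)
    rw [nsmul_eq_mul] at h3
    exact h3

end I_NULGX

open I_NULGX in
theorem I_NULG (hD : DENS) (hM : GMS) (hE : EQV) : NULG := by
  intro n N K Φ cl lam R hΦ hL hs hl0 hl1
  obtain ⟨eps, heps, hD'⟩ := hD n N K Φ cl lam R hΦ hL hs hl0 hl1
  refine ⟨eps, heps, ?_⟩
  intro φ M hφ a b m hab hm
  obtain ⟨A, hA⟩ := hD' φ M hφ
  have heq := hE n N Φ R hΦ φ M hφ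
  have hinv := (hM n N K Φ cl lam R eps hΦ φ M hφ).2
  set G := GoodSet Φ cl lam R eps φ with hG
  set S : Set (P N n) := {z | z ∈ G ∧
    Tendsto (fun t => inner ℝ m (mu cl (φ t z).2 a - mu cl (φ t z).2 b)) atTop (𝓝 0)} with hS
  -- bound for each `η`
  have hb : ∀ η : ℝ, 0 < η → volume (S ∩ slab N n) ≤ ENNReal.ofReal A * volume (EE R a b m η) := by
    intro η hη
    let B : ℕ → Set (P N n) := fun T => {z | z ∈ G ∧ z ∈ slab N n ∧ ∀ t : ℝ, (T : ℝ) ≤ t →
      |inner ℝ m (mu cl (φ t z).2 a - mu cl (φ t z).2 b)| ≤ η}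
    have h1 : S ∩ slab N n ⊆ ⋃ T, B T := by
      rintro z ⟨⟨hz1, hz2⟩, hz3⟩
      rw [Metric.tendsto_atTop] at hz2
      obtain ⟨T, hT⟩ := hz2 η hη
      obtain ⟨T', hT'⟩ := exists_nat_ge T
      rw [mem_iUnion]
      refine ⟨T', hz1, hz3, fun t ht => ?_⟩
      have h3 := hT t (hT'.trans ht)
      rw [Real.dist_eq, sub_zero] at h3
      exact h3.le
    have h2 : Monotone B := by
      intro T T' hT z hz
      refine ⟨hz.1, hz.2.1, fun t ht => hz.2.2 t (le_trans ?_ ht)⟩
      exact_mod_cast hT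
    calc volume (S ∩ slab N n) ≤ volume (⋃ T, B T) := measure_mono h1
      _ = ⨆ T, volume (B T) := h2.measure_iUnion
      _ ≤ _ := iSup_le fun T => ?_
    refine le_trans (measure_mono ?_) (hA T (Nat.cast_nonneg T) (EE R a b m η)
      (closed_EE R a b m η).measurableSet)
    rintro z ⟨hz1, hz2, hz3⟩
    exact ⟨hz1, hz2, hz3 T le_rfl, fun c => mu_le cl (hz1.vel T (Nat.cast_nonneg T)) c⟩
  have h0 : volume (S ∩ slab N n) = 0 := by
    have h1 : Tendsto (fun k : ℕ => ENNReal.ofReal A * volume (EE R a b m (1 / ((k : ℝ) + 1))))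
        atTop (𝓝 (ENNReal.ofReal A * 0)) :=
      ENNReal.Tendsto.const_mul (tendsto_EE R hab hm) (Or.inr ENNReal.ofReal_ne_top)
    rw [mul_zero] at h1
    exact le_antisymm (ge_of_tendsto' h1 fun k => hb _ (by positivity)) zero_le
  have h1 : S ⊆ ⋃ q : Fin N → Fin n → ℤ,
      (fun z => z + ((latC q : C N n), (0 : C N n))) ⁻¹' (S ∩ slab N n) := by
    intro z hz
    obtain ⟨q, hq⟩ := I_NUL1X.cover z
    rw [mem_iUnion]
    refine ⟨q, ⟨hinv q z hz.1, ?_⟩, hq⟩
    have h2 := hz.2
    simp only [heq, I_NUL1X.add_snd]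
    exact h2
  refine measure_mono_null h1 (measure_iUnion_null fun q => ?_)
  have := I_NUL1X.haarP (N := N) (n := n)
  rw [measure_preimage_add_right]
  exact h0

end Pool.Agent.Work.MP_c9f990_an.Al

end
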