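import Pool.Agent.Work.MP_c9f990_an.Rg.StR

/-! Bundle of small proof modules (one section per former module). -/

section

set_option autoImplicit false

/-!
# MP_c9f990_an, block RG, item LOK
-/

open MeasureTheory Set Filter Topology
open scoped NNReal ENNReal

namespace Pool.Agent.Work.MP_c9f990_an.Al

namespace I_LOKX

variable {N n K : ℕ}

lemma toL_apply (v : C N n) (i : Fin N) : (toL N n v) i = v i := rfl

lemma ofL_apply (u : XX N n) (i : Fin N) : (ofL N n u) i = u i := rfl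

lemma cj_apply (A : C N n →L[ℝ] C N n) (u : XX N n) (i : Fin N) :
    (cj A u) i = A (ofL N n u) i := rfl

lemma norm_le_sum (u : XX N n) : ‖u‖ ≤ ∑ i, ‖u i‖ := by
  have h1 : ‖u‖ ^ 2 = ∑ i, ‖u i‖ ^ 2 := PiLp.norm_sq_eq_of_L2 _ u
  have h2 : ∑ i, ‖u i‖ ^ 2 ≤ (∑ i, ‖u i‖) ^ 2 :=
    Finset.sum_sq_le_sq_sum_of_nonneg (fun i _ => norm_nonneg _)
  have h3 : 0 ≤ ∑ i, ‖u i‖ := Finset.sum_nonneg (fun i _ => norm_nonneg _)
  rw [← h1] at h2
  exact (pow_le_pow_iff_left₀ (norm_nonneg _) h3 two_ne_zero).mp h2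

lemma norm_le_comp (u : XX N n) (i : Fin N) : ‖u i‖ ≤ ‖u‖ := PiLp.norm_apply_le u i

/-- operator norm from componentwise double sums -/
lemma op_bound (A : C N n →L[ℝ] C N n) (b : Fin N → Fin N → ℝ) (B : ℝ) (hB : 0 ≤ B)
    (h : ∀ (u : XX N n) (i : Fin N), ‖A (ofL N n u) i‖ ≤ (N : ℝ)⁻¹ * ∑ j, b i j * ‖u‖)
    (hb : (N : ℝ)⁻¹ * ∑ i, ∑ j, b i j ≤ B) : ‖cj A‖ ≤ B := by
  apply ContinuousLinearMap.opNorm_le_bound _ hB
  intro u
  calc ‖cj A u‖ ≤ ∑ i, ‖(cj A u) i‖ := norm_le_sum _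
    _ ≤ ∑ i, (N : ℝ)⁻¹ * ∑ j, b i j * ‖u‖ := Finset.sum_le_sum (fun i _ => h u i)
    _ = ((N : ℝ)⁻¹ * ∑ i, ∑ j, b i j) * ‖u‖ := by
        simp only [← Finset.mul_sum, ← Finset.sum_mul]
        ring
    _ ≤ B * ‖u‖ := mul_le_mul_of_nonneg_right hb (norm_nonneg _)

/-! ### formulas for the operators -/

lemma LpC_apply (Φ : E n → ℝ) (cl : Fin N → Fin K) (x u : C N n) (i : Fin N) :
    LpC Φ cl x u i = (N : ℝ)⁻¹ • ∑ j, if cl i = cl j then Φ (x i - x j) • (u i - u j) else 0 := by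
  unfold LpC
  simp only [ContinuousLinearMap.coe_pi', _root_.smul_apply,
    _root_.sum_apply]
  congr 1
  apply Finset.sum_congr rfl
  intro j _
  split_ifs <;> rfl

lemma SgC_apply (Φ : E n → ℝ) (cl : Fin N → Fin K) (x u : C N n) (i : Fin N) :
    SgC Φ cl x u i = (N : ℝ)⁻¹ • ∑ j, if cl i = cl j then 0 else Φ (x i - x j) • (u j - u i) := by
  unfold SgC
  simp only [ContinuousLinearMap.coe_pi', _root_.smul_apply,
    _root_.sum_apply]
  congr 1
  apply Finset.sum_congr rfl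
  intro j _
  split_ifs <;> rfl

lemma GeC_apply (Φ : E n → ℝ) (cl : Fin N → Fin K) (z : P N n) (u : C N n) (i : Fin N) :
    GeC Φ cl z u i = (N : ℝ)⁻¹ • ∑ j, if cl i = cl j then 0 else
      (fderiv ℝ Φ (z.1 i - z.1 j) (u i - u j)) • (z.2 j - z.2 i) := by
  unfold GeC
  simp only [ContinuousLinearMap.coe_pi', _root_.smul_apply,
    _root_.sum_apply]
  congr 1
  apply Finset.sum_congr rfl
  intro j _
  split_ifs <;> rfl

lemma GaC_apply (Φ : E n → ℝ) (cl : Fin N → Fin K) (z : P N n) (u : C N n) (i : Fin N) :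
    GaC Φ cl z u i = (N : ℝ)⁻¹ • ∑ j, if cl i = cl j then
      (fderiv ℝ Φ (z.1 i - z.1 j) (u i - u j)) • (z.2 j - z.2 i) else 0 := by
  unfold GaC
  simp only [ContinuousLinearMap.coe_pi', _root_.smul_apply,
    _root_.sum_apply]
  congr 1
  apply Finset.sum_congr rfl
  intro j _
  split_ifs <;> rfl

/-- continuity of a transported operator -/
lemma cont_cj (A : ℝ → C N n →L[ℝ] C N n)
    (h : ∀ (u : C N n) (i : Fin N), Continuous (fun t => A t u i)) :
    Continuous (fun t => cj (A t)) := by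
  rw [continuous_clm_apply]
  intro u
  have h1 : Continuous (fun t => (A t) (ofL N n u)) := continuous_pi (fun i => h (ofL N n u) i)
  exact (toL N n).continuous.comp h1

/-! ### continuity along a curve -/

lemma cont_csmul (c : ℝ) (f : ℝ → E n) (h : Continuous f) : Continuous (fun t => c • f t) := by
  fun_prop

section cont

variable (Φ : E n → ℝ) (hΦ : Kernel Φ) (cl : Fin N → Fin K) (y : ℝ → P N n) (hy : Continuous y)

include hΦ hy

lemma cPhi (i j : Fin N) : Continuous (fun t => Φ ((y t).1 i - (y t).1 j)) := by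
  apply hΦ.smooth.continuous.comp
  fun_prop

lemma cDPhi (i j : Fin N) (c : E n) :
    Continuous (fun t => fderiv ℝ Φ ((y t).1 i - (y t).1 j) c) := by
  have h1 : Continuous (fun t => (y t).1 i - (y t).1 j) := by fun_prop
  have h2 : Continuous (fun x => fderiv ℝ Φ x) := hΦ.smooth.continuous_fderiv (by norm_num)
  exact (h2.comp h1).clm_apply continuous_const

lemma cLp : Continuous (fun t => cj (LpC Φ cl (y t).1)) := by
  apply cont_cj
  intro u i
  simp only [LpC_apply]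
  apply cont_csmul
  refine continuous_finsetSum _ fun j _ => ?_
  split_ifs
  · exact (cPhi Φ hΦ y hy i j).smul continuous_const
  · exact continuous_const

lemma cSg : Continuous (fun t => cj (SgC Φ cl (y t).1)) := by
  apply cont_cj
  intro u i
  simp only [SgC_apply]
  apply cont_csmul
  refine continuous_finsetSum _ fun j _ => ?_
  split_ifs
  · exact continuous_const
  · exact (cPhi Φ hΦ y hy i j).smul continuous_const

lemma cGe : Continuous (fun t => cj (GeC Φ cl (y t))) := by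
  apply cont_cj
  intro u i
  simp only [GeC_apply]
  apply cont_csmul
  refine continuous_finsetSum _ fun j _ => ?_
  split_ifs
  · exact continuous_const
  · refine (cDPhi Φ hΦ y hy i j _).smul ?_
    fun_prop

lemma cGa : Continuous (fun t => cj (GaC Φ cl (y t))) := by
  apply cont_cj
  intro u i
  simp only [GaC_apply]
  apply cont_csmul
  refine continuous_finsetSum _ fun j _ => ?_
  split_ifs
  · refine (cDPhi Φ hΦ y hy i j _).smul ?_
    fun_prop
  · exact continuous_const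

lemma cqI : Continuous (fun t => qI Φ cl (y t).1) := by
  unfold qI
  refine continuous_finsetSum _ fun i _ => continuous_finsetSum _ fun j _ => ?_
  split_ifs
  · exact continuous_const
  · exact cPhi Φ hΦ y hy i j

omit hΦ in
lemma csI : Continuous (fun t => sI cl (y t).2) := by
  unfold sI mu
  refine continuous_finsetSum _ fun i _ => ?_
  apply Continuous.norm
  refine Continuous.sub (by fun_prop) ?_
  apply cont_csmul
  refine continuous_finsetSum _ fun j _ => ?_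
  fun_prop

end cont

/-! ### algebra -/

lemma muL_apply (cl : Fin N → Fin K) (v : C N n) : muL cl v = mu cl v := by
  funext a
  unfold muL mu
  simp only [ContinuousLinearMap.coe_pi', _root_.smul_apply, _root_.sum_apply]
  rfl

lemma cnt_pos {cl : Fin N → Fin K} (hs : Function.Surjective cl) (a : Fin K) :
    (0 : ℝ) < cnt cl a := by
  obtain ⟨i, hi⟩ := hs a
  unfold cnt
  exact_mod_cast Finset.card_pos.mpr ⟨i, Finset.mem_filter.mpr ⟨Finset.mem_univ i, hi⟩⟩

lemma mu_io {cl : Fin N → Fin K} (hs : Function.Surjective cl) (τ : Fin K → E n) :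
    mu cl (ioL cl τ) = τ := by
  funext a
  unfold mu
  have h1 : ∑ i ∈ Finset.univ.filter (fun i => cl i = a), (ioL cl τ) i =
      ∑ _i ∈ Finset.univ.filter (fun i => cl i = a), τ a := by
    apply Finset.sum_congr rfl
    intro i hi
    have h2 := (Finset.mem_filter.mp hi).2
    show τ (cl i) = τ a
    rw [h2]
  rw [h1, Finset.sum_const, ← Nat.cast_smul_eq_nsmul ℝ, smul_smul]
  have h3 : (cnt cl a : ℝ)⁻¹ * ((Finset.univ.filter (fun i => cl i = a)).card : ℝ) = 1 := by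
    have h4 := cnt_pos hs a
    unfold cnt at h4 ⊢
    exact inv_mul_cancel₀ h4.ne'
  rw [h3, one_smul]

lemma inner_mu {cl : Fin N → Fin K} (hs : Function.Surjective cl) (x y : C N n) :
    ∑ i, inner ℝ (mu cl x (cl i)) (y i) =
      ∑ a, (cnt cl a : ℝ) * inner ℝ (mu cl x a) (mu cl y a) := by
  rw [← Finset.sum_fiberwise Finset.univ cl]
  apply Finset.sum_congr rfl
  intro a _
  have h1 : ∑ i ∈ Finset.univ.filter (fun i => cl i = a), inner ℝ (mu cl x (cl i)) (y i) =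
      ∑ i ∈ Finset.univ.filter (fun i => cl i = a), inner ℝ (mu cl x a) (y i) := by
    apply Finset.sum_congr rfl
    intro i hi
    rw [(Finset.mem_filter.mp hi).2]
  rw [h1, ← inner_sum]
  have h2 : ∑ i ∈ Finset.univ.filter (fun i => cl i = a), y i = (cnt cl a : ℝ) • mu cl y a := by
    unfold mu
    rw [smul_smul, mul_inv_cancel₀ (cnt_pos hs a).ne', one_smul]
  rw [h2, real_inner_smul_right]

/-- antisymmetric sums vanish -/
lemma antisymm_sum (F : Finset (Fin N)) (T : Fin N → Fin N → E n) (h : ∀ i j, T j i = - T i j) :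
    ∑ i ∈ F, ∑ j ∈ F, T i j = 0 := by
  have h1 : ∑ i ∈ F, ∑ j ∈ F, T i j = - ∑ i ∈ F, ∑ j ∈ F, T i j := by
    conv_lhs => rw [Finset.sum_comm]
    rw [← Finset.sum_neg_distrib]
    apply Finset.sum_congr rfl
    intro i _
    rw [← Finset.sum_neg_distrib]
    apply Finset.sum_congr rfl
    intro j _
    exact h i j
  have h2 : (2 : ℝ) • ∑ i ∈ F, ∑ j ∈ F, T i j = 0 := by
    rw [two_smul]
    nth_rewrite 1 [h1]
    exact neg_add_cancel _
  exact (smul_eq_zero.mp h2).resolve_left two_ne_zero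

lemma fderiv_odd (Φ : E n → ℝ) (hΦ : Kernel Φ) (x : E n) (u : E n) :
    fderiv ℝ Φ (-x) (-u) = fderiv ℝ Φ x u := by
  have hd : Differentiable ℝ Φ := hΦ.smooth.differentiable (by norm_num)
  have h1 : HasFDerivAt Φ (fderiv ℝ Φ (-x)) (-x) := (hd (-x)).hasFDerivAt
  have h2 : HasFDerivAt (fun y : E n => -y) (-ContinuousLinearMap.id ℝ (E n)) x :=
    (hasFDerivAt_id x).neg
  have h3 : HasFDerivAt (Φ ∘ fun y : E n => -y)
      ((fderiv ℝ Φ (-x)).comp (-ContinuousLinearMap.id ℝ (E n))) x := h1.comp x h2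
  have h4 : (Φ ∘ fun y : E n => -y) = Φ := funext fun y => hΦ.even y
  rw [h4] at h3
  rw [h3.fderiv]
  simp

lemma mu_Ga (Φ : E n → ℝ) (hΦ : Kernel Φ) (cl : Fin N → Fin K) (z : P N n) (u : C N n) :
    mu cl (GaC Φ cl z u) = 0 := by
  funext a
  unfold mu
  have h1 : ∑ i ∈ Finset.univ.filter (fun i => cl i = a), GaC Φ cl z u i =
      (N : ℝ)⁻¹ • ∑ i ∈ Finset.univ.filter (fun i => cl i = a),
        ∑ j ∈ Finset.univ.filter (fun i => cl i = a),
        (fderiv ℝ Φ (z.1 i - z.1 j) (u i - u j)) • (z.2 j - z.2 i) := by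
    rw [Finset.smul_sum]
    apply Finset.sum_congr rfl
    intro i hi
    rw [GaC_apply]
    congr 1
    rw [Finset.sum_filter]
    apply Finset.sum_congr rfl
    intro j _
    have h2 : cl i = a := (Finset.mem_filter.mp hi).2
    by_cases h3 : cl j = a
    · rw [if_pos (by rw [h2, h3]), if_pos h3]
    · rw [if_neg (by rw [h2]; exact fun h => h3 h.symm), if_neg h3]
  rw [h1, antisymm_sum, smul_zero, smul_zero]
  · rfl
  · intro i j
    have h2 : fderiv ℝ Φ (z.1 j - z.1 i) (u j - u i) = fderiv ℝ Φ (z.1 i - z.1 j) (u i - u j) := by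
      rw [← neg_sub (z.1 i) (z.1 j), ← neg_sub (u i) (u j), fderiv_odd Φ hΦ]
    rw [h2, ← smul_neg, neg_sub]

lemma symm_sum (c : Fin N → Fin N → ℝ) (hc : ∀ i j, c i j = c j i) (x y : Fin N → E n) :
    ∑ i, ∑ j, c i j * inner ℝ (x i - x j) (y i) =
      2⁻¹ * ∑ i, ∑ j, c i j * inner ℝ (x i - x j) (y i - y j) := by
  have h1 : ∑ i, ∑ j, c i j * inner ℝ (x i - x j) (y i) =
      ∑ i, ∑ j, c i j * inner ℝ (x j - x i) (y j) := by
    conv_lhs => rw [Finset.sum_comm]
    apply Finset.sum_congr rfl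
    intro i _
    apply Finset.sum_congr rfl
    intro j _
    rw [hc]
  have h2 : ∑ i, ∑ j, c i j * inner ℝ (x i - x j) (y i - y j) =
      ∑ i, ∑ j, c i j * inner ℝ (x i - x j) (y i) +
      ∑ i, ∑ j, c i j * inner ℝ (x j - x i) (y j) := by
    rw [← Finset.sum_add_distrib]
    apply Finset.sum_congr rfl
    intro i _
    rw [← Finset.sum_add_distrib]
    apply Finset.sum_congr rfl
    intro j _
    rw [inner_sub_right, ← neg_sub (x i) (x j), inner_neg_left]
    ring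
  rw [h2, ← h1]
  ring

lemma inner_Lp (Φ : E n → ℝ) (hΦ : Kernel Φ) (cl : Fin N → Fin K) (p : C N n) (x y : XX N n) :
    inner ℝ (cj (LpC Φ cl p) x) y = (2 * N : ℝ)⁻¹ * ∑ i, ∑ j, if cl i = cl j then
      Φ (p i - p j) * inner ℝ (x i - x j) (y i - y j) else 0 := by
  rw [PiLp.inner_apply]
  have h1 : ∀ i, inner ℝ ((cj (LpC Φ cl p) x) i) (y i) = (N : ℝ)⁻¹ *
      ∑ j, (if cl i = cl j then Φ (p i - p j) else 0) * inner ℝ (x i - x j) (y i) := by
    intro i
    rw [cj_apply, LpC_apply, real_inner_smul_left, sum_inner]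
    congr 1
    apply Finset.sum_congr rfl
    intro j _
    split_ifs
    · rw [real_inner_smul_left]; rfl
    · rw [inner_zero_left, zero_mul]
  simp only [h1]
  rw [← Finset.mul_sum, symm_sum (fun i j => if cl i = cl j then Φ (p i - p j) else 0)]
  · rw [← mul_assoc]
    have h2 : (N : ℝ)⁻¹ * 2⁻¹ = (2 * N : ℝ)⁻¹ := by
      rw [mul_inv]; ring
    rw [h2]
    congr 1
    apply Finset.sum_congr rfl
    intro i _
    apply Finset.sum_congr rfl
    intro j _
    split_ifs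
    · rfl
    · rw [zero_mul]
  · intro i j
    by_cases h : cl i = cl j
    · rw [if_pos h, if_pos h.symm, ← hΦ.even (p j - p i), neg_sub]
    · rw [if_neg h, if_neg (fun h' => h h'.symm)]

/-! ### bounds -/

lemma comp_bound (f : Fin N → E n) (b : Fin N → ℝ) (c : ℝ) (h : ∀ j, ‖f j‖ ≤ b j * c) :
    ‖(N : ℝ)⁻¹ • ∑ j, f j‖ ≤ (N : ℝ)⁻¹ * ∑ j, b j * c := by
  rw [norm_smul, norm_inv, Real.norm_natCast]
  apply mul_le_mul_of_nonneg_left _ (by positivity)
  exact (norm_sum_le _ _).trans (Finset.sum_le_sum fun j _ => h j)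

lemma sub_bound (u : XX N n) (i j : Fin N) : ‖u i - u j‖ ≤ 2 * ‖u‖ := by
  have h1 := norm_sub_le (u i) (u j)
  have h2 := norm_le_comp u i
  have h3 := norm_le_comp u j
  linarith

lemma sum_const (c : ℝ) : (N : ℝ)⁻¹ * ∑ _i : Fin N, ∑ _j : Fin N, c = N * c := by
  simp only [Finset.sum_const, Finset.card_univ, Fintype.card_fin, nsmul_eq_mul]
  rcases Nat.eq_zero_or_pos N with h | h
  · subst h
    simp
  · have h1 : (N : ℝ) ≠ 0 := by positivity
    field_simp

lemma qI_nonneg (Φ : E n → ℝ) (hΦ : Kernel Φ) (cl : Fin N → Fin K) (x : C N n) :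
    0 ≤ qI Φ cl x := by
  unfold qI
  refine Finset.sum_nonneg fun i _ => Finset.sum_nonneg fun j _ => ?_
  split_ifs
  · exact le_rfl
  · exact hΦ.nonneg _

lemma Phi_le_qI (Φ : E n → ℝ) (hΦ : Kernel Φ) (cl : Fin N → Fin K) (x : C N n) (i j : Fin N)
    (hij : cl i ≠ cl j) : Φ (x i - x j) ≤ qI Φ cl x := by
  have h0 : ∀ i j : Fin N, 0 ≤ (if cl i = cl j then (0 : ℝ) else Φ (x i - x j)) := by
    intro i j
    split_ifs
    · exact le_rfl
    · exact hΦ.nonneg _
  unfold qI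
  calc Φ (x i - x j) = if cl i = cl j then (0 : ℝ) else Φ (x i - x j) := by rw [if_neg hij]
    _ ≤ ∑ j, if cl i = cl j then (0 : ℝ) else Φ (x i - x j) :=
        Finset.single_le_sum (f := fun j => if cl i = cl j then (0 : ℝ) else Φ (x i - x j))
          (fun j _ => h0 i j) (Finset.mem_univ j)
    _ ≤ ∑ i, ∑ j, if cl i = cl j then (0 : ℝ) else Φ (x i - x j) :=
        Finset.single_le_sum (f := fun i => ∑ j, if cl i = cl j then (0 : ℝ) else Φ (x i - x j))
          (fun i _ => Finset.sum_nonneg fun j _ => h0 i j) (Finset.mem_univ i)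

lemma sI_nonneg (cl : Fin N → Fin K) (v : C N n) : 0 ≤ sI cl v :=
  Finset.sum_nonneg fun _ _ => norm_nonneg _

lemma le_sI (cl : Fin N → Fin K) (v : C N n) (i : Fin N) : ‖v i - mu cl v (cl i)‖ ≤ sI cl v :=
  Finset.single_le_sum (f := fun i => ‖v i - mu cl v (cl i)‖) (fun _ _ => norm_nonneg _)
    (Finset.mem_univ i)

lemma nSg (Φ : E n → ℝ) (hΦ : Kernel Φ) (cl : Fin N → Fin K) (x : C N n) :
    ‖cj (SgC Φ cl x)‖ ≤ 2 * qI Φ cl x := by
  have hq := qI_nonneg Φ hΦ cl x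
  apply op_bound _ (fun i j => 2 * if cl i = cl j then (0 : ℝ) else Φ (x i - x j)) _ (by positivity)
  · intro u i
    rw [SgC_apply]
    apply comp_bound _ (fun j => 2 * if cl i = cl j then (0 : ℝ) else Φ (x i - x j))
    intro j
    split_ifs
    · simp
    · rw [norm_smul, Real.norm_eq_abs, abs_of_nonneg (hΦ.nonneg _)]
      have h1 : ‖(ofL N n u) j - (ofL N n u) i‖ ≤ 2 * ‖u‖ := sub_bound u j i
      have h2 := mul_le_mul_of_nonneg_left h1 (hΦ.nonneg (x i - x j))
      linarith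
  · simp only [← Finset.mul_sum]
    have h1 : (N : ℝ)⁻¹ ≤ 1 := Nat.cast_inv_le_one N
    have h2 : (N : ℝ)⁻¹ * (2 * ∑ i, ∑ j, if cl i = cl j then (0 : ℝ) else Φ (x i - x j)) ≤
        1 * (2 * qI Φ cl x) := mul_le_mul_of_nonneg_right h1 (by positivity)
    linarith

lemma vel_bound (v : C N n) (R : ℝ) (h : ke v ≤ R) (i j : Fin N) : ‖v j - v i‖ ≤ 2 * √R := by
  have h1 : ∀ i, ‖v i‖ ≤ √R := by
    intro i
    apply Real.le_sqrt_of_sq_le
    refine le_trans ?_ h
    exact Finset.single_le_sum (f := fun i => ‖v i‖ ^ 2) (fun _ _ => by positivity)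
      (Finset.mem_univ i)
  have h2 := norm_sub_le (v j) (v i)
  linarith [h1 i, h1 j]

lemma nGe (Φ : E n → ℝ) (hΦ : Kernel Φ) (cl : Fin N → Fin K) (z : P N n) (A R : ℝ) (hA : 0 ≤ A)
    (hA1 : ∀ x, ‖fderiv ℝ Φ x‖ ≤ A * √(Φ x)) (hR : ke z.2 ≤ R) :
    ‖cj (GeC Φ cl z)‖ ≤ N * (4 * A * √R) * √(qI Φ cl z.1) := by
  apply op_bound _ (fun _ _ => 4 * A * √R * √(qI Φ cl z.1)) _ (by positivity)
  · intro u i
    rw [GeC_apply]
    apply comp_bound _ (fun _ => 4 * A * √R * √(qI Φ cl z.1))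
    intro j
    split_ifs with hij
    · rw [norm_zero]
      positivity
    · rw [norm_smul]
      have h1 : ‖(ofL N n u) i - (ofL N n u) j‖ ≤ 2 * ‖u‖ := sub_bound u i j
      have h2 : ‖fderiv ℝ Φ (z.1 i - z.1 j) ((ofL N n u) i - (ofL N n u) j)‖ ≤
          (A * √(qI Φ cl z.1)) * (2 * ‖u‖) := by
        refine (ContinuousLinearMap.le_opNorm _ _).trans ?_
        apply mul_le_mul _ h1 (norm_nonneg _) (by positivity)
        refine (hA1 _).trans (mul_le_mul_of_nonneg_left ?_ hA)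
        exact Real.sqrt_le_sqrt (Phi_le_qI Φ hΦ cl z.1 i j hij)
      have h3 := vel_bound z.2 R hR i j
      calc ‖fderiv ℝ Φ (z.1 i - z.1 j) ((ofL N n u) i - (ofL N n u) j)‖ * ‖z.2 j - z.2 i‖
          ≤ ((A * √(qI Φ cl z.1)) * (2 * ‖u‖)) * (2 * √R) :=
            mul_le_mul h2 h3 (norm_nonneg _) (by positivity)
        _ = 4 * A * √R * √(qI Φ cl z.1) * ‖u‖ := by ring
  · rw [sum_const]
    apply le_of_eq
    ring

lemma nGa (Φ : E n → ℝ) (cl : Fin N → Fin K) (z : P N n) (A : ℝ)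
    (hA1 : ∀ x, ‖fderiv ℝ Φ x‖ ≤ A) :
    ‖cj (GaC Φ cl z)‖ ≤ N * (4 * A) * sI cl z.2 := by
  have hA : 0 ≤ A := (norm_nonneg _).trans (hA1 0)
  have hs := sI_nonneg cl z.2
  apply op_bound _ (fun _ _ => 4 * A * sI cl z.2) _ (by positivity)
  · intro u i
    rw [GaC_apply]
    apply comp_bound _ (fun _ => 4 * A * sI cl z.2)
    intro j
    split_ifs with hij
    · rw [norm_smul]
      have h1 : ‖(ofL N n u) i - (ofL N n u) j‖ ≤ 2 * ‖u‖ := sub_bound u i j
      have h2 : ‖fderiv ℝ Φ (z.1 i - z.1 j) ((ofL N n u) i - (ofL N n u) j)‖ ≤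
          A * (2 * ‖u‖) := by
        refine (ContinuousLinearMap.le_opNorm _ _).trans ?_
        exact mul_le_mul (hA1 _) h1 (norm_nonneg _) hA
      have h3 : ‖z.2 j - z.2 i‖ ≤ 2 * sI cl z.2 := by
        have e : z.2 j - z.2 i = (z.2 j - mu cl z.2 (cl j)) - (z.2 i - mu cl z.2 (cl i)) := by
          rw [hij]
          abel
        rw [e]
        have h4 := norm_sub_le (z.2 j - mu cl z.2 (cl j)) (z.2 i - mu cl z.2 (cl i))
        have h5 := le_sI cl z.2 i
        have h6 := le_sI cl z.2 j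
        linarith
      calc ‖fderiv ℝ Φ (z.1 i - z.1 j) ((ofL N n u) i - (ofL N n u) j)‖ * ‖z.2 j - z.2 i‖
          ≤ (A * (2 * ‖u‖)) * (2 * sI cl z.2) :=
            mul_le_mul h2 h3 (norm_nonneg _) (by positivity)
        _ = 4 * A * sI cl z.2 * ‖u‖ := by ring
    · rw [norm_zero]
      positivity
  · rw [sum_const]
    apply le_of_eq
    ring

/-- the constant of the theorem -/
noncomputable def AT (N : ℕ) (A A' R : ℝ) : ℝ :=
  2 + N * (4 * A * √R) + (N * (4 * A * √R)) ^ 2 + N * (4 * A')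

theorem main (Φ : E n → ℝ) (cl : Fin N → Fin K) (lam R : ℝ) (hΦ : Kernel Φ)
    (hs : Function.Surjective cl) (A A' : ℝ) (hA : 0 ≤ A)
    (hA1 : ∀ x, ‖fderiv ℝ Φ x‖ ≤ A * √(Φ x)) (hA2 : ∀ x, ‖fderiv ℝ Φ x‖ ≤ A')
    (eps : ℝ) (h0 : 0 < eps) (h1 : eps ≤ 1) (y : ℝ → P N n) (hy : Continuous y)
    (hg : GoodTraj Φ cl lam R eps (fun t => (y t).1) (fun t => (y t).2)) :
    LinOK (dat Φ cl y) lam (AT N A A' R * eps) (fun t => 2 * qI Φ cl (y t).1)
      (fun t => N * (4 * A * √R) * √(qI Φ cl (y t).1)) (fun t => N * (4 * A') * sI cl (y t).2) := by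
  have hA' : 0 ≤ A' := (norm_nonneg _).trans (hA2 0)
  set c1 : ℝ := N * (4 * A * √R) with hc1
  set c2 : ℝ := N * (4 * A') with hc2
  have hc10 : 0 ≤ c1 := by positivity
  have hc20 : 0 ≤ c2 := by positivity
  have hee : eps ^ 2 ≤ eps := by nlinarith
  have hAT : AT N A A' R = 2 + c1 + c1 ^ 2 + c2 := rfl
  have b2 : 2 * eps ≤ AT N A A' R * eps := by
    apply mul_le_mul_of_nonneg_right _ h0.le
    rw [hAT]
    nlinarith [sq_nonneg c1]
  have b1 : c1 * eps ≤ AT N A A' R * eps := by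
    apply mul_le_mul_of_nonneg_right _ h0.le
    rw [hAT]
    nlinarith [sq_nonneg c1]
  have b11 : c1 ^ 2 * eps ≤ AT N A A' R * eps := by
    apply mul_le_mul_of_nonneg_right _ h0.le
    rw [hAT]
    nlinarith [sq_nonneg c1]
  have b3 : c2 * eps ≤ AT N A A' R * eps := by
    apply mul_le_mul_of_nonneg_right _ h0.le
    rw [hAT]
    nlinarith [sq_nonneg c1]
  have hqc := cqI Φ hΦ cl y hy
  have hsc := csI (n := n) cl y hy
  refine
    { mu_io := ?_, orth := ?_, cLp := ?_, cSg := ?_, cGe := ?_, cGa := ?_, sym := ?_, Lio := ?_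
      gap := ?_, muGa := ?_, cq := ?_, cg := ?_, cs := ?_, nSg := ?_, nGe := ?_, nGa := ?_
      q_le := ?_, g_le := ?_, s_le := ?_, q_int := ?_, g_int := ?_, s_int := ?_ }
  · intro τ
    show muL cl (ioL cl τ) = τ
    rw [muL_apply, mu_io hs]
  · intro x y
    show inner ℝ ((toL N n) (ioL cl (muL cl (ofL N n x)))) y =
      inner ℝ x ((toL N n) (ioL cl (muL cl (ofL N n y))))
    rw [PiLp.inner_apply, PiLp.inner_apply, muL_apply, muL_apply]
    have e1 : ∑ i, inner ℝ (((toL N n) (ioL cl (mu cl (ofL N n x)))) i) (y i) =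
        ∑ i, inner ℝ (mu cl (ofL N n x) (cl i)) ((ofL N n y) i) := rfl
    have e2 : ∑ i, inner ℝ (x i) (((toL N n) (ioL cl (mu cl (ofL N n y)))) i) =
        ∑ i, inner ℝ ((ofL N n x) i) (mu cl (ofL N n y) (cl i)) := rfl
    rw [e1, e2, inner_mu hs]
    have e3 : ∑ i, inner ℝ ((ofL N n x) i) (mu cl (ofL N n y) (cl i)) =
        ∑ i, inner ℝ (mu cl (ofL N n y) (cl i)) ((ofL N n x) i) := by
      apply Finset.sum_congr rfl
      intro i _
      rw [real_inner_comm]
    rw [e3, inner_mu hs]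
    apply Finset.sum_congr rfl
    intro a _
    rw [real_inner_comm]
  · exact (cLp Φ hΦ cl y hy).continuousOn
  · exact (cSg Φ hΦ cl y hy).continuousOn
  · exact (cGe Φ hΦ cl y hy).continuousOn
  · exact (cGa Φ hΦ cl y hy).continuousOn
  · intro t _ u w
    show inner ℝ (cj (LpC Φ cl (y t).1) u) w = inner ℝ u (cj (LpC Φ cl (y t).1) w)
    rw [real_inner_comm _ u, inner_Lp Φ hΦ, inner_Lp Φ hΦ]
    congr 1
    apply Finset.sum_congr rfl
    intro i _
    apply Finset.sum_congr rfl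
    intro j _
    rw [real_inner_comm]
  · intro t _ τ
    show cj (LpC Φ cl (y t).1) ((toL N n) (ioL cl τ)) = 0
    ext1 i
    rw [cj_apply, LpC_apply]
    have e : ∑ j, (if cl i = cl j then Φ ((y t).1 i - (y t).1 j) •
        ((ofL N n ((toL N n) (ioL cl τ))) i - (ofL N n ((toL N n) (ioL cl τ))) j) else 0) = 0 := by
      apply Finset.sum_eq_zero
      intro j _
      split_ifs with h
      · have e2 : (ofL N n ((toL N n) (ioL cl τ))) i - (ofL N n ((toL N n) (ioL cl τ))) j =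
            τ (cl i) - τ (cl j) := rfl
        rw [e2, h, sub_self, smul_zero]
      · rfl
    rw [e, smul_zero]
    rfl
  · intro t ht u hu
    have hu2 : mu cl (ofL N n u) = 0 := by
      rw [← muL_apply]
      exact hu
    have h2 := hg.gap t ht (ofL N n u) hu2
    show lam * ‖u‖ ^ 2 ≤ inner ℝ (cj (LpC Φ cl (y t).1) u) u
    rw [inner_Lp Φ hΦ]
    have e1 : ‖u‖ ^ 2 = ke (ofL N n u) := PiLp.norm_sq_eq_of_L2 _ u
    rw [e1]
    refine h2.trans (le_of_eq ?_)
    congr 1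
    apply Finset.sum_congr rfl
    intro i _
    apply Finset.sum_congr rfl
    intro j _
    rw [real_inner_self_eq_norm_sq]
    rfl
  · intro t _ u
    show muL cl (GaC Φ cl (y t) (ofL N n u)) = 0
    rw [muL_apply, mu_Ga Φ hΦ]
  · exact (continuous_const.mul hqc).continuousOn
  · exact (continuous_const.mul hqc.sqrt).continuousOn
  · exact (continuous_const.mul hsc).continuousOn
  · intro t _
    exact nSg Φ hΦ cl (y t).1
  · intro t ht
    exact nGe Φ hΦ cl (y t) A R hA hA1 (hg.vel t ht)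
  · intro t _
    exact nGa Φ cl (y t) A' hA2
  · intro t ht
    have h2 := hg.q_le t ht
    linarith
  · intro t ht
    have h2 : √(qI Φ cl (y t).1) ≤ eps := by
      rw [← Real.sqrt_sq h0.le]
      exact Real.sqrt_le_sqrt (hg.q_le t ht)
    exact (mul_le_mul_of_nonneg_left h2 hc10).trans b1
  · intro t ht
    exact (mul_le_mul_of_nonneg_left (hg.s_le t ht) hc20).trans b3
  · intro T hT
    rw [intervalIntegral.integral_const_mul]
    have h2 := hg.q_int T hT
    linarith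
  · intro T hT
    have e : (fun t => (c1 * √(qI Φ cl (y t).1)) ^ 2) = fun t => c1 ^ 2 * qI Φ cl (y t).1 := by
      funext t
      rw [mul_pow, Real.sq_sqrt (qI_nonneg Φ hΦ cl _)]
    rw [e, intervalIntegral.integral_const_mul]
    have h2 := hg.q_int T hT
    exact (mul_le_mul_of_nonneg_left (h2.trans hee) (sq_nonneg c1)).trans b11
  · intro T hT
    rw [intervalIntegral.integral_const_mul]
    exact (mul_le_mul_of_nonneg_left (hg.s_int T hT) hc20).trans b3

end I_LOKX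

theorem I_LOK (hG : GRD) (hP : PERB) : LOK := by
  intro n N K Φ cl lam R hΦ hL hs hlam
  obtain ⟨A, hA, hA1, -⟩ := hG n Φ hΦ hL
  obtain ⟨A', hA2⟩ := hP n Φ hΦ
  have hA' : 0 ≤ A' := (norm_nonneg _).trans (hA2 0).2
  refine ⟨I_LOKX.AT N A A' R, ?_, ?_⟩
  · unfold I_LOKX.AT
    positivity
  · intro eps h0 h1 φ M hφ z hz
    have hy : Continuous (fun t => φ t z) :=
      hφ.cont.comp (Continuous.prodMk continuous_id continuous_const)
    exact ⟨_, _, _, I_LOKX.main Φ cl lam R hΦ hs A A' hA.le hA1 (fun x => (hA2 x).2) eps h0 h1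
      (fun t => φ t z) hy hz⟩

end Pool.Agent.Work.MP_c9f990_an.Al

end

section

set_option autoImplicit false

/-!
# MP_c9f990_an: the derivative of the flow is a fundamental solution
-/

open MeasureTheory Set Filter Topology

namespace Pool.Agent.Work.MP_c9f990_an.Al

namespace I_LSOLX

variable {N n K : ℕ}

theorem ofL_toL (u : C N n) : ofL N n (toL N n u) = u := by
  show (toX N n).symm (toX N n u) = u
  exact (toX N n).symm_apply_apply u

theorem cj_toL (A : C N n →L[ℝ] C N n) (u : C N n) : cj A (toL N n u) = toL N n (A u) := by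
  show toL N n (A (ofL N n (toL N n u))) = _
  rw [ofL_toL]

/-- composition with fixed operators on both sides -/
noncomputable def both {Q Y Z W : Type} [NormedAddCommGroup Q] [NormedSpace ℝ Q]
    [NormedAddCommGroup Y] [NormedSpace ℝ Y] [NormedAddCommGroup Z] [NormedSpace ℝ Z]
    [NormedAddCommGroup W] [NormedSpace ℝ W] (L : Y →L[ℝ] Z) (B : W →L[ℝ] Q) :
    (Q →L[ℝ] Y) →L[ℝ] (W →L[ℝ] Z) :=
  (ContinuousLinearMap.compL ℝ W Y Z L).comp ((ContinuousLinearMap.compL ℝ W Q Y).flip B)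

theorem both_apply {Q Y Z W : Type} [NormedAddCommGroup Q] [NormedSpace ℝ Q]
    [NormedAddCommGroup Y] [NormedSpace ℝ Y] [NormedAddCommGroup Z] [NormedSpace ℝ Z]
    [NormedAddCommGroup W] [NormedSpace ℝ W] (L : Y →L[ℝ] Z) (B : W →L[ℝ] Q) (A : Q →L[ℝ] Y) :
    both L B A = L.comp (A.comp B) := rfl

theorem deriv_both {Q Y Z W : Type} [NormedAddCommGroup Q] [NormedSpace ℝ Q]
    [NormedAddCommGroup Y] [NormedSpace ℝ Y] [NormedAddCommGroup Z] [NormedSpace ℝ Z]
    [NormedAddCommGroup W] [NormedSpace ℝ W] (L : Y →L[ℝ] Z) (B : W →L[ℝ] Q)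
    {A : ℝ → Q →L[ℝ] Y} {A' : Q →L[ℝ] Y} {t : ℝ} (h : HasDerivAt A A' t) :
    HasDerivAt (fun s => L.comp ((A s).comp B)) (L.comp (A'.comp B)) t :=
  (both L B).hasFDerivAt.comp_hasDerivAt t h

end I_LSOLX

open I_LSOLX in
theorem I_LSOL (hF : FDF) : LSOL := by
  intro n N K Φ cl R hΦ φ M hM z hz
  have hx : ∀ t, xmF cl M z t = ((toL N n).comp (ContinuousLinearMap.fst ℝ (C N n) (C N n))).comp
      ((M t z).comp (emb cl)) := fun t => rfl
  have hv : ∀ t, vmF cl M z t = ((toL N n).comp (ContinuousLinearMap.snd ℝ (C N n) (C N n))).comp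
      ((M t z).comp (emb cl)) := fun t => rfl
  refine ⟨?_, ?_, ?_, ?_⟩
  · rw [hx, hM.M0]
    apply ContinuousLinearMap.ext
    intro y
    show toL N n (ofL N n y.1) = y.1
    exact (toX N n).apply_symm_apply y.1
  · rw [hv, hM.M0]
    apply ContinuousLinearMap.ext
    intro y
    rfl
  · intro t ht
    have h1 := deriv_both ((toL N n).comp (ContinuousLinearMap.fst ℝ (C N n) (C N n))) (emb cl)
      (hM.Mode z t)
    have h2 : ((toL N n).comp (ContinuousLinearMap.fst ℝ (C N n) (C N n))).comp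
        ((((fderiv ℝ (fld Φ R) (φ t z)).comp (M t z))).comp (emb cl)) = vmF cl M z t := by
      apply ContinuousLinearMap.ext
      intro y
      show toL N n (fderiv ℝ (fld Φ R) (φ t z) (M t z (emb cl y))).1 =
        toL N n (M t z (emb cl y)).2
      rw [hF n N K Φ R cl hΦ (φ t z) (by linarith [hz t ht])]
    rw [h2] at h1
    exact h1.hasDerivWithinAt
  · intro t ht
    have h1 := deriv_both ((toL N n).comp (ContinuousLinearMap.snd ℝ (C N n) (C N n))) (emb cl)
      (hM.Mode z t)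
    have h2 : ((toL N n).comp (ContinuousLinearMap.snd ℝ (C N n) (C N n))).comp
        ((((fderiv ℝ (fld Φ R) (φ t z)).comp (M t z))).comp (emb cl)) =
        -((dat Φ cl (fun t => φ t z)).Lp t).comp (vmF cl M z t) +
        ((dat Φ cl (fun t => φ t z)).Sg t).comp (vmF cl M z t) +
        ((dat Φ cl (fun t => φ t z)).Ge t).comp (xmF cl M z t) +
        ((dat Φ cl (fun t => φ t z)).Ga t).comp (xmF cl M z t) := by
      apply ContinuousLinearMap.ext
      intro y
      show toL N n (fderiv ℝ (fld Φ R) (φ t z) (M t z (emb cl y))).2 =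
        -(cj (LpC Φ cl (φ t z).1) (toL N n (M t z (emb cl y)).2)) +
        cj (SgC Φ cl (φ t z).1) (toL N n (M t z (emb cl y)).2) +
        cj (GeC Φ cl (φ t z)) (toL N n (M t z (emb cl y)).1) +
        cj (GaC Φ cl (φ t z)) (toL N n (M t z (emb cl y)).1)
      rw [hF n N K Φ R cl hΦ (φ t z) (by linarith [hz t ht]), cj_toL, cj_toL, cj_toL, cj_toL]
      generalize M t z (emb cl y) = w
      show toL N n (-(LpC Φ cl (φ t z).1 w.2) + SgC Φ cl (φ t z).1 w.2 +
        GeC Φ cl (φ t z) w.1 + GaC Φ cl (φ t z) w.1) = _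
      rw [map_add, map_add, map_add, map_neg]
    rw [h2] at h1
    exact h1.hasDerivWithinAt

end Pool.Agent.Work.MP_c9f990_an.Al

end

section

set_option autoImplicit false

/-!
# L2 bound of the slope
-/

open MeasureTheory Set Filter Topology
open scoped NNReal ENNReal

namespace Pool.Agent.Work.MP_c9f990_an.Al

namespace I_RL2X

theorem ext_cont {k : ℝ → ℝ} (hk : ContinuousOn k (Ici 0)) :
    Continuous (fun t => k (max t 0)) :=
  hk.comp_continuous (continuous_id.max continuous_const) (fun t => le_max_right t 0)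

theorem ii {k : ℝ → ℝ} (hk : ContinuousOn k (Ici 0)) {T : ℝ} (hT : 0 ≤ T) :
    IntervalIntegrable k volume 0 T := by
  refine ContinuousOn.intervalIntegrable (hk.mono ?_)
  rw [uIcc_of_le hT]
  exact fun t ht => ht.1

/-- integrated differential inequality -/
theorem grow (f f' h : ℝ → ℝ) (lam T : ℝ) (hT : 0 ≤ T) (hf0 : f 0 = 0)
    (hf : ContinuousOn f (Ici 0)) (hh : ContinuousOn h (Ici 0))
    (hd : ∀ t, 0 ≤ t → HasDerivWithinAt f (f' t) (Ici 0) t)
    (hle : ∀ t, 0 ≤ t → f' t ≤ -lam * f t + h t) (hpos : 0 ≤ f T) :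
    lam * ∫ t in (0 : ℝ)..T, f t ≤ ∫ t in (0 : ℝ)..T, h t := by
  have hk : ContinuousOn (fun t => h t - lam * f t) (Ici 0) :=
    hh.sub (continuousOn_const.mul hf)
  have hB : ∀ t, HasDerivAt (fun u => ∫ r in (0 : ℝ)..u, (h (max r 0) - lam * f (max r 0)))
      (h (max t 0) - lam * f (max t 0)) t := fun t =>
    ((ext_cont hk).integral_hasStrictDerivAt 0 t).hasDerivAt
  have h1 := image_le_of_deriv_right_le_deriv_boundary (f := f) (f' := f') (a := 0) (b := T)
    (hf.mono fun t ht => ht.1)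
    (fun t ht => (hd t ht.1).mono (Ici_subset_Ici.2 ht.1))
    (B := fun u => ∫ r in (0 : ℝ)..u, (h (max r 0) - lam * f (max r 0)))
    (B' := fun t => h (max t 0) - lam * f (max t 0))
    (by simp [hf0])
    (fun t _ => (hB t).continuousAt.continuousWithinAt)
    (fun t _ => (hB t).hasDerivWithinAt)
    (fun t ht => by
      have := hle t ht.1
      rw [max_eq_left ht.1]
      linarith) (right_mem_Icc.2 hT)
  have h2 : ∫ r in (0 : ℝ)..T, (h (max r 0) - lam * f (max r 0)) =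
      ∫ r in (0 : ℝ)..T, (h r - lam * f r) := by
    refine intervalIntegral.integral_congr fun r hr => ?_
    rw [uIcc_of_le hT] at hr
    simp only [max_eq_left hr.1]
  have h3 : ∫ r in (0 : ℝ)..T, (h r - lam * f r) =
      (∫ r in (0 : ℝ)..T, h r) - lam * ∫ r in (0 : ℝ)..T, f r := by
    rw [intervalIntegral.integral_sub (ii hh hT) ((ii hf hT).const_mul lam),
      intervalIntegral.integral_const_mul]
  rw [h2, h3] at h1
  linarith

theorem quad (lam F b c : ℝ) (hl : 0 < lam) (hc : 4 * c ≤ lam) :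
    -(2 * lam * F ^ 2) + 2 * F * (c * F + b) ≤ -lam * F ^ 2 + 2 / lam * b ^ 2 := by
  have h1 : 0 ≤ (lam * F - 2 * b) ^ 2 / (2 * lam) := by positivity
  have h2 : (lam * F - 2 * b) ^ 2 / (2 * lam) =
      lam * F ^ 2 / 2 - 2 * F * b + 2 / lam * b ^ 2 := by
    field_simp
    ring
  have h3 : c * F ^ 2 ≤ lam / 4 * F ^ 2 := mul_le_mul_of_nonneg_right (by linarith) (sq_nonneg F)
  rw [h2] at h1
  nlinarith

section proj

variable {X VK : Type} [NormedAddCommGroup X] [InnerProductSpace ℝ X]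
  [NormedAddCommGroup VK] [NormedSpace ℝ VK] {D : LinData X VK} {lam eta : ℝ} {q g s : ℝ → ℝ}

theorem proj_le (h : LinOK D lam eta q g s) (z : X) : ‖D.io (D.mu z)‖ ≤ ‖z‖ := by
  have h1 : inner ℝ (D.io (D.mu z)) (D.io (D.mu z)) = inner ℝ z (D.io (D.mu z)) := by
    rw [h.orth, h.mu_io]
  have h2 : ‖D.io (D.mu z)‖ ^ 2 ≤ ‖z‖ * ‖D.io (D.mu z)‖ := by
    rw [← real_inner_self_eq_norm_sq, h1]
    exact real_inner_le_norm _ _
  by_contra hcon
  have h3 : ‖z‖ < ‖D.io (D.mu z)‖ := not_le.1 hcon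
  have h4 : 0 < ‖D.io (D.mu z)‖ := lt_of_le_of_lt (norm_nonneg _) h3
  nlinarith

theorem om_le (h : LinOK D lam eta q g s) (z : X) : ‖D.om z‖ ≤ ‖z‖ := by
  have h0 : D.om z = z - D.io (D.mu z) := rfl
  have h1 : inner ℝ (D.io (D.mu z)) (D.io (D.mu z)) = inner ℝ z (D.io (D.mu z)) := by
    rw [h.orth, h.mu_io]
  have h2 : ‖D.om z‖ ^ 2 ≤ ‖z‖ ^ 2 := by
    rw [h0, ← real_inner_self_eq_norm_sq, ← real_inner_self_eq_norm_sq, inner_sub_left,
      inner_sub_right, inner_sub_right, real_inner_comm z (D.io (D.mu z)), ← h1]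
    have := real_inner_self_nonneg (x := D.io (D.mu z)) (F := X)
    linarith
  exact le_of_sq_le_sq h2 (norm_nonneg _)

theorem eta_nonneg (h : LinOK D lam eta q g s) : 0 ≤ eta :=
  (norm_nonneg _).trans ((h.nSg 0 le_rfl).trans (h.q_le 0 le_rfl))

theorem q_nonneg (h : LinOK D lam eta q g s) {t : ℝ} (ht : 0 ≤ t) : 0 ≤ q t :=
  (norm_nonneg _).trans (h.nSg t ht)

theorem g_nonneg (h : LinOK D lam eta q g s) {t : ℝ} (ht : 0 ≤ t) : 0 ≤ g t :=
  (norm_nonneg _).trans (h.nGe t ht)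

theorem s_nonneg (h : LinOK D lam eta q g s) {t : ℝ} (ht : 0 ≤ t) : 0 ≤ s t :=
  (norm_nonneg _).trans (h.nGa t ht)

theorem Sg_le (h : LinOK D lam eta q g s) {t : ℝ} (ht : 0 ≤ t) (z : X) :
    ‖D.Sg t z‖ ≤ q t * ‖z‖ :=
  ((D.Sg t).le_opNorm z).trans (mul_le_mul_of_nonneg_right (h.nSg t ht) (norm_nonneg _))

theorem Ge_le (h : LinOK D lam eta q g s) {t : ℝ} (ht : 0 ≤ t) (z : X) :
    ‖D.Ge t z‖ ≤ g t * ‖z‖ :=
  ((D.Ge t).le_opNorm z).trans (mul_le_mul_of_nonneg_right (h.nGe t ht) (norm_nonneg _))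

theorem Ga_le (h : LinOK D lam eta q g s) {t : ℝ} (ht : 0 ≤ t) (z : X) :
    ‖D.Ga t z‖ ≤ s t * ‖z‖ :=
  ((D.Ga t).le_opNorm z).trans (mul_le_mul_of_nonneg_right (h.nGa t ht) (norm_nonneg _))

variable {xm vm Rm : ℝ → (X × VK) →L[ℝ] X}

theorem R_le (hl : 0 < lam) (hS : SlopeOK D lam xm vm Rm) {t : ℝ} (ht : 0 ≤ t) (y : X × VK) :
    ‖Rm t y‖ ≤ lam / 16 * ‖y.1‖ + ‖D.io y.2‖ := by
  have h1 := hS.bound t ht y
  refine le_of_sq_le_sq (h1.trans ?_) (by positivity)
  have : 0 ≤ lam / 16 * ‖y.1‖ * ‖D.io y.2‖ := by positivity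
  nlinarith

/-- the energy estimate -/
theorem energy (hl : 0 < lam) (hl1 : lam ≤ 1) (he : 2000 * eta ≤ lam ^ 2)
    (h : LinOK D lam eta q g s) {t : ℝ} (ht : 0 ≤ t) (R a : X) (b : ℝ) (hR : D.mu R = 0)
    (ha : ‖a‖ ≤ (2 * q t + lam / 16) * ‖R‖ + b) :
    2 * inner ℝ R (-(D.Lp t R) + a) ≤ -lam * ‖R‖ ^ 2 + 2 / lam * b ^ 2 := by
  have h1 := h.gap t ht R hR
  have h2 : inner ℝ R (-(D.Lp t R) + a) ≤ -(lam * ‖R‖ ^ 2) + ‖R‖ * ‖a‖ := by
    rw [inner_add_right, inner_neg_right, real_inner_comm]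
    have := real_inner_le_norm R a
    linarith
  have h3 : ‖R‖ * ‖a‖ ≤ ‖R‖ * ((2 * q t + lam / 16) * ‖R‖ + b) :=
    mul_le_mul_of_nonneg_left ha (norm_nonneg _)
  have h4 := h.q_le t ht
  have h5 : lam ^ 2 ≤ lam := by nlinarith
  have h6 := quad lam ‖R‖ b (2 * q t + lam / 16) hl (by linarith)
  linarith

end proj

section main

variable {X VK : Type} [NormedAddCommGroup X] [InnerProductSpace ℝ X]
  [NormedAddCommGroup VK] [NormedSpace ℝ VK] {D : LinData X VK} {lam eta : ℝ} {q g s : ℝ → ℝ}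
  {xm vm Rm : ℝ → (X × VK) →L[ℝ] X}

theorem cont_f (hS : SlopeOK D lam xm vm Rm) (y : X × VK) :
    ContinuousOn (fun t => ‖Rm t y‖ ^ 2) (Ici 0) :=
  (hS.cR.clm_apply continuousOn_const).norm.pow 2

theorem partA (hl : 0 < lam) (hl1 : lam ≤ 1) (he : 2000 * eta ≤ lam ^ 2)
    (h : LinOK D lam eta q g s) (hS : SlopeOK D lam xm vm Rm) (T : ℝ) (hT : 0 ≤ T) (x : X) :
    ∫ t in (0 : ℝ)..T, ‖Rm t (x, 0)‖ ^ 2 ≤ 18 / lam ^ 2 * eta * ‖x‖ ^ 2 := by
  have heta := eta_nonneg h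
  have hder : ∀ t, 0 ≤ t → HasDerivWithinAt (fun t => ‖Rm t (x, 0)‖ ^ 2)
      (2 * inner ℝ (Rm t (x, 0)) (-(D.Lp t (Rm t (x, 0))) + (D.om (D.Sg t (Rm t (x, 0))) +
        D.om (D.Ge t x) + D.Ga t x -
        Rm t (Rm t (x, 0), D.mu (D.Sg t (Rm t (x, 0)) + D.Ge t x))))) (Ici 0) t := by
    intro t ht
    have h1 := (hS.dR t ht).clm_apply (hasDerivWithinAt_const t (Ici 0) ((x, 0) : X × VK))
    have h2 := h1.norm_sq
    refine h2.congr_deriv ?_
    congr 2
    simp only [map_zero, add_zero, _root_.add_apply, _root_.sub_apply,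
      _root_.neg_apply, ContinuousLinearMap.comp_apply, AA,
      ContinuousLinearMap.prod_apply, ContinuousLinearMap.coe_fst', ContinuousLinearMap.coe_snd',
      zero_add]
    abel
  have hle : ∀ t, 0 ≤ t → 2 * inner ℝ (Rm t (x, 0)) (-(D.Lp t (Rm t (x, 0))) +
      (D.om (D.Sg t (Rm t (x, 0))) + D.om (D.Ge t x) + D.Ga t x -
        Rm t (Rm t (x, 0), D.mu (D.Sg t (Rm t (x, 0)) + D.Ge t x)))) ≤
      -lam * ‖Rm t (x, 0)‖ ^ 2 + (2 / lam * ‖x‖ ^ 2 * (8 * g t ^ 2 + 2 * s t ^ 2)) := by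
    intro t ht
    have hq := q_nonneg h ht
    have hg := g_nonneg h ht
    have hs := s_nonneg h ht
    have h1 := energy hl hl1 he h ht (Rm t (x, 0)) (D.om (D.Sg t (Rm t (x, 0))) +
      D.om (D.Ge t x) + D.Ga t x -
        Rm t (Rm t (x, 0), D.mu (D.Sg t (Rm t (x, 0)) + D.Ge t x)))
      ((2 * g t + s t) * ‖x‖) (hS.muR t ht _) (by
        have e1 := (om_le h (D.Sg t (Rm t (x, 0)))).trans (Sg_le h ht _)
        have e2 := (om_le h (D.Ge t x)).trans (Ge_le h ht _)
        have e3 := Ga_le h ht x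
        have e4 := R_le hl hS ht (Rm t (x, 0), D.mu (D.Sg t (Rm t (x, 0)) + D.Ge t x))
        have e5 := (proj_le h (D.Sg t (Rm t (x, 0)) + D.Ge t x)).trans (norm_add_le _ _)
        have e6 := Sg_le h ht (Rm t (x, 0))
        have e7 := Ge_le h ht x
        simp only at e4
        have e8 := norm_sub_le (D.om (D.Sg t (Rm t (x, 0))) + D.om (D.Ge t x) + D.Ga t x)
          (Rm t (Rm t (x, 0), D.mu (D.Sg t (Rm t (x, 0)) + D.Ge t x)))
        have e9 := norm_add_le (D.om (D.Sg t (Rm t (x, 0))) + D.om (D.Ge t x)) (D.Ga t x)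
        have e10 := norm_add_le (D.om (D.Sg t (Rm t (x, 0)))) (D.om (D.Ge t x))
        nlinarith)
    have h2 : ((2 * g t + s t) * ‖x‖) ^ 2 ≤ ‖x‖ ^ 2 * (8 * g t ^ 2 + 2 * s t ^ 2) := by
      rw [mul_pow, mul_comm]
      refine mul_le_mul_of_nonneg_left ?_ (sq_nonneg _)
      nlinarith [sq_nonneg (2 * g t - s t)]
    have h3 : 2 / lam * ((2 * g t + s t) * ‖x‖) ^ 2 ≤
        2 / lam * (‖x‖ ^ 2 * (8 * g t ^ 2 + 2 * s t ^ 2)) :=
      mul_le_mul_of_nonneg_left h2 (by positivity)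
    calc _ ≤ _ := h1
      _ ≤ _ := by linarith
  have hcg : ContinuousOn (fun t => g t ^ 2) (Ici 0) := h.cg.pow 2
  have hcs : ContinuousOn (fun t => s t ^ 2) (Ici 0) := h.cs.pow 2
  have hh : ContinuousOn (fun t => 2 / lam * ‖x‖ ^ 2 * (8 * g t ^ 2 + 2 * s t ^ 2)) (Ici 0) :=
    continuousOn_const.mul ((continuousOn_const.mul hcg).add (continuousOn_const.mul hcs))
  have h1 := grow (fun t => ‖Rm t (x, 0)‖ ^ 2) _ _ lam T hT
    (by simp [hS.R0]) (cont_f hS _) hh hder hle (sq_nonneg _)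
  have h2 : ∫ t in (0 : ℝ)..T, 2 / lam * ‖x‖ ^ 2 * (8 * g t ^ 2 + 2 * s t ^ 2) =
      2 / lam * ‖x‖ ^ 2 * (8 * (∫ t in (0 : ℝ)..T, g t ^ 2) + 2 * ∫ t in (0 : ℝ)..T, s t ^ 2) := by
    rw [intervalIntegral.integral_const_mul, intervalIntegral.integral_add
      ((ii hcg hT).const_mul 8) ((ii hcs hT).const_mul 2), intervalIntegral.integral_const_mul,
      intervalIntegral.integral_const_mul]
  have h3 : ∫ t in (0 : ℝ)..T, s t ^ 2 ≤ eta * eta := by
    have e1 : ∫ t in (0 : ℝ)..T, s t ^ 2 ≤ ∫ t in (0 : ℝ)..T, eta * s t := by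
      refine intervalIntegral.integral_mono_on hT (ii hcs hT) ((ii h.cs hT).const_mul eta)
        fun t ht => ?_
      rw [sq]
      exact mul_le_mul_of_nonneg_right (h.s_le t ht.1) (s_nonneg h ht.1)
    rw [intervalIntegral.integral_const_mul] at e1
    exact e1.trans (mul_le_mul_of_nonneg_left (h.s_int T hT) heta)
  have h4 := h.g_int T hT
  have h5 : eta ≤ 1 / 2000 := by nlinarith
  have h6 : 8 * (∫ t in (0 : ℝ)..T, g t ^ 2) + 2 * ∫ t in (0 : ℝ)..T, s t ^ 2 ≤ 9 * eta := by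
    nlinarith
  rw [h2] at h1
  have h7 : lam * ∫ t in (0 : ℝ)..T, ‖Rm t (x, 0)‖ ^ 2 ≤ 2 / lam * ‖x‖ ^ 2 * (9 * eta) :=
    h1.trans (mul_le_mul_of_nonneg_left h6 (by positivity))
  have h8 : lam * (18 / lam ^ 2 * eta * ‖x‖ ^ 2) = 2 / lam * ‖x‖ ^ 2 * (9 * eta) := by
    field_simp
    ring
  rw [← h8] at h7
  exact le_of_mul_le_mul_left h7 hl

theorem partB (hl : 0 < lam) (hl1 : lam ≤ 1) (he : 2000 * eta ≤ lam ^ 2)
    (h : LinOK D lam eta q g s) (hS : SlopeOK D lam xm vm Rm) (T : ℝ) (hT : 0 ≤ T) (τ : VK) :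
    ∫ t in (0 : ℝ)..T, ‖Rm t (0, τ)‖ ^ 2 ≤ 400 / lam ^ 4 * eta * ‖D.io τ‖ ^ 2 := by
  have heta := eta_nonneg h
  have hsplit : ∀ t, 0 ≤ t → ∀ w : VK, Rm t (D.io τ + Rm t (0, τ), w) =
      Rm t (D.io τ, 0) + Rm t (Rm t (0, τ), w) := by
    intro t _ w
    rw [← map_add, Prod.mk_add_mk, zero_add]
  have hder : ∀ t, 0 ≤ t → HasDerivWithinAt (fun t => ‖Rm t (0, τ)‖ ^ 2)
      (2 * inner ℝ (Rm t (0, τ)) (-(D.Lp t (Rm t (0, τ))) +
        (D.om (D.Sg t (D.io τ + Rm t (0, τ))) -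
        Rm t (D.io τ + Rm t (0, τ), D.mu (D.Sg t (D.io τ + Rm t (0, τ))))))) (Ici 0) t := by
    intro t ht
    have h1 := (hS.dR t ht).clm_apply (hasDerivWithinAt_const t (Ici 0) ((0, τ) : X × VK))
    have h2 := h1.norm_sq
    refine h2.congr_deriv ?_
    congr 2
    simp only [map_zero, add_zero, _root_.add_apply, _root_.sub_apply,
      _root_.neg_apply, ContinuousLinearMap.comp_apply, AA,
      ContinuousLinearMap.prod_apply, ContinuousLinearMap.coe_fst', ContinuousLinearMap.coe_snd']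
    abel
  have hle : ∀ t, 0 ≤ t → 2 * inner ℝ (Rm t (0, τ)) (-(D.Lp t (Rm t (0, τ))) +
        (D.om (D.Sg t (D.io τ + Rm t (0, τ))) -
        Rm t (D.io τ + Rm t (0, τ), D.mu (D.Sg t (D.io τ + Rm t (0, τ)))))) ≤
      -lam * ‖Rm t (0, τ)‖ ^ 2 + (2 / lam * (8 * ‖D.io τ‖ ^ 2 * q t ^ 2 +
        2 * ‖Rm t (D.io τ, 0)‖ ^ 2)) := by
    intro t ht
    have hq := q_nonneg h ht
    have h1 := energy hl hl1 he h ht (Rm t (0, τ)) (D.om (D.Sg t (D.io τ + Rm t (0, τ))) -
        Rm t (D.io τ + Rm t (0, τ), D.mu (D.Sg t (D.io τ + Rm t (0, τ)))))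
      (2 * q t * ‖D.io τ‖ + ‖Rm t (D.io τ, 0)‖) (hS.muR t ht _) (by
        rw [hsplit t ht]
        have e0 := norm_add_le (D.io τ) (Rm t (0, τ))
        have e1 := (om_le h (D.Sg t (D.io τ + Rm t (0, τ)))).trans (Sg_le h ht _)
        have e2 : q t * ‖D.io τ + Rm t (0, τ)‖ ≤ q t * (‖D.io τ‖ + ‖Rm t (0, τ)‖) :=
          mul_le_mul_of_nonneg_left e0 hq
        have e4 := R_le hl hS ht (Rm t (0, τ), D.mu (D.Sg t (D.io τ + Rm t (0, τ))))
        have e5 := (proj_le h (D.Sg t (D.io τ + Rm t (0, τ)))).trans (Sg_le h ht _)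
        simp only at e4
        have e8 := norm_sub_le (D.om (D.Sg t (D.io τ + Rm t (0, τ))))
          (Rm t (D.io τ, 0) + Rm t (Rm t (0, τ), D.mu (D.Sg t (D.io τ + Rm t (0, τ)))))
        have e9 := norm_add_le (Rm t (D.io τ, 0))
          (Rm t (Rm t (0, τ), D.mu (D.Sg t (D.io τ + Rm t (0, τ)))))
        nlinarith)
    have h2 : (2 * q t * ‖D.io τ‖ + ‖Rm t (D.io τ, 0)‖) ^ 2 ≤
        8 * ‖D.io τ‖ ^ 2 * q t ^ 2 + 2 * ‖Rm t (D.io τ, 0)‖ ^ 2 := by
      nlinarith [sq_nonneg (2 * q t * ‖D.io τ‖ - ‖Rm t (D.io τ, 0)‖)]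
    have h3 : 2 / lam * (2 * q t * ‖D.io τ‖ + ‖Rm t (D.io τ, 0)‖) ^ 2 ≤
        2 / lam * (8 * ‖D.io τ‖ ^ 2 * q t ^ 2 + 2 * ‖Rm t (D.io τ, 0)‖ ^ 2) :=
      mul_le_mul_of_nonneg_left h2 (by positivity)
    linarith
  have hcq : ContinuousOn (fun t => q t ^ 2) (Ici 0) := h.cq.pow 2
  have hcR := cont_f hS (D.io τ, 0)
  have hh : ContinuousOn (fun t => 2 / lam * (8 * ‖D.io τ‖ ^ 2 * q t ^ 2 +
      2 * ‖Rm t (D.io τ, 0)‖ ^ 2)) (Ici 0) :=
    continuousOn_const.mul ((continuousOn_const.mul hcq).add (continuousOn_const.mul hcR))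
  have h1 := grow (fun t => ‖Rm t (0, τ)‖ ^ 2) _ _ lam T hT
    (by simp [hS.R0]) (cont_f hS _) hh hder hle (sq_nonneg _)
  have h2 : ∫ t in (0 : ℝ)..T, 2 / lam * (8 * ‖D.io τ‖ ^ 2 * q t ^ 2 +
      2 * ‖Rm t (D.io τ, 0)‖ ^ 2) = 2 / lam * (8 * ‖D.io τ‖ ^ 2 * (∫ t in (0 : ℝ)..T, q t ^ 2) +
        2 * ∫ t in (0 : ℝ)..T, ‖Rm t (D.io τ, 0)‖ ^ 2) := by
    rw [intervalIntegral.integral_const_mul, intervalIntegral.integral_add
      ((ii hcq hT).const_mul _) ((ii hcR hT).const_mul 2), intervalIntegral.integral_const_mul,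
      intervalIntegral.integral_const_mul]
  have h3 : ∫ t in (0 : ℝ)..T, q t ^ 2 ≤ eta * eta := by
    have e1 : ∫ t in (0 : ℝ)..T, q t ^ 2 ≤ ∫ t in (0 : ℝ)..T, eta * q t := by
      refine intervalIntegral.integral_mono_on hT (ii hcq hT) ((ii h.cq hT).const_mul eta)
        fun t ht => ?_
      rw [sq]
      exact mul_le_mul_of_nonneg_right (h.q_le t ht.1) (q_nonneg h ht.1)
    rw [intervalIntegral.integral_const_mul] at e1
    exact e1.trans (mul_le_mul_of_nonneg_left (h.q_int T hT) heta)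
  have h4 := partA hl hl1 he h hS T hT (D.io τ)
  rw [h2] at h1
  set n := ‖D.io τ‖ ^ 2 with hn
  have hn0 : 0 ≤ n := sq_nonneg _
  have h5 : 8 * n * (∫ t in (0 : ℝ)..T, q t ^ 2) + 2 * ∫ t in (0 : ℝ)..T, ‖Rm t (D.io τ, 0)‖ ^ 2 ≤
      8 * n * (eta * eta) + 2 * (18 / lam ^ 2 * eta * n) := by
    have := mul_le_mul_of_nonneg_left h3 (by positivity : 0 ≤ 8 * n)
    linarith
  have h6 : lam * ∫ t in (0 : ℝ)..T, ‖Rm t (0, τ)‖ ^ 2 ≤
      2 / lam * (8 * n * (eta * eta) + 2 * (18 / lam ^ 2 * eta * n)) :=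
    h1.trans (mul_le_mul_of_nonneg_left h5 (by positivity))
  have h7 : 2 / lam * (8 * n * (eta * eta) + 2 * (18 / lam ^ 2 * eta * n)) ≤
      lam * (400 / lam ^ 4 * eta * n) := by
    have e1 : lam * (400 / lam ^ 4 * eta * n) -
        2 / lam * (8 * n * (eta * eta) + 2 * (18 / lam ^ 2 * eta * n)) =
        n * eta / lam ^ 3 * (328 - 16 * (eta * lam ^ 2)) := by
      field_simp
      ring
    have e2 : lam ^ 2 ≤ 1 := by nlinarith
    have e3 : eta * lam ^ 2 ≤ 1 := by nlinarith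
    have e4 : 0 ≤ n * eta / lam ^ 3 * (328 - 16 * (eta * lam ^ 2)) :=
      mul_nonneg (by positivity) (by linarith)
    linarith
  exact le_of_mul_le_mul_left (h6.trans h7) hl

end main

end I_RL2X

open I_RL2X in
theorem I_RL2 : RL2 := by
  intro X VK _ _ _ _ _ _ D lam eta q g s hl hl1 he h xm vm Rm hS T hT
  have heta := eta_nonneg h
  refine ⟨fun x => (partA hl hl1 he h hS T hT x).trans ?_, partB hl hl1 he h hS T hT⟩
  have h1 : 18 / lam ^ 2 ≤ 400 / lam ^ 4 := by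
    rw [div_le_div_iff₀ (by positivity) (by positivity)]
    have e1 : lam ^ 2 ≤ 1 := by nlinarith
    have e2 : 0 ≤ lam ^ 2 := sq_nonneg _
    nlinarith [mul_nonneg e2 (sub_nonneg.2 e1)]
  exact mul_le_mul_of_nonneg_right (mul_le_mul_of_nonneg_right h1 heta) (sq_nonneg _)

end Pool.Agent.Work.MP_c9f990_an.Al

end

section

set_option autoImplicit false

/-!
# MP_c9f990_an: item SLC of block RG (helper10)
-/

open MeasureTheory Set Filter Topology
open scoped NNReal ENNReal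

namespace Pool.Agent.Work.MP_c9f990_an.Al

namespace I_SLCX

variable {N n K : ℕ}

lemma continuous_io (cl : Fin N → Fin K) : Continuous (io (n := n) cl) :=
  continuous_pi fun i => continuous_apply (cl i)

lemma norm_io_le (cl : Fin N → Fin K) (V : Fin K → E n) : ‖io cl V‖ ≤ ‖V‖ :=
  (pi_norm_le_iff_of_nonneg (norm_nonneg V)).2 fun i => norm_le_pi_norm V (cl i)

lemma norm_le_of_ke {v : C N n} {R : ℝ} (h : ke v ≤ R) : ‖v‖ ≤ Real.sqrt (max R 0) := by
  refine (pi_norm_le_iff_of_nonneg (Real.sqrt_nonneg _)).2 fun i => ?_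
  refine Real.le_sqrt_of_sq_le ?_
  have h1 : ‖v i‖ ^ 2 ≤ ke v :=
    Finset.single_le_sum (f := fun j => ‖v j‖ ^ 2) (fun j _ => sq_nonneg _) (Finset.mem_univ i)
  exact h1.trans (h.trans (le_max_left _ _))

/-- the auxiliary set -/
def aux (cl : Fin N → Fin K) (S : Set (P N n)) : Set (C N n × (C N n × (Fin K → E n))) :=
  {q | (q.2.1, q.1 + io cl q.2.2) ∈ S ∧ q.2.2 ∈ Metric.closedBall (0 : Fin K → E n) 1}

lemma measurableSet_aux (cl : Fin N → Fin K) {S : Set (P N n)} (hS : MeasurableSet S) :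
    MeasurableSet (aux cl S) := by
  have hc : Continuous (fun q : C N n × (C N n × (Fin K → E n)) =>
      ((q.2.1, q.1 + io cl q.2.2) : P N n)) := by
    have := continuous_io (n := n) cl
    fun_prop
  have h2 : Continuous (fun q : C N n × (C N n × (Fin K → E n)) => q.2.2) := by fun_prop
  exact (hc.measurable hS).inter (h2.measurable Metric.isClosed_closedBall.measurableSet)

lemma vol_aux (cl : Fin N → Fin K) {S : Set (P N n)} (hS : MeasurableSet S) :
    volume (aux cl S) = volume S * volume (Metric.closedBall (0 : Fin K → E n) 1) := by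
  have h0 : (volume : Measure (C N n × (C N n × (Fin K → E n)))) =
      (volume : Measure (C N n)).prod (volume : Measure (C N n × (Fin K → E n))) := rfl
  have h1 : ∀ y : C N n × (Fin K → E n), volume ((fun v : C N n => (v, y)) ⁻¹' aux cl S) =
      volume (Prod.mk y.1 ⁻¹' S) *
        (Metric.closedBall (0 : Fin K → E n) 1).indicator 1 y.2 := by
    intro y
    by_cases hy : y.2 ∈ Metric.closedBall (0 : Fin K → E n) 1
    · have h2 : (fun v : C N n => (v, y)) ⁻¹' aux cl S =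
          (fun v => v + io cl y.2) ⁻¹' (Prod.mk y.1 ⁻¹' S) := by
        ext v
        constructor
        · intro h
          exact h.1
        · intro h
          exact ⟨h, hy⟩
      rw [h2, measure_preimage_add_right, Set.indicator_of_mem hy]
      simp
    · have h2 : (fun v : C N n => (v, y)) ⁻¹' aux cl S = ∅ := by
        ext v
        constructor
        · intro h
          exact absurd h.2 hy
        · intro h
          exact absurd h (Set.notMem_empty _)
      rw [h2, Set.indicator_of_notMem hy]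
      simp
  rw [h0, Measure.prod_apply_symm (measurableSet_aux cl hS)]
  simp_rw [h1]
  have h3 : (volume : Measure (C N n × (Fin K → E n))) =
      (volume : Measure (C N n)).prod (volume : Measure (Fin K → E n)) := rfl
  rw [h3, lintegral_prod_mul (f := fun x : C N n => volume (Prod.mk x ⁻¹' S))
    (g := (Metric.closedBall (0 : Fin K → E n) 1).indicator 1)
    (measurable_measure_prodMk_left hS).aemeasurable
    ((measurable_one.indicator Metric.isClosed_closedBall.measurableSet).aemeasurable),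
    lintegral_indicator_one Metric.isClosed_closedBall.measurableSet]
  have h4 : (volume : Measure (P N n)) =
      (volume : Measure (C N n)).prod (volume : Measure (C N n)) := rfl
  rw [h4, Measure.prod_apply hS]

lemma vol_aux_le (cl : Fin N → Fin K) {S : Set (P N n)} (hS : MeasurableSet S) {R : ℝ}
    (hR : ∀ z ∈ S, ke z.2 ≤ R) {b : ℝ≥0∞}
    (hb : ∀ v : C N n, volume {y : C N n × (Fin K → E n) | (y.1, v + io cl y.2) ∈ S} ≤ b) :
    volume (aux cl S) ≤
      b * volume (Metric.closedBall (0 : C N n) (Real.sqrt (max R 0) + 1)) := by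
  have h0 : (volume : Measure (C N n × (C N n × (Fin K → E n)))) =
      (volume : Measure (C N n)).prod (volume : Measure (C N n × (Fin K → E n))) := rfl
  rw [h0, Measure.prod_apply (measurableSet_aux cl hS)]
  have h1 : ∀ v : C N n, volume (Prod.mk v ⁻¹' aux cl S) ≤
      (Metric.closedBall (0 : C N n) (Real.sqrt (max R 0) + 1)).indicator (fun _ => b) v := by
    intro v
    by_cases hv : v ∈ Metric.closedBall (0 : C N n) (Real.sqrt (max R 0) + 1)
    · rw [Set.indicator_of_mem hv]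
      refine le_trans (measure_mono ?_) (hb v)
      intro y hy
      exact hy.1
    · have h2 : Prod.mk v ⁻¹' aux cl S = ∅ := by
        ext y
        constructor
        · intro h
          refine absurd ?_ hv
          have h6 : ((y.1, v + io cl y.2) : P N n) ∈ S := h.1
          have h7 : ke (v + io cl y.2) ≤ R := hR (y.1, v + io cl y.2) h6
          have h3 : ‖v + io cl y.2‖ ≤ Real.sqrt (max R 0) := norm_le_of_ke h7
          have h4 : ‖y.2‖ ≤ 1 := mem_closedBall_zero_iff.1 h.2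
          have h5 : ‖io cl y.2‖ ≤ 1 := (norm_io_le cl y.2).trans h4
          rw [mem_closedBall_zero_iff]
          calc ‖v‖ = ‖(v + io cl y.2) - io cl y.2‖ := by rw [add_sub_cancel_right]
            _ ≤ ‖v + io cl y.2‖ + ‖io cl y.2‖ := norm_sub_le _ _
            _ ≤ _ := add_le_add h3 h5
        · intro h
          exact absurd h (Set.notMem_empty _)
      rw [h2, measure_empty]
      exact zero_le
  refine (lintegral_mono h1).trans ?_
  rw [lintegral_indicator_const Metric.isClosed_closedBall.measurableSet]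

end I_SLCX

open I_SLCX in
theorem I_SLC : SLC := by
  intro n N K cl R
  set β : ℝ≥0∞ := volume (Metric.closedBall (0 : Fin K → E n) 1) with hβ
  set γ : ℝ≥0∞ := volume (Metric.closedBall (0 : C N n) (Real.sqrt (max R 0) + 1)) with hγ
  have hβ0 : β ≠ 0 := (Metric.measure_closedBall_pos volume _ one_pos).ne'
  have hβt : β ≠ ⊤ := measure_closedBall_lt_top.ne
  have hγt : γ ≠ ⊤ := measure_closedBall_lt_top.ne
  refine ⟨(γ / β).toReal, ENNReal.toReal_nonneg, ?_⟩
  intro S hS hR b hb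
  have hdiv : γ / β ≠ ⊤ := ENNReal.div_ne_top hγt hβ0
  rw [ENNReal.ofReal_toReal hdiv]
  have h1 := vol_aux_le cl hS hR hb
  rw [vol_aux cl hS] at h1
  have h2 : volume S ≤ (b * γ) / β := (ENNReal.le_div_iff_mul_le (Or.inl hβ0) (Or.inl hβt)).2 h1
  refine h2.trans (le_of_eq ?_)
  rw [div_eq_mul_inv, div_eq_mul_inv]
  ring

end Pool.Agent.Work.MP_c9f990_an.Al

end

section

set_option autoImplicit false

/-!
# MP_c9f990_an, block RG, item SLP: existence and properties of the slope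
-/

open MeasureTheory Set Filter Topology
open scoped NNReal ENNReal

namespace Pool.Agent.Work.MP_c9f990_an.Al

namespace I_SLPX

variable {X VK : Type} [NormedAddCommGroup X] [InnerProductSpace ℝ X]
  [NormedAddCommGroup VK] [NormedSpace ℝ VK]

/-- the means of the internal friction vanish -/
lemma mu_Lp {D : LinData X VK} {lam eta : ℝ} {q g s : ℝ → ℝ} (h : LinOK D lam eta q g s)
    (t : ℝ) (ht : 0 ≤ t) (x : X) : D.mu (D.Lp t x) = 0 := by
  have h1 : D.io (D.mu (D.Lp t x)) = 0 := by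
    have h2 := h.orth (D.Lp t x) (D.io (D.mu (D.Lp t x)))
    rw [h.sym t ht, h.Lio t ht, inner_zero_right] at h2
    exact inner_self_eq_zero.1 h2
  have h3 := h.mu_io (D.mu (D.Lp t x))
  rw [h1, map_zero] at h3
  exact h3.symm

lemma eta_nn {D : LinData X VK} {lam eta : ℝ} {q g s : ℝ → ℝ} (h : LinOK D lam eta q g s) :
    0 ≤ eta :=
  (norm_nonneg _).trans ((h.nSg 0 le_rfl).trans (h.q_le 0 le_rfl))

/-- the generator of the linearized system -/
noncomputable def Gn (D : LinData X VK) (t : ℝ) : (X × X) →L[ℝ] (X × X) :=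
  (ContinuousLinearMap.snd ℝ X X).prod
    (-(D.Lp t).comp (ContinuousLinearMap.snd ℝ X X) +
      (D.Sg t).comp (ContinuousLinearMap.snd ℝ X X) +
      (D.Ge t).comp (ContinuousLinearMap.fst ℝ X X) +
      (D.Ga t).comp (ContinuousLinearMap.fst ℝ X X))

lemma Gn_bound (D : LinData X VK) (t : ℝ) :
    ‖Gn D t‖ ≤ 1 + (‖D.Lp t‖ + ‖D.Sg t‖ + ‖D.Ge t‖ + ‖D.Ga t‖) := by
  refine ContinuousLinearMap.opNorm_le_bound _ (by positivity) ?_
  rintro ⟨a, b⟩
  have ha : ‖a‖ ≤ ‖(a, b)‖ := le_max_left _ _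
  have hb : ‖b‖ ≤ ‖(a, b)‖ := le_max_right _ _
  have hn : 0 ≤ ‖(a, b)‖ := norm_nonneg _
  have h1 : ‖D.Lp t b‖ ≤ ‖D.Lp t‖ * ‖(a, b)‖ :=
    ((D.Lp t).le_opNorm b).trans (mul_le_mul_of_nonneg_left hb (norm_nonneg _))
  have h2 : ‖D.Sg t b‖ ≤ ‖D.Sg t‖ * ‖(a, b)‖ :=
    ((D.Sg t).le_opNorm b).trans (mul_le_mul_of_nonneg_left hb (norm_nonneg _))
  have h3 : ‖D.Ge t a‖ ≤ ‖D.Ge t‖ * ‖(a, b)‖ :=
    ((D.Ge t).le_opNorm a).trans (mul_le_mul_of_nonneg_left ha (norm_nonneg _))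
  have h4 : ‖D.Ga t a‖ ≤ ‖D.Ga t‖ * ‖(a, b)‖ :=
    ((D.Ga t).le_opNorm a).trans (mul_le_mul_of_nonneg_left ha (norm_nonneg _))
  have h5 : ‖-(D.Lp t b) + D.Sg t b + D.Ge t a + D.Ga t a‖ ≤
      ‖D.Lp t b‖ + ‖D.Sg t b‖ + ‖D.Ge t a‖ + ‖D.Ga t a‖ := by
    refine (norm_add_le _ _).trans (add_le_add ((norm_add_le _ _).trans
      (add_le_add ((norm_add_le _ _).trans (add_le_add (norm_neg _).le le_rfl)) le_rfl)) le_rfl)
  have h6 : Gn D t (a, b) = (b, -(D.Lp t b) + D.Sg t b + D.Ge t a + D.Ga t a) := rfl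
  rw [h6, Prod.norm_def]
  refine max_le ?_ ?_
  · calc ‖b‖ ≤ 1 * ‖(a, b)‖ := by rw [one_mul]; exact hb
      _ ≤ _ := mul_le_mul_of_nonneg_right (by
          have := norm_nonneg (D.Lp t); have := norm_nonneg (D.Sg t)
          have := norm_nonneg (D.Ge t); have := norm_nonneg (D.Ga t); linarith) hn
  · calc ‖-(D.Lp t b) + D.Sg t b + D.Ge t a + D.Ga t a‖
        ≤ ‖D.Lp t b‖ + ‖D.Sg t b‖ + ‖D.Ge t a‖ + ‖D.Ga t a‖ := h5
      _ ≤ (‖D.Lp t‖ + ‖D.Sg t‖ + ‖D.Ge t‖ + ‖D.Ga t‖) * ‖(a, b)‖ := by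
          nlinarith [h1, h2, h3, h4]
      _ ≤ _ := mul_le_mul_of_nonneg_right (by linarith) hn

/-- a solution which vanishes at time `T` vanishes at time `0` -/
lemma uniq {D : LinData X VK} {lam eta : ℝ} {q g s : ℝ → ℝ} (h : LinOK D lam eta q g s)
    (x v : ℝ → X) (T : ℝ) (hT : 0 ≤ T)
    (hx : ∀ t, 0 ≤ t → HasDerivWithinAt x (v t) (Ici 0) t)
    (hv : ∀ t, 0 ≤ t → HasDerivWithinAt v (-(D.Lp t (v t)) + D.Sg t (v t) + D.Ge t (x t) +
      D.Ga t (x t)) (Ici 0) t)
    (h0 : x T = 0) (h1 : v T = 0) : x 0 = 0 ∧ v 0 = 0 := by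
  obtain ⟨c1, hc1⟩ := isCompact_Icc.exists_bound_of_continuousOn
    (h.cLp.mono (Icc_subset_Ici_self : Icc 0 T ⊆ Ici 0))
  obtain ⟨c2, hc2⟩ := isCompact_Icc.exists_bound_of_continuousOn
    (h.cSg.mono (Icc_subset_Ici_self : Icc 0 T ⊆ Ici 0))
  obtain ⟨c3, hc3⟩ := isCompact_Icc.exists_bound_of_continuousOn
    (h.cGe.mono (Icc_subset_Ici_self : Icc 0 T ⊆ Ici 0))
  obtain ⟨c4, hc4⟩ := isCompact_Icc.exists_bound_of_continuousOn
    (h.cGa.mono (Icc_subset_Ici_self : Icc 0 T ⊆ Ici 0))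
  set K : ℝ≥0 := Real.toNNReal (1 + (c1 + c2 + c3 + c4)) with hK
  have hlip : ∀ t ∈ Ioc 0 T, LipschitzOnWith K (fun p => Gn D t p) (univ : Set (X × X)) := by
    intro t ht
    have ht' : t ∈ Icc 0 T := ⟨ht.1.le, ht.2⟩
    have hb : ‖Gn D t‖ ≤ 1 + (c1 + c2 + c3 + c4) :=
      (Gn_bound D t).trans (by
        have := hc1 t ht'; have := hc2 t ht'; have := hc3 t ht'; have := hc4 t ht'; linarith)
    have hb2 : ‖Gn D t‖₊ ≤ K := by
      rw [hK, ← NNReal.coe_le_coe,
        Real.coe_toNNReal _ (le_trans (ContinuousLinearMap.opNorm_nonneg _) hb)]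
      exact hb
    exact ((Gn D t).lipschitz.weaken hb2).lipschitzOnWith
  have hd : ∀ t, 0 ≤ t → HasDerivWithinAt (fun r => (x r, v r)) (Gn D t (x t, v t)) (Ici 0) t :=
    fun t ht => (hx t ht).prodMk (hv t ht)
  have key := ODE_solution_unique_of_mem_Icc_left (v := fun t p => Gn D t p)
    (s := fun _ => (univ : Set (X × X))) (f := fun r => (x r, v r)) (g := fun _ => (0, 0))
    (a := 0) (b := T) hlip
    (fun t ht => ((hd t ht.1).continuousWithinAt).mono Icc_subset_Ici_self)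
    (fun t ht => ((hd t ht.1.le).hasDerivAt (Ici_mem_nhds ht.1)).hasDerivWithinAt)
    (fun _ _ => mem_univ _) continuousOn_const
    (fun t ht => by
      have : Gn D t ((0 : X), (0 : X)) = 0 := map_zero (Gn D t)
      rw [this]
      exact hasDerivWithinAt_const _ _ _)
    (fun _ _ => mem_univ _) (by simp only [h0, h1])
  have k0 := key (show (0 : ℝ) ∈ Icc 0 T from ⟨le_rfl, hT⟩)
  simp only [Prod.mk.injEq] at k0
  exact k0

/-- derivative of the inverse along a curve -/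
lemma inv_deriv {R : Type*} [NormedRing R] [HasSummableGeomSeries R] [NormedAlgebra ℝ R]
    (Y : ℝ → R) (Y' : R) (S : Set ℝ) (t : ℝ) (hu : IsUnit (Y t)) (h : HasDerivWithinAt Y Y' S t) :
    HasDerivWithinAt (fun r => Ring.inverse (Y r))
      (-(Ring.inverse (Y t) * Y' * Ring.inverse (Y t))) S t := by
  obtain ⟨u, hu⟩ := hu
  have hf := hasFDerivAt_ringInverse (𝕜 := ℝ) u
  rw [hu] at hf
  have h1 := hf.comp_hasDerivWithinAt t h
  refine h1.congr_deriv ?_
  rw [← hu, Ring.inverse_unit, neg_apply, ContinuousLinearMap.mulLeftRight_apply]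

/-- derivative of the inverse of an operator -/
lemma inv_deriv' {Q : Type} [NormedAddCommGroup Q] [NormedSpace ℝ Q] [CompleteSpace Q]
    (Y : ℝ → Q →L[ℝ] Q) (A : Q →L[ℝ] Q) (S : Set ℝ) (t : ℝ) (hu : IsUnit (Y t))
    (h : HasDerivWithinAt Y (A.comp (Y t)) S t) :
    HasDerivWithinAt (fun r => Ring.inverse (Y r)) (-((Ring.inverse (Y t)).comp A)) S t := by
  have h1 := inv_deriv (R := Q →L[ℝ] Q) Y (A.comp (Y t)) S t hu h
  have h2 : Ring.inverse (Y t) * (A.comp (Y t)) * Ring.inverse (Y t) =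
      (Ring.inverse (Y t)).comp A := by
    have h3 : (Y t) * Ring.inverse (Y t) = 1 := Ring.mul_inverse_cancel _ hu
    have h4 : Ring.inverse (Y t) * (A.comp (Y t)) * Ring.inverse (Y t) =
      Ring.inverse (Y t) * (A * ((Y t) * Ring.inverse (Y t))) := rfl
    rw [h4, h3, mul_one]
    rfl
  rw [h2] at h1
  exact h1

end I_SLPX

open I_SLPX

theorem I_SLP (hC : CONE) (hT : DTD) : SLP := by
  intro X VK _ _ _ _ _ _ D lam eta q g s hlam hlam1 heta hOK xm vm hS
  have : CompleteSpace X := FiniteDimensional.complete ℝ X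
  have : CompleteSpace VK := FiniteDimensional.complete ℝ VK
  have : CompleteSpace (X × VK) := FiniteDimensional.complete ℝ (X × VK)
  have heta0 : 0 ≤ eta := eta_nn hOK
  -- pointwise curves
  have hx : ∀ (y0 : X × VK) t, 0 ≤ t → HasDerivWithinAt (fun r => xm r y0) (vm t y0) (Ici 0) t := by
    intro y0 t ht
    have := (hS.dx t ht).clm_apply (hasDerivWithinAt_const t (Ici 0) y0)
    simpa using this
  have hv : ∀ (y0 : X × VK) t, 0 ≤ t → HasDerivWithinAt (fun r => vm r y0)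
      (-(D.Lp t (vm t y0)) + D.Sg t (vm t y0) + D.Ge t (xm t y0) + D.Ga t (xm t y0)) (Ici 0) t := by
    intro y0 t ht
    have := (hS.dv t ht).clm_apply (hasDerivWithinAt_const t (Ici 0) y0)
    simpa using this
  -- the cone inequality
  have hcone : ∀ (y0 : X × VK) T, 0 ≤ T →
      ‖vm T y0 - D.io (D.mu (vm T y0))‖ ^ 2 ≤
        (lam / 16) ^ 2 * ‖xm T y0‖ ^ 2 + ‖D.io (D.mu (vm T y0))‖ ^ 2 := by
    intro y0 T hT0
    refine hC X VK D.io D.mu hOK.mu_io hOK.orth lam (2 * eta) T hlam hlam1 (by linarith)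
      (by linarith) hT0 D.Lp (fun t ht => ⟨hOK.sym t ht.1, hOK.Lio t ht.1, hOK.gap t ht.1⟩)
      (fun r => xm r y0) (fun r => vm r y0)
      (fun t => D.Sg t (vm t y0) + D.Ge t (xm t y0) + D.Ga t (xm t y0)) ?_ ?_
    · intro t ht
      refine ⟨(hx y0 t ht.1).mono Icc_subset_Ici_self, ?_, ?_⟩
      · have := (hv y0 t ht.1).mono (Icc_subset_Ici_self : Icc 0 T ⊆ Ici 0)
        refine this.congr_deriv ?_
        abel
      · have h1 : ‖D.Sg t (vm t y0)‖ ≤ eta * ‖vm t y0‖ :=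
          ((D.Sg t).le_opNorm _).trans (mul_le_mul_of_nonneg_right
            ((hOK.nSg t ht.1).trans (hOK.q_le t ht.1)) (norm_nonneg _))
        have h2 : ‖D.Ge t (xm t y0)‖ ≤ eta * ‖xm t y0‖ :=
          ((D.Ge t).le_opNorm _).trans (mul_le_mul_of_nonneg_right
            ((hOK.nGe t ht.1).trans (hOK.g_le t ht.1)) (norm_nonneg _))
        have h3 : ‖D.Ga t (xm t y0)‖ ≤ eta * ‖xm t y0‖ :=
          ((D.Ga t).le_opNorm _).trans (mul_le_mul_of_nonneg_right
            ((hOK.nGa t ht.1).trans (hOK.s_le t ht.1)) (norm_nonneg _))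
        have h4 : ‖D.Sg t (vm t y0) + D.Ge t (xm t y0) + D.Ga t (xm t y0)‖ ≤
            ‖D.Sg t (vm t y0)‖ + ‖D.Ge t (xm t y0)‖ + ‖D.Ga t (xm t y0)‖ :=
          (norm_add_le _ _).trans (add_le_add (norm_add_le _ _) le_rfl)
        have h5 : 0 ≤ eta * ‖vm t y0‖ := by positivity
        nlinarith [h1, h2, h3, h4, h5]
    · simp only [hS.v0, ContinuousLinearMap.comp_apply, ContinuousLinearMap.coe_snd', hOK.mu_io]
  -- injectivity
  have hinj : ∀ t, 0 ≤ t → ∀ y0 : X × VK, Ym D xm vm t y0 = 0 → y0 = 0 := by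
    intro t ht y0 h0
    have h1 : xm t y0 = 0 := congrArg Prod.fst h0
    have h2 : D.mu (vm t y0) = 0 := congrArg Prod.snd h0
    have h3 := hcone y0 t ht
    rw [h1, h2, map_zero, sub_zero, norm_zero] at h3
    have h4 : vm t y0 = 0 := by
      have h5 : ‖vm t y0‖ ^ 2 ≤ 0 := by simpa using h3
      have h6 : ‖vm t y0‖ = 0 := by
        have := sq_nonneg ‖vm t y0‖
        exact pow_eq_zero_iff (two_ne_zero) |>.1 (le_antisymm h5 this)
      exact norm_eq_zero.1 h6
    obtain ⟨k1, k2⟩ := uniq hOK (fun r => xm r y0) (fun r => vm r y0) t ht (hx y0) (hv y0) h1 h4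
    simp only [hS.x0, hS.v0, ContinuousLinearMap.comp_apply, ContinuousLinearMap.coe_snd',
      ContinuousLinearMap.coe_fst'] at k1 k2
    have k3 := hOK.mu_io y0.2
    rw [k2, map_zero] at k3
    exact Prod.ext k1 k3.symm
  have hker : ∀ t, 0 ≤ t → LinearMap.ker (Ym D xm vm t : (X × VK) →ₗ[ℝ] (X × VK)) = ⊥ := by
    intro t ht
    rw [LinearMap.ker_eq_bot']
    exact fun y hy => hinj t ht y hy
  have hdet : ∀ t, 0 ≤ t → (Ym D xm vm t).det ≠ 0 := by
    intro t ht h0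
    exact (LinearMap.det_eq_zero_iff_ker_ne_bot.1 h0) (hker t ht)
  have hunit : ∀ t, 0 ≤ t → IsUnit (Ym D xm vm t) := by
    intro t ht
    rw [ContinuousLinearMap.isUnit_iff_bijective]
    have hi : Function.Injective (Ym D xm vm t : (X × VK) →ₗ[ℝ] (X × VK)) :=
      LinearMap.ker_eq_bot.1 (hker t ht)
    exact ⟨hi, LinearMap.surjective_of_injective hi⟩
  -- the slope
  set Yi : ℝ → (X × VK) →L[ℝ] (X × VK) := fun t => Ring.inverse (Ym D xm vm t) with hYi
  have hY1 : ∀ t, 0 ≤ t → (Yi t).comp (Ym D xm vm t) = ContinuousLinearMap.id ℝ (X × VK) :=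
    fun t ht => Ring.inverse_mul_cancel _ (hunit t ht)
  have hY2 : ∀ t, 0 ≤ t → (Ym D xm vm t).comp (Yi t) = ContinuousLinearMap.id ℝ (X × VK) :=
    fun t ht => Ring.mul_inverse_cancel _ (hunit t ht)
  have hY2x : ∀ t, 0 ≤ t → ∀ y, xm t (Yi t y) = y.1 := fun t ht y =>
    congrArg Prod.fst (DFunLike.congr_fun (hY2 t ht) y)
  have hY2v : ∀ t, 0 ≤ t → ∀ y, D.mu (vm t (Yi t y)) = y.2 := fun t ht y =>
    congrArg Prod.snd (DFunLike.congr_fun (hY2 t ht) y)
  set Rm : ℝ → (X × VK) →L[ℝ] X := fun t => (D.om.comp (vm t)).comp (Yi t) with hRm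
  have hom : ∀ x, D.om x = x - D.io (D.mu x) := fun x => rfl
  have hRmY : ∀ t, 0 ≤ t → ∀ y, vm t (Yi t y) = D.io y.2 + Rm t y := by
    intro t ht y
    simp only [hRm, ContinuousLinearMap.comp_apply, hom, hY2v t ht y]
    abel
  have hvY : ∀ t, 0 ≤ t → ∀ y, vm t y = D.io (D.mu (vm t y)) + Rm t (Ym D xm vm t y) := by
    intro t ht y
    have h1 : Yi t (Ym D xm vm t y) = y := DFunLike.congr_fun (hY1 t ht) y
    simp only [hRm, ContinuousLinearMap.comp_apply, hom, h1]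
    abel
  -- derivative of `Ym`
  have hYd : ∀ t, 0 ≤ t → HasDerivWithinAt (Ym D xm vm)
      ((AA D Rm t).comp (Ym D xm vm t)) (Ici 0) t := by
    intro t ht
    have e1 : Ym D xm vm = fun r => (ContinuousLinearMap.inl ℝ X VK).comp (xm r) +
        (ContinuousLinearMap.inr ℝ X VK).comp (D.mu.comp (vm r)) := by
      funext r
      refine ContinuousLinearMap.ext fun y => ?_
      refine Prod.ext ?_ ?_ <;> simp [Ym]
    have d1 := (hasDerivWithinAt_const t (Ici 0) (ContinuousLinearMap.inl ℝ X VK)).clm_comp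
      (hS.dx t ht)
    have d2 := (hasDerivWithinAt_const t (Ici 0) (ContinuousLinearMap.inr ℝ X VK)).clm_comp
      ((hasDerivWithinAt_const t (Ici 0) D.mu).clm_comp (hS.dv t ht))
    have d3 := d1.add d2
    rw [e1]
    refine d3.congr_deriv ?_
    rw [← e1]
    refine ContinuousLinearMap.ext fun y => ?_
    refine Prod.ext ?_ ?_
    · have h1 := hvY t ht y
      simp only [add_apply, ContinuousLinearMap.comp_apply,
        ContinuousLinearMap.zero_comp, zero_add,
        ContinuousLinearMap.inl_apply, ContinuousLinearMap.inr_apply, Prod.fst_add, add_zero]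
      exact h1
    · have h1 := hvY t ht y
      have h2 : D.mu (D.Lp t (vm t y)) = 0 := mu_Lp hOK t ht _
      have h3 : D.mu (D.Ga t (xm t y)) = 0 := hOK.muGa t ht _
      have h4 : (((AA D Rm t).comp (Ym D xm vm t)) y).2 =
          D.mu (D.Sg t (D.io (D.mu (vm t y)) + Rm t (Ym D xm vm t y)) + D.Ge t (xm t y)) := rfl
      rw [h4, ← h1]
      simp only [add_apply, ContinuousLinearMap.comp_apply,
        ContinuousLinearMap.zero_comp, zero_add,
        ContinuousLinearMap.inl_apply, ContinuousLinearMap.inr_apply, Prod.snd_add,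
        neg_apply, map_add, map_neg, h2, h3, neg_zero, add_zero]
  -- derivative of the inverse
  have hYid : ∀ t, 0 ≤ t → HasDerivWithinAt Yi (-((Yi t).comp (AA D Rm t))) (Ici 0) t := by
    intro t ht
    exact inv_deriv' (Ym D xm vm) (AA D Rm t) (Ici 0) t (hunit t ht) (hYd t ht)
  -- derivative of the slope
  have hRd : ∀ t, 0 ≤ t → HasDerivWithinAt Rm (-(D.Lp t).comp (Rm t) +
      D.om.comp ((D.Sg t).comp (D.io.comp (ContinuousLinearMap.snd ℝ X VK) + Rm t)) +
      D.om.comp ((D.Ge t).comp (ContinuousLinearMap.fst ℝ X VK)) +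
      (D.Ga t).comp (ContinuousLinearMap.fst ℝ X VK) - (Rm t).comp (AA D Rm t)) (Ici 0) t := by
    intro t ht
    have d1 := (hasDerivWithinAt_const t (Ici 0) D.om).clm_comp (hS.dv t ht)
    have d2 := d1.clm_comp (hYid t ht)
    refine d2.congr_deriv ?_
    refine ContinuousLinearMap.ext fun y => ?_
    have h1 := hRmY t ht y
    have h2 := hY2x t ht y
    have h3 : D.Lp t (D.io y.2) = 0 := hOK.Lio t ht _
    have h4 : D.mu (D.Lp t (Rm t y)) = 0 := mu_Lp hOK t ht _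
    have h5 : D.mu (D.Ga t y.1) = 0 := hOK.muGa t ht _
    simp only [add_apply, ContinuousLinearMap.comp_apply,
      ContinuousLinearMap.zero_comp, zero_add,
      neg_apply, sub_apply, map_add, map_neg, h1, h2, h3,
      ContinuousLinearMap.coe_fst', ContinuousLinearMap.coe_snd']
    have h6 : D.om (D.Lp t (Rm t y)) = D.Lp t (Rm t y) := by
      rw [hom, h4, map_zero, sub_zero]
    have h7 : D.om (D.Ga t y.1) = D.Ga t y.1 := by
      rw [hom, h5, map_zero, sub_zero]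
    have h8 : Rm t (AA D Rm t y) = D.om (vm t (Yi t (AA D Rm t y))) := rfl
    rw [h6, h7, h8, sub_eq_add_neg]
  have hY0 : Ym D xm vm 0 = ContinuousLinearMap.id ℝ (X × VK) := by
    refine ContinuousLinearMap.ext fun y => ?_
    refine Prod.ext ?_ ?_
    · simp only [Ym, ContinuousLinearMap.prod_apply, hS.x0]
      rfl
    · simp only [Ym, ContinuousLinearMap.prod_apply, hS.v0, ContinuousLinearMap.comp_apply,
        hOK.mu_io]
      rfl
  refine ⟨Rm, ?_, hdet, ?_, ?_, ?_, hRd, ?_, ?_⟩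
  · -- R0
    refine ContinuousLinearMap.ext fun y => ?_
    simp only [hRm, ContinuousLinearMap.comp_apply, hom, hS.v0, hOK.mu_io, sub_self,
      zero_apply]
  · -- muR
    intro t ht y
    simp only [hRm, ContinuousLinearMap.comp_apply, hom, map_sub, hOK.mu_io, sub_self]
  · -- bound
    intro t ht y
    have h1 := hcone (Yi t y) t ht
    rw [hY2x t ht y, hY2v t ht y] at h1
    have h2 : Rm t y = vm t (Yi t y) - D.io y.2 := by
      rw [hRmY t ht y]; abel
    rw [h2]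
    exact h1
  · -- continuity
    intro t ht
    exact HasDerivWithinAt.continuousWithinAt (𝕜 := ℝ) (F := (X × VK) →L[ℝ] X) (hRd t ht)
  · -- Y0
    rw [hY0]
    exact LinearMap.det_id
  · -- dY
    intro t ht
    exact hT (X × VK) (AA D Rm t) (Ym D xm vm) (Ici 0) t (hYd t ht)

end Pool.Agent.Work.MP_c9f990_an.Al

end

section

set_option autoImplicit false

/-!
# MP_c9f990_an, block RG, item TRN: the trace is bounded by dimension times norm
-/

namespace Pool.Agent.Work.MP_c9f990_an.Al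

theorem I_TRN : TRN := by
  intro X _ _ _ f
  have h := LinearMap.trace_eq_sum_inner (f : X →ₗ[ℝ] X) (stdOrthonormalBasis ℝ X)
  rw [h]
  refine (Finset.abs_sum_le_sum_abs _ _).trans ?_
  have h1 : ∀ i ∈ (Finset.univ : Finset (Fin (Module.finrank ℝ X))),
      |inner ℝ (stdOrthonormalBasis ℝ X i) ((f : X →ₗ[ℝ] X) (stdOrthonormalBasis ℝ X i))| ≤ ‖f‖ := by
    intro i _
    have h2 : ‖stdOrthonormalBasis ℝ X i‖ = 1 := (stdOrthonormalBasis ℝ X).norm_eq_one i
    calc |inner ℝ (stdOrthonormalBasis ℝ X i) ((f : X →ₗ[ℝ] X) (stdOrthonormalBasis ℝ X i))|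
        ≤ ‖stdOrthonormalBasis ℝ X i‖ * ‖f (stdOrthonormalBasis ℝ X i)‖ :=
          abs_real_inner_le_norm _ _
      _ ≤ 1 * (‖f‖ * ‖stdOrthonormalBasis ℝ X i‖) := by
          rw [h2]
          gcongr
          have := f.le_opNorm (stdOrthonormalBasis ℝ X i)
          rwa [h2] at this
      _ = ‖f‖ := by rw [h2]; ring
  calc _ ≤ ∑ i : Fin (Module.finrank ℝ X), ‖f‖ := Finset.sum_le_sum h1
    _ = Module.finrank ℝ X * ‖f‖ := by simp

end Pool.Agent.Work.MP_c9f990_an.Al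

end

section

set_option autoImplicit false

/-!
# YDET: the two determinants agree
-/

namespace Pool.Agent.Work.MP_c9f990_an.Al

namespace I_YDETX

/-- the identification of the two products -/
noncomputable def te (N n K : ℕ) :
    (C N n × (Fin K → E n)) ≃ₗ[ℝ] (XX N n × (Fin K → E n)) :=
  (toX N n).toLinearEquiv.prodCongr (LinearEquiv.refl ℝ (Fin K → E n))

theorem conj {n N K : ℕ} (Φ : E n → ℝ) (cl : Fin N → Fin K) (y : ℝ → P N n)
    (M : ℝ → P N n → P N n →L[ℝ] P N n) (z : P N n) (t : ℝ) :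
    ((Ym (dat Φ cl y) (xmF cl M z) (vmF cl M z) t :
      (XX N n × (Fin K → E n)) →L[ℝ] (XX N n × (Fin K → E n))) :
      (XX N n × (Fin K → E n)) →ₗ[ℝ] (XX N n × (Fin K → E n))) =
    (te N n K : (C N n × (Fin K → E n)) →ₗ[ℝ] (XX N n × (Fin K → E n))) ∘ₗ
      ((Yop cl (M t z) : (C N n × (Fin K → E n)) →L[ℝ] (C N n × (Fin K → E n))) :
        (C N n × (Fin K → E n)) →ₗ[ℝ] (C N n × (Fin K → E n))) ∘ₗ
      ((te N n K).symm : (XX N n × (Fin K → E n)) →ₗ[ℝ] (C N n × (Fin K → E n))) := by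
  refine LinearMap.ext fun p => Prod.ext ?_ ?_
  · rfl
  · show muL cl ((toX N n).symm ((toX N n) ((M t z) (emb cl p)).2)) =
      muL cl ((M t z) (emb cl p)).2
    rw [ContinuousLinearEquiv.symm_apply_apply]

end I_YDETX

open I_YDETX in
theorem I_YDET : YDET := by
  intro n N K Φ cl y M z t
  rw [ContinuousLinearMap.det, ContinuousLinearMap.det, conj, LinearMap.det_conj]

end Pool.Agent.Work.MP_c9f990_an.Al

end
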